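import Pool.Agent.Lib.MP_402c18_an.Defs

/-!
# MP_402c18_an (S04445), piece NT

The characteristic polynomial is determined by the traces of the powers; the regular
representation of matrices of power series over a group ring; finiteness of the weighted norm
of an inverse.
-/

set_option autoImplicit false

namespace Pool.Agent.TS

section charpoly
open Polynomial

theorem derivative_det {ι R : Type*} [Fintype ι] [DecidableEq ι] [CommRing R]
    (M : Matrix ι ι R[X]) :
    derivative M.det = (M.adjugate * M.map derivative).trace := by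
  classical
  have h1 : derivative M.det
      = ∑ i, (M.updateCol i (fun k => derivative (M k i))).det := by
    rw [Matrix.det_apply, derivative_sum]
    simp only [Matrix.det_apply]
    rw [Finset.sum_comm]
    refine Finset.sum_congr rfl fun σ _ => ?_
    have h2 : derivative (Equiv.Perm.sign σ • ∏ i, M (σ i) i)
        = Equiv.Perm.sign σ • derivative (∏ i, M (σ i) i) := by
      rcases Int.units_eq_one_or (Equiv.Perm.sign σ) with h | h <;> simp [h]
    rw [h2, derivative_prod_finset, Finset.smul_sum]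
    refine Finset.sum_congr rfl fun i _ => ?_
    congr 1
    rw [← Finset.mul_prod_erase Finset.univ _ (Finset.mem_univ i), mul_comm]
    congr 1
    · simp
    · refine Finset.prod_congr rfl fun j hj => ?_
      rw [Matrix.updateCol_ne (Finset.ne_of_mem_erase hj)]
  rw [h1, Matrix.trace]
  refine Finset.sum_congr rfl fun i _ => ?_
  rw [← Matrix.cramer_apply, Matrix.cramer_eq_adjugate_mulVec]
  simp [Matrix.mulVec, Matrix.mul_apply, dotProduct]

/-- the Newton identities for the reversed characteristic polynomial -/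
theorem charpolyRev_newton {ι R : Type*} [Fintype ι] [DecidableEq ι] [CommRing R]
    (A : Matrix ι ι R) (m : ℕ) :
    A.charpolyRev.coeff (m + 1) * (m + 1)
      = - ∑ i ∈ Finset.range (m + 1), A.charpolyRev.coeff i * (A ^ (m - i + 1)).trace := by
  set M : Matrix ι ι R[X] := 1 - (X : R[X]) • A.map C with hM
  have hD : A.charpolyRev = M.det := rfl
  set D := A.charpolyRev with hD'
  have h1 : M.adjugate = D • (1 : Matrix ι ι R[X]) + (X : R[X]) • (M.adjugate * A.map C) := by
    have := Matrix.adjugate_mul M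
    rw [← hD] at this
    rw [← this, hM]
    simp [mul_sub]
  have h2 : ∀ m, (M.adjugate).map (fun f => f.coeff m)
      = ∑ i ∈ Finset.range (m + 1), D.coeff i • A ^ (m - i) := by
    intro m
    induction m with
    | zero =>
      ext i j
      rw [h1]
      simp [Matrix.one_apply]
      split_ifs <;> simp
    | succ m ih =>
      rw [Finset.sum_range_succ, Nat.sub_self, pow_zero]
      have h3 : ∑ i ∈ Finset.range (m + 1), D.coeff i • A ^ (m + 1 - i)
          = (∑ i ∈ Finset.range (m + 1), D.coeff i • A ^ (m - i)) * A := by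
        rw [Finset.sum_mul]
        refine Finset.sum_congr rfl fun i hi => ?_
        rw [Finset.mem_range] at hi
        rw [show m + 1 - i = (m - i) + 1 by omega, pow_succ, Matrix.smul_mul]
      rw [h3, ← ih]
      ext i j
      rw [Matrix.map_apply]
      conv_lhs => rw [h1]
      simp [Matrix.one_apply, Matrix.mul_apply, coeff_X_mul]
      rw [add_comm]
      congr 1
      split_ifs <;> simp
  have h4 : derivative D = - (M.adjugate * A.map C).trace := by
    rw [hD, derivative_det, ← Matrix.trace_neg, ← mul_neg]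
    congr 2
    ext i j
    simp [hM, Matrix.one_apply]
    split_ifs <;> simp
  have h5 := congrArg (fun f => f.coeff m) h4
  simp only [coeff_derivative] at h5
  rw [h5, coeff_neg]
  congr 1
  have h6 : (M.adjugate * A.map C).trace.coeff m
      = ((M.adjugate).map (fun f => f.coeff m) * A).trace := by
    simp [Matrix.trace, Matrix.mul_apply]
  rw [h6, h2, Finset.sum_mul, Matrix.trace_sum]
  refine Finset.sum_congr rfl fun i hi => ?_
  rw [Matrix.smul_mul, ← pow_succ, Matrix.trace_smul, smul_eq_mul]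

theorem charpolyRev_eq_of_trace_pow {ι : Type*} [Fintype ι] [DecidableEq ι] (A B : Matrix ι ι ℤ)
    (h : ∀ k : ℕ, 0 < k → (A ^ k).trace = (B ^ k).trace) : A.charpolyRev = B.charpolyRev := by
  ext m
  induction m using Nat.strong_induction_on with
  | _ m ih =>
    rcases m with _ | m
    · simp [coeff_zero_eq_eval_zero]
    · have hA := charpolyRev_newton A m
      have hB := charpolyRev_newton B m
      have hAB : A.charpolyRev.coeff (m + 1) * (m + 1) = B.charpolyRev.coeff (m + 1) * (m + 1) := by
        rw [hA, hB]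
        congr 1
        refine Finset.sum_congr rfl fun i hi => ?_
        rw [ih i (Finset.mem_range.1 hi), h _ (Nat.succ_pos _)]
      have h0 : ((m : ℤ) + 1) ≠ 0 := by positivity
      exact mul_right_cancel₀ h0 hAB

theorem charpoly_eq_of_trace_pow {ι : Type*} [Fintype ι] [DecidableEq ι] (A B : Matrix ι ι ℤ)
    (h : ∀ k : ℕ, 0 < k → (A ^ k).trace = (B ^ k).trace) : A.charpoly = B.charpoly := by
  have h1 := charpolyRev_eq_of_trace_pow A B h
  have hA := Matrix.reverse_charpoly A
  have hB := Matrix.reverse_charpoly B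
  have h2 : A.charpoly.reverse = B.charpoly.reverse := by rw [hA, hB, h1]
  rw [Polynomial.reverse, Polynomial.reverse, Matrix.charpoly_natDegree_eq_dim,
    Matrix.charpoly_natDegree_eq_dim] at h2
  have := congrArg (Polynomial.reflect (Fintype.card ι)) h2
  simpa using this

end charpoly

/-! Part 2: left eigenvectors, the regular representation, weighted norms -/

theorem det_iff_left_eigenvector {ι : Type*} [Fintype ι] [DecidableEq ι] (A : Matrix ι ι ℤ)
    (lam : ℝ) : (∃ z : ι → ℝ, z ≠ 0 ∧ ∀ j, ∑ i, z i * (A i j : ℝ) = lam * z j) ↔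
      (A.charpoly.map (Int.castRingHom ℝ)).eval lam = 0 := by
  rw [← Matrix.charpoly_map, Matrix.eval_charpoly, ← Matrix.exists_vecMul_eq_zero_iff]
  refine exists_congr fun z => and_congr_right fun _ => ?_
  rw [funext_iff]
  refine forall_congr' fun j => ?_
  have : Matrix.vecMul z (Matrix.scalar ι lam - A.map (Int.castRingHom ℝ)) j
      = lam * z j - ∑ i, z i * (A i j : ℝ) := by
    rw [Matrix.vecMul_sub, Pi.sub_apply]
    simp [Matrix.vecMul_diagonal, Matrix.scalar_apply, mul_comm]
    simp [Matrix.vecMul, dotProduct]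
  rw [this, Pi.zero_apply, sub_eq_zero, eq_comm]

/-- existence of the other left eigenvector -/
theorem exists_left_eigenvector {ι : Type*} [Fintype ι] [DecidableEq ι] (A B : Matrix ι ι ℤ)
    (h : ∀ k : ℕ, 0 < k → (A ^ k).trace = (B ^ k).trace) (lam : ℝ) (y : ι → ℝ) (hy : y ≠ 0)
    (hA : ∀ j, ∑ i, y i * (A i j : ℝ) = lam * y j) :
    ∃ z : ι → ℝ, z ≠ 0 ∧ ∀ j, ∑ i, z i * (B i j : ℝ) = lam * z j := by
  rw [det_iff_left_eigenvector, ← charpoly_eq_of_trace_pow A B h, ← det_iff_left_eigenvector]
  exact ⟨y, hy, hA⟩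

open PowerSeries

/-- the multiplication in a group algebra -/
theorem coeff_mul_group {k G : Type*} [CommRing k] [Group G] [Fintype G]
    (x y : MonoidAlgebra k G) (m : G) :
    (x * y).coeff m = ∑ g : G, x.coeff g * y.coeff (g⁻¹ * m) := by
  classical
  rw [MonoidAlgebra.coeff_mul_antidiag x y m
    (Finset.univ.image (fun g : G => (g, g⁻¹ * m)))]
  · rw [Finset.sum_image]
    intro a _ b _ hab
    exact (Prod.ext_iff.1 hab).1
  · rintro ⟨a, b⟩
    simp only [Finset.mem_image, Finset.mem_univ, true_and, Prod.mk.injEq]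
    constructor
    · rintro ⟨g, rfl, rfl⟩
      simp
    · rintro h
      exact ⟨a, rfl, by rw [← h]; simp⟩

/-- regular representation -/
noncomputable def reg {k G ι : Type*} [CommRing k] [Group G] [Fintype G] [DecidableEq G]
    [Fintype ι] [DecidableEq ι] (M : Matrix ι ι (PowerSeries (MonoidAlgebra k G))) :
    Matrix (ι × G) (ι × G) (PowerSeries k) :=
  fun p q => PowerSeries.mk fun d => (coeff d (M p.1 q.1)).coeff (p.2⁻¹ * q.2)

theorem coeff_reg {k G ι : Type*} [CommRing k] [Group G] [Fintype G] [DecidableEq G]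
    [Fintype ι] [DecidableEq ι] (M : Matrix ι ι (PowerSeries (MonoidAlgebra k G)))
    (p q : ι × G) (d : ℕ) :
    coeff d (reg M p q) = (coeff d (M p.1 q.1)).coeff (p.2⁻¹ * q.2) := by
  simp [reg]

theorem reg_mul {k G ι : Type*} [CommRing k] [Group G] [Fintype G] [DecidableEq G]
    [Fintype ι] [DecidableEq ι] (M N : Matrix ι ι (PowerSeries (MonoidAlgebra k G))) :
    reg (M * N) = reg M * reg N := by
  ext p q d
  rw [coeff_reg, Matrix.mul_apply, Matrix.mul_apply, map_sum, map_sum,
    MonoidAlgebra.coeff_sum, Finset.sum_apply', Fintype.sum_prod_type]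
  refine Finset.sum_congr rfl fun i _ => ?_
  rw [coeff_mul, MonoidAlgebra.coeff_sum, Finset.sum_apply']
  simp only [coeff_mul, coeff_reg]
  rw [Finset.sum_comm]
  refine Finset.sum_congr rfl fun a _ => ?_
  rw [coeff_mul_group]
  rw [← Equiv.sum_comp (Equiv.mulLeft p.2⁻¹)]
  refine Finset.sum_congr rfl fun g _ => ?_
  simp [mul_assoc]

theorem reg_one {k G ι : Type*} [CommRing k] [Group G] [Fintype G] [DecidableEq G]
    [Fintype ι] [DecidableEq ι] :
    reg (1 : Matrix ι ι (PowerSeries (MonoidAlgebra k G))) = 1 := by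
  ext ⟨i, g⟩ ⟨j, h⟩ d
  rw [coeff_reg]
  by_cases hij : i = j
  · subst hij
    by_cases hgh : g = h
    · subst hgh
      by_cases hd : d = 0
      · subst hd; simp
      · simp [coeff_one, hd]
    · have hne : (g⁻¹ * h) ≠ 1 := by
        intro h1
        exact hgh (inv_mul_eq_one.1 h1)
      have h2 : ((i, g) : ι × G) ≠ (i, h) := by
        intro h1; exact hgh (Prod.ext_iff.1 h1).2
      rw [Matrix.one_apply_ne h2]
      by_cases hd : d = 0
      · subst hd
        simp [MonoidAlgebra.one_def, Ne.symm hne]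
      · simp [coeff_one, hd]
  · have h2 : ((i, g) : ι × G) ≠ (j, h) := by
      intro h1; exact hij (Prod.ext_iff.1 h1).1
    rw [Matrix.one_apply_ne h2]
    simp [Matrix.one_apply_ne hij]

theorem reg_add {k G ι : Type*} [CommRing k] [Group G] [Fintype G] [DecidableEq G]
    [Fintype ι] [DecidableEq ι] (M N : Matrix ι ι (PowerSeries (MonoidAlgebra k G))) :
    reg (M + N) = reg M + reg N := by
  ext p q d
  simp [coeff_reg]

theorem reg_sub {k G ι : Type*} [CommRing k] [Group G] [Fintype G] [DecidableEq G]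
    [Fintype ι] [DecidableEq ι] (M N : Matrix ι ι (PowerSeries (MonoidAlgebra k G))) :
    reg (M - N) = reg M - reg N := by
  rw [eq_sub_iff_add_eq, ← reg_add, sub_add_cancel]

theorem det_reg_el {G ι : Type*} [Group G] [Fintype G] [DecidableEq G]
    [Fintype ι] [DecidableEq ι] (a b : ι) (hab : a ≠ b) (f : PowerSeries (MonoidAlgebra ℤ G)) :
    (reg (el a b f)).det = 1 := by
  rw [el, reg_add, reg_one]
  set U : Matrix (ι × G) G (PowerSeries ℤ) := fun p g =>
    if p.1 = a then PowerSeries.mk (fun d => (coeff d f).coeff (p.2⁻¹ * g)) else 0 with hU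
  set V : Matrix G (ι × G) (PowerSeries ℤ) := fun g q =>
    if q.1 = b ∧ g = q.2 then 1 else 0 with hV
  have h1 : reg (Matrix.single a b f) = U * V := by
    ext ⟨i, g⟩ ⟨j, h⟩ d
    rw [coeff_reg, Matrix.mul_apply]
    by_cases hi : i = a
    · by_cases hj : j = b
      · subst hi; subst hj
        simp [hU, hV]
      · simp [hU, hV, hj, Ne.symm hj]
    · simp [hU, hi, Ne.symm hi]
  have h2 : V * U = 0 := by
    ext g h
    rw [Matrix.mul_apply]
    simp only [Matrix.zero_apply]
    congr 1
    refine Finset.sum_eq_zero fun q _ => ?_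
    by_cases hq : q.1 = b
    · simp [hU, hq, Ne.symm hab]
    · simp [hV, hq]
  rw [h1, Matrix.det_one_add_mul_comm, h2, add_zero, Matrix.det_one]

/-- the regular representation of constant matrices -/
noncomputable def reg0 {k G ι : Type*} [CommRing k] [Group G]
    (M : Matrix ι ι (MonoidAlgebra k G)) : Matrix (ι × G) (ι × G) k :=
  fun p q => (M p.1 q.1).coeff (p.2⁻¹ * q.2)

theorem reg0_mul {k G ι : Type*} [CommRing k] [Group G] [Fintype G]
    [Fintype ι] (M N : Matrix ι ι (MonoidAlgebra k G)) :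
    reg0 (M * N) = reg0 M * reg0 N := by
  ext p q
  rw [reg0, Matrix.mul_apply, Matrix.mul_apply, 
    MonoidAlgebra.coeff_sum, Finset.sum_apply', Fintype.sum_prod_type]
  refine Finset.sum_congr rfl fun i _ => ?_
  rw [coeff_mul_group]
  rw [← Equiv.sum_comp (Equiv.mulLeft p.2⁻¹)]
  refine Finset.sum_congr rfl fun g _ => ?_
  simp [mul_assoc, reg0]

theorem reg0_one {k G ι : Type*} [CommRing k] [Group G] [DecidableEq G] [DecidableEq ι] :
    reg0 (1 : Matrix ι ι (MonoidAlgebra k G)) = 1 := by
  ext ⟨i, g⟩ ⟨j, h⟩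
  rw [reg0]
  by_cases hij : i = j
  · subst hij
    by_cases hgh : g = h
    · subst hgh
      simp
    · have hne : (g⁻¹ * h) ≠ 1 := by
        intro h1
        exact hgh (inv_mul_eq_one.1 h1)
      have h2 : ((i, g) : ι × G) ≠ (i, h) := by
        intro h1; exact hgh (Prod.ext_iff.1 h1).2
      rw [Matrix.one_apply_ne h2]
      simp [MonoidAlgebra.one_def, Ne.symm hne]
  · have h2 : ((i, g) : ι × G) ≠ (j, h) := by
      intro h1; exact hij (Prod.ext_iff.1 h1).1
    rw [Matrix.one_apply_ne h2]
    simp [Matrix.one_apply_ne hij]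

theorem reg0_pow {k G ι : Type*} [CommRing k] [Group G] [Fintype G] [DecidableEq G]
    [Fintype ι] [DecidableEq ι] (M : Matrix ι ι (MonoidAlgebra k G)) (n : ℕ) :
    reg0 (M ^ n) = reg0 M ^ n := by
  induction n with
  | zero => simp [reg0_one]
  | succ n ih => rw [pow_succ, pow_succ, reg0_mul, ih]

theorem trace_reg0 {k G ι : Type*} [CommRing k] [Group G] [Fintype G]
    [Fintype ι] (M : Matrix ι ι (MonoidAlgebra k G)) :
    (reg0 M).trace = Fintype.card G • (M.trace.coeff 1) := by
  rw [Matrix.trace, Matrix.trace, MonoidAlgebra.coeff_sum, Finset.sum_apply',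
    Fintype.sum_prod_type, Finset.smul_sum]
  refine Finset.sum_congr rfl fun i _ => ?_
  simp [reg0]

theorem charpolyRev_coe {ι R : Type*} [Fintype ι] [DecidableEq ι] [CommRing R]
    (M : Matrix ι ι R) :
    (M.charpolyRev : PowerSeries R)
      = (1 - (PowerSeries.X : PowerSeries R) • M.map (PowerSeries.C (R := R))).det := by
  rw [Matrix.charpolyRev, ← Polynomial.coeToPowerSeries.ringHom_apply, RingHom.map_det]
  congr 1
  ext p q d
  simp [Matrix.one_apply]
  split_ifs <;> simp [Polynomial.coeff_one, PowerSeries.coeff_one, mul_comm]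

theorem reg_one_sub_tmul {G ι : Type*} [Group G] [Fintype G] [DecidableEq G]
    [Fintype ι] [DecidableEq ι] (A : Matrix ι ι (MonoidAlgebra ℤ G)) :
    (reg (1 - tmul A)).det = ((reg0 A).charpolyRev : PowerSeries ℤ) := by
  rw [charpolyRev_coe, reg_sub, reg_one]
  congr 2
  ext p q d
  rw [coeff_reg, tmul, Matrix.map_apply, coeff_monomial, Matrix.smul_apply, Matrix.map_apply,
    smul_eq_mul, mul_comm, coeff_C_mul, coeff_X]
  split_ifs <;> simp [reg0]

theorem det_reg_eq {G ι : Type*} [Group G] [Fintype G] [DecidableEq G]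
    [Fintype ι] [DecidableEq ι] (A B : Matrix ι ι (MonoidAlgebra ℤ G))
    (h : ∀ k : ℕ, 0 < k → (A ^ k).trace.coeff 1 = (B ^ k).trace.coeff 1) :
    (reg (1 - tmul A)).det = (reg (1 - tmul B)).det := by
  rw [reg_one_sub_tmul, reg_one_sub_tmul, charpolyRev_eq_of_trace_pow (reg0 A) (reg0 B)]
  intro k hk
  rw [← reg0_pow, ← reg0_pow, trace_reg0, trace_reg0, h k hk]

/-- the weighted norm of an integral power series -/
noncomputable def nw (r : NNReal) (f : PowerSeries ℤ) : ENNReal :=
  ∑' d : ℕ, ‖coeff d f‖ₑ * (r : ENNReal) ^ d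

theorem nw_add_le (r : NNReal) (f g : PowerSeries ℤ) : nw r (f + g) ≤ nw r f + nw r g := by
  rw [nw, nw, nw, ← ENNReal.tsum_add]
  refine ENNReal.tsum_le_tsum fun d => ?_
  rw [map_add, ← add_mul]
  gcongr
  exact enorm_add_le _ _

theorem nw_mul_le (r : NNReal) (f g : PowerSeries ℤ) : nw r (f * g) ≤ nw r f * nw r g := by
  have h1 : nw r f * nw r g = ∑' d : ℕ, ∑ p ∈ Finset.HasAntidiagonal.antidiagonal d,
      (‖coeff p.1 f‖ₑ * (r : ENNReal) ^ p.1) * (‖coeff p.2 g‖ₑ * (r : ENNReal) ^ p.2) := by
    rw [nw, nw, ← ENNReal.tsum_mul_right]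
    simp_rw [← ENNReal.tsum_mul_left]
    rw [← ENNReal.tsum_prod (f := fun a b => (‖coeff a f‖ₑ * (r : ENNReal) ^ a)
      * (‖coeff b g‖ₑ * (r : ENNReal) ^ b))]
    rw [← Finset.HasAntidiagonal.sigmaAntidiagonalEquivProd.tsum_eq, ENNReal.tsum_sigma']
    refine tsum_congr fun d => ?_
    rw [tsum_fintype]
    exact Finset.sum_coe_sort (Finset.HasAntidiagonal.antidiagonal d)
      (fun p : ℕ × ℕ => (‖coeff p.1 f‖ₑ * (r : ENNReal) ^ p.1)
        * (‖coeff p.2 g‖ₑ * (r : ENNReal) ^ p.2))
  rw [h1, nw]
  refine ENNReal.tsum_le_tsum fun d => ?_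
  rw [coeff_mul]
  calc _ ≤ (∑ p ∈ Finset.HasAntidiagonal.antidiagonal d, ‖coeff p.1 f * coeff p.2 g‖ₑ) * (r : ENNReal) ^ d := by
        gcongr
        exact enorm_sum_le _ _
    _ = ∑ p ∈ Finset.HasAntidiagonal.antidiagonal d, ‖coeff p.1 f * coeff p.2 g‖ₑ * (r : ENNReal) ^ d := by
        rw [Finset.sum_mul]
    _ ≤ _ := by
        refine Finset.sum_le_sum fun p hp => ?_
        rw [Finset.HasAntidiagonal.mem_antidiagonal] at hp
        rw [← hp, pow_add, mul_mul_mul_comm]
        gcongr
        rw [enorm_eq_nnnorm, enorm_eq_nnnorm, enorm_eq_nnnorm, ← ENNReal.coe_mul]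
        exact ENNReal.coe_le_coe.2 (nnnorm_mul_le _ _)

/-- the ring of integral power series of finite weighted norm -/
noncomputable def nwRing (r : NNReal) : Subring (PowerSeries ℤ) where
  carrier := {f | nw r f < ⊤}
  mul_mem' := by
    intro f g hf hg
    exact lt_of_le_of_lt (nw_mul_le r f g) (ENNReal.mul_lt_top hf hg)
  one_mem' := by
    have : nw r 1 = 1 := by
      rw [nw, tsum_eq_single 0]
      · simp
      · intro d hd
        simp [coeff_one, hd]
    simp [this]
  add_mem' := by
    intro f g hf hg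
    exact lt_of_le_of_lt (nw_add_le r f g) (ENNReal.add_lt_top.2 ⟨hf, hg⟩)
  zero_mem' := by simp [nw]
  neg_mem' := by
    intro f hf
    simpa [nw] using hf

theorem nw_reg_le {G ι : Type*} [Group G] [Fintype G] [DecidableEq G]
    [Fintype ι] [DecidableEq ι] (r : NNReal)
    (V : Matrix ι ι (PowerSeries (MonoidAlgebra ℤ G))) (p q : ι × G) :
    nw r (reg V p q) ≤ mn r V := by
  calc nw r (reg V p q) ≤ wn r (V p.1 q.1) := by
        rw [nw, wn]
        refine ENNReal.tsum_le_tsum fun d => ?_
        rw [coeff_reg]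
        gcongr
        exact Finset.single_le_sum (f := fun g => ‖(coeff d (V p.1 q.1)).coeff g‖ₑ)
          (fun _ _ => zero_le) (Finset.mem_univ _)
    _ ≤ ∑ j, wn r (V p.1 j) :=
        Finset.single_le_sum (f := fun j => wn r (V p.1 j))
          (fun _ _ => zero_le) (Finset.mem_univ _)
    _ ≤ mn r V :=
        Finset.single_le_sum (f := fun i => ∑ j, wn r (V i j))
          (fun _ _ => zero_le) (Finset.mem_univ _)

theorem wn_eq_sum_nw_reg {G ι : Type*} [Group G] [Fintype G] [DecidableEq G]
    [Fintype ι] [DecidableEq ι] (r : NNReal)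
    (W : Matrix ι ι (PowerSeries (MonoidAlgebra ℤ G))) (i j : ι) :
    wn r (W i j) = ∑ g : G, nw r (reg W (i, 1) (j, g)) := by
  rw [wn]
  simp only [nw, coeff_reg, inv_one, one_mul]
  rw [← Summable.tsum_finsetSum (fun _ _ => ENNReal.summable)]
  simp only [Finset.sum_mul]

theorem mn_inv_lt_top {G ι : Type*} [Group G] [Fintype G] [DecidableEq G]
    [Fintype ι] [DecidableEq ι] (r : NNReal)
    (V W : Matrix ι ι (PowerSeries (MonoidAlgebra ℤ G))) (hVW : V * W = 1)
    (hdet : (reg V).det = 1) (hV : mn r V < ⊤) : mn r W < ⊤ := by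
  have h1 : reg V * reg W = 1 := by rw [← reg_mul, hVW, reg_one]
  have h2 : reg W = (reg V).adjugate := by
    have h3 : (reg V).adjugate * reg V = 1 := by
      rw [Matrix.adjugate_mul, hdet, one_smul]
    calc reg W = (reg V).adjugate * reg V * reg W := by rw [h3, one_mul]
      _ = (reg V).adjugate := by rw [mul_assoc, h1, mul_one]
  have h4 : ∀ p q, nw r (reg W p q) < ⊤ := by
    intro p q
    set V' : Matrix (ι × G) (ι × G) (nwRing r) := fun p q =>
      ⟨reg V p q, lt_of_le_of_lt (nw_reg_le r V p q) hV⟩ with hV'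
    have h5 : (nwRing r).subtype.mapMatrix V' = reg V := by
      ext p q
      rfl
    rw [h2, ← h5, ← RingHom.map_adjugate]
    exact (V'.adjugate p q).2
  rw [mn]
  refine ENNReal.sum_lt_top.2 fun i _ => ENNReal.sum_lt_top.2 fun j _ => ?_
  rw [wn_eq_sum_nw_reg]
  exact ENNReal.sum_lt_top.2 fun g _ => h4 _ _

end Pool.Agent.TS
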