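import Mathlib
import Pool.Agent.Lib.MP_402c18_an.NT

/-!
Integer matrices all of whose powers have trace one.
-/

set_option autoImplicit false

namespace Pool.Agent.TS

open Matrix Polynomial

theorem case_one {m : ℕ} (B : Matrix (Fin m) (Fin m) ℤ) (h : ∀ k : ℕ, 0 < k → (B ^ k).trace = 1) :
    ∃ (l : ℕ) (R : Matrix (Fin m) (Fin 1) ℤ) (S : Matrix (Fin 1) (Fin m) ℤ),
      B * R = R ∧ S * B = S ∧ R * S = B ^ l ∧ S * R = 1 := by
  obtain _ | n := m
  · have := h 1 one_pos
    simp [Matrix.trace] at this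
  set d : Fin (n + 1) → ℤ := Fin.cons 1 (fun _ => 0) with hd
  have hDk : ∀ k : ℕ, 0 < k → (Matrix.diagonal d) ^ k = Matrix.diagonal d := by
    intro k hk
    rw [Matrix.diagonal_pow]
    congr 1
    funext i
    refine Fin.cases ?_ (fun j => ?_) i
    · simp [hd]
    · simp [hd, hk.ne']
  have hDt : (Matrix.diagonal d).trace = 1 := by
    rw [Matrix.trace_diagonal, Fin.sum_univ_succ]
    simp [hd]
  have hcp : B.charpoly = (Matrix.diagonal d).charpoly :=
    charpoly_eq_of_trace_pow B _ fun k hk => by rw [h k hk, hDk k hk, hDt]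
  have hcp2 : (Matrix.diagonal d).charpoly = (X - 1) * X ^ n := by
    rw [Matrix.charpoly_diagonal, Fin.prod_univ_succ]
    simp [hd]
  have hCH : B ^ (n + 1) = B ^ n := by
    have h1 := Matrix.aeval_self_charpoly B
    rw [hcp, hcp2] at h1
    simp only [map_mul, map_sub, map_pow, aeval_X, sub_mul, one_mul] at h1
    rw [pow_succ']
    exact sub_eq_zero.mp h1
  have hst : ∀ j, B ^ (n + j) = B ^ n := by
    intro j
    induction j with
    | zero => rfl
    | succ j ih => rw [← add_assoc, pow_succ, ih, ← pow_succ, hCH]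
  set e := B ^ (n + 1) with he
  have hBe : B * e = e := by
    rw [he, ← pow_succ', hst 1]
    exact hst 2
  have heB : e * B = e := by
    rw [he, ← pow_succ, hst 1]
    exact hst 2
  have hee : e * e = e := by
    rw [he, ← pow_add, hst 1]
    have := hst (1 + (n + 1))
    rw [← add_assoc] at this
    exact this
  have htr : e.trace = 1 := h _ (Nat.succ_pos n)
  -- the range
  set f : (Fin (n + 1) → ℤ) →ₗ[ℤ] (Fin (n + 1) → ℤ) := Matrix.toLin' e with hf
  have hff : f * f = f := by
    rw [hf, Module.End.mul_eq_comp, ← Matrix.toLin'_mul, hee]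
  have hproj : LinearMap.IsProj (LinearMap.range f) f := by
    refine ⟨fun x => LinearMap.mem_range_self f x, ?_⟩
    rintro _ ⟨x, rfl⟩
    have := congrArg (fun g : Module.End ℤ (Fin (n + 1) → ℤ) => g x) hff
    exact this
  have hfr : Module.finrank ℤ (LinearMap.range f) = 1 := by
    have h1 := hproj.trace
    rw [hf, Matrix.trace_toLin'_eq, htr] at h1
    rw [← hf] at h1
    exact_mod_cast h1.symm
  obtain ⟨b⟩ : Nonempty (Module.Basis (Fin 1) ℤ (LinearMap.range f)) :=
    ⟨Module.finBasisOfFinrankEq ℤ _ hfr⟩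
  set v : Fin (n + 1) → ℤ := (b 0 : Fin (n + 1) → ℤ) with hv
  have hfv : f v = v := hproj.map_id _ (b 0).2
  have hrep : ∀ x, f x = (b.repr ⟨f x, LinearMap.mem_range_self f x⟩ 0) • v := by
    intro x
    have h1 := b.sum_repr ⟨f x, LinearMap.mem_range_self f x⟩
    rw [Fin.sum_univ_one] at h1
    have h2 := congrArg (fun z : LinearMap.range f => (z : Fin (n + 1) → ℤ)) h1
    simpa using h2.symm
  set R : Matrix (Fin (n + 1)) (Fin 1) ℤ := Matrix.of fun i _ => v i with hR
  set S : Matrix (Fin 1) (Fin (n + 1)) ℤ :=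
    Matrix.of fun _ j => b.repr ⟨f (Pi.single j 1), LinearMap.mem_range_self f _⟩ 0 with hS
  have hRS : R * S = e := by
    ext i j
    rw [Matrix.mul_apply, Fin.sum_univ_one]
    have h1 := congrFun (hrep (Pi.single j 1)) i
    have h2 : f (Pi.single j 1) i = e i j := by
      rw [hf, Matrix.toLin'_apply, Matrix.mulVec_single_one]
      rfl
    rw [← h2, h1, hR, hS]
    simp only [Matrix.of_apply, Pi.smul_apply, smul_eq_mul]
    ring
  have hv0 : v ≠ 0 := by
    intro h0
    have h1 := b.ne_zero 0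
    exact h1 (Subtype.ext h0)
  have heR : e * R = R := by
    ext i j
    have h1 := congrFun hfv i
    rw [hf, Matrix.toLin'_apply] at h1
    rw [Matrix.mul_apply]
    exact h1
  have hSR : S * R = 1 := by
    have h1 : R * (S * R) = R := by rw [← Matrix.mul_assoc, hRS, heR]
    obtain ⟨i, hi⟩ := Function.ne_iff.mp hv0
    ext a c
    have ha : a = 0 := Subsingleton.elim _ _
    have hc : c = 0 := Subsingleton.elim _ _
    subst ha hc
    have h2 := congrFun (congrFun h1 i) 0
    rw [Matrix.mul_apply, Fin.sum_univ_one] at h2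
    have h3 : R i 0 ≠ 0 := hi
    have h4 : R i 0 * (S * R) 0 0 = R i 0 * 1 := by rw [mul_one]; exact h2
    rw [mul_left_cancel₀ h3 h4]
    simp
  refine ⟨n + 1, R, S, ?_, ?_, hRS, hSR⟩
  · calc B * R = B * (e * R) := by rw [heR]
      _ = (B * e) * R := by rw [Matrix.mul_assoc]
      _ = R := by rw [hBe, heR]
  · calc S * B = (S * R) * S * B := by rw [hSR, Matrix.one_mul]
      _ = S * (R * S * B) := by simp only [Matrix.mul_assoc]
      _ = S * (R * S) := by rw [hRS, heB]
      _ = (S * R) * S := by rw [Matrix.mul_assoc]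
      _ = S := by rw [hSR, Matrix.one_mul]

end Pool.Agent.TS
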