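import Pool.Agent.Lib.MP_402c18_an.SE

/-!
# MP_402c18_an (S04445): the companion matrix

From a polynomial presentation `1 - P` with `P ≥ 0`, `P(0) = 0`, whose Green matrix
`S = (1 - P)⁻¹` is eventually `≫ 0`, to a `G`-primitive matrix.
-/

set_option autoImplicit false

namespace Pool.Agent.TS

open PowerSeries

/-! ## Order on the group ring -/

section order

variable {G : Type*} [Group G]

theorem NN.zero : NN (0 : MonoidAlgebra ℤ G) := fun g => by simp

theorem NN.one : NN (1 : MonoidAlgebra ℤ G) := fun g => by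
  classical
  rw [MonoidAlgebra.one_def, MonoidAlgebra.coeff_single, Finsupp.single_apply]
  split_ifs <;> norm_num

theorem NN.add {x y : MonoidAlgebra ℤ G} (hx : NN x) (hy : NN y) : NN (x + y) := fun g => by
  rw [MonoidAlgebra.coeff_add, Finsupp.add_apply]
  exact add_nonneg (hx g) (hy g)

theorem NN.sum {α : Type*} (s : Finset α) (f : α → MonoidAlgebra ℤ G)
    (h : ∀ a ∈ s, NN (f a)) : NN (∑ a ∈ s, f a) :=
  Finset.sum_induction f NN (fun _ _ => NN.add) NN.zero h

theorem NN.mul {x y : MonoidAlgebra ℤ G} (hx : NN x) (hy : NN y) : NN (x * y) := fun g => by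
  rw [MonoidAlgebra.coeff_mul_apply_left]
  exact Finset.sum_nonneg fun h _ => mul_nonneg (hx h) (hy _)

theorem NN.exists_pos {x : MonoidAlgebra ℤ G} (hx : NN x) (h0 : x ≠ 0) : ∃ g, 0 < x.coeff g := by
  by_contra hc
  push Not at hc
  apply h0
  rw [← MonoidAlgebra.coeff_eq_zero]
  ext g
  exact le_antisymm (hc g) (hx g)

omit [Group G] in
theorem PP.nn {x : MonoidAlgebra ℤ G} (hx : PP x) : NN x := fun g => (hx g).le

theorem PP.mul_left {x y : MonoidAlgebra ℤ G} (hx : PP x) (hy : NN y) (h0 : y ≠ 0) :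
    PP (x * y) := fun g => by
  obtain ⟨h, hh⟩ := hy.exists_pos h0
  rw [MonoidAlgebra.coeff_mul_apply_right]
  exact Finset.sum_pos' (fun h _ => mul_nonneg (hx _).le (hy h))
    ⟨h, Finsupp.mem_support_iff.2 hh.ne', mul_pos (hx _) hh⟩

theorem PP.mul_right {x y : MonoidAlgebra ℤ G} (hx : NN x) (h0 : x ≠ 0) (hy : PP y) :
    PP (x * y) := fun g => by
  obtain ⟨h, hh⟩ := hx.exists_pos h0
  rw [MonoidAlgebra.coeff_mul_apply_left]
  exact Finset.sum_pos' (fun h _ => mul_nonneg (hx _) (hy _).le)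
    ⟨h, Finsupp.mem_support_iff.2 hh.ne', mul_pos hh (hy _)⟩

theorem NN.mul_ne_zero {x y : MonoidAlgebra ℤ G} (hx : NN x) (h0 : x ≠ 0) (hy : NN y)
    (h1 : y ≠ 0) : x * y ≠ 0 := by
  obtain ⟨h, hh⟩ := hx.exists_pos h0
  obtain ⟨k, hk⟩ := hy.exists_pos h1
  intro hc
  have : 0 < (x * y).coeff (h * k) := by
    rw [MonoidAlgebra.coeff_mul_apply_left]
    refine Finset.sum_pos' (fun h _ => mul_nonneg (hx _) (hy _))
      ⟨h, Finsupp.mem_support_iff.2 hh.ne', mul_pos hh ?_⟩
    rwa [inv_mul_cancel_left]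
  rw [hc] at this
  simp at this

omit [Group G] in
theorem coeff_finset_sum {α : Type*} (s : Finset α) (f : α → MonoidAlgebra ℤ G) (g : G) :
    (∑ a ∈ s, f a).coeff g = ∑ a ∈ s, (f a).coeff g := by
  rw [MonoidAlgebra.coeff_sum, Finsupp.finsetSum_apply]

omit [Group G] in
theorem PP.sum {α : Type*} (s : Finset α) (f : α → MonoidAlgebra ℤ G)
    (h : ∀ a ∈ s, NN (f a)) (a : α) (ha : a ∈ s) (hp : PP (f a)) : PP (∑ a ∈ s, f a) := fun g => by
  rw [coeff_finset_sum]
  exact Finset.sum_pos' (fun b hb => h b hb g) ⟨a, ha, hp g⟩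

theorem NN.sum_ne_zero {α : Type*} (s : Finset α) (f : α → MonoidAlgebra ℤ G)
    (h : ∀ a ∈ s, NN (f a)) (a : α) (ha : a ∈ s) (hp : f a ≠ 0) : (∑ a ∈ s, f a) ≠ 0 := by
  obtain ⟨g, hg⟩ := (h a ha).exists_pos hp
  intro hc
  have : 0 < (∑ a ∈ s, f a).coeff g := by
    rw [coeff_finset_sum]
    exact Finset.sum_pos' (fun b hb => h b hb g) ⟨a, ha, hg⟩
  rw [hc] at this
  simp at this

variable {ι : Type*} [Fintype ι] [DecidableEq ι]

theorem NN.pow {C : Matrix ι ι (MonoidAlgebra ℤ G)} (hC : ∀ i j, NN (C i j)) (n : ℕ) :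
    ∀ i j, NN ((C ^ n) i j) := by
  induction n with
  | zero =>
    intro i j
    rw [pow_zero, Matrix.one_apply]
    split_ifs
    · exact NN.one
    · exact NN.zero
  | succ n ih =>
    intro i j
    rw [pow_succ, Matrix.mul_apply]
    exact NN.sum _ _ fun k _ => (ih i k).mul (hC k j)

variable {C : Matrix ι ι (MonoidAlgebra ℤ G)} (hC : ∀ i j, NN (C i j))
include hC

theorem reach_trans {a b : ℕ} {x y z : ι} (h1 : (C ^ a) x y ≠ 0) (h2 : (C ^ b) y z ≠ 0) :
    (C ^ (a + b)) x z ≠ 0 := by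
  rw [pow_add, Matrix.mul_apply]
  exact NN.sum_ne_zero _ _ (fun k _ => (NN.pow hC a x k).mul (NN.pow hC b k z)) y
    (Finset.mem_univ y) (NN.mul_ne_zero (NN.pow hC a x y) h1 (NN.pow hC b y z) h2)

theorem reach_big {a b : ℕ} {x y z : ι} (h1 : (C ^ a) x y ≠ 0) (h2 : PP ((C ^ b) y z)) :
    PP ((C ^ (a + b)) x z) := by
  rw [pow_add, Matrix.mul_apply]
  exact PP.sum _ _ (fun k _ => (NN.pow hC a x k).mul (NN.pow hC b k z)) y
    (Finset.mem_univ y) (PP.mul_right (NN.pow hC a x y) h1 h2)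

theorem big_reach {a b : ℕ} {x y z : ι} (h1 : PP ((C ^ a) x y)) (h2 : (C ^ b) y z ≠ 0) :
    PP ((C ^ (a + b)) x z) := by
  rw [pow_add, Matrix.mul_apply]
  exact PP.sum _ _ (fun k _ => (NN.pow hC a x k).mul (NN.pow hC b k z)) y
    (Finset.mem_univ y) (PP.mul_left h1 (NN.pow hC b y z) h2)

end order

/-! ## Constant matrices -/

section cst

variable {R : Type*} [Ring R] {ι κ ν : Type*}

/-- a matrix over `R` as a constant matrix of power series -/
noncomputable def cst (A : Matrix ι κ R) : Matrix ι κ (PowerSeries R) :=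
  A.map fun x => monomial 0 x

theorem cf_cst (A : Matrix ι κ R) (d : ℕ) : cf d (cst A) = if d = 0 then A else 0 := by
  ext i j
  rw [cf_apply, cst, Matrix.map_apply, coeff_monomial]
  split_ifs <;> rfl

theorem MPoly.cst (A : Matrix ι κ R) : MPoly (cst A) := fun i j => IsPoly.monomial 0 (A i j)

theorem cf_cst_mul [Fintype κ] (d : ℕ) (A : Matrix ι κ R) (M : Matrix κ ν (PowerSeries R)) :
    cf d (cst A * M) = A * cf d M := by
  rw [cf_mul, Finset.sum_eq_single (0, d)]
  · simp [cf_cst]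
  · intro p hp hne
    rw [Finset.HasAntidiagonal.mem_antidiagonal] at hp
    rw [cf_cst, if_neg, Matrix.zero_mul]
    rintro h
    exact hne (Prod.ext h (by simp; omega))
  · intro h
    exact absurd (Finset.HasAntidiagonal.mem_antidiagonal.2 (by simp)) h

theorem cf_mul_cst [Fintype κ] (d : ℕ) (M : Matrix ι κ (PowerSeries R)) (A : Matrix κ ν R) :
    cf d (M * cst A) = cf d M * A := by
  rw [cf_mul, Finset.sum_eq_single (d, 0)]
  · simp [cf_cst]
  · intro p hp hne
    rw [Finset.HasAntidiagonal.mem_antidiagonal] at hp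
    rw [cf_cst, if_neg, Matrix.mul_zero]
    rintro h
    exact hne (Prod.ext (by simp; omega) h)
  · intro h
    exact absurd (Finset.HasAntidiagonal.mem_antidiagonal.2 (by simp)) h

end cst

/-! ## The companion matrix -/

section comp

variable {R : Type*} [Ring R] {ι : Type*} [Fintype ι] [DecidableEq ι]

/-- the states: `⟨l, k⟩` must take `k` more steps down to `⟨l, 0⟩` -/
abbrev St (m : ι → ℕ) : Type _ := Σ l : ι, Fin (m l + 1)

omit [Fintype ι] [DecidableEq ι] in
theorem st_ext {m : ι → ℕ} {x y : St m} (h1 : x.1 = y.1) (h2 : x.2.val = y.2.val) : x = y := by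
  obtain ⟨a, b⟩ := x
  obtain ⟨c, d⟩ := y
  simp only at h1
  subst h1
  simp only at h2
  rw [Fin.ext h2]

/-- the shift -/
def shN (R : Type*) [Ring R] (m : ι → ℕ) : Matrix (St m) (St m) R :=
  Matrix.of fun x y => if x.1 = y.1 ∧ x.2.val = y.2.val + 1 then 1 else 0

/-- the inclusion of `ι` as the states `⟨l, 0⟩`, first form -/
def shJ (R : Type*) [Ring R] (m : ι → ℕ) : Matrix (St m) ι R :=
  Matrix.of fun x l => if x.1 = l ∧ x.2.val = 0 then 1 else 0

/-- the inclusion of `ι` as the states `⟨l, 0⟩`, second form -/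
def shJT (R : Type*) [Ring R] (m : ι → ℕ) : Matrix ι (St m) R :=
  Matrix.of fun l x => if x.1 = l ∧ x.2.val = 0 then 1 else 0

/-- the jumps -/
noncomputable def shK (m : ι → ℕ) (P : Matrix ι ι (PowerSeries R)) : Matrix ι (St m) R :=
  Matrix.of fun i y => coeff (y.2.val + 1) (P i y.1)

/-- the companion matrix -/
noncomputable def comp (m : ι → ℕ) (P : Matrix ι ι (PowerSeries R)) : Matrix (St m) (St m) R :=
  shN R m + shJ R m * shK m P

variable (m : ι → ℕ)

theorem shN_pow (n : ℕ) (x y : St m) :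
    ((shN R m) ^ n) x y = if x.1 = y.1 ∧ x.2.val = y.2.val + n then 1 else 0 := by
  induction n generalizing x y with
  | zero =>
    rw [pow_zero, Matrix.one_apply]
    by_cases h : x = y
    · subst h; simp
    · rw [if_neg h, if_neg]
      rintro ⟨h1, h2⟩
      exact h (st_ext h1 (by simpa using h2))
  | succ n ih =>
    rw [pow_succ, Matrix.mul_apply]
    simp_rw [ih, shN, Matrix.of_apply]
    by_cases h : x.1 = y.1 ∧ x.2.val = y.2.val + (n + 1)
    · rw [if_pos h]
      have hb : y.2.val + 1 < m y.1 + 1 := by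
        have h1 := x.2.isLt
        have h2 : m x.1 = m y.1 := by rw [h.1]
        omega
      rw [Finset.sum_eq_single (⟨y.1, ⟨y.2.val + 1, hb⟩⟩ : St m)]
      · rw [if_pos ⟨h.1, by simp only; omega⟩, if_pos ⟨rfl, rfl⟩, mul_one]
      · intro z _ hz
        rw [if_neg (c := z.1 = y.1 ∧ z.2.val = y.2.val + 1), mul_zero]
        rintro ⟨h1, h2⟩
        exact hz (st_ext h1 h2)
      · intro h; exact absurd (Finset.mem_univ _) h
    · rw [if_neg h]
      refine Finset.sum_eq_zero fun z _ => ?_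
      by_cases h1 : x.1 = z.1 ∧ x.2.val = z.2.val + n
      · rw [if_neg (c := z.1 = y.1 ∧ z.2.val = y.2.val + 1), mul_zero]
        rintro ⟨h2, h3⟩
        exact h ⟨h1.1.trans h2, by omega⟩
      · rw [if_neg h1, zero_mul]

theorem MPoly.res_shN : MPoly (res (shN R m)) := by
  intro x y
  refine ⟨x.2.val + 1, fun d hd => ?_⟩
  rw [res, coeff_mk, shN_pow, if_neg]
  rintro ⟨_, h⟩
  omega

theorem shJT_mul_shJ : shJT R m * shJ R m = 1 := by
  ext l l'
  rw [Matrix.mul_apply, Matrix.one_apply]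
  simp_rw [shJT, shJ, Matrix.of_apply]
  by_cases h : l = l'
  · subst h
    rw [if_pos rfl, Finset.sum_eq_single (⟨l, 0⟩ : St m)]
    · simp
    · intro z _ hz
      rw [if_neg, zero_mul]
      rintro ⟨h1, h2⟩
      exact hz (st_ext h1 (by simpa using h2))
    · intro h; exact absurd (Finset.mem_univ _) h
  · rw [if_neg h]
    refine Finset.sum_eq_zero fun z _ => ?_
    by_cases h1 : z.1 = l ∧ z.2.val = 0
    · rw [if_neg (c := z.1 = l' ∧ z.2.val = 0), mul_zero]
      rintro ⟨h2, _⟩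
      exact h (h1.1.symm.trans h2)
    · rw [if_neg h1, zero_mul]

theorem shJT_mul_shN : shJT R m * shN R m = 0 := by
  ext l y
  rw [Matrix.mul_apply, Matrix.zero_apply]
  simp_rw [shJT, shN, Matrix.of_apply]
  refine Finset.sum_eq_zero fun z _ => ?_
  by_cases h1 : z.1 = l ∧ z.2.val = 0
  · rw [if_neg (c := z.1 = y.1 ∧ z.2.val = y.2.val + 1), mul_zero]
    rintro ⟨_, h2⟩
    omega
  · rw [if_neg h1, zero_mul]

theorem shN_pow_mul_shJ (n : ℕ) (x : St m) (l : ι) :
    ((shN R m) ^ n * shJ R m) x l = if x.1 = l ∧ x.2.val = n then 1 else 0 := by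
  rw [Matrix.mul_apply, Finset.sum_eq_single (⟨l, 0⟩ : St m)]
  · rw [shN_pow, shJ, Matrix.of_apply]
    simp
  · intro z _ hz
    rw [shJ, Matrix.of_apply, if_neg, mul_zero]
    rintro ⟨h1, h2⟩
    exact hz (st_ext h1 (by simpa using h2))
  · intro h; exact absurd (Finset.mem_univ _) h

theorem shK_mul (P : Matrix ι ι (PowerSeries R))
    (hm : ∀ l k, m l < k → ∀ i, coeff (k + 1) (P i l) = 0) (n : ℕ) :
    shK m P * ((shN R m) ^ n * shJ R m) = cf (n + 1) P := by
  ext i l
  rw [Matrix.mul_apply, cf_apply]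
  simp_rw [shN_pow_mul_shJ, shK, Matrix.of_apply]
  by_cases hn : n < m l + 1
  · rw [Finset.sum_eq_single (⟨l, ⟨n, hn⟩⟩ : St m)]
    · simp
    · intro z _ hz
      rw [if_neg, mul_zero]
      rintro ⟨h1, h2⟩
      exact hz (st_ext h1 (by simpa using h2))
    · intro h; exact absurd (Finset.mem_univ _) h
  · rw [hm l n (by omega) i]
    refine Finset.sum_eq_zero fun z _ => ?_
    rw [if_neg, mul_zero]
    rintro ⟨h1, h2⟩
    subst h1
    have := z.2.isLt
    omega

end comp

/-! ## Algebra of the companion matrix -/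

section alg

variable {R : Type*} [Ring R] {ι : Type*} [Fintype ι] [DecidableEq ι] (m : ι → ℕ)
  (P : Matrix ι ι (PowerSeries R)) (hP0 : ∀ i j, coeff 0 (P i j) = 0)
  (hm : ∀ l k, m l < k → ∀ i, coeff (k + 1) (P i l) = 0)

theorem tmul_add {ι κ : Type*} (A B : Matrix ι κ R) : tmul (A + B) = tmul A + tmul B := by
  ext i j : 2
  simp [tmul]

theorem tmul_mul {ι κ ν : Type*} [Fintype κ] (A : Matrix ι κ R) (B : Matrix κ ν R) :
    tmul (A * B) = cst A * tmul B := by
  refine cf_ext fun d => ?_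
  rw [cf_cst_mul, cf_tmul, cf_tmul]
  split_ifs <;> simp

theorem one_sub_comp : 1 - tmul (comp m P) =
    1 - tmul (shN R m) - cst (shJ R m) * tmul (shK m P) := by
  rw [comp, tmul_add, tmul_mul]; abel

theorem cst_jt_mul_j : cst (shJT R m) * cst (shJ R m) = 1 := by
  refine cf_ext fun d => ?_
  rw [cf_cst_mul, cf_cst, cf_one]
  split_ifs
  · exact shJT_mul_shJ m
  · simp

theorem cst_jt_mul_T : cst (shJT R m) * tmul (shN R m) = 0 := by
  rw [← tmul_mul, shJT_mul_shN]
  ext i j : 2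
  simp [tmul]

theorem cst_jt_mul_res : cst (shJT R m) * res (shN R m) = cst (shJT R m) := by
  have h := congrArg (fun M => cst (shJT R m) * M) (mul_res (shN R m))
  simp only [Matrix.sub_mul, Matrix.mul_sub, Matrix.one_mul, Matrix.mul_one,
    ← Matrix.mul_assoc, cst_jt_mul_T, Matrix.zero_mul, sub_zero] at h
  exact h

include hP0 hm in
theorem k_mul_res_mul_j :
    tmul (shK m P) * (res (shN R m) * cst (shJ R m)) = P := by
  refine cf_ext fun d => ?_
  cases d with
  | zero =>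
    rw [cf_tmul_mul_zero]
    ext i j; exact (hP0 i j).symm
  | succ n =>
    rw [cf_tmul_mul_succ, cf_mul_cst, cf_res, shK_mul m P hm]

theorem res_mul_comp : res (shN R m) * (1 - tmul (comp m P)) =
    1 - res (shN R m) * (cst (shJ R m) * tmul (shK m P)) := by
  rw [one_sub_comp, Matrix.mul_sub, res_mul]

theorem jt_mul_comp : cst (shJT R m) * (1 - tmul (comp m P)) =
    cst (shJT R m) - tmul (shK m P) := by
  rw [one_sub_comp, Matrix.mul_sub, Matrix.mul_sub, Matrix.mul_one, cst_jt_mul_T, sub_zero,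
    ← Matrix.mul_assoc, cst_jt_mul_j, Matrix.one_mul]

include hP0 hm in
theorem alg1 : (1 - tmul (comp m P)) * (res (shN R m) * cst (shJ R m)) =
    cst (shJ R m) * (1 - P) := by
  rw [one_sub_comp, Matrix.sub_mul, ← Matrix.mul_assoc (1 - tmul (shN R m)), mul_res,
    Matrix.one_mul, Matrix.mul_assoc, k_mul_res_mul_j m P hP0 hm, Matrix.mul_sub, Matrix.mul_one]

include hP0 hm in
theorem alg2 : ((1 - P) * cst (shJT R m) + tmul (shK m P) * res (shN R m)) *
    (1 - tmul (comp m P)) = (1 - P) * cst (shJT R m) := by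
  rw [Matrix.add_mul, Matrix.mul_assoc, jt_mul_comp, Matrix.mul_assoc, res_mul_comp,
    Matrix.mul_sub, Matrix.mul_sub, Matrix.mul_one, ← Matrix.mul_assoc (res (shN R m)),
    ← Matrix.mul_assoc (tmul (shK m P)), k_mul_res_mul_j m P hP0 hm, Matrix.sub_mul,
    Matrix.sub_mul, Matrix.one_mul, Matrix.one_mul]
  abel

theorem alg3 : (res (shN R m) - res (shN R m) * cst (shJ R m) * cst (shJT R m)) *
    (1 - tmul (comp m P)) = 1 - res (shN R m) * cst (shJ R m) * cst (shJT R m) := by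
  rw [Matrix.sub_mul, res_mul_comp, Matrix.mul_assoc _ (cst (shJT R m)), jt_mul_comp,
    Matrix.mul_sub, Matrix.mul_assoc _ _ (tmul (shK m P))]
  abel

include hP0 hm in
theorem alg4 (S : Matrix ι ι (PowerSeries R)) (hS : S * (1 - P) = 1) :
    res (comp m P) = res (shN R m) +
      res (shN R m) * cst (shJ R m) * S * tmul (shK m P) * res (shN R m) := by
  have h : (res (shN R m) +
      res (shN R m) * cst (shJ R m) * S * tmul (shK m P) * res (shN R m)) *
      (1 - tmul (comp m P)) = 1 := by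
    rw [Matrix.add_mul, Matrix.mul_assoc _ (res (shN R m)) (1 - tmul (comp m P)), res_mul_comp,
      Matrix.mul_sub, Matrix.mul_one, Matrix.mul_assoc _ (tmul (shK m P)),
      ← Matrix.mul_assoc (res (shN R m)) (cst (shJ R m)) (tmul (shK m P)),
      ← Matrix.mul_assoc (tmul (shK m P)) _ (tmul (shK m P)), k_mul_res_mul_j m P hP0 hm]
    have hS' : S = 1 + S * P := by
      have : S - S * P = 1 := by rw [← hS, Matrix.mul_sub, Matrix.mul_one]
      rw [← this]; abel
    rw [← Matrix.mul_assoc _ P (tmul (shK m P)), Matrix.mul_assoc _ S P]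
    nth_rewrite 1 [hS']
    rw [Matrix.mul_add, Matrix.mul_one, Matrix.add_mul]
    abel
  calc res (comp m P) = 1 * res (comp m P) := by rw [Matrix.one_mul]
    _ = _ := by rw [← h, Matrix.mul_assoc, mul_res, Matrix.mul_one]

include hP0 hm in
theorem alg5 (S : Matrix ι ι (PowerSeries R)) (hS : S * (1 - P) = 1) :
    cst (shJT R m) * res (comp m P) * cst (shJ R m) = S := by
  have hS' : S = 1 + S * P := by
    have : S - S * P = 1 := by rw [← hS, Matrix.mul_sub, Matrix.mul_one]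
    rw [← this]; abel
  rw [alg4 m P hP0 hm S hS, Matrix.mul_add, Matrix.add_mul, cst_jt_mul_res, cst_jt_mul_j]
  have : cst (shJT R m) * (res (shN R m) * cst (shJ R m) * S * tmul (shK m P) *
      res (shN R m)) * cst (shJ R m) = (cst (shJT R m) * res (shN R m) * cst (shJ R m)) *
      S * (tmul (shK m P) * (res (shN R m) * cst (shJ R m))) := by
    simp only [Matrix.mul_assoc]
  rw [this, cst_jt_mul_res, cst_jt_mul_j, Matrix.one_mul, k_mul_res_mul_j m P hP0 hm]
  exact hS'.symm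

include hP0 hm in
theorem comp_pow_zero (S : Matrix ι ι (PowerSeries R)) (hS : S * (1 - P) = 1) (n : ℕ)
    (l i : ι) : ((comp m P) ^ n) ⟨l, 0⟩ ⟨i, 0⟩ = coeff n (S l i) := by
  have h := congrArg (cf n) (alg5 m P hP0 hm S hS)
  rw [cf_mul_cst, cf_cst_mul, cf_res] at h
  have h2 := congrFun (congrFun h l) i
  rw [cf_apply] at h2
  rw [← h2, Matrix.mul_apply, Finset.sum_eq_single (⟨i, 0⟩ : St m)]
  · rw [Matrix.mul_apply, Finset.sum_eq_single (⟨l, 0⟩ : St m)]
    · simp [shJ, shJT]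
    · intro z _ hz
      rw [shJT, Matrix.of_apply, if_neg, zero_mul]
      rintro ⟨h1, h2⟩
      exact hz (st_ext h1 (by simpa using h2))
    · intro h; exact absurd (Finset.mem_univ _) h
  · intro z _ hz
    rw [shJ, Matrix.of_apply, if_neg, mul_zero]
    rintro ⟨h1, h2⟩
    exact hz (st_ext h1 (by simpa using h2))
  · intro h; exact absurd (Finset.mem_univ _) h

end alg

/-! ## Primitivity -/

section prim

variable {G : Type*} [Group G] {ι : Type*} [Fintype ι] [DecidableEq ι] (m : ι → ℕ)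
  (P : Matrix ι ι (PowerSeries (MonoidAlgebra ℤ G)))
  (hPn : ∀ i j d, NN (coeff d (P i j)))
  (hP0 : ∀ i j, coeff 0 (P i j) = 0)
  (hm : ∀ l k, m l < k → ∀ i, coeff (k + 1) (P i l) = 0)
  (hm' : ∀ l, m l = 0 ∨ ∃ i, coeff (m l + 1) (P i l) ≠ 0)

theorem shJ_mul_shK_apply (x y : St m) : (shJ (MonoidAlgebra ℤ G) m * shK m P) x y =
    if x.2.val = 0 then coeff (y.2.val + 1) (P x.1 y.1) else 0 := by
  rw [Matrix.mul_apply]
  simp_rw [shJ, shK, Matrix.of_apply]
  by_cases h : x.2.val = 0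
  · rw [if_pos h, Finset.sum_eq_single x.1]
    · rw [if_pos ⟨rfl, h⟩, one_mul]
    · intro b _ hb
      rw [if_neg, zero_mul]
      rintro ⟨h1, _⟩
      exact hb h1.symm
    · intro h; exact absurd (Finset.mem_univ _) h
  · rw [if_neg h]
    refine Finset.sum_eq_zero fun z _ => ?_
    rw [if_neg, zero_mul]
    rintro ⟨_, h2⟩
    exact h h2

theorem comp_apply (x y : St m) : comp m P x y =
    (if x.1 = y.1 ∧ x.2.val = y.2.val + 1 then 1 else 0) +
    (if x.2.val = 0 then coeff (y.2.val + 1) (P x.1 y.1) else 0) := by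
  rw [comp, Matrix.add_apply, shJ_mul_shK_apply, shN, Matrix.of_apply]

include hPn in
theorem comp_nn (x y : St m) : NN (comp m P x y) := by
  rw [comp_apply]
  refine NN.add ?_ ?_
  · split_ifs
    · exact NN.one
    · exact NN.zero
  · split_ifs
    · exact hPn _ _ _
    · exact NN.zero

include hPn in
theorem reach_down (j : ℕ) (l : ι) (k : ℕ) (h : k + j < m l + 1) :
    ((comp m P) ^ j) ⟨l, ⟨k + j, h⟩⟩ ⟨l, ⟨k, by omega⟩⟩ ≠ 0 := by
  induction j with
  | zero => simp
  | succ j ih =>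
    have e1 : (comp m P) ^ (j + 1) = (comp m P) ^ (1 + j) := by rw [add_comm]
    rw [e1]
    refine reach_trans (comp_nn m P hPn) (y := ⟨l, ⟨k + j, by omega⟩⟩) ?_ (ih (by omega))
    rw [pow_one, comp_apply, if_pos ⟨rfl, by simp only; omega⟩, if_neg (by simp only; omega),
      add_zero]
    exact one_ne_zero

include hPn in
theorem reach_zero (x : St m) : ((comp m P) ^ x.2.val) x ⟨x.1, 0⟩ ≠ 0 := by
  obtain ⟨l, ⟨k, hk⟩⟩ := x
  have := reach_down m P hPn k l 0 (by omega)
  simpa using this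

include hPn hm' in
theorem reach_from (y : St m) : ∃ (i : ι) (c : ℕ), ((comp m P) ^ c) ⟨i, 0⟩ y ≠ 0 := by
  obtain ⟨l, ⟨k, hk⟩⟩ := y
  rcases hm' l with h | ⟨i, hi⟩
  · have hk0 : k = 0 := by omega
    subst hk0
    exact ⟨l, 0, by simp⟩
  · refine ⟨i, 1 + (m l - k), ?_⟩
    refine reach_trans (comp_nn m P hPn) (y := ⟨l, ⟨m l, by omega⟩⟩) ?_ ?_
    · rw [pow_one, comp_apply, if_neg (by simp), if_pos (by simp), zero_add]
      exact hi
    · have := reach_down m P hPn (m l - k) l k (by omega)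
      convert this using 3
      simp only [Fin.mk.injEq]
      omega

include hPn hP0 hm hm' in
theorem comp_primitive [Nonempty ι] (S : Matrix ι ι (PowerSeries (MonoidAlgebra ℤ G)))
    (hS : S * (1 - P) = 1)
    (hgreen : ∀ i j, ∃ D : ℕ, ∀ d, D ≤ d → PP (coeff d (S i j))) :
    ∃ p : ℕ, 0 < p ∧ ∀ x y, PP (((comp m P) ^ p) x y) := by
  have key : ∀ x y : St m, ∃ N : ℕ, ∀ n, N ≤ n → PP (((comp m P) ^ n) x y) := by
    intro x y
    obtain ⟨i, c, hc⟩ := reach_from m P hPn hm' y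
    obtain ⟨D, hD⟩ := hgreen x.1 i
    refine ⟨x.2.val + D + c, fun n hn => ?_⟩
    obtain ⟨e, rfl⟩ := Nat.exists_eq_add_of_le hn
    have h1 : PP (((comp m P) ^ (D + e)) ⟨x.1, 0⟩ ⟨i, 0⟩) := by
      rw [comp_pow_zero m P hP0 hm S hS]
      exact hD _ (by omega)
    have h2 := reach_big (comp_nn m P hPn) (reach_zero m P hPn x) h1
    have h3 := big_reach (comp_nn m P hPn) h2 hc
    have e1 : x.2.val + D + c + e = x.2.val + (D + e) + c := by omega
    rw [e1]
    exact h3
  choose N hN using key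
  refine ⟨(∑ x, ∑ y, N x y) + 1, by omega, fun x y => hN x y _ ?_⟩
  refine le_trans ?_ (Nat.le_succ _)
  calc N x y ≤ ∑ y, N x y :=
        Finset.single_le_sum (f := fun y => N x y) (by simp) (Finset.mem_univ y)
    _ ≤ ∑ x, ∑ y, N x y :=
        Finset.single_le_sum (f := fun x => ∑ y, N x y) (by simp) (Finset.mem_univ x)

end prim

/-- existence of the degree function of the columns of a polynomial matrix -/
theorem exists_deg {R : Type*} [Ring R] {ι : Type*} [Fintype ι]
    (P : Matrix ι ι (PowerSeries R)) (hP : MPoly P) :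
    ∃ m : ι → ℕ, (∀ l k, m l < k → ∀ i, coeff (k + 1) (P i l) = 0) ∧
      (∀ l, m l = 0 ∨ ∃ i, coeff (m l + 1) (P i l) ≠ 0) := by
  classical
  obtain ⟨K, hK⟩ := hP.bound
  have hex : ∀ l : ι, ∃ a : ℕ, ∀ k, a < k → ∀ i, coeff (k + 1) (P i l) = 0 :=
    fun l => ⟨K, fun k hk i => hK _ (by omega) i l⟩
  refine ⟨fun l => Nat.find (hex l), fun l k hk i => Nat.find_spec (hex l) k hk i, fun l => ?_⟩
  by_contra hc
  push Not at hc
  obtain ⟨h0, h1⟩ := hc
  have hlt : Nat.find (hex l) - 1 < Nat.find (hex l) := by omega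
  refine Nat.find_min (hex l) hlt fun k hk i => ?_
  by_cases h : k = Nat.find (hex l)
  · rw [h]; exact h1 i
  · exact Nat.find_spec (hex l) k (by omega) i

/-- the final piece: from a polynomial presentation to a `G`-primitive matrix -/
theorem exists_primitive_of_presentation {G : Type*} [Group G] [Fintype G]
    {ι : Type*} [Fintype ι] [DecidableEq ι] [Nonempty ι]
    (B : Matrix ι ι (MonoidAlgebra ℤ G)) (P : Matrix ι ι (PowerSeries (MonoidAlgebra ℤ G)))
    (hP : MPoly P) (hP0 : ∀ i j, coeff 0 (P i j) = 0) (hPn : ∀ i j d, NN (coeff d (P i j)))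
    (E F : (Matrix ι ι (PowerSeries (MonoidAlgebra ℤ G)))ˣ)
    (hE : MPoly E.val) (hE' : MPoly (E⁻¹).val) (hF : MPoly F.val) (hF' : MPoly (F⁻¹).val)
    (h : E.val * (1 - tmul B) * F.val = 1 - P)
    (S : Matrix ι ι (PowerSeries (MonoidAlgebra ℤ G))) (hS : S * (1 - P) = 1)
    (hgreen : ∀ i j, ∃ D : ℕ, ∀ d, D ≤ d → PP (coeff d (S i j))) :
    ∃ (k : ℕ) (C : Matrix (Fin k) (Fin k) (MonoidAlgebra ℤ G)),
      0 < k ∧ (∀ i j, NN (C i j)) ∧ (∃ p : ℕ, 0 < p ∧ ∀ i j, PP ((C ^ p) i j)) ∧ SE B C := by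
  obtain ⟨m, hm, hm'⟩ := exists_deg P hP
  obtain ⟨p, hp, hpp⟩ := comp_primitive m P hPn hP0 hm hm' S hS hgreen
  -- the shift equivalence with the companion matrix
  have key : SE (comp m P) B := by
    have a1 := alg1 m P hP0 hm
    have a2 := alg2 m P hP0 hm
    have a3 := alg3 m P
    have hFF : F.val * (F⁻¹).val = 1 := Units.mul_inv F
    have hFF' : (F⁻¹).val * F.val = 1 := Units.inv_mul F
    have hEE' : (E⁻¹).val * E.val = 1 := Units.inv_mul E
    have hJ : MPoly (cst (shJ (MonoidAlgebra ℤ G) m)) := MPoly.cst _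
    have hJT : MPoly (cst (shJT (MonoidAlgebra ℤ G) m)) := MPoly.cst _
    have hQ : MPoly (res (shN (MonoidAlgebra ℤ G) m)) := MPoly.res_shN m
    have hK : MPoly (tmul (shK m P)) := MPoly.tmul _
    have hPF : (1 - P) * (F⁻¹).val = E.val * (1 - tmul B) := by
      rw [← h, Matrix.mul_assoc, hFF, Matrix.mul_one]
    have hBF : (1 - tmul B) * F.val = (E⁻¹).val * (1 - P) := by
      rw [← h, Matrix.mul_assoc, ← Matrix.mul_assoc (E⁻¹).val, hEE', Matrix.one_mul]
    refine SE.of_poly (comp m P) B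
      (res (shN _ m) * cst (shJ _ m) * (F⁻¹).val)
      (cst (shJ _ m) * E.val)
      (F.val * cst (shJT _ m))
      ((E⁻¹).val * ((1 - P) * cst (shJT _ m) + tmul (shK m P) * res (shN _ m)))
      (res (shN _ m) - res (shN _ m) * cst (shJ _ m) * cst (shJT _ m)) 0
      ((hQ.mul hJ).mul hF') (hJ.mul hE) (hF.mul hJT)
      (hE'.mul (((MPoly.one.sub hP).mul hJT).add (hK.mul hQ)))
      (hQ.sub ((hQ.mul hJ).mul hJT)) MPoly.zero ?_ ?_ ?_ ?_
    · rw [← Matrix.mul_assoc, a1, Matrix.mul_assoc, hPF, Matrix.mul_assoc]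
    · rw [← Matrix.mul_assoc, hBF, Matrix.mul_assoc (E⁻¹).val _ (1 - tmul (comp m P)), a2,
        Matrix.mul_assoc]
    · rw [a3, Matrix.mul_assoc _ (F⁻¹).val, ← Matrix.mul_assoc (F⁻¹).val, hFF', Matrix.one_mul]
    · rw [Matrix.zero_mul, Matrix.mul_assoc F.val, ← Matrix.mul_assoc (cst (shJT _ m)),
        ← Matrix.mul_assoc (cst (shJT _ m)), cst_jt_mul_res, cst_jt_mul_j, Matrix.one_mul, hFF,
        sub_self]
  -- transport to `Fin k`
  have hpow : ∀ n : ℕ, (Matrix.reindex (Fintype.equivFin (St m)) (Fintype.equivFin (St m))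
      (comp m P)) ^ n = Matrix.reindex (Fintype.equivFin (St m)) (Fintype.equivFin (St m))
      ((comp m P) ^ n) := by
    intro n
    induction n with
    | zero => simp
    | succ n ih =>
      rw [pow_succ, ih, pow_succ, Matrix.reindex_apply, Matrix.reindex_apply,
        Matrix.submatrix_mul_equiv, Matrix.reindex_apply]
  have : Nonempty (St m) := ⟨⟨Classical.arbitrary ι, 0⟩⟩
  refine ⟨Fintype.card (St m), Matrix.reindex (Fintype.equivFin (St m)) (Fintype.equivFin (St m))
    (comp m P), Fintype.card_pos, fun i j => ?_, ⟨p, hp, fun i j => ?_⟩, ?_⟩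
  · exact comp_nn m P hPn _ _
  · rw [hpow]; exact hpp _ _
  · exact key.symm.trans (SE.reindex _ _)

end Pool.Agent.TS
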