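import Mathlib

/-!
# Weighted norms of power series over a normed ring, and the logarithmic trace
-/

set_option autoImplicit false

namespace Pool.Agent.TS

open PowerSeries

section norm

variable {M : Type*} [NormedRing M]

/-- weighted norm -/
noncomputable def N (r : NNReal) (f : PowerSeries M) : ENNReal :=
  ∑' d : ℕ, ‖coeff d f‖ₑ * (r : ENNReal) ^ d

/-- tail of the weighted norm -/
noncomputable def tl (r : NNReal) (j : ℕ) (f : PowerSeries M) : ENNReal :=
  ∑' d : ℕ, ‖coeff (d + j) f‖ₑ * (r : ENNReal) ^ (d + j)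

/-- head of the weighted norm -/
noncomputable def hd (r : NNReal) (j : ℕ) (f : PowerSeries M) : ENNReal :=
  ∑ d ∈ Finset.range j, ‖coeff d f‖ₑ * (r : ENNReal) ^ d

theorem hd_add_tl (r : NNReal) (j : ℕ) (f : PowerSeries M) : hd r j f + tl r j f = N r f := by
  unfold hd tl N
  exact ENNReal.summable.sum_add_tsum_nat_add' 

theorem N_zero (r : NNReal) : N r (0 : PowerSeries M) = 0 := by
  simp [N]

theorem N_add_le (r : NNReal) (f g : PowerSeries M) : N r (f + g) ≤ N r f + N r g := by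
  unfold N
  rw [← ENNReal.tsum_add]
  refine ENNReal.tsum_le_tsum fun d => ?_
  rw [map_add, ← add_mul]
  gcongr
  exact enorm_add_le _ _

theorem N_neg (r : NNReal) (f : PowerSeries M) : N r (-f) = N r f := by
  unfold N
  simp [enorm_neg]

theorem N_sub_le (r : NNReal) (f g : PowerSeries M) : N r (f - g) ≤ N r f + N r g := by
  rw [sub_eq_add_neg, ← N_neg r g]
  exact N_add_le r f (-g)

theorem N_sub_comm (r : NNReal) (f g : PowerSeries M) : N r (f - g) = N r (g - f) := by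
  rw [← N_neg r (f - g), neg_sub]

theorem tl_add_le (r : NNReal) (j : ℕ) (f g : PowerSeries M) :
    tl r j (f + g) ≤ tl r j f + tl r j g := by
  unfold tl
  rw [← ENNReal.tsum_add]
  refine ENNReal.tsum_le_tsum fun d => ?_
  rw [map_add, ← add_mul]
  gcongr
  exact enorm_add_le _ _

theorem tl_le_N (r : NNReal) (j : ℕ) (f : PowerSeries M) : tl r j f ≤ N r f := by
  rw [← hd_add_tl r j f]
  exact le_add_self

theorem tl_succ (r : NNReal) (j : ℕ) (f : PowerSeries M) :
    tl r j f = ‖coeff j f‖ₑ * (r : ENNReal) ^ j + tl r (j + 1) f := by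
  unfold tl
  rw [tsum_eq_zero_add' (ENNReal.summable)]
  simp only [zero_add]
  congr 1
  refine tsum_congr fun d => ?_
  rw [show d + 1 + j = d + (j + 1) by ring]

theorem hd_succ (r : NNReal) (j : ℕ) (f : PowerSeries M) :
    hd r (j + 1) f = hd r j f + ‖coeff j f‖ₑ * (r : ENNReal) ^ j := by
  unfold hd
  rw [Finset.sum_range_succ]

theorem coeff_term_le_N (r : NNReal) (j : ℕ) (f : PowerSeries M) :
    ‖coeff j f‖ₑ * (r : ENNReal) ^ j ≤ N r f :=
  ENNReal.le_tsum (f := fun d => ‖coeff d f‖ₑ * (r : ENNReal) ^ d) j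

theorem tl_tendsto (r : NNReal) (f : PowerSeries M) (hf : N r f ≠ ⊤) :
    Filter.Tendsto (fun j => tl r j f) Filter.atTop (nhds 0) :=
  ENNReal.tendsto_sum_nat_add (fun d => ‖coeff d f‖ₑ * (r : ENNReal) ^ d) hf

theorem tl_congr (r : NNReal) (j : ℕ) (f g : PowerSeries M)
    (h : ∀ d, j ≤ d → coeff d f = coeff d g) : tl r j f = tl r j g := by
  unfold tl
  refine tsum_congr fun d => ?_
  rw [h (d + j) (by omega)]

theorem hd_congr (r : NNReal) (j : ℕ) (f g : PowerSeries M)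
    (h : ∀ d, d < j → coeff d f = coeff d g) : hd r j f = hd r j g := by
  unfold hd
  refine Finset.sum_congr rfl fun d hd => ?_
  rw [h d (Finset.mem_range.mp hd)]

theorem enorm_mul_le'' (a b : M) : ‖a * b‖ₑ ≤ ‖a‖ₑ * ‖b‖ₑ := by
  rw [enorm_eq_nnnorm, enorm_eq_nnnorm, enorm_eq_nnnorm, ← ENNReal.coe_mul]
  exact ENNReal.coe_le_coe.mpr (nnnorm_mul_le a b)

theorem N_mul_le (r : NNReal) (f g : PowerSeries M) : N r (f * g) ≤ N r f * N r g := by
  unfold N
  rw [← ENNReal.tsum_mul_right]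
  simp_rw [← ENNReal.tsum_mul_left]
  rw [← ENNReal.tsum_prod]
  rw [← Finset.HasAntidiagonal.sigmaAntidiagonalEquivProd.tsum_eq]
  rw [ENNReal.tsum_sigma']
  refine ENNReal.tsum_le_tsum fun d => ?_
  rw [coeff_mul, tsum_fintype, Finset.univ_eq_attach]
  simp only [Finset.HasAntidiagonal.sigmaAntidiagonalEquivProd_apply]
  rw [Finset.sum_attach (Finset.HasAntidiagonal.antidiagonal d) (fun p : ℕ × ℕ =>
    ‖coeff p.1 f‖ₑ * (r : ENNReal) ^ p.1 * (‖coeff p.2 g‖ₑ * (r : ENNReal) ^ p.2))]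
  calc ‖∑ p ∈ Finset.HasAntidiagonal.antidiagonal d, coeff p.1 f * coeff p.2 g‖ₑ * (r : ENNReal) ^ d
      ≤ (∑ p ∈ Finset.HasAntidiagonal.antidiagonal d, ‖coeff p.1 f * coeff p.2 g‖ₑ) * (r : ENNReal) ^ d := by
        gcongr
        exact enorm_sum_le _ _
    _ ≤ _ := by
        rw [Finset.sum_mul]
        refine Finset.sum_le_sum fun p hp => ?_
        rw [Finset.HasAntidiagonal.mem_antidiagonal] at hp
        rw [← hp, pow_add]
        calc ‖coeff p.1 f * coeff p.2 g‖ₑ * ((r : ENNReal) ^ p.1 * (r : ENNReal) ^ p.2)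
            ≤ (‖coeff p.1 f‖ₑ * ‖coeff p.2 g‖ₑ) * ((r : ENNReal) ^ p.1 * (r : ENNReal) ^ p.2) := by
              gcongr
              exact enorm_mul_le'' _ _
          _ = _ := by ring

theorem N_one (r : NNReal) : N r (1 : PowerSeries M) = ‖(1 : M)‖ₑ := by
  unfold N
  rw [tsum_eq_single 0]
  · simp
  · intro d hd
    rw [coeff_one, if_neg hd]
    simp

theorem N_monomial (r : NNReal) (j : ℕ) (a : M) :
    N r (monomial j a) = ‖a‖ₑ * (r : ENNReal) ^ j := by
  unfold N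
  rw [tsum_eq_single j]
  · simp
  · intro d hd
    rw [coeff_monomial, if_neg hd]
    simp

theorem N_pow_succ_le (r : NNReal) (f : PowerSeries M) (k : ℕ) :
    N r (f ^ (k + 1)) ≤ N r f ^ (k + 1) := by
  induction k with
  | zero => simp
  | succ k ih =>
    rw [pow_succ, pow_succ (N r f)]
    refine (N_mul_le r _ _).trans ?_
    gcongr

theorem N_sum_le {α : Type*} (r : NNReal) (s : Finset α) (f : α → PowerSeries M) :
    N r (∑ i ∈ s, f i) ≤ ∑ i ∈ s, N r (f i) := by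
  classical
  induction s using Finset.induction_on with
  | empty => simp [N_zero]
  | insert a s ha ih =>
    rw [Finset.sum_insert ha, Finset.sum_insert ha]
    refine (N_add_le r _ _).trans ?_
    gcongr

end norm

section order

variable {M : Type*} [Ring M]

/-- `f ≡ 0 mod t^j`. -/
def OrdGE (j : ℕ) (f : PowerSeries M) : Prop := ∀ d, d < j → coeff d f = 0

theorem OrdGE.mono {j k : ℕ} {f : PowerSeries M} (h : OrdGE k f) (hjk : j ≤ k) : OrdGE j f :=
  fun d hd => h d (by omega)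

theorem OrdGE.add {j : ℕ} {f g : PowerSeries M} (hf : OrdGE j f) (hg : OrdGE j g) :
    OrdGE j (f + g) := fun d hd => by rw [map_add, hf d hd, hg d hd, add_zero]

theorem OrdGE.neg {j : ℕ} {f : PowerSeries M} (hf : OrdGE j f) :
    OrdGE j (-f) := fun d hd => by rw [map_neg, hf d hd, neg_zero]

theorem OrdGE.sub {j : ℕ} {f g : PowerSeries M} (hf : OrdGE j f) (hg : OrdGE j g) :
    OrdGE j (f - g) := fun d hd => by rw [map_sub, hf d hd, hg d hd, sub_zero]

theorem OrdGE.mul {j k : ℕ} {f g : PowerSeries M} (hf : OrdGE j f) (hg : OrdGE k g) :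
    OrdGE (j + k) (f * g) := by
  intro d hd
  rw [coeff_mul]
  refine Finset.sum_eq_zero fun p hp => ?_
  rw [Finset.HasAntidiagonal.mem_antidiagonal] at hp
  rcases lt_or_ge p.1 j with h | h
  · rw [hf p.1 h, zero_mul]
  · rw [hg p.2 (by omega), mul_zero]

theorem OrdGE.zero_left (f : PowerSeries M) : OrdGE 0 f := fun d hd => by omega

theorem OrdGE.pow {f : PowerSeries M} (hf : OrdGE 1 f) (k : ℕ) : OrdGE k (f ^ k) := by
  induction k with
  | zero => exact OrdGE.zero_left _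
  | succ k ih => rw [pow_succ]; exact ih.mul hf

theorem OrdGE.monomial (j : ℕ) (a : M) : OrdGE j (PowerSeries.monomial j a) := by
  intro d hd
  rw [coeff_monomial, if_neg (by omega)]

theorem OrdGE.mul_left {j : ℕ} (f : PowerSeries M) {g : PowerSeries M} (hg : OrdGE j g) :
    OrdGE j (f * g) := by
  have := (OrdGE.zero_left f).mul hg
  rwa [zero_add] at this

theorem OrdGE.mul_right {j : ℕ} {f : PowerSeries M} (g : PowerSeries M) (hf : OrdGE j f) :
    OrdGE j (f * g) := by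
  have := hf.mul (OrdGE.zero_left g)
  rwa [add_zero] at this

end order

section der

variable {M : Type*} [Ring M]

/-- `t d/dt` -/
noncomputable def Dt (f : PowerSeries M) : PowerSeries M := PowerSeries.mk fun d => d • coeff d f

theorem coeff_Dt (d : ℕ) (f : PowerSeries M) : coeff d (Dt f) = d • coeff d f := by
  unfold Dt
  rw [coeff_mk]

theorem Dt_mul (f g : PowerSeries M) : Dt (f * g) = Dt f * g + f * Dt g := by
  ext d
  rw [coeff_Dt, map_add, coeff_mul, coeff_mul, coeff_mul, Finset.smul_sum,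
    ← Finset.sum_add_distrib]
  refine Finset.sum_congr rfl fun p hp => ?_
  rw [Finset.HasAntidiagonal.mem_antidiagonal] at hp
  rw [coeff_Dt, coeff_Dt, ← hp, add_smul, smul_mul_assoc, mul_smul_comm]

theorem Dt_add (f g : PowerSeries M) : Dt (f + g) = Dt f + Dt g := by
  ext d
  simp [coeff_Dt]

theorem Dt_one : Dt (1 : PowerSeries M) = 0 := by
  ext d
  rw [coeff_Dt, coeff_one]
  split_ifs with h
  · simp [h]
  · simp

theorem Dt_sub_one (f : PowerSeries M) : Dt (f - 1) = Dt f := by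
  have h : f = (f - 1) + 1 := by abel
  conv_rhs => rw [h, Dt_add, Dt_one, add_zero]

end der

section gam

variable {M T : Type*} [Ring M] [AddCommGroup T] (τ : M →+ T)

/-- logarithmic trace -/
noncomputable def gam (Z : (PowerSeries M)ˣ) (d : ℕ) : T := τ (coeff d ((Z⁻¹).val * Dt Z.val))

/-- coefficientwise trace is cyclic -/
theorem tau_mul_comm (hτ : ∀ a b, τ (a * b) = τ (b * a)) (f g : PowerSeries M) (d : ℕ) :
    τ (coeff d (f * g)) = τ (coeff d (g * f)) := by
  rw [coeff_mul, coeff_mul, map_sum, map_sum]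
  rw [← Finset.Nat.sum_antidiagonal_swap]
  refine Finset.sum_congr rfl fun p _ => ?_
  rw [hτ]
  rfl

theorem gam_mul (hτ : ∀ a b, τ (a * b) = τ (b * a)) (Y Z : (PowerSeries M)ˣ) (d : ℕ) :
    gam τ (Y * Z) d = gam τ Y d + gam τ Z d := by
  unfold gam
  rw [mul_inv_rev, Units.val_mul, Units.val_mul, Dt_mul, mul_add, map_add, map_add]
  congr 1
  · rw [mul_assoc, tau_mul_comm τ hτ]
    congr 2
    calc (Y⁻¹).val * (Dt Y.val * Z.val) * (Z⁻¹).val
        = (Y⁻¹).val * Dt Y.val * (Z.val * (Z⁻¹).val) := by simp only [mul_assoc]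
      _ = _ := by rw [Units.mul_inv, mul_one]
  · congr 2
    calc (Z⁻¹).val * (Y⁻¹).val * (Y.val * Dt Z.val)
        = (Z⁻¹).val * ((Y⁻¹).val * Y.val) * Dt Z.val := by simp only [mul_assoc]
      _ = _ := by rw [Units.inv_mul, mul_one]

theorem gam_one (d : ℕ) : gam τ (1 : (PowerSeries M)ˣ) d = 0 := by
  unfold gam
  rw [Units.val_one, Dt_one, mul_zero, map_zero, map_zero]

theorem gam_inv (hτ : ∀ a b, τ (a * b) = τ (b * a)) (Z : (PowerSeries M)ˣ) (d : ℕ) :
    gam τ Z⁻¹ d = - gam τ Z d := by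
  have h := gam_mul τ hτ Z Z⁻¹ d
  rw [mul_inv_cancel, gam_one] at h
  rw [eq_neg_iff_add_eq_zero, add_comm]
  exact h.symm

theorem tau_pow_Dt (hτ : ∀ a b, τ (a * b) = τ (b * a)) (z : PowerSeries M) (d k : ℕ) :
    ∀ m : ℕ, τ (coeff d (z ^ m * Dt (z ^ (k + 1)))) =
      (k + 1) • τ (coeff d (z ^ (m + k) * Dt z)) := by
  induction k with
  | zero => intro m; simp
  | succ k ih =>
    intro m
    rw [pow_succ z (k + 1), Dt_mul, mul_add, map_add, map_add, ← mul_assoc (z ^ m) (Dt (z ^ (k+1))) z,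
      tau_mul_comm τ hτ, ← mul_assoc, ← mul_assoc, ← pow_succ', ← pow_add, ih (m + 1)]
    rw [show m + 1 + k = m + (k + 1) by ring, succ_nsmul (τ _) (k + 1)]

theorem tau_Dt_pow (hτ : ∀ a b, τ (a * b) = τ (b * a)) (z : PowerSeries M) (d k : ℕ) :
    d • τ (coeff d (z ^ (k + 1))) = (k + 1) • τ (coeff d (z ^ k * Dt z)) := by
  have h := tau_pow_Dt τ hτ z d k 0
  rw [pow_zero, one_mul, zero_add, coeff_Dt, map_nsmul] at h
  exact h

theorem inv_mul_Dt_eq (Z : (PowerSeries M)ˣ) (d : ℕ) :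
    (Z⁻¹).val * Dt Z.val =
      (∑ k ∈ Finset.range (d + 1), (-1) ^ k * ((Z.val - 1) ^ k * Dt (Z.val - 1))) +
      (Z⁻¹).val * ((-(Z.val - 1)) ^ (d + 1) * Dt (Z.val - 1)) := by
  set z := Z.val - 1 with hz
  have h1 : Z.val = 1 - (-z) := by rw [hz]; abel
  have h2 : Z.val * ∑ k ∈ Finset.range (d + 1), (-z) ^ k = 1 - (-z) ^ (d + 1) := by
    rw [h1]
    exact mul_neg_geom_sum (-z) (d + 1)
  have h3 : (Z⁻¹).val = (∑ k ∈ Finset.range (d + 1), (-z) ^ k) + (Z⁻¹).val * (-z) ^ (d + 1) := by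
    calc (Z⁻¹).val = (Z⁻¹).val * ((1 - (-z) ^ (d + 1)) + (-z) ^ (d + 1)) := by
          rw [sub_add_cancel, mul_one]
      _ = _ := by
          rw [← h2, mul_add, ← mul_assoc, Units.inv_mul, one_mul]
  have h4 : Dt Z.val = Dt z := by rw [hz, Dt_sub_one]
  rw [h4]
  conv_lhs => rw [h3]
  rw [add_mul, Finset.sum_mul, mul_assoc]
  congr 1
  refine Finset.sum_congr rfl fun k _ => ?_
  rw [← mul_assoc, neg_pow]

theorem gam_eq_sum (Z : (PowerSeries M)ˣ) (hZ : OrdGE 1 (Z.val - 1)) (d : ℕ) :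
    gam τ Z d = ∑ k ∈ Finset.range (d + 1),
      (-1 : ℤ) ^ k • τ (coeff d ((Z.val - 1) ^ k * Dt (Z.val - 1))) := by
  unfold gam
  rw [inv_mul_Dt_eq Z d, map_add]
  have h1 : coeff d ((Z⁻¹).val * ((-(Z.val - 1)) ^ (d + 1) * Dt (Z.val - 1))) = 0 := by
    have h2 : OrdGE (d + 1) ((Z⁻¹).val * ((-(Z.val - 1)) ^ (d + 1) * Dt (Z.val - 1))) :=
      OrdGE.mul_left _ (OrdGE.mul_right _ (hZ.neg.pow (d + 1)))
    exact h2 d (by omega)
  rw [h1, add_zero, map_sum, map_sum]
  refine Finset.sum_congr rfl fun k _ => ?_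
  have h3 : ((-1) ^ k * ((Z.val - 1) ^ k * Dt (Z.val - 1)) : PowerSeries M) =
      (-1 : ℤ) ^ k • ((Z.val - 1) ^ k * Dt (Z.val - 1)) := by
    rw [zsmul_eq_mul]
    push_cast
    rfl
  rw [h3, map_zsmul, map_zsmul]

end gam

section quad

variable {M T : Type*} [NormedRing M] [NormedAddCommGroup T] [NormedSpace ℝ T] (τ : M →+ T)

theorem tau_coeff_eq (hτ : ∀ a b, τ (a * b) = τ (b * a)) (Z : (PowerSeries M)ˣ)
    (hZ : OrdGE 1 (Z.val - 1)) (d : ℕ) (hd : 0 < d) (hg : gam τ Z d = 0) :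
    τ (coeff d (Z.val - 1)) = - ∑ k ∈ Finset.range d,
      ((-1 : ℝ) ^ (k + 1) * (1 / ((k : ℝ) + 2))) • τ (coeff d ((Z.val - 1) ^ (k + 2))) := by
  rw [gam_eq_sum τ Z hZ d] at hg
  set z := Z.val - 1 with hz
  have hterm : ∀ k : ℕ, τ (coeff d (z ^ k * Dt z)) =
      ((d : ℝ) * (1 / ((k : ℝ) + 1))) • τ (coeff d (z ^ (k + 1))) := by
    intro k
    have h := tau_Dt_pow τ hτ z d k
    have h5 : ((k : ℝ) + 1) • τ (coeff d (z ^ k * Dt z)) = (d : ℝ) • τ (coeff d (z ^ (k + 1))) := by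
      rw [Nat.cast_smul_eq_nsmul, h, ← Nat.cast_succ, Nat.cast_smul_eq_nsmul]
    have hk : ((k : ℝ) + 1) ≠ 0 := by positivity
    calc τ (coeff d (z ^ k * Dt z)) = (((k : ℝ) + 1)⁻¹ * ((k : ℝ) + 1)) • τ (coeff d (z ^ k * Dt z)) := by
          rw [inv_mul_cancel₀ hk, one_smul]
      _ = _ := by
          rw [mul_smul, h5, smul_smul]
          congr 1
          field_simp
  rw [Finset.sum_range_succ'] at hg
  simp only [hterm] at hg
  have hd' : (d : ℝ) ≠ 0 := by positivity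
  have h6 : (d : ℝ) • (τ (coeff d z) + ∑ k ∈ Finset.range d,
      ((-1 : ℝ) ^ (k + 1) * (1 / ((k : ℝ) + 2))) • τ (coeff d (z ^ (k + 2)))) = 0 := by
    rw [smul_add, Finset.smul_sum, add_comm]
    rw [← hg]
    congr 1
    · refine Finset.sum_congr rfl fun k _ => ?_
      rw [← Int.cast_smul_eq_zsmul ℝ, smul_smul, smul_smul]
      congr 1
      push_cast
      ring
    · simp
  rw [smul_eq_zero] at h6
  rcases h6 with h6 | h6
  · exact absurd h6 hd'
  · rw [eq_neg_iff_add_eq_zero]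
    exact h6

/-- the quadratic estimate for the trace of a power series with vanishing logarithmic trace -/
theorem tau_quad (hτ : ∀ a b, τ (a * b) = τ (b * a)) (C : ENNReal)
    (hC : ∀ a, ‖τ a‖ₑ ≤ C * ‖a‖ₑ) (r : NNReal) (Z : (PowerSeries M)ˣ)
    (hZ : OrdGE 1 (Z.val - 1)) (hg : ∀ d, gam τ Z d = 0) (hN : N r (Z.val - 1) ≤ 1 / 2) :
    ∑' d : ℕ, ‖τ (coeff d (Z.val - 1))‖ₑ * (r : ENNReal) ^ d ≤ 2 * C * N r (Z.val - 1) ^ 2 := by
  set z := Z.val - 1 with hz
  have h1 : ∀ d : ℕ, ‖τ (coeff d z)‖ₑ * (r : ENNReal) ^ d ≤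
      ∑' k : ℕ, C * (‖coeff d (z ^ (k + 2))‖ₑ * (r : ENNReal) ^ d) := by
    intro d
    rcases Nat.eq_zero_or_pos d with hd | hd
    · rw [hd, hZ 0 (by omega), map_zero, enorm_zero, zero_mul]
      exact zero_le
    · have h2 := tau_coeff_eq τ hτ Z hZ d hd (hg d)
      rw [← hz] at h2
      rw [h2, enorm_neg]
      calc ‖∑ k ∈ Finset.range d, ((-1 : ℝ) ^ (k + 1) * (1 / ((k : ℝ) + 2))) •
              τ (coeff d (z ^ (k + 2)))‖ₑ * (r : ENNReal) ^ d
          ≤ (∑ k ∈ Finset.range d, ‖((-1 : ℝ) ^ (k + 1) * (1 / ((k : ℝ) + 2))) •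
              τ (coeff d (z ^ (k + 2)))‖ₑ) * (r : ENNReal) ^ d := by
            gcongr
            exact enorm_sum_le _ _
        _ ≤ (∑ k ∈ Finset.range d, C * ‖coeff d (z ^ (k + 2))‖ₑ) * (r : ENNReal) ^ d := by
            gcongr with k _
            rw [enorm_smul]
            have h3 : ‖((-1 : ℝ) ^ (k + 1) * (1 / ((k : ℝ) + 2)))‖ₑ ≤ 1 := by
              rw [Real.enorm_eq_ofReal_abs, abs_mul, abs_pow, abs_neg, abs_one, one_pow, one_mul]
              rw [show (1 : ENNReal) = ENNReal.ofReal 1 by simp]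
              apply ENNReal.ofReal_le_ofReal
              rw [abs_of_nonneg (by positivity), div_le_one (by positivity)]
              linarith [Nat.cast_nonneg (α := ℝ) k]
            calc _ ≤ 1 * ‖τ (coeff d (z ^ (k + 2)))‖ₑ := by gcongr
              _ ≤ _ := by rw [one_mul]; exact hC _
        _ ≤ _ := by
            rw [Finset.sum_mul]
            refine le_trans (Finset.sum_le_sum fun k _ => ?_) (ENNReal.sum_le_tsum (Finset.range d))
            rw [mul_assoc]
  calc ∑' d : ℕ, ‖τ (coeff d z)‖ₑ * (r : ENNReal) ^ d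
      ≤ ∑' d : ℕ, ∑' k : ℕ, C * (‖coeff d (z ^ (k + 2))‖ₑ * (r : ENNReal) ^ d) :=
        ENNReal.tsum_le_tsum h1
    _ = ∑' k : ℕ, C * N r (z ^ (k + 2)) := by
        rw [ENNReal.tsum_comm]
        refine tsum_congr fun k => ?_
        rw [ENNReal.tsum_mul_left]
        rfl
    _ ≤ ∑' k : ℕ, C * (N r z ^ 2 * (N r z) ^ k) := by
        refine ENNReal.tsum_le_tsum fun k => ?_
        gcongr
        rw [← pow_add, show 2 + k = k + 1 + 1 by ring]
        exact N_pow_succ_le r z (k + 1)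
    _ = C * (N r z ^ 2 * (1 - N r z)⁻¹) := by
        rw [ENNReal.tsum_mul_left, ENNReal.tsum_mul_left, ENNReal.tsum_geometric]
    _ ≤ C * (N r z ^ 2 * 2) := by
        gcongr
        have h2 : (2 : ENNReal)⁻¹ ≤ 1 - N r z := by
          refine le_trans (le_of_eq ?_) (tsub_le_tsub_left hN 1)
          rw [one_div]
          exact (ENNReal.one_sub_inv_two).symm
        calc (1 - N r z)⁻¹ ≤ ((2 : ENNReal)⁻¹)⁻¹ := ENNReal.inv_le_inv.mpr h2
          _ = 2 := inv_inv _
    _ = _ := by ring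

end quad

end Pool.Agent.TS
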