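import Pool.Agent.Lib.MP_402c18_an.Core1

/-!
# The elimination process
-/

set_option autoImplicit false

namespace Pool.Agent.TS

open PowerSeries

variable {M T : Type*} [NormedRing M] [NormedAddCommGroup T] [NormedSpace ℝ T] (τ : M →+ T)

/-- The data needed to run the elimination process: `E` is a group of units of `M⟦t⟧`. -/
structure Gen (L : Subring M) (E : Subgroup (PowerSeries M)ˣ) (r : NNReal) (K K₁ : ENNReal) :
    Prop where
  comm : ∀ a b, τ (a * b) = τ (b * a)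
  bound : ∀ a, ‖τ a‖ₑ ≤ K * ‖a‖ₑ
  gam_zero : ∀ Φ ∈ E, ∀ d, gam τ Φ d = 0
  int : ∀ Φ ∈ E, ∀ d, coeff d Φ.val ∈ L
  one_le : 1 ≤ K
  ne_top : K ≠ ⊤
  ne_top₁ : K₁ ≠ ⊤
  r_lt : r < 1
  r_pos : 0 < r
  step : ∀ (j : ℕ) (z : M), 1 ≤ j → 4 * K * (‖z‖ₑ * (r : ENNReal) ^ j) ≤ 1 →
    ∃ Φ ∈ E, ∃ (x : M) (Ω : PowerSeries M),
      (Φ⁻¹).val = 1 - monomial j x + Ω ∧ OrdGE (j + 1) Ω ∧
      N r Ω ≤ K * (‖z‖ₑ * (r : ENNReal) ^ j) ^ 2 ∧ ‖x‖ₑ ≤ K * ‖z‖ₑ ∧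
      ‖z - x‖ₑ ≤ K₁ + K * ‖τ z‖ₑ ∧ τ x = 0 ∧ (z ∈ L → τ z = 0 → x = z)

variable {τ} {L : Subring M} {E : Subgroup (PowerSeries M)ˣ} {r : NNReal} {K K₁ : ENNReal}

theorem arith1 {K a η NΩ Nζ NP nx : ENNReal} (hK : K ≠ ⊤) (hK1 : 1 ≤ K)
    (h1 : 4 * K * a ≤ 1) (h2 : 8 * K * η ≤ 1) (hζ : Nζ ≤ η)
    (hΩ : NΩ ≤ K * a ^ 2) (hx : nx ≤ K * a) (hP : NP ≤ nx + NΩ) :
    NP ≤ 2 * K * a ∧ NΩ + Nζ * NP ≤ 2⁻¹ * a ∧ NP + Nζ * NP ≤ 4 * K * a := by
  have hK0 : K ≠ 0 := by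
    intro h; rw [h] at hK1; simp at hK1
  have ha : a ≠ ⊤ := by
    intro h
    rw [h, ENNReal.mul_top (by simp [hK0])] at h1
    simp at h1
  have hη : η ≠ ⊤ := by
    intro h
    rw [h, ENNReal.mul_top (by simp [hK0])] at h2
    simp at h2
  have hΩt : NΩ ≠ ⊤ := ne_top_of_le_ne_top (by finiteness) hΩ
  have hζt : Nζ ≠ ⊤ := ne_top_of_le_ne_top hη hζ
  have hxt : nx ≠ ⊤ := ne_top_of_le_ne_top (by finiteness) hx
  have hPt : NP ≠ ⊤ := ne_top_of_le_ne_top (by finiteness) hP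
  lift K to NNReal using hK
  lift a to NNReal using ha
  lift η to NNReal using hη
  lift NΩ to NNReal using hΩt
  lift Nζ to NNReal using hζt
  lift nx to NNReal using hxt
  lift NP to NNReal using hPt
  have e2 : (2 : ENNReal)⁻¹ = ((2⁻¹ : NNReal) : ENNReal) := by
    rw [ENNReal.coe_inv (by norm_num)]; rfl
  rw [e2]
  norm_cast at *
  rw [← NNReal.coe_le_coe] at *
  push_cast at *
  have k0 : 0 ≤ (K : ℝ) := K.coe_nonneg
  have a0 : 0 ≤ (a : ℝ) := a.coe_nonneg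
  have η0 : 0 ≤ (η : ℝ) := η.coe_nonneg
  have ζ0 : 0 ≤ (Nζ : ℝ) := Nζ.coe_nonneg
  have P0 : 0 ≤ (NP : ℝ) := NP.coe_nonneg
  have ha1 : (a : ℝ) ≤ 1 / 4 := by nlinarith
  have hKa : (K : ℝ) * a ^ 2 ≤ (1 / 4) * a := by nlinarith
  have hKa2 : (K : ℝ) * a ^ 2 ≤ K * a := by nlinarith [mul_nonneg k0 a0]
  have g1 : (NP : ℝ) ≤ 2 * K * a := by linarith
  have hη1 : (η : ℝ) ≤ 1 / 8 := by nlinarith
  have g2 : (Nζ : ℝ) * NP ≤ η * (2 * K * a) := by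
    apply mul_le_mul hζ g1 P0 η0
  have g3 : (η : ℝ) * (2 * K * a) ≤ (1 / 4) * a := by nlinarith
  have g4 : (η : ℝ) * (2 * K * a) ≤ 1 / 8 * (2 * K * a) := by
    apply mul_le_mul_of_nonneg_right hη1 (by positivity)
  refine ⟨g1, by linarith, ?_⟩
  nlinarith [mul_nonneg k0 a0]

theorem tl_monomial (r : NNReal) (j : ℕ) (x : M) : tl r (j + 1) (monomial j x) = 0 := by
  unfold tl
  rw [ENNReal.tsum_eq_zero]
  intro d
  rw [coeff_monomial, if_neg (by omega)]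
  simp

theorem tl_neg (r : NNReal) (j : ℕ) (f : PowerSeries M) : tl r j (-f) = tl r j f := by
  unfold tl
  simp [enorm_neg]

theorem step_lemma (H : Gen τ L E r K K₁) (j : ℕ) (hj : 1 ≤ j) (Z : (PowerSeries M)ˣ)
    (hZ1 : OrdGE 1 (Z.val - 1)) (η : ENNReal) (hη : 8 * K * η ≤ 1) (hN : N r (Z.val - 1) ≤ η)
    (ha : 4 * K * (‖coeff j (Z.val - 1)‖ₑ * (r : ENNReal) ^ j) ≤ 1) :
    ∃ Φ ∈ E, ∃ x : M,
      (∀ i, i < j → coeff i ((Z * Φ⁻¹).val - 1) = coeff i (Z.val - 1)) ∧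
      coeff j ((Z * Φ⁻¹).val - 1) = coeff j (Z.val - 1) - x ∧
      tl r (j + 1) ((Z * Φ⁻¹).val - 1) + 2⁻¹ * (‖coeff j (Z.val - 1)‖ₑ * (r : ENNReal) ^ j)
        ≤ tl r j (Z.val - 1) ∧
      N r ((Z * Φ⁻¹).val - Z.val) ≤ 4 * K * (‖coeff j (Z.val - 1)‖ₑ * (r : ENNReal) ^ j) ∧
      ‖x‖ₑ ≤ K * ‖coeff j (Z.val - 1)‖ₑ ∧
      ‖coeff j (Z.val - 1) - x‖ₑ ≤ K₁ + K * ‖τ (coeff j (Z.val - 1))‖ₑ ∧ τ x = 0 ∧
      (coeff j (Z.val - 1) ∈ L → τ (coeff j (Z.val - 1)) = 0 → x = coeff j (Z.val - 1)) := by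
  obtain ⟨Φ, hΦ, x, Ω, h1, h2, h3, h4, h5, h6, h7⟩ := H.step j (coeff j (Z.val - 1)) hj ha
  set ζ := Z.val - 1 with hζ
  set a := ‖coeff j ζ‖ₑ * (r : ENNReal) ^ j with hadef
  set P : PowerSeries M := -monomial j x + Ω with hP
  have hZ : Z.val = 1 + ζ := by rw [hζ]; abel
  have hZ' : (Z * Φ⁻¹).val - 1 = ζ + -monomial j x + (Ω + ζ * P) := by
    rw [Units.val_mul, h1, hZ, hP]
    noncomm_ring
  have hZ'' : (Z * Φ⁻¹).val - Z.val = P + ζ * P := by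
    rw [Units.val_mul, h1, hZ, hP]
    noncomm_ring
  have hPo : OrdGE j P := by
    rw [hP]
    exact (OrdGE.monomial j x).neg.add (h2.mono (by omega))
  have hζP : OrdGE (j + 1) (ζ * P) := by
    rw [add_comm j 1]
    exact hZ1.mul hPo
  have hNP : N r P ≤ ‖x‖ₑ * (r : ENNReal) ^ j + N r Ω := by
    rw [hP]
    refine (N_add_le r _ _).trans ?_
    rw [N_neg, N_monomial]
  have hx' : ‖x‖ₑ * (r : ENNReal) ^ j ≤ K * a := by
    rw [hadef, ← mul_assoc]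
    gcongr
  obtain ⟨g1, g2, g3⟩ := arith1 (nx := ‖x‖ₑ * (r : ENNReal) ^ j) H.ne_top H.one_le ha hη hN h3 hx' hNP
  refine ⟨Φ, hΦ, x, ?_, ?_, ?_, ?_, h4, h5, h6, h7⟩
  · intro i hi
    rw [hZ', map_add, map_add, map_add, map_neg, h2 i (by omega), hζP i (by omega),
      coeff_monomial, if_neg (by omega)]
    simp
  · rw [hZ', map_add, map_add, map_add, map_neg, h2 j (by omega), hζP j (by omega),
      coeff_monomial_same]
    simp [sub_eq_add_neg]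
  · rw [hZ']
    have e1 : tl r (j + 1) (ζ + -monomial j x + (Ω + ζ * P)) ≤ tl r (j + 1) ζ + 2⁻¹ * a := by
      refine (tl_add_le r _ _ _).trans ?_
      refine add_le_add ?_ ?_
      · refine (tl_add_le r _ _ _).trans ?_
        rw [tl_neg, tl_monomial, add_zero]
      · refine (tl_le_N r _ _).trans ?_
        refine (N_add_le r _ _).trans ?_
        refine le_trans ?_ g2
        gcongr
        exact N_mul_le r _ _
    calc tl r (j + 1) (ζ + -monomial j x + (Ω + ζ * P)) + 2⁻¹ * a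
        ≤ tl r (j + 1) ζ + 2⁻¹ * a + 2⁻¹ * a := by gcongr
      _ = a + tl r (j + 1) ζ := by
          rw [add_assoc, ← add_mul, ENNReal.inv_two_add_inv_two, one_mul, add_comm]
      _ = tl r j ζ := (tl_succ r j ζ).symm
  · rw [hZ'']
    refine (N_add_le r _ _).trans ?_
    refine le_trans ?_ g3
    gcongr
    exact N_mul_le r _ _

theorem gam_of_ord {M T : Type*} [Ring M] [AddCommGroup T] (τ : M →+ T) (Z : (PowerSeries M)ˣ)
    (j : ℕ) (hj : 1 ≤ j) (hZ : OrdGE j (Z.val - 1)) :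
    gam τ Z j = j • τ (coeff j (Z.val - 1)) := by
  rw [gam_eq_sum τ Z (hZ.mono hj) j, Finset.sum_range_succ']
  have h0 : ∑ k ∈ Finset.range j, (-1 : ℤ) ^ (k + 1) •
      τ (coeff j ((Z.val - 1) ^ (k + 1) * Dt (Z.val - 1))) = 0 := by
    refine Finset.sum_eq_zero fun k _ => ?_
    have h1 : OrdGE j (Dt (Z.val - 1)) := by
      intro d hd
      rw [coeff_Dt, hZ d hd, smul_zero]
    have h2 : OrdGE (k + 1) ((Z.val - 1) ^ (k + 1)) := (hZ.mono hj).pow (k + 1)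
    have h3 := h2.mul h1
    rw [h3 j (by omega), map_zero, smul_zero]
  rw [h0, zero_add, pow_zero, pow_zero, one_mul, one_smul, coeff_Dt, map_nsmul]

/-- The invariant of the elimination process. -/
structure Inv (τ : M →+ T) (L : Subring M) (r : NNReal) (K K₁ η₀ : ENNReal) (κ₀ j : ℕ)
    (Z : (PowerSeries M)ˣ) : Prop where
  ord : OrdGE κ₀ (Z.val - 1)
  gam : ∀ d, gam τ Z d = 0
  pot : hd r j (Z.val - 1) + 2 * (1 + K) * tl r j (Z.val - 1) ≤ 2 * (1 + K) * η₀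
  fro : ∀ i, κ₀ ≤ i → i < j →
    ‖coeff i (Z.val - 1)‖ₑ ≤ K₁ + K * ‖τ (coeff i (Z.val - 1))‖ₑ
  int : (∀ d, coeff d Z.val ∈ L) → OrdGE j (Z.val - 1)

theorem Inv.N_le {η₀ : ENNReal} {κ₀ j : ℕ} {Z : (PowerSeries M)ˣ}
    (h : Inv τ L r K K₁ η₀ κ₀ j Z) : N r (Z.val - 1) ≤ 2 * (1 + K) * η₀ := by
  refine le_trans ?_ h.pot
  rw [← hd_add_tl r j]
  gcongr
  have h1 : (1 : ENNReal) ≤ 2 * (1 + K) := by
    calc (1 : ENNReal) = 1 * 1 := by ring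
      _ ≤ 2 * (1 + K) := by
        gcongr
        · norm_num
        · exact le_self_add
  calc tl r j (Z.val - 1) = 1 * tl r j (Z.val - 1) := by rw [one_mul]
    _ ≤ _ := by gcongr

theorem coeff_mem_of_mul {L : Subring M} {f g : PowerSeries M} (hf : ∀ d, coeff d f ∈ L)
    (hg : ∀ d, coeff d g ∈ L) (d : ℕ) : coeff d (f * g) ∈ L := by
  rw [coeff_mul]
  exact L.sum_mem fun p _ => L.mul_mem (hf _) (hg _)

theorem inv_step (H : Gen τ L E r K K₁) {η₀ : ENNReal} (hη : 8 * K * (2 * (1 + K) * η₀) ≤ 1)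
    {κ₀ j : ℕ} (hκ : 1 ≤ κ₀) (hj : κ₀ ≤ j) {Z : (PowerSeries M)ˣ}
    (h : Inv τ L r K K₁ η₀ κ₀ j Z) :
    ∃ Φ ∈ E, Inv τ L r K K₁ η₀ κ₀ (j + 1) (Z * Φ⁻¹) ∧
      N r ((Z * Φ⁻¹).val - Z.val) + 8 * K * tl r (j + 1) ((Z * Φ⁻¹).val - 1) ≤
        8 * K * tl r j (Z.val - 1) := by
  have ha : 4 * K * (‖coeff j (Z.val - 1)‖ₑ * (r : ENNReal) ^ j) ≤ 1 := by
    have hle := (coeff_term_le_N r j (Z.val - 1)).trans h.N_le
    refine le_trans ?_ hη
    refine mul_le_mul' ?_ hle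
    gcongr
    norm_num
  obtain ⟨Φ, hΦ, x, h1, h2, h3, h4, h5, h6, h7, h8⟩ :=
    step_lemma H j (hκ.trans hj) Z (h.ord.mono hκ) _ hη h.N_le ha
  set a := ‖coeff j (Z.val - 1)‖ₑ * (r : ENNReal) ^ j with hadef
  refine ⟨Φ, hΦ, ⟨?_, ?_, ?_, ?_, ?_⟩, ?_⟩
  · intro i hi
    rw [h1 i (by omega), h.ord i hi]
  · intro d
    rw [gam_mul τ H.comm, gam_inv τ H.comm, h.gam d, H.gam_zero Φ hΦ d, neg_zero, add_zero]
  · -- potential
    have e1 : hd r (j + 1) ((Z * Φ⁻¹).val - 1) ≤ hd r j (Z.val - 1) + (1 + K) * a := by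
      rw [hd_succ, hd_congr r j _ (Z.val - 1) h1, h2]
      refine add_le_add le_rfl ?_
      calc ‖coeff j (Z.val - 1) - x‖ₑ * (r : ENNReal) ^ j
          ≤ (‖coeff j (Z.val - 1)‖ₑ + K * ‖coeff j (Z.val - 1)‖ₑ) * (r : ENNReal) ^ j := by
            gcongr
            exact (enorm_sub_le).trans (by gcongr)
        _ = (1 + K) * a := by rw [hadef]; ring
    calc hd r (j + 1) ((Z * Φ⁻¹).val - 1) + 2 * (1 + K) * tl r (j + 1) ((Z * Φ⁻¹).val - 1)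
        ≤ hd r j (Z.val - 1) + (1 + K) * a + 2 * (1 + K) * tl r (j + 1) ((Z * Φ⁻¹).val - 1) := by
          gcongr
      _ = hd r j (Z.val - 1) + 2 * (1 + K) *
          (tl r (j + 1) ((Z * Φ⁻¹).val - 1) + 2⁻¹ * a) := by
          have e2 : (2 : ENNReal) * 2⁻¹ = 1 := ENNReal.mul_inv_cancel (by norm_num) (by norm_num)
          have e3 : 2 * (1 + K) * (2⁻¹ * a) = (1 + K) * a := by
            calc 2 * (1 + K) * (2⁻¹ * a) = (2 * 2⁻¹) * ((1 + K) * a) := by ring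
              _ = _ := by rw [e2, one_mul]
          rw [mul_add (2 * (1 + K)), e3]
          ring
      _ ≤ hd r j (Z.val - 1) + 2 * (1 + K) * tl r j (Z.val - 1) := by gcongr
      _ ≤ _ := h.pot
  · intro i hi hij
    rcases Nat.lt_succ_iff_lt_or_eq.mp hij with hlt | heq
    · rw [h1 i hlt]
      exact h.fro i hi hlt
    · have e4 : τ (coeff j (Z.val - 1) - x) = τ (coeff j (Z.val - 1)) := by
        rw [map_sub τ, h7, sub_zero]
      rw [heq, h2, e4]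
      exact h6
  · intro hint
    have hZint : ∀ d, coeff d Z.val ∈ L := by
      have e : Z = (Z * Φ⁻¹) * Φ := by group
      intro d
      rw [e, Units.val_mul]
      exact coeff_mem_of_mul hint (H.int Φ hΦ) d
    have hord := h.int hZint
    have hg := gam_of_ord τ Z j (hκ.trans hj) hord
    rw [h.gam j] at hg
    have hτ0 : τ (coeff j (Z.val - 1)) = 0 := by
      have : (j : ℝ) • τ (coeff j (Z.val - 1)) = 0 := by
        rw [Nat.cast_smul_eq_nsmul]; exact hg.symm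
      rcases smul_eq_zero.mp this with h0 | h0
      · exfalso
        have : j = 0 := by exact_mod_cast h0
        omega
      · exact h0
    have hmem : coeff j (Z.val - 1) ∈ L := by
      rw [map_sub]
      refine L.sub_mem (hZint j) ?_
      rw [coeff_one]
      split_ifs
      · exact L.one_mem
      · exact L.zero_mem
    have hx := h8 hmem hτ0
    intro i hi
    rcases Nat.lt_succ_iff_lt_or_eq.mp hi with hlt | heq
    · rw [h1 i hlt]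
      exact hord i hlt
    · rw [heq, h2, hx, sub_self]
  · calc N r ((Z * Φ⁻¹).val - Z.val) + 8 * K * tl r (j + 1) ((Z * Φ⁻¹).val - 1)
        ≤ 4 * K * a + 8 * K * tl r (j + 1) ((Z * Φ⁻¹).val - 1) := by gcongr
      _ = 8 * K * (tl r (j + 1) ((Z * Φ⁻¹).val - 1) + 2⁻¹ * a) := by
          have e2 : (2 : ENNReal) * 2⁻¹ = 1 := ENNReal.mul_inv_cancel (by norm_num) (by norm_num)
          have e3 : 8 * K * (2⁻¹ * a) = 4 * K * a := by
            calc 8 * K * (2⁻¹ * a) = (2 * 2⁻¹) * (4 * K * a) := by ring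
              _ = _ := by rw [e2, one_mul]
          rw [mul_add, e3, add_comm]
      _ ≤ _ := by gcongr

theorem inv_iter (H : Gen τ L E r K K₁) {η₀ : ENNReal} (hη : 8 * K * (2 * (1 + K) * η₀) ≤ 1)
    {κ₀ j : ℕ} (hκ : 1 ≤ κ₀) (hj : κ₀ ≤ j) {Z : (PowerSeries M)ˣ}
    (h : Inv τ L r K K₁ η₀ κ₀ j Z) (n : ℕ) :
    ∃ Φ ∈ E, Inv τ L r K K₁ η₀ κ₀ (j + n) (Z * Φ⁻¹) ∧
      N r ((Z * Φ⁻¹).val - Z.val) + 8 * K * tl r (j + n) ((Z * Φ⁻¹).val - 1) ≤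
        8 * K * tl r j (Z.val - 1) := by
  induction n with
  | zero =>
    refine ⟨1, E.one_mem, ?_, ?_⟩
    · simpa using h
    · simp [N_zero]
  | succ n ih =>
    obtain ⟨Φ, hΦ, h1, h2⟩ := ih
    obtain ⟨Φ', hΦ', h3, h4⟩ := inv_step H hη hκ (by omega) h1
    refine ⟨Φ' * Φ, E.mul_mem hΦ' hΦ, ?_, ?_⟩
    · rw [mul_inv_rev, ← mul_assoc]
      exact h3
    · rw [mul_inv_rev, ← mul_assoc]
      have e1 : (Z * Φ⁻¹ * Φ'⁻¹).val - Z.val =
          ((Z * Φ⁻¹ * Φ'⁻¹).val - (Z * Φ⁻¹).val) + ((Z * Φ⁻¹).val - Z.val) := by abel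
      calc N r ((Z * Φ⁻¹ * Φ'⁻¹).val - Z.val) +
            8 * K * tl r (j + (n + 1)) ((Z * Φ⁻¹ * Φ'⁻¹).val - 1)
          ≤ (N r ((Z * Φ⁻¹ * Φ'⁻¹).val - (Z * Φ⁻¹).val) + N r ((Z * Φ⁻¹).val - Z.val)) +
            8 * K * tl r (j + (n + 1)) ((Z * Φ⁻¹ * Φ'⁻¹).val - 1) := by
            refine add_le_add ?_ le_rfl
            conv_lhs => rw [e1]
            exact N_add_le r _ _
        _ = N r ((Z * Φ⁻¹).val - Z.val) + (N r ((Z * Φ⁻¹ * Φ'⁻¹).val - (Z * Φ⁻¹).val) +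
            8 * K * tl r (j + n + 1) ((Z * Φ⁻¹ * Φ'⁻¹).val - 1)) := by
            rw [show j + (n + 1) = j + n + 1 by ring]
            ring
        _ ≤ _ := (add_le_add le_rfl h4).trans h2

theorem contract (H : Gen τ L E r K K₁) {η₀ : ENNReal} (hη : 8 * K * (2 * (1 + K) * η₀) ≤ 1)
    {κ₀ j : ℕ} (hκ : 1 ≤ κ₀) (hj : κ₀ ≤ j) {Z : (PowerSeries M)ˣ}
    (h : Inv τ L r K K₁ η₀ κ₀ j Z) (δ : ENNReal) (hδ : δ ≠ 0) :
    ∃ n, ∃ Φ ∈ E, Inv τ L r K K₁ η₀ κ₀ (j + n) (Z * Φ⁻¹) ∧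
      (1 + 8 * K) * tl r (j + n) ((Z * Φ⁻¹).val - 1) ≤ δ + 8 * K * tl r j (Z.val - 1) := by
  have hNf : N r (Z.val - 1) ≠ ⊤ := by
    refine ne_top_of_le_ne_top ?_ h.N_le
    intro htop
    have hK0 : K ≠ 0 := fun h0 => by
      have := H.one_le
      rw [h0] at this
      simp at this
    rw [htop, ENNReal.mul_top (by simp [hK0])] at hη
    simp at hη
  have ht := tl_tendsto r (Z.val - 1) hNf
  have hev := (ht.eventually (gt_mem_nhds (pos_iff_ne_zero.mpr hδ))).exists_forall_of_atTop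
  obtain ⟨n, hn⟩ := hev
  obtain ⟨Φ, hΦ, h1, h2⟩ := inv_iter H hη hκ hj h n
  refine ⟨n, Φ, hΦ, h1, ?_⟩
  have e1 : (Z * Φ⁻¹).val - 1 = (Z.val - 1) + ((Z * Φ⁻¹).val - Z.val) := by abel
  have e2 : tl r (j + n) ((Z * Φ⁻¹).val - 1) ≤ δ + N r ((Z * Φ⁻¹).val - Z.val) := by
    conv_lhs => rw [e1]
    refine (tl_add_le r _ _ _).trans ?_
    exact add_le_add (hn (j + n) (by omega)).le (tl_le_N r _ _)
  calc (1 + 8 * K) * tl r (j + n) ((Z * Φ⁻¹).val - 1)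
      = tl r (j + n) ((Z * Φ⁻¹).val - 1) + 8 * K * tl r (j + n) ((Z * Φ⁻¹).val - 1) := by ring
    _ ≤ (δ + N r ((Z * Φ⁻¹).val - Z.val)) + 8 * K * tl r (j + n) ((Z * Φ⁻¹).val - 1) :=
        add_le_add e2 le_rfl
    _ = δ + (N r ((Z * Φ⁻¹).val - Z.val) + 8 * K * tl r (j + n) ((Z * Φ⁻¹).val - 1)) := by ring
    _ ≤ _ := add_le_add le_rfl h2

theorem tail_pow (H : Gen τ L E r K K₁) {η₀ : ENNReal} (hη : 8 * K * (2 * (1 + K) * η₀) ≤ 1)
    {κ₀ j : ℕ} (hκ : 1 ≤ κ₀) (hj : κ₀ ≤ j) {Z : (PowerSeries M)ˣ}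
    (h : Inv τ L r K K₁ η₀ κ₀ j Z) (δ : ENNReal) (hδ : δ ≠ 0) (m : ℕ) :
    ∃ n, ∃ Φ ∈ E, Inv τ L r K K₁ η₀ κ₀ (j + n) (Z * Φ⁻¹) ∧
      tl r (j + n) ((Z * Φ⁻¹).val - 1) ≤
        δ + (8 * K * (1 + 8 * K)⁻¹) ^ m * tl r j (Z.val - 1) := by
  have hK := H.ne_top
  induction m with
  | zero =>
    refine ⟨0, 1, E.one_mem, ?_, ?_⟩
    · simpa using h
    · simp
  | succ m ih =>
    obtain ⟨n, Φ, hΦ, h1, h2⟩ := ih
    obtain ⟨n', Φ', hΦ', h3, h4⟩ := contract H hη hκ (by omega) h1 δ hδ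
    refine ⟨n + n', Φ' * Φ, E.mul_mem hΦ' hΦ, ?_, ?_⟩
    · rw [mul_inv_rev, ← mul_assoc, ← add_assoc]
      exact h3
    · rw [mul_inv_rev, ← mul_assoc, ← add_assoc]
      set s := (8 * K * (1 + 8 * K)⁻¹) ^ m * tl r j (Z.val - 1) with hs
      set t := tl r (j + n) ((Z * Φ⁻¹).val - 1) with ht
      have hne0 : (1 + 8 * K) ≠ 0 := by simp
      have hnet : (1 + 8 * K) ≠ ⊤ := by finiteness
      have e1 : (1 + 8 * K) * tl r (j + n + n') ((Z * Φ⁻¹ * Φ'⁻¹).val - 1) ≤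
          (1 + 8 * K) * (δ + 8 * K * (1 + 8 * K)⁻¹ * s) := by
        calc (1 + 8 * K) * tl r (j + n + n') ((Z * Φ⁻¹ * Φ'⁻¹).val - 1)
            ≤ δ + 8 * K * t := h4
          _ ≤ δ + 8 * K * (δ + s) := by gcongr
          _ = (1 + 8 * K) * δ + ((1 + 8 * K) * (1 + 8 * K)⁻¹) * (8 * K * s) := by
              rw [ENNReal.mul_inv_cancel hne0 hnet]; ring
          _ = _ := by ring
      have e2 := (ENNReal.mul_le_mul_iff_right hne0 hnet).mp e1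
      refine e2.trans (le_of_eq ?_)
      rw [hs, pow_succ]
      ring

theorem tail_small (H : Gen τ L E r K K₁) {η₀ : ENNReal} (hη : 8 * K * (2 * (1 + K) * η₀) ≤ 1)
    {κ₀ j : ℕ} (hκ : 1 ≤ κ₀) (hj : κ₀ ≤ j) {Z : (PowerSeries M)ˣ}
    (h : Inv τ L r K K₁ η₀ κ₀ j Z) (δ : ENNReal) (hδ : δ ≠ 0) :
    ∃ n, ∃ Φ ∈ E, Inv τ L r K K₁ η₀ κ₀ (j + n) (Z * Φ⁻¹) ∧
      tl r (j + n) ((Z * Φ⁻¹).val - 1) ≤ δ := by
  have hK := H.ne_top
  have hK0 : K ≠ 0 := fun h0 => by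
    have := H.one_le
    rw [h0] at this
    simp at this
  have hη₀ : η₀ ≠ ⊤ := by
    intro htop
    rw [htop, ENNReal.mul_top (by simp), ENNReal.mul_top (by simp [hK0])] at hη
    simp at hη
  have hNf : N r (Z.val - 1) ≠ ⊤ := by
    refine ne_top_of_le_ne_top ?_ h.N_le
    finiteness
  have hδ2 : δ / 2 ≠ 0 := by simpa using hδ
  have hθ : 8 * K * (1 + 8 * K)⁻¹ < 1 := by
    rw [← div_eq_mul_inv, ENNReal.div_lt_iff (by simp) (by left; finiteness), one_mul]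
    rw [add_comm]
    exact ENNReal.lt_add_right (by finiteness) (by simp)
  have ht : Filter.Tendsto (fun m => (8 * K * (1 + 8 * K)⁻¹) ^ m * tl r j (Z.val - 1))
      Filter.atTop (nhds 0) := by
    have := ENNReal.Tendsto.mul_const (b := tl r j (Z.val - 1))
      (ENNReal.tendsto_pow_atTop_nhds_zero_of_lt_one hθ)
      (Or.inr (ne_top_of_le_ne_top hNf (tl_le_N r j _)))
    rwa [zero_mul] at this
  obtain ⟨m, hm⟩ := (ht.eventually (gt_mem_nhds (pos_iff_ne_zero.mpr hδ2))).exists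
  obtain ⟨n, Φ, hΦ, h1, h2⟩ := tail_pow H hη hκ hj h (δ / 2) hδ2 m
  refine ⟨n, Φ, hΦ, h1, h2.trans ?_⟩
  calc δ / 2 + (8 * K * (1 + 8 * K)⁻¹) ^ m * tl r j (Z.val - 1) ≤ δ / 2 + δ / 2 := by gcongr
    _ = δ := ENNReal.add_halves δ

theorem hd_of_ord (r : NNReal) (j : ℕ) (f : PowerSeries M) (h : OrdGE j f) : hd r j f = 0 := by
  unfold hd
  refine Finset.sum_eq_zero fun d hd => ?_
  rw [h d (Finset.mem_range.mp hd)]
  simp

theorem inv_init {η₀ : ENNReal} {κ₀ : ℕ} {Y : (PowerSeries M)ˣ} (hord : OrdGE κ₀ (Y.val - 1))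
    (hgam : ∀ d, gam τ Y d = 0) (hN : N r (Y.val - 1) ≤ η₀) :
    Inv τ L r K K₁ η₀ κ₀ κ₀ Y where
  ord := hord
  gam := hgam
  pot := by
    rw [hd_of_ord r κ₀ _ hord, zero_add]
    gcongr
    exact (tl_le_N r _ _).trans hN
  fro := fun i h1 h2 => by omega
  int := fun _ => hord

theorem arith2 {K η₀ A NZ t : ENNReal} (hK : K ≠ ⊤) (hK1 : 1 ≤ K)
    (h1 : 16 * K * K * (2 * (1 + K) * η₀) ≤ 1) (h2 : NZ ≤ 2 * (1 + K) * η₀)
    (hA : 16 * A ≤ η₀) (ht : 16 * t ≤ η₀)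
    (h3 : NZ ≤ A + K * (2 * K * NZ ^ 2) + t) : 4 * NZ ≤ η₀ := by
  have hK0 : K ≠ 0 := fun h0 => by
    rw [h0] at hK1
    simp at hK1
  have hη : η₀ ≠ ⊤ := by
    intro h
    rw [h, ENNReal.mul_top (by simp), ENNReal.mul_top (by simp [hK0])] at h1
    simp at h1
  have hAt : A ≠ ⊤ := by
    intro h
    rw [h, ENNReal.mul_top (by simp)] at hA
    exact hη (top_le_iff.mp hA)
  have htt : t ≠ ⊤ := by
    intro h
    rw [h, ENNReal.mul_top (by simp)] at ht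
    exact hη (top_le_iff.mp ht)
  have hNt : NZ ≠ ⊤ := ne_top_of_le_ne_top (by finiteness) h2
  lift K to NNReal using hK
  lift η₀ to NNReal using hη
  lift A to NNReal using hAt
  lift t to NNReal using htt
  lift NZ to NNReal using hNt
  norm_cast at *
  rw [← NNReal.coe_le_coe] at *
  push_cast at *
  have k0 : 0 ≤ (K : ℝ) := K.coe_nonneg
  have η0 : 0 ≤ (η₀ : ℝ) := η₀.coe_nonneg
  have n0 : 0 ≤ (NZ : ℝ) := NZ.coe_nonneg
  have g1 : 16 * (K : ℝ) * K * NZ ≤ 1 := by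
    refine le_trans ?_ h1
    gcongr
  nlinarith

theorem process (H : Gen τ L E r K K₁) {η₀ : ENNReal}
    (hη : 16 * K * K * (2 * (1 + K) * η₀) ≤ 1) (hη0 : η₀ ≠ 0) {κ₀ : ℕ} (hκ : 1 ≤ κ₀)
    (hA : 16 * (K₁ * ((r : ENNReal) ^ κ₀ * (1 - (r : ENNReal))⁻¹)) ≤ η₀)
    {Y : (PowerSeries M)ˣ} (hord : OrdGE κ₀ (Y.val - 1))
    (hgam : ∀ d, gam τ Y d = 0) (hN : N r (Y.val - 1) ≤ η₀) :
    ∃ Φ ∈ E, 4 * N r ((Y * Φ⁻¹).val - 1) ≤ η₀ ∧ OrdGE κ₀ ((Y * Φ⁻¹).val - 1) := by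
  have hη' : 8 * K * (2 * (1 + K) * η₀) ≤ 1 := by
    refine le_trans ?_ hη
    gcongr ?_ * _
    calc 8 * K = 8 * K * 1 := by ring
      _ ≤ 16 * K * K := by
        gcongr
        · norm_num
        · exact H.one_le
  have hη1 : 2 * (1 + K) * η₀ ≤ 1 / 2 := by
    rw [ENNReal.le_div_iff_mul_le (by norm_num) (by norm_num)]
    refine le_trans ?_ hη
    calc 2 * (1 + K) * η₀ * 2 = 2 * 1 * 1 * (2 * (1 + K) * η₀) := by ring
      _ ≤ _ := by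
        gcongr
        · norm_num
        · exact H.one_le
        · exact H.one_le
  have hδ : η₀ / 16 ≠ 0 := by simpa using hη0
  obtain ⟨n, Φ, hΦ, h1, h2⟩ := tail_small H hη' hκ le_rfl
    (inv_init (K₁ := K₁) (L := L) (K := K) hord hgam hN) (η₀ / 16) hδ
  refine ⟨Φ, hΦ, ?_, h1.ord⟩
  set Z := Y * Φ⁻¹ with hZ
  have hq := tau_quad τ H.comm K H.bound r Z (h1.ord.mono hκ) h1.gam (h1.N_le.trans hη1)
  have ht : 16 * tl r (κ₀ + n) (Z.val - 1) ≤ η₀ := by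
    calc 16 * tl r (κ₀ + n) (Z.val - 1) ≤ 16 * (η₀ / 16) := by gcongr
      _ = η₀ := ENNReal.mul_div_cancel (by norm_num) (by norm_num)
  refine arith2 H.ne_top H.one_le hη h1.N_le hA ht ?_
  calc N r (Z.val - 1) = hd r (κ₀ + n) (Z.val - 1) + tl r (κ₀ + n) (Z.val - 1) :=
        (hd_add_tl r _ _).symm
    _ ≤ K₁ * ((r : ENNReal) ^ κ₀ * (1 - (r : ENNReal))⁻¹) + K * (2 * K * N r (Z.val - 1) ^ 2) +
        tl r (κ₀ + n) (Z.val - 1) := by
      refine add_le_add ?_ le_rfl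
      calc hd r (κ₀ + n) (Z.val - 1)
          ≤ ∑ i ∈ Finset.range (κ₀ + n), ((if κ₀ ≤ i then K₁ * (r : ENNReal) ^ i else 0) +
              K * (‖τ (coeff i (Z.val - 1))‖ₑ * (r : ENNReal) ^ i)) := by
            unfold hd
            refine Finset.sum_le_sum fun i hi => ?_
            rw [Finset.mem_range] at hi
            split_ifs with hi2
            · calc ‖coeff i (Z.val - 1)‖ₑ * (r : ENNReal) ^ i
                  ≤ (K₁ + K * ‖τ (coeff i (Z.val - 1))‖ₑ) * (r : ENNReal) ^ i := by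
                    gcongr
                    exact h1.fro i hi2 hi
                _ = _ := by ring
            · rw [h1.ord i (by omega)]
              simp
        _ ≤ ∑' i, ((if κ₀ ≤ i then K₁ * (r : ENNReal) ^ i else 0) +
              K * (‖τ (coeff i (Z.val - 1))‖ₑ * (r : ENNReal) ^ i)) :=
            ENNReal.sum_le_tsum (Finset.range (κ₀ + n))
        _ = (∑' i, (if κ₀ ≤ i then K₁ * (r : ENNReal) ^ i else 0)) +
              K * ∑' i, (‖τ (coeff i (Z.val - 1))‖ₑ * (r : ENNReal) ^ i) := by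
            rw [ENNReal.tsum_add, ENNReal.tsum_mul_left]
        _ ≤ _ := by
            refine add_le_add (le_of_eq ?_) ?_
            · rw [← Summable.sum_add_tsum_nat_add' (k := κ₀) ENNReal.summable]
              rw [Finset.sum_eq_zero, zero_add]
              · simp only [le_add_iff_nonneg_left, zero_le, if_true]
                rw [ENNReal.tsum_mul_left]
                simp_rw [pow_add]
                rw [ENNReal.tsum_mul_right, ENNReal.tsum_geometric]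
                ring
              · intro i hi
                rw [Finset.mem_range] at hi
                rw [if_neg (by omega)]
            · gcongr

theorem process_int (H : Gen τ L E r K K₁) {η₀ : ENNReal}
    (hη : 16 * K * K * (2 * (1 + K) * η₀) ≤ 1) {κ₀ : ℕ} (hκ : 1 ≤ κ₀)
    {Y : (PowerSeries M)ˣ} (hord : OrdGE κ₀ (Y.val - 1)) (hint : ∀ d, coeff d Y.val ∈ L)
    (hgam : ∀ d, gam τ Y d = 0) (hN : N r (Y.val - 1) ≤ η₀) (δ : ENNReal) (hδ : δ ≠ 0) :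
    ∃ Φ ∈ E, N r ((Y * Φ⁻¹).val - 1) ≤ δ := by
  have hη' : 8 * K * (2 * (1 + K) * η₀) ≤ 1 := by
    refine le_trans ?_ hη
    gcongr ?_ * _
    calc 8 * K = 8 * K * 1 := by ring
      _ ≤ 16 * K * K := by
        gcongr
        · norm_num
        · exact H.one_le
  obtain ⟨n, Φ, hΦ, h1, h2⟩ := tail_small H hη' hκ le_rfl
    (inv_init (K₁ := K₁) (L := L) (K := K) hord hgam hN) δ hδ
  refine ⟨Φ, hΦ, ?_⟩
  have hZ : ∀ d, coeff d (Y * Φ⁻¹).val ∈ L := by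
    intro d
    rw [Units.val_mul]
    exact coeff_mem_of_mul hint (H.int Φ⁻¹ (E.inv_mem hΦ)) d
  rw [← hd_add_tl r (κ₀ + n), hd_of_ord r _ _ (h1.int hZ), zero_add]
  exact h2

end Pool.Agent.TS
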