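import Pool.Agent.Lib.MP_402c18_an.Core2

/-!
# The homotopy lemma
-/

set_option autoImplicit false

namespace Pool.Agent.TS

open PowerSeries

section scale

variable {M : Type*} [NormedRing M] [NormedAlgebra ℝ M]

/-- `f(t) ↦ f(st)` -/
noncomputable def scale (s : ℝ) : PowerSeries M →+* PowerSeries M where
  toFun f := PowerSeries.mk fun d => s ^ d • coeff d f
  map_one' := by
    ext d
    rw [coeff_mk, coeff_one]
    split_ifs with h
    · simp [h]
    · simp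
  map_zero' := by
    ext d
    rw [coeff_mk]
    simp
  map_add' f g := by
    ext d
    rw [coeff_mk, map_add, map_add, coeff_mk, coeff_mk, smul_add]
  map_mul' f g := by
    ext d
    rw [coeff_mk, coeff_mul, coeff_mul, Finset.smul_sum]
    refine Finset.sum_congr rfl fun p hp => ?_
    rw [Finset.HasAntidiagonal.mem_antidiagonal] at hp
    rw [coeff_mk, coeff_mk, smul_mul_smul_comm, ← pow_add, hp]

theorem coeff_scale (s : ℝ) (f : PowerSeries M) (d : ℕ) :
    coeff d (scale s f) = s ^ d • coeff d f := by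
  show coeff d (PowerSeries.mk fun d => s ^ d • coeff d f) = _
  rw [coeff_mk]

/-- scaling on units -/
noncomputable def scaleU (s : ℝ) (V : (PowerSeries M)ˣ) : (PowerSeries M)ˣ :=
  Units.map (scale s).toMonoidHom V

theorem scaleU_val (s : ℝ) (V : (PowerSeries M)ˣ) : (scaleU s V).val = scale s V.val := rfl

theorem scaleU_inv_val (s : ℝ) (V : (PowerSeries M)ˣ) :
    ((scaleU s V)⁻¹).val = scale s (V⁻¹).val := rfl

theorem scaleU_one_arg (V : (PowerSeries M)ˣ) : scaleU 1 V = V := by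
  ext d
  rw [scaleU_val, coeff_scale, one_pow, one_smul]

theorem N_scale_le (r : NNReal) (s : ℝ) (h0 : 0 ≤ s) (h1 : s ≤ 1) (f : PowerSeries M) :
    N r (scale s f) ≤ N r f := by
  unfold N
  refine ENNReal.tsum_le_tsum fun d => ?_
  rw [coeff_scale, enorm_smul]
  gcongr
  have : ‖s ^ d‖ₑ ≤ 1 := by
    rw [Real.enorm_eq_ofReal_abs, show (1 : ENNReal) = ENNReal.ofReal 1 by simp]
    apply ENNReal.ofReal_le_ofReal
    rw [abs_of_nonneg (by positivity)]
    exact pow_le_one₀ h0 h1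
  calc ‖s ^ d‖ₑ * ‖coeff d f‖ₑ ≤ 1 * ‖coeff d f‖ₑ := by gcongr
    _ = _ := one_mul _

theorem abs_pow_sub_pow_le (s s' : ℝ) (h0 : 0 ≤ s) (h1 : s ≤ 1) (h0' : 0 ≤ s') (h1' : s' ≤ 1)
    (d : ℕ) : |s ^ d - s' ^ d| ≤ d * |s - s'| := by
  induction d with
  | zero => simp
  | succ d ih =>
    have e : s ^ (d + 1) - s' ^ (d + 1) = s * (s ^ d - s' ^ d) + s' ^ d * (s - s') := by ring
    rw [e]
    refine (abs_add_le _ _).trans ?_
    rw [abs_mul, abs_mul, abs_of_nonneg h0, abs_of_nonneg (pow_nonneg h0' d)]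
    have h2 : s * |s ^ d - s' ^ d| ≤ 1 * (d * |s - s'|) := by
      apply mul_le_mul h1 ih (abs_nonneg _) zero_le_one
    have h3 : s' ^ d * |s - s'| ≤ 1 * |s - s'| := by
      apply mul_le_mul_of_nonneg_right (pow_le_one₀ h0' h1') (abs_nonneg _)
    push_cast
    linarith

theorem abs_pow_sub_pow_le_one (s s' : ℝ) (h0 : 0 ≤ s) (h1 : s ≤ 1) (h0' : 0 ≤ s') (h1' : s' ≤ 1)
    (d : ℕ) : |s ^ d - s' ^ d| ≤ 1 := by
  have a1 := pow_le_one₀ (n := d) h0 h1
  have a2 := pow_le_one₀ (n := d) h0' h1'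
  have a3 := pow_nonneg h0 d
  have a4 := pow_nonneg h0' d
  rw [abs_le]
  constructor <;> linarith

theorem scale_continuity (r : NNReal) (f : PowerSeries M) (hf : N r f ≠ ⊤) (ε : ENNReal)
    (hε : ε ≠ 0) :
    ∃ δ : ℝ, 0 < δ ∧ ∀ s s' : ℝ, 0 ≤ s → s ≤ 1 → 0 ≤ s' → s' ≤ 1 → |s - s'| ≤ δ →
      N r (scale s f - scale s' f) ≤ ε := by
  have hε2 : ε / 2 ≠ 0 := by simpa using hε
  obtain ⟨J, hJ⟩ := ((tl_tendsto r f hf).eventually (gt_mem_nhds (pos_iff_ne_zero.mpr hε2))).exists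
  -- choose δ with ofReal (J δ) * N r f ≤ ε / 2
  have hcont : Filter.Tendsto (fun δ : ℝ => ENNReal.ofReal ((J : ℝ) * δ) * N r f)
      (nhdsWithin 0 (Set.Ioi 0)) (nhds 0) := by
    have h1 : Filter.Tendsto (fun δ : ℝ => ENNReal.ofReal ((J : ℝ) * δ))
        (nhdsWithin 0 (Set.Ioi 0)) (nhds 0) := by
      have h2 : Filter.Tendsto (fun δ : ℝ => (J : ℝ) * δ) (nhdsWithin 0 (Set.Ioi 0)) (nhds 0) := by
        have : Filter.Tendsto (fun δ : ℝ => (J : ℝ) * δ) (nhds 0) (nhds ((J : ℝ) * 0)) :=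
          (continuous_const.mul continuous_id).tendsto 0
        rw [mul_zero] at this
        exact this.mono_left nhdsWithin_le_nhds
      have := (ENNReal.continuous_ofReal.tendsto 0).comp h2
      rw [ENNReal.ofReal_zero] at this
      exact this
    have := ENNReal.Tendsto.mul_const h1 (b := N r f) (Or.inr hf)
    rwa [zero_mul] at this
  have hev := hcont.eventually (gt_mem_nhds (pos_iff_ne_zero.mpr hε2))
  obtain ⟨δ, hδ1, hδ2⟩ := (hev.and self_mem_nhdsWithin).exists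
  refine ⟨δ, hδ2, ?_⟩
  intro s s' h0 h1 h0' h1' hss
  have hcoef : ∀ d, coeff d (scale s f - scale s' f) = (s ^ d - s' ^ d) • coeff d f := by
    intro d
    rw [map_sub, coeff_scale, coeff_scale, sub_smul]
  rw [← hd_add_tl r J]
  calc hd r J (scale s f - scale s' f) + tl r J (scale s f - scale s' f)
      ≤ ENNReal.ofReal ((J : ℝ) * δ) * N r f + ε / 2 := by
        refine add_le_add ?_ ?_
        · calc hd r J (scale s f - scale s' f)
              ≤ ENNReal.ofReal ((J : ℝ) * δ) * hd r J f := by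
                unfold hd
                rw [Finset.mul_sum]
                refine Finset.sum_le_sum fun d hd => ?_
                rw [Finset.mem_range] at hd
                rw [hcoef, enorm_smul, ← mul_assoc]
                gcongr
                rw [Real.enorm_eq_ofReal_abs]
                apply ENNReal.ofReal_le_ofReal
                refine (abs_pow_sub_pow_le s s' h0 h1 h0' h1' d).trans ?_
                have : (d : ℝ) ≤ J := by exact_mod_cast hd.le
                gcongr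
            _ ≤ _ := by
                gcongr
                rw [← hd_add_tl r J f]
                exact le_self_add
        · refine le_trans ?_ hJ.le
          unfold tl
          refine ENNReal.tsum_le_tsum fun d => ?_
          rw [hcoef, enorm_smul]
          gcongr
          have : ‖s ^ (d + J) - s' ^ (d + J)‖ₑ ≤ 1 := by
            rw [Real.enorm_eq_ofReal_abs, show (1 : ENNReal) = ENNReal.ofReal 1 by simp]
            apply ENNReal.ofReal_le_ofReal
            exact abs_pow_sub_pow_le_one s s' h0 h1 h0' h1' _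
          calc ‖s ^ (d + J) - s' ^ (d + J)‖ₑ * ‖coeff (d + J) f‖ₑ ≤ 1 * ‖coeff (d + J) f‖ₑ := by
                gcongr
            _ = _ := one_mul _
    _ ≤ ε / 2 + ε / 2 := by gcongr
    _ = ε := ENNReal.add_halves ε

variable {T : Type*} [NormedAddCommGroup T] [NormedSpace ℝ T] (τ : M →+ T)

theorem Dt_scale (s : ℝ) (f : PowerSeries M) : Dt (scale s f) = scale s (Dt f) := by
  ext d
  rw [coeff_Dt, coeff_scale, coeff_scale, coeff_Dt, smul_comm]

theorem gam_scaleU (hτs : ∀ (c : ℝ) (a : M), τ (c • a) = c • τ a) (s : ℝ) (V : (PowerSeries M)ˣ)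
    (d : ℕ) : gam τ (scaleU s V) d = s ^ d • gam τ V d := by
  unfold gam
  rw [scaleU_inv_val, scaleU_val, Dt_scale, ← map_mul, coeff_scale, hτs]

end scale

section ordmul

variable {M : Type*} [Ring M]

theorem ord_mul {κ : ℕ} {f g : PowerSeries M} (hf : OrdGE κ (f - 1)) (hg : OrdGE κ (g - 1)) :
    OrdGE κ (f * g - 1) := by
  have e : f * g - 1 = (f - 1) * g + (g - 1) := by noncomm_ring
  rw [e]
  exact (OrdGE.mul_right _ hf).add hg

theorem ord_inv {κ : ℕ} {V : (PowerSeries M)ˣ} (hV : OrdGE κ (V.val - 1)) :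
    OrdGE κ ((V⁻¹).val - 1) := by
  have e : (V⁻¹).val - 1 = - ((V⁻¹).val * (V.val - 1)) := by
    rw [mul_sub, Units.inv_mul, mul_one]
    abel
  rw [e]
  exact (OrdGE.mul_left _ hV).neg

end ordmul

section homotopy

variable {M T : Type*} [NormedRing M] [NormedAlgebra ℝ M] [NormedAddCommGroup T] [NormedSpace ℝ T]
  {τ : M →+ T} {L : Subring M} {E : Subgroup (PowerSeries M)ˣ} {r : NNReal} {K K₁ : ENNReal}

theorem homotopy_step (H : Gen τ L E r K K₁)
    {η₀ : ENNReal} (hη : 16 * K * K * (2 * (1 + K) * η₀) ≤ 1) (hη0 : η₀ ≠ 0) {κ₀ : ℕ}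
    (hκ : 1 ≤ κ₀) (hA : 16 * (K₁ * ((r : ENNReal) ^ κ₀ * (1 - (r : ENNReal))⁻¹)) ≤ η₀)
    (V V' Φ : (PowerSeries M)ˣ) (hΦ : Φ ∈ E)
    (hV' : OrdGE κ₀ (V'.val - 1)) (hV : OrdGE κ₀ (V.val - 1))
    (hgam : ∀ d, gam τ V' d = 0) (ε₁ : ENNReal)
    (h1 : N r (V'.val - V.val) ≤ ε₁)
    (h2 : 4 * (ε₁ * N r (V⁻¹).val * (‖(1 : M)‖ₑ + η₀)) ≤ 3 * η₀)
    (h3 : 4 * N r ((V * Φ⁻¹).val - 1) ≤ η₀) (h4 : OrdGE κ₀ ((V * Φ⁻¹).val - 1)) :
    ∃ Φ' ∈ E, 4 * N r ((V' * Φ'⁻¹).val - 1) ≤ η₀ ∧ OrdGE κ₀ ((V' * Φ'⁻¹).val - 1) := by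
  have hN1 : N r ((V * Φ⁻¹).val - 1) ≤ η₀ := by
    refine le_trans ?_ h3
    calc N r ((V * Φ⁻¹).val - 1) = 1 * N r ((V * Φ⁻¹).val - 1) := by rw [one_mul]
      _ ≤ _ := by
        gcongr
        norm_num
  have hNZ : N r (V * Φ⁻¹).val ≤ ‖(1 : M)‖ₑ + η₀ := by
    have e : (V * Φ⁻¹).val = 1 + ((V * Φ⁻¹).val - 1) := by abel
    rw [e]
    refine (N_add_le r _ _).trans ?_
    rw [N_one]
    gcongr
  have hord : OrdGE κ₀ ((V' * Φ⁻¹).val - 1) := by
    have e : V' * Φ⁻¹ = V' * V⁻¹ * (V * Φ⁻¹) := by group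
    rw [e, Units.val_mul, Units.val_mul]
    exact ord_mul (ord_mul hV' (ord_inv hV)) h4
  have hNY : N r ((V' * Φ⁻¹).val - 1) ≤ η₀ := by
    have e : (V' * Φ⁻¹).val - 1 =
        (V'.val - V.val) * (V⁻¹).val * (V * Φ⁻¹).val + ((V * Φ⁻¹).val - 1) := by
      rw [sub_mul, sub_mul, Units.mul_inv, one_mul, Units.val_mul, Units.val_mul]
      have : V'.val * (V⁻¹).val * (V.val * (Φ⁻¹).val) = V'.val * (Φ⁻¹).val := by
        rw [mul_assoc, ← mul_assoc (V⁻¹).val, Units.inv_mul, one_mul]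
      rw [this]
      abel
    have e2 : 4 * N r ((V' * Φ⁻¹).val - 1) ≤ 4 * η₀ := by
      calc 4 * N r ((V' * Φ⁻¹).val - 1)
          ≤ 4 * (N r ((V'.val - V.val) * (V⁻¹).val * (V * Φ⁻¹).val) +
              N r ((V * Φ⁻¹).val - 1)) := by
            conv_lhs => rw [e]
            gcongr
            exact N_add_le r _ _
        _ ≤ 4 * (ε₁ * N r (V⁻¹).val * (‖(1 : M)‖ₑ + η₀)) + 4 * N r ((V * Φ⁻¹).val - 1) := by
            rw [mul_add]
            gcongr
            refine (N_mul_le r _ _).trans ?_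
            gcongr
            refine (N_mul_le r _ _).trans ?_
            gcongr
        _ ≤ 3 * η₀ + η₀ := add_le_add h2 h3
        _ = 4 * η₀ := by ring
    exact (ENNReal.mul_le_mul_iff_right (by norm_num) (by norm_num)).mp e2
  have hgam' : ∀ d, gam τ (V' * Φ⁻¹) d = 0 := by
    intro d
    rw [gam_mul τ H.comm, gam_inv τ H.comm, hgam d, H.gam_zero Φ hΦ d, neg_zero, add_zero]
  obtain ⟨Ψ, hΨ, h5, h6⟩ := process H hη hη0 hκ hA hord hgam' hNY
  refine ⟨Ψ * Φ, E.mul_mem hΨ hΦ, ?_, ?_⟩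
  · rw [mul_inv_rev, ← mul_assoc]
    exact h5
  · rw [mul_inv_rev, ← mul_assoc]
    exact h6

theorem ord_scale {κ : ℕ} {f : PowerSeries M} (s : ℝ) (hf : OrdGE κ (f - 1)) :
    OrdGE κ (scale s f - 1) := by
  have e : scale s f - 1 = scale s (f - 1) := by rw [map_sub, map_one]
  rw [e]
  intro d hd
  rw [coeff_scale, hf d hd, smul_zero]

/-- The homotopy lemma. -/
theorem homotopy (H : Gen τ L E r K K₁) (hτs : ∀ (c : ℝ) (a : M), τ (c • a) = c • τ a)
    {η₀ : ENNReal} (hη : 16 * K * K * (2 * (1 + K) * η₀) ≤ 1) (hη0 : η₀ ≠ 0) {κ₀ : ℕ}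
    (hκ : 1 ≤ κ₀) (hA : 16 * (K₁ * ((r : ENNReal) ^ κ₀ * (1 - (r : ENNReal))⁻¹)) ≤ η₀)
    (V : (PowerSeries M)ˣ) (hV : OrdGE κ₀ (V.val - 1)) (hgam : ∀ d, gam τ V d = 0)
    (hint : ∀ d, coeff d V.val ∈ L) (hN : N r V.val ≠ ⊤) (hN' : N r (V⁻¹).val ≠ ⊤)
    (δ : ENNReal) (hδ : δ ≠ 0) :
    ∃ Φ ∈ E, N r ((V * Φ⁻¹).val - 1) ≤ δ := by
  have hK0 : K ≠ 0 := fun h0 => by
    have := H.one_le
    rw [h0] at this
    simp at this
  have hηt : η₀ ≠ ⊤ := by
    intro h
    rw [h, ENNReal.mul_top (by simp), ENNReal.mul_top (by simp [hK0])] at hη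
    simp at hη
  -- choice of ε₁
  set W := 4 * (N r (V⁻¹).val * (‖(1 : M)‖ₑ + η₀)) with hW
  have h1t : ‖(1 : M)‖ₑ ≠ ⊤ := enorm_ne_top
  have hWt : W ≠ ⊤ := by rw [hW]; finiteness
  have hε : 3 * η₀ * (W + 1)⁻¹ ≠ 0 := by
    refine mul_ne_zero (mul_ne_zero (by norm_num) hη0) ?_
    exact ENNReal.inv_ne_zero.mpr (by finiteness)
  obtain ⟨δ₁, hδ₁, hcont⟩ := scale_continuity r V.val hN _ hε
  obtain ⟨n, hn⟩ := exists_nat_one_div_lt hδ₁
  have hmain : ∀ m : ℕ, m ≤ n + 1 → ∃ Φ ∈ E,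
      4 * N r ((scaleU ((m : ℝ) / (n + 1)) V * Φ⁻¹).val - 1) ≤ η₀ ∧
      OrdGE κ₀ ((scaleU ((m : ℝ) / (n + 1)) V * Φ⁻¹).val - 1) := by
    intro m
    induction m with
    | zero =>
      intro _
      have e : (scaleU ((0 : ℕ) / ((n : ℝ) + 1)) V).val - 1 = 0 := by
        rw [scaleU_val]
        ext d
        rw [map_sub, coeff_scale, map_zero]
        rcases Nat.eq_zero_or_pos d with hd | hd
        · have := hV 0 (by omega)
          rw [map_sub] at this
          rw [hd, pow_zero, one_smul, this]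
        · rw [coeff_one, if_neg (by omega)]
          rw [Nat.cast_zero, zero_div, zero_pow (by omega), zero_smul, sub_zero]
      refine ⟨1, E.one_mem, ?_, ?_⟩
      · rw [inv_one, mul_one, e, N_zero, mul_zero]
        exact zero_le
      · rw [inv_one, mul_one, e]
        intro d _
        simp
    | succ m ih =>
      intro hm
      obtain ⟨Φ, hΦ, h3, h4⟩ := ih (by omega)
      have hn1 : (0 : ℝ) < (n : ℝ) + 1 := by positivity
      have hm1 : ((m + 1 : ℕ) : ℝ) ≤ (n : ℝ) + 1 := by exact_mod_cast hm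
      have hs0 : (0 : ℝ) ≤ (m : ℝ) / (n + 1) := by positivity
      have hs1 : (m : ℝ) / (n + 1) ≤ 1 := by
        rw [div_le_one hn1]
        push_cast at hm1
        linarith
      have hs0' : (0 : ℝ) ≤ ((m + 1 : ℕ) : ℝ) / (n + 1) := by positivity
      have hs1' : ((m + 1 : ℕ) : ℝ) / (n + 1) ≤ 1 := by
        rw [div_le_one hn1]
        exact hm1
      have hdiff : |((m + 1 : ℕ) : ℝ) / (n + 1) - (m : ℝ) / (n + 1)| ≤ δ₁ := by
        rw [← sub_div]
        push_cast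
        rw [add_sub_cancel_left, abs_of_nonneg (by positivity)]
        exact hn.le
      have hc := hcont _ _ hs0' hs1' hs0 hs1 hdiff
      refine homotopy_step H hη hη0 hκ hA (scaleU ((m : ℝ) / (n + 1)) V)
        (scaleU (((m + 1 : ℕ) : ℝ) / (n + 1)) V) Φ hΦ ?_ ?_ ?_ _ hc ?_ h3 h4
      · rw [scaleU_val]
        exact ord_scale _ hV
      · rw [scaleU_val]
        exact ord_scale _ hV
      · intro d
        rw [gam_scaleU τ hτs, hgam d, smul_zero]
      · have e3 : N r ((scaleU ((m : ℝ) / (n + 1)) V)⁻¹).val ≤ N r (V⁻¹).val := by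
          rw [scaleU_inv_val]
          exact N_scale_le r _ hs0 hs1 _
        calc 4 * (3 * η₀ * (W + 1)⁻¹ * N r ((scaleU ((m : ℝ) / (n + 1)) V)⁻¹).val *
              (‖(1 : M)‖ₑ + η₀))
            ≤ 4 * (3 * η₀ * (W + 1)⁻¹ * N r (V⁻¹).val * (‖(1 : M)‖ₑ + η₀)) := by gcongr
          _ = 3 * η₀ * ((W + 1)⁻¹ * W) := by rw [hW]; ring
          _ ≤ 3 * η₀ * ((W + 1)⁻¹ * (W + 1)) := by
              gcongr
              exact le_self_add
          _ = 3 * η₀ := by
              rw [ENNReal.inv_mul_cancel (by simp) (by finiteness), mul_one]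
  obtain ⟨Φ, hΦ, h3, h4⟩ := hmain (n + 1) le_rfl
  have e4 : (((n + 1 : ℕ) : ℝ) / ((n : ℝ) + 1)) = 1 := by
    push_cast
    exact div_self (by positivity)
  rw [e4, scaleU_one_arg] at h3 h4
  have hN1 : N r ((V * Φ⁻¹).val - 1) ≤ η₀ := by
    refine le_trans ?_ h3
    calc N r ((V * Φ⁻¹).val - 1) = 1 * N r ((V * Φ⁻¹).val - 1) := by rw [one_mul]
      _ ≤ _ := by
        gcongr
        norm_num
  have hgam' : ∀ d, gam τ (V * Φ⁻¹) d = 0 := by
    intro d
    rw [gam_mul τ H.comm, gam_inv τ H.comm, hgam d, H.gam_zero Φ hΦ d, neg_zero, add_zero]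
  have hint' : ∀ d, coeff d (V * Φ⁻¹).val ∈ L := by
    intro d
    rw [Units.val_mul]
    exact coeff_mem_of_mul hint (H.int Φ⁻¹ (E.inv_mem hΦ)) d
  obtain ⟨Ψ, hΨ, h5⟩ := process_int H hη hκ h4 hint' hgam' hN1 δ hδ
  refine ⟨Ψ * Φ, E.mul_mem hΨ hΦ, ?_⟩
  rw [mul_inv_rev, ← mul_assoc]
  exact h5

end homotopy

end Pool.Agent.TS
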