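import Mathlib

/-!
# MP_402c18_an (S04445): common definitions

`R` is a (noncommutative) ring, in the application `R = MonoidAlgebra ℤ G`.
Polynomial matrices are matrices over `PowerSeries R` all of whose entries are `IsPoly`.
-/

set_option autoImplicit false

namespace Pool.Agent.TS

open PowerSeries

/-- Shift equivalence over `R` (the shape used by the frozen statement). -/
def SE {R : Type*} [Ring R] {ι κ : Type*} [Fintype ι] [DecidableEq ι] [Fintype κ] [DecidableEq κ]
    (A : Matrix ι ι R) (B : Matrix κ κ R) : Prop :=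
  ∃ (l : ℕ) (U : Matrix ι κ R) (V : Matrix κ ι R),
    A * U = U * B ∧ V * A = B * V ∧ U * V = A ^ l ∧ V * U = B ^ l

/-- A power series with only finitely many nonzero coefficients. -/
def IsPoly {R : Type*} [Semiring R] (f : PowerSeries R) : Prop :=
  ∃ K : ℕ, ∀ d, K ≤ d → coeff d f = 0

/-- A matrix of polynomials. -/
def MPoly {R : Type*} [Semiring R] {ι κ : Type*} (M : Matrix ι κ (PowerSeries R)) : Prop :=
  ∀ i j, IsPoly (M i j)

/-- The matrix `t A`. -/
noncomputable def tmul {R : Type*} [Ring R] {ι κ : Type*} (A : Matrix ι κ R) :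
    Matrix ι κ (PowerSeries R) :=
  A.map (fun x => monomial 1 x)

/-- The elementary matrix `1 + f E_{ab}`. -/
def el {S : Type*} [Ring S] {ι : Type*} [DecidableEq ι] (a b : ι) (f : S) : Matrix ι ι S :=
  1 + Matrix.single a b f

/-- The group generated by the elementary matrices `1 + f E_{ab}`, `a ≠ b`, `f ∈ P`. -/
def elGroup {S : Type*} [Ring S] (ι : Type*) [Fintype ι] [DecidableEq ι] (P : Set S) :
    Subgroup (Matrix ι ι S)ˣ :=
  Subgroup.closure {u | ∃ (a b : ι) (f : S), a ≠ b ∧ f ∈ P ∧ (u : Matrix ι ι S) = el a b f}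

/-- The weighted `ℓ¹` norm of a power series over the group ring of `G` (with values in `[0,∞]`). -/
noncomputable def wn {k G : Type*} [NormedRing k] [Group G] [Fintype G] (r : NNReal)
    (f : PowerSeries (MonoidAlgebra k G)) : ENNReal :=
  ∑' d : ℕ, (∑ g : G, ‖(coeff d f).coeff g‖ₑ) * (r : ENNReal) ^ d

/-- The weighted `ℓ¹` norm of a matrix of power series over the group ring. -/
noncomputable def mn {k G ι κ : Type*} [NormedRing k] [Group G] [Fintype G] [Fintype ι]
    [Fintype κ]
    (r : NNReal) (M : Matrix ι κ (PowerSeries (MonoidAlgebra k G))) : ENNReal :=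
  ∑ i, ∑ j, wn r (M i j)

/-- `x ≥ 0` in the group ring. -/
def NN {G : Type*} (x : MonoidAlgebra ℤ G) : Prop := ∀ g, 0 ≤ x.coeff g

/-- `x ≫ 0` in the group ring. -/
def PP {G : Type*} (x : MonoidAlgebra ℤ G) : Prop := ∀ g, 0 < x.coeff g

end Pool.Agent.TS
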