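import Pool.Agent.Lib.MP_402c18_an.Norm

/-!
# Further definitions: the target presentation with a hub
-/

set_option autoImplicit false

namespace Pool.Agent.TS

open PowerSeries

/-- The target matrix: hub `o`, hub loop `p - t^{2k} w`, hub row and column `t^k`, rest `D`. -/
noncomputable def starM {R : Type*} [Ring R] {ι : Type*} [DecidableEq ι] (o : ι)
    (p w : PowerSeries R) (D : Matrix ι ι (PowerSeries R)) (k : ℕ) : Matrix ι ι (PowerSeries R) :=
  fun i j => if i = o then (if j = o then p - X ^ (2 * k) * w else X ^ k)
    else (if j = o then X ^ k else D i j)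

/-- The matrix whose only nonzero column is `τ`, in position `o`. -/
noncomputable def colM {R : Type*} [Ring R] {ι : Type*} [DecidableEq ι] (o : ι)
    (τ : ι → PowerSeries R) : Matrix ι ι (PowerSeries R) :=
  fun i j => if j = o then τ i else 0

end Pool.Agent.TS
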