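import Pool.Agent.Lib.MP_402c18_an.Defs

/-!
# MP_402c18_an: from `H` to a polynomial presentation (piece HP)
-/

set_option autoImplicit false
set_option linter.unusedSectionVars false
set_option linter.unusedSimpArgs false

namespace Pool.Agent.TS.HP

open PowerSeries

section
variable {G : Type*}

theorem nn_zero : NN (0 : MonoidAlgebra ℤ G) := fun g => by simp

theorem nn_add {x y : MonoidAlgebra ℤ G} (hx : NN x) (hy : NN y) : NN (x + y) := fun g => by
  rw [MonoidAlgebra.coeff_add, Finsupp.add_apply]; exact add_nonneg (hx g) (hy g)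

theorem pp_nn {x : MonoidAlgebra ℤ G} (h : PP x) : NN x := fun g => (h g).le

theorem pp_add {x y : MonoidAlgebra ℤ G} (hx : PP x) (hy : NN y) : PP (x + y) := fun g => by
  rw [MonoidAlgebra.coeff_add, Finsupp.add_apply]; exact add_pos_of_pos_of_nonneg (hx g) (hy g)

theorem pp_add' {x y : MonoidAlgebra ℤ G} (hx : NN x) (hy : PP y) : PP (x + y) := fun g => by
  rw [MonoidAlgebra.coeff_add, Finsupp.add_apply]; exact add_pos_of_nonneg_of_pos (hx g) (hy g)

theorem nn_sum {ι : Type*} (s : Finset ι) (f : ι → MonoidAlgebra ℤ G)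
    (h : ∀ i ∈ s, NN (f i)) : NN (∑ i ∈ s, f i) :=
  Finset.sum_induction f NN (fun _ _ => nn_add) nn_zero h

theorem pp_sum {ι : Type*} (s : Finset ι) (f : ι → MonoidAlgebra ℤ G)
    (h : ∀ i ∈ s, NN (f i)) (i₀ : ι) (hi : i₀ ∈ s) (hp : PP (f i₀)) : PP (∑ i ∈ s, f i) := by
  classical
  rw [← Finset.add_sum_erase s f hi]
  exact pp_add hp (nn_sum _ _ fun i h' => h i (Finset.mem_of_mem_erase h'))

variable [Group G] [Fintype G]

theorem coeff_mul_group (x y : MonoidAlgebra ℤ G) (g : G) :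
    (x * y).coeff g = ∑ h : G, x.coeff h * y.coeff (h⁻¹ * g) := by
  classical
  rw [MonoidAlgebra.coeff_mul_antidiag x y g (Finset.univ.image fun h : G => (h, h⁻¹ * g))]
  · rw [Finset.sum_image]
    intro a _ b _ hab
    exact (Prod.ext_iff.1 hab).1
  · intro p
    simp only [Finset.mem_image, Finset.mem_univ, true_and]
    constructor
    · rintro ⟨h, rfl⟩
      simp
    · intro h
      refine ⟨p.1, ?_⟩
      ext
      · rfl
      · simp [← h]

theorem nn_mul {x y : MonoidAlgebra ℤ G} (hx : NN x) (hy : NN y) : NN (x * y) := fun g => by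
  rw [coeff_mul_group]
  exact Finset.sum_nonneg fun h _ => mul_nonneg (hx h) (hy _)

theorem exists_pos {x : MonoidAlgebra ℤ G} (hx : NN x) (h : x ≠ 0) : ∃ g, 0 < x.coeff g := by
  by_contra hc
  push Not at hc
  apply h
  ext g
  exact le_antisymm (hc g) (hx g)

theorem pp_mul {x y : MonoidAlgebra ℤ G} (hx : PP x) (hy : NN y) (h : y ≠ 0) : PP (x * y) :=
  fun g => by
  obtain ⟨k, hk⟩ := exists_pos hy h
  rw [coeff_mul_group]
  refine Finset.sum_pos' (fun h _ => mul_nonneg (hx h).le (hy _)) ⟨g * k⁻¹, Finset.mem_univ _, ?_⟩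
  have : (g * k⁻¹)⁻¹ * g = k := by group
  rw [this]
  exact mul_pos (hx _) hk

theorem pp_mul' {x y : MonoidAlgebra ℤ G} (hx : NN x) (h : x ≠ 0) (hy : PP y) : PP (x * y) :=
  fun g => by
  obtain ⟨k, hk⟩ := exists_pos hx h
  rw [coeff_mul_group]
  exact Finset.sum_pos' (fun h _ => mul_nonneg (hx h) (hy _).le)
    ⟨k, Finset.mem_univ _, mul_pos hk (hy _)⟩

theorem pp_ne_zero {x : MonoidAlgebra ℤ G} (hx : PP x) : x ≠ 0 := by
  intro h
  have := hx 1
  rw [h] at this
  simp at this

end

section geom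

variable {R : Type*} [Ring R] {n : Type*} [Fintype n]

/-- the coefficients up to `d` agree -/
def Agree (d : ℕ) (A B : Matrix n n (PowerSeries R)) : Prop :=
  ∀ i j, ∀ e ≤ d, coeff e (A i j) = coeff e (B i j)

theorem Agree.mul {d : ℕ} {A A' B B' : Matrix n n (PowerSeries R)} (hA : Agree d A A')
    (hB : Agree d B B') : Agree d (A * B) (A' * B') := by
  intro i j e he
  simp only [Matrix.mul_apply, map_sum, coeff_mul]
  refine Finset.sum_congr rfl fun k _ => Finset.sum_congr rfl fun p hp => ?_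
  have := Finset.HasAntidiagonal.mem_antidiagonal.1 hp
  rw [hA i k p.1 (by omega), hB k j p.2 (by omega)]

theorem Agree.refl (d : ℕ) (A : Matrix n n (PowerSeries R)) : Agree d A A := fun _ _ _ _ => rfl

variable [DecidableEq n]

theorem coeff_pow_eq_zero {P : Matrix n n (PowerSeries R)} (h0 : ∀ i j, coeff 0 (P i j) = 0)
    (N : ℕ) : ∀ i j, ∀ e < N, coeff e ((P ^ N) i j) = 0 := by
  induction N with
  | zero => intro i j e he; omega
  | succ N ih =>
    intro i j e he
    rw [pow_succ]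
    simp only [Matrix.mul_apply, map_sum, coeff_mul]
    refine Finset.sum_eq_zero fun k _ => Finset.sum_eq_zero fun p hp => ?_
    have := Finset.HasAntidiagonal.mem_antidiagonal.1 hp
    rcases Nat.eq_zero_or_pos p.2 with h | h
    · rw [h, h0, mul_zero]
    · rw [ih i k p.1 (by omega), zero_mul]

/-- the geometric series -/
noncomputable def geo (P : Matrix n n (PowerSeries R)) : Matrix n n (PowerSeries R) :=
  fun i j => PowerSeries.mk fun d => coeff d ((∑ k ∈ Finset.range (d + 1), P ^ k) i j)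

theorem agree_geo {P : Matrix n n (PowerSeries R)} (h0 : ∀ i j, coeff 0 (P i j) = 0) (d N : ℕ)
    (h : d < N) : Agree d (geo P) (∑ k ∈ Finset.range N, P ^ k) := by
  intro i j e he
  rw [geo, coeff_mk]
  simp only [Matrix.sum_apply, map_sum]
  refine Finset.sum_subset (Finset.range_subset_range.2 (by omega)) fun k _ hk' => ?_
  simp only [Finset.mem_range, not_lt] at hk'
  exact coeff_pow_eq_zero h0 k i j e (by omega)

theorem geo_mul {P : Matrix n n (PowerSeries R)} (h0 : ∀ i j, coeff 0 (P i j) = 0) :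
    geo P * (1 - P) = 1 := by
  ext i j d
  rw [(agree_geo h0 d (d + 1) (by omega)).mul (Agree.refl d (1 - P)) i j d le_rfl,
    geom_sum_mul_neg, Matrix.sub_apply, map_sub, coeff_pow_eq_zero h0 (d + 1) i j d (by omega),
    sub_zero]

theorem mul_geo {P : Matrix n n (PowerSeries R)} (h0 : ∀ i j, coeff 0 (P i j) = 0) :
    (1 - P) * geo P = 1 := by
  ext i j d
  rw [(Agree.refl d (1 - P)).mul (agree_geo h0 d (d + 1) (by omega)) i j d le_rfl,
    mul_neg_geom_sum, Matrix.sub_apply, map_sub, coeff_pow_eq_zero h0 (d + 1) i j d (by omega),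
    sub_zero]

theorem geo_eq_right {P : Matrix n n (PowerSeries R)} (h0 : ∀ i j, coeff 0 (P i j) = 0) :
    geo P = 1 + geo P * P := by
  have := geo_mul h0
  rw [mul_sub, mul_one] at this
  rw [← this]; abel

theorem geo_eq_left {P : Matrix n n (PowerSeries R)} (h0 : ∀ i j, coeff 0 (P i j) = 0) :
    geo P = 1 + P * geo P := by
  have := mul_geo h0
  rw [sub_mul, one_mul] at this
  rw [← this]; abel

end geom

section nnm

variable {G : Type*} [Group G] [Fintype G] {n : Type*} [Fintype n]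

/-- all coefficients are nonnegative -/
def NNM {m : Type*} (P : Matrix n m (PowerSeries (MonoidAlgebra ℤ G))) : Prop :=
  ∀ i j d, NN (coeff d (P i j))

theorem NNM.add {P Q : Matrix n n (PowerSeries (MonoidAlgebra ℤ G))} (hP : NNM P) (hQ : NNM Q) :
    NNM (P + Q) := fun i j d => by
  rw [Matrix.add_apply, map_add]; exact nn_add (hP i j d) (hQ i j d)

theorem nn_coeff_mul {f g : PowerSeries (MonoidAlgebra ℤ G)} (hf : ∀ d, NN (coeff d f))
    (hg : ∀ d, NN (coeff d g)) (d : ℕ) : NN (coeff d (f * g)) := by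
  rw [coeff_mul]
  exact nn_sum _ _ fun p _ => nn_mul (hf _) (hg _)

theorem pp_coeff_mul {f g : PowerSeries (MonoidAlgebra ℤ G)} (hf : ∀ d, NN (coeff d f))
    (hg : ∀ d, NN (coeff d g)) (a b : ℕ) (h : PP (coeff a f * coeff b g)) :
    PP (coeff (a + b) (f * g)) := by
  rw [coeff_mul]
  exact pp_sum _ _ (fun p _ => nn_mul (hf _) (hg _)) (a, b) (by simp) h

theorem NNM.mul {P Q : Matrix n n (PowerSeries (MonoidAlgebra ℤ G))} (hP : NNM P) (hQ : NNM Q) :
    NNM (P * Q) := fun i j d => by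
  rw [Matrix.mul_apply, map_sum]
  exact nn_sum _ _ fun k _ => nn_coeff_mul (hP i k) (hQ k j) d

theorem NNM.pp_mul {P Q : Matrix n n (PowerSeries (MonoidAlgebra ℤ G))} (hP : NNM P)
    (hQ : NNM Q) {i j k : n} {a b : ℕ} (h : PP (coeff a (P i k) * coeff b (Q k j))) :
    PP (coeff (a + b) ((P * Q) i j)) := by
  rw [Matrix.mul_apply, map_sum]
  exact pp_sum _ _ (fun k _ => nn_coeff_mul (hP i k) (hQ k j) _) k (Finset.mem_univ _)
    (pp_coeff_mul (hP i k) (hQ k j) a b h)

variable [DecidableEq n]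

theorem nn_one : NN (1 : MonoidAlgebra ℤ G) := fun g => by
  classical
  rw [MonoidAlgebra.one_def, MonoidAlgebra.coeff_single, Finsupp.single_apply]
  split_ifs <;> simp

theorem NNM.one : NNM (1 : Matrix n n (PowerSeries (MonoidAlgebra ℤ G))) := fun i j d => by
  rw [Matrix.one_apply]
  split_ifs
  · rw [coeff_one]
    split_ifs
    · exact nn_one
    · exact nn_zero
  · rw [map_zero]; exact nn_zero

theorem NNM.pow {P : Matrix n n (PowerSeries (MonoidAlgebra ℤ G))} (hP : NNM P) (k : ℕ) :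
    NNM (P ^ k) := by
  induction k with
  | zero => rw [pow_zero]; exact NNM.one
  | succ k ih => rw [pow_succ]; exact ih.mul hP

theorem NNM.geo {P : Matrix n n (PowerSeries (MonoidAlgebra ℤ G))} (hP : NNM P) :
    NNM (geo P) := fun i j d => by
  rw [HP.geo, coeff_mk, Matrix.sum_apply, map_sum]
  exact nn_sum _ _ fun k _ => hP.pow k i j d

section pos
variable {P : Matrix n n (PowerSeries (MonoidAlgebra ℤ G))} (hP : NNM P)
  (h0 : ∀ i j, coeff 0 (P i j) = 0)
include hP h0

theorem pp_geo_right {i j k : n} {a b : ℕ}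
    (h : PP (coeff a (geo P i k) * coeff b (P k j))) : PP (coeff (a + b) (geo P i j)) := by
  rw [geo_eq_right h0, Matrix.add_apply, map_add]
  exact pp_add' (NNM.one i j _) (hP.geo.pp_mul hP h)

theorem pp_geo_left {i j k : n} {a b : ℕ}
    (h : PP (coeff a (P i k) * coeff b (geo P k j))) : PP (coeff (a + b) (geo P i j)) := by
  rw [geo_eq_left h0, Matrix.add_apply, map_add]
  exact pp_add' (NNM.one i j _) (hP.pp_mul hP.geo h)

theorem pp_geo_self {i j : n} {a : ℕ}
    (h : PP (coeff a (P i j))) : PP (coeff a (geo P i j)) := by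
  have : geo P = 1 + (P + P * (P * geo P)) := by
    conv_lhs => rw [geo_eq_left h0, geo_eq_left h0]
    rw [mul_add, mul_one]
  rw [this, Matrix.add_apply, map_add, Matrix.add_apply, map_add]
  exact pp_add' (NNM.one i j _) (pp_add h ((hP.mul (hP.mul hP.geo)) i j _))

end pos

end nnm

section poly

variable {R : Type*} [Ring R]

theorem isPoly_zero : IsPoly (0 : PowerSeries R) := ⟨0, fun d _ => by simp⟩

theorem isPoly_one : IsPoly (1 : PowerSeries R) :=
  ⟨1, fun d hd => by rw [coeff_one, if_neg (by omega)]⟩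

theorem isPoly_add {f g : PowerSeries R} (hf : IsPoly f) (hg : IsPoly g) : IsPoly (f + g) := by
  obtain ⟨a, ha⟩ := hf
  obtain ⟨b, hb⟩ := hg
  exact ⟨max a b, fun d hd => by
    rw [map_add, ha d (le_trans (le_max_left _ _) hd), hb d (le_trans (le_max_right _ _) hd),
      add_zero]⟩

theorem isPoly_neg {f : PowerSeries R} (hf : IsPoly f) : IsPoly (-f) := by
  obtain ⟨a, ha⟩ := hf
  exact ⟨a, fun d hd => by rw [map_neg, ha d hd, neg_zero]⟩

theorem isPoly_sub {f g : PowerSeries R} (hf : IsPoly f) (hg : IsPoly g) : IsPoly (f - g) := by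
  rw [sub_eq_add_neg]; exact isPoly_add hf (isPoly_neg hg)

theorem isPoly_mul {f g : PowerSeries R} (hf : IsPoly f) (hg : IsPoly g) : IsPoly (f * g) := by
  obtain ⟨a, ha⟩ := hf
  obtain ⟨b, hb⟩ := hg
  refine ⟨a + b, fun d hd => ?_⟩
  rw [coeff_mul]
  refine Finset.sum_eq_zero fun p hp => ?_
  have := Finset.HasAntidiagonal.mem_antidiagonal.1 hp
  rcases le_or_gt a p.1 with h | h
  · rw [ha _ h, zero_mul]
  · rw [hb _ (by omega), mul_zero]

theorem isPoly_sum {ι : Type*} (s : Finset ι) (f : ι → PowerSeries R)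
    (h : ∀ i ∈ s, IsPoly (f i)) : IsPoly (∑ i ∈ s, f i) :=
  Finset.sum_induction f IsPoly (fun _ _ => isPoly_add) isPoly_zero h

theorem mpoly_mul {l m n : Type*} [Fintype m] {A : Matrix l m (PowerSeries R)}
    {B : Matrix m n (PowerSeries R)} (hA : MPoly A) (hB : MPoly B) : MPoly (A * B) := by
  intro i j
  rw [Matrix.mul_apply]
  exact isPoly_sum _ _ fun k _ => isPoly_mul (hA i k) (hB k j)

theorem mpoly_one {n : Type*} [DecidableEq n] : MPoly (1 : Matrix n n (PowerSeries R)) := by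
  intro i j
  rw [Matrix.one_apply]
  split_ifs
  · exact isPoly_one
  · exact isPoly_zero

theorem mpoly_add {l m : Type*} {A B : Matrix l m (PowerSeries R)} (hA : MPoly A) (hB : MPoly B) :
    MPoly (A + B) := fun i j => isPoly_add (hA i j) (hB i j)

theorem mpoly_sub {l m : Type*} {A B : Matrix l m (PowerSeries R)} (hA : MPoly A) (hB : MPoly B) :
    MPoly (A - B) := fun i j => isPoly_sub (hA i j) (hB i j)

theorem mpoly_neg {l m : Type*} {A : Matrix l m (PowerSeries R)} (hA : MPoly A) :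
    MPoly (-A) := fun i j => isPoly_neg (hA i j)

theorem mpoly_zero {l m : Type*} : MPoly (0 : Matrix l m (PowerSeries R)) :=
  fun _ _ => isPoly_zero

theorem mpoly_fromBlocks {l m n o : Type*} {A : Matrix n l (PowerSeries R)}
    {B : Matrix n m (PowerSeries R)} {C : Matrix o l (PowerSeries R)}
    {D : Matrix o m (PowerSeries R)} (hA : MPoly A) (hB : MPoly B) (hC : MPoly C)
    (hD : MPoly D) : MPoly (Matrix.fromBlocks A B C D) := by
  rintro (i | i) (j | j)
  · exact hA i j
  · exact hB i j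
  · exact hC i j
  · exact hD i j

theorem mpoly_bound {l m : Type*} [Finite l] [Finite m] {A : Matrix l m (PowerSeries R)}
    (hA : MPoly A) : ∃ K : ℕ, ∀ i j d, K ≤ d → coeff d (A i j) = 0 := by
  classical
  cases nonempty_fintype l
  cases nonempty_fintype m
  choose K hK using hA
  refine ⟨∑ i, ∑ j, K i j, fun i j d hd => hK i j d (le_trans ?_ hd)⟩
  calc K i j ≤ ∑ j, K i j := Finset.single_le_sum (f := fun j => K i j)
        (fun _ _ => Nat.zero_le _) (Finset.mem_univ j)
    _ ≤ ∑ i, ∑ j, K i j := Finset.single_le_sum (f := fun i => ∑ j, K i j)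
        (fun _ _ => Nat.zero_le _) (Finset.mem_univ i)

end poly

section units

variable {S : Type*} [Ring S] {ι κ : Type*} [Fintype ι] [DecidableEq ι] [Fintype κ]
  [DecidableEq κ]

/-- lower unipotent block matrix -/
def lowU (r : Matrix κ ι S) : (Matrix (ι ⊕ κ) (ι ⊕ κ) S)ˣ where
  val := Matrix.fromBlocks 1 0 r 1
  inv := Matrix.fromBlocks 1 0 (-r) 1
  val_inv := by simp [Matrix.fromBlocks_multiply]
  inv_val := by simp [Matrix.fromBlocks_multiply]

/-- upper unipotent block matrix -/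
def upU (c : Matrix ι κ S) : (Matrix (ι ⊕ κ) (ι ⊕ κ) S)ˣ where
  val := Matrix.fromBlocks 1 c 0 1
  inv := Matrix.fromBlocks 1 (-c) 0 1
  val_inv := by simp [Matrix.fromBlocks_multiply]
  inv_val := by simp [Matrix.fromBlocks_multiply]

theorem block_identity (X Q U T : Matrix ι ι S) (tc : Matrix ι κ S) (er : Matrix κ ι S)
    (hT : tc * er = T) (hU : U = (1 - T - X) - (1 - T) * Q) :
    (lowU er * upU (-tc)).val * Matrix.fromBlocks X 0 0 1 * (lowU (er * Q - er)).val
      = 1 - Matrix.fromBlocks (Q + U) tc (er * U) (er * tc) := by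
  have h1 : (lowU er * upU (-tc)).val = Matrix.fromBlocks 1 (-tc) er (1 - er * tc) := by
    rw [Units.val_mul]
    change Matrix.fromBlocks 1 0 er 1 * Matrix.fromBlocks 1 (-tc) 0 1 = _
    rw [Matrix.fromBlocks_multiply]
    simp only [Matrix.mul_one, Matrix.mul_zero, Matrix.mul_neg, Matrix.one_mul, add_zero]
    rw [sub_eq_neg_add]
  have h2 : (lowU (ι := ι) (er * Q - er)).val = Matrix.fromBlocks 1 0 (er * Q - er) 1 := rfl
  have h4 : (1 : Matrix (ι ⊕ κ) (ι ⊕ κ) S) - Matrix.fromBlocks (Q + U) tc (er * U) (er * tc)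
      = Matrix.fromBlocks (1 - (Q + U)) (-tc) (-(er * U)) (1 - er * tc) := by
    rw [← Matrix.fromBlocks_one (l := ι) (m := κ), sub_eq_add_neg, Matrix.fromBlocks_neg,
      Matrix.fromBlocks_add]
    simp only [← sub_eq_add_neg, zero_sub]
  have e1 : tc * (er * Q) = T * Q := by rw [← Matrix.mul_assoc, hT]
  have e2 : er * tc * (er * Q) = er * (T * Q) := by
    rw [Matrix.mul_assoc, e1]
  have e3 : er * tc * er = er * T := by rw [Matrix.mul_assoc, hT]
  rw [h1, h2, h4, Matrix.fromBlocks_multiply, Matrix.fromBlocks_multiply, Matrix.fromBlocks_inj]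
  refine ⟨?_, ?_, ?_, ?_⟩
  · simp only [Matrix.mul_one, Matrix.mul_zero, Matrix.mul_neg, Matrix.one_mul, Matrix.neg_mul,
      add_zero, zero_add, neg_zero, Matrix.mul_sub, e1, hT]
    rw [hU, Matrix.sub_mul, Matrix.one_mul]
    abel
  · simp
  · simp only [Matrix.mul_one, Matrix.mul_zero, Matrix.mul_neg, Matrix.one_mul, Matrix.neg_mul,
      add_zero, zero_add, neg_zero, Matrix.mul_sub, Matrix.sub_mul, e2, e3]
    rw [hU]
    simp only [Matrix.mul_sub, Matrix.sub_mul, Matrix.one_mul, Matrix.mul_one]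
    abel
  · simp

end units

end Pool.Agent.TS.HP

namespace Pool.Agent.TS

open PowerSeries HP

theorem presentation_of_H {G : Type*} [Group G] [Fintype G]
    {ι : Type*} [Fintype ι] [DecidableEq ι] (o : ι)
    (X H : Matrix ι ι (PowerSeries (MonoidAlgebra ℤ G)))
    (τ : ι → PowerSeries (MonoidAlgebra ℤ G))
    (hX : MPoly X) (hX0 : ∀ i j, coeff 0 (X i j) = if i = j then 1 else 0)
    (hτ : ∀ i, IsPoly (τ i)) (hτ0 : ∀ i, coeff 0 (τ i) = 0) (hτn : ∀ i d, NN (coeff d (τ i)))
    (hτo : τ o ≠ 0)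
    (T : Matrix ι ι (PowerSeries (MonoidAlgebra ℤ G)))
    (hT : T = fun i j => if j = o then τ i else 0)
    (hH : (1 - T) * H = 1 - T - X) (hHn : ∀ i j d, NN (coeff d (H i j)))
    (hHp : ∃ D : ℕ, ∀ d, D ≤ d → ∀ i j, PP (coeff d (H i j))) :
    ∃ (P : Matrix (ι ⊕ Unit) (ι ⊕ Unit) (PowerSeries (MonoidAlgebra ℤ G)))
      (E F : (Matrix (ι ⊕ Unit) (ι ⊕ Unit) (PowerSeries (MonoidAlgebra ℤ G)))ˣ)
      (S : Matrix (ι ⊕ Unit) (ι ⊕ Unit) (PowerSeries (MonoidAlgebra ℤ G))),
      MPoly P ∧ (∀ i j, coeff 0 (P i j) = 0) ∧ (∀ i j d, NN (coeff d (P i j))) ∧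
      MPoly E.val ∧ MPoly (E⁻¹).val ∧ MPoly F.val ∧ MPoly (F⁻¹).val ∧
      E.val * Matrix.fromBlocks X 0 0 1 * F.val = 1 - P ∧
      S * (1 - P) = 1 ∧
      (∀ i j, ∃ D : ℕ, ∀ d, D ≤ d → PP (coeff d (S i j))) := by
  classical
  -- constants
  obtain ⟨D₁, hD₁⟩ := hHp
  have hTpoly : MPoly T := by
    intro i j
    rw [hT]
    by_cases h : j = o
    · simpa [h] using hτ i
    · simpa [h] using isPoly_zero
  obtain ⟨K, hK⟩ := mpoly_bound (mpoly_sub (mpoly_sub (mpoly_one (n := ι)) hTpoly) hX)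
  set s : ℕ := max D₁ 1 with hs
  have hs1 : 1 ≤ s := le_max_right _ _
  have hsD : D₁ ≤ s := le_max_left _ _
  set D : ℕ := max (2 * s) K + 1 with hD
  have hDs : 2 * s + 1 ≤ D := by
    have := le_max_left (2 * s) K
    omega
  have hDK : K ≤ D := by
    have := le_max_right (2 * s) K
    omega
  obtain ⟨e, he⟩ : ∃ e, coeff e (τ o) ≠ 0 := by
    by_contra hc
    push Not at hc
    exact hτo (PowerSeries.ext fun d => by rw [hc d, map_zero])
  have he1 : 1 ≤ e := by
    rcases Nat.eq_zero_or_pos e with h | h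
    · exact absurd (h ▸ hτ0 o) he
    · exact h
  -- the truncation
  set Q' : Matrix ι ι (PowerSeries (MonoidAlgebra ℤ G)) :=
    fun i j => PowerSeries.mk fun d => if d < D then coeff d (H i j) else 0 with hQ'
  have hQ'lt : ∀ i j d, d < D → coeff d (Q' i j) = coeff d (H i j) := fun i j d h => by
    rw [hQ']; simp [h]
  have hQ'ge : ∀ i j d, D ≤ d → coeff d (Q' i j) = 0 := fun i j d h => by
    rw [hQ']; simp [not_lt.2 h]
  have hQ'n : ∀ i j d, NN (coeff d (Q' i j)) := fun i j d => by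
    rcases lt_or_ge d D with h | h
    · rw [hQ'lt i j d h]; exact hHn i j d
    · rw [hQ'ge i j d h]; exact nn_zero
  have hQ'poly : MPoly Q' := fun i j => ⟨D, fun d hd => hQ'ge i j d hd⟩
  set U : Matrix ι ι (PowerSeries (MonoidAlgebra ℤ G)) := (1 - T - X) - (1 - T) * Q' with hU
  have hUpoly : MPoly U :=
    mpoly_sub (mpoly_sub (mpoly_sub mpoly_one hTpoly) hX)
      (mpoly_mul (mpoly_sub mpoly_one hTpoly) hQ'poly)
  have hTQ : ∀ i j, (T * Q') i j = τ i * Q' o j := by
    intro i j
    rw [Matrix.mul_apply, hT]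
    simp
  have hUlt : ∀ i j d, d < D → coeff d (U i j) = 0 := by
    intro i j d hd
    have : U = (1 - T) * (H - Q') := by rw [hU, ← hH, mul_sub]
    rw [this]
    simp only [Matrix.mul_apply, map_sum, coeff_mul]
    refine Finset.sum_eq_zero fun k _ => Finset.sum_eq_zero fun p hp => ?_
    have := Finset.HasAntidiagonal.mem_antidiagonal.1 hp
    rw [Matrix.sub_apply H Q' k j, map_sub, hQ'lt k j p.2 (by omega), sub_self, mul_zero]
  have hUge : ∀ i j d, D ≤ d → coeff d (U i j) = coeff d (τ i * Q' o j) := by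
    intro i j d hd
    rw [hU, sub_mul, one_mul, ← hTQ]
    simp only [Matrix.sub_apply, map_sub] at hK ⊢
    rw [hK i j d (by omega), hQ'ge i j d hd]
    simp
  have hUn : ∀ i j d, NN (coeff d (U i j)) := by
    intro i j d
    rcases lt_or_ge d D with h | h
    · rw [hUlt i j d h]; exact nn_zero
    · rw [hUge i j d h]; exact nn_coeff_mul (hτn i) (hQ'n o j) d
  -- the presentation
  set P : Matrix (ι ⊕ Unit) (ι ⊕ Unit) (PowerSeries (MonoidAlgebra ℤ G)) :=
    Matrix.fromBlocks (Q' + U) (fun i _ => τ i) (fun _ j => U o j) (fun _ _ => τ o) with hP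
  have hPpoly : MPoly P :=
    mpoly_fromBlocks (mpoly_add hQ'poly hUpoly) (fun i _ => hτ i) (fun _ j => hUpoly o j)
      (fun _ _ => hτ o)
  have hPn : NNM P := by
    rintro (i | i) (j | j) d
    · change NN (coeff d (Q' i j + U i j))
      rw [map_add]; exact nn_add (hQ'n i j d) (hUn i j d)
    · exact hτn i d
    · exact hUn o j d
    · exact hτn o d
  have hT0 : ∀ i k, coeff 0 (T i k) = 0 := by
    intro i k
    rw [hT]
    by_cases h : k = o
    · simpa [h] using hτ0 i
    · simp [h]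
  have hH0 : ∀ i j, coeff 0 (H i j) = 0 := by
    intro i j
    have h1 : H = T * H + (1 - T - X) := by
      rw [← hH]; noncomm_ring
    rw [h1, Matrix.add_apply, map_add, Matrix.mul_apply, map_sum]
    have h2 : ∀ k, coeff 0 (T i k * H k j) = 0 := by
      intro k
      rw [coeff_zero_eq_constantCoeff_apply, map_mul, ← coeff_zero_eq_constantCoeff_apply, hT0,
        zero_mul]
    rw [Finset.sum_eq_zero fun k _ => h2 k, zero_add]
    simp only [Matrix.sub_apply, map_sub, hT0, hX0, Matrix.one_apply]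
    by_cases h : i = j
    · simp [h]
    · simp [h]
  have hP0 : ∀ i j, coeff 0 (P i j) = 0 := by
    rintro (i | i) (j | j)
    · change coeff 0 (Q' i j + U i j) = 0
      rw [map_add, hQ'lt i j 0 (by omega), hH0, hUlt i j 0 (by omega), add_zero]
    · exact hτ0 i
    · exact hUlt o j 0 (by omega)
    · exact hτ0 o
  set tc : Matrix ι Unit (PowerSeries (MonoidAlgebra ℤ G)) := Matrix.of fun i _ => τ i with htc
  set er : Matrix Unit ι (PowerSeries (MonoidAlgebra ℤ G)) :=
    Matrix.of fun _ j => (1 : Matrix ι ι (PowerSeries (MonoidAlgebra ℤ G))) o j with her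
  have her_mul : ∀ (M : Matrix ι ι (PowerSeries (MonoidAlgebra ℤ G))),
      er * M = Matrix.of fun _ j => M o j := by
    intro M
    ext u j : 2
    rw [Matrix.mul_apply]
    simp [her, Matrix.one_apply]
  have hT1 : tc * er = T := by
    ext i j : 2
    rw [hT, Matrix.mul_apply]
    by_cases h : j = o
    · simp [her, htc, h]
    · simp [her, htc, h, Matrix.one_apply, Ne.symm h]
  have her_tc : er * tc = Matrix.of fun _ _ => τ o := by
    ext u v : 2
    rw [Matrix.mul_apply]
    simp [her, htc, Matrix.one_apply]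
  have hpoly_er : MPoly er := fun _ j => mpoly_one o j
  have hpoly_tc : MPoly tc := fun i _ => hτ i
  have hPdef : P = Matrix.fromBlocks (Q' + U) tc (er * U) (er * tc) := by
    rw [her_mul, her_tc]
    rfl
  have hprod : (lowU er * upU (-tc)).val * Matrix.fromBlocks X 0 0 1 *
      (lowU (er * Q' - er)).val = 1 - P := by
    rw [hPdef]
    exact block_identity X Q' U T tc er hT1 hU
  have hlow : ∀ r : Matrix Unit ι (PowerSeries (MonoidAlgebra ℤ G)), MPoly r →
      MPoly (lowU r).val := fun r hr => mpoly_fromBlocks mpoly_one mpoly_zero hr mpoly_one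
  have hlow' : ∀ r : Matrix Unit ι (PowerSeries (MonoidAlgebra ℤ G)), MPoly r →
      MPoly ((lowU r)⁻¹).val :=
    fun r hr => mpoly_fromBlocks mpoly_one mpoly_zero (mpoly_neg hr) mpoly_one
  have hup : ∀ r : Matrix ι Unit (PowerSeries (MonoidAlgebra ℤ G)), MPoly r →
      MPoly (upU r).val := fun r hr => mpoly_fromBlocks mpoly_one hr mpoly_zero mpoly_one
  have hup' : ∀ r : Matrix ι Unit (PowerSeries (MonoidAlgebra ℤ G)), MPoly r →
      MPoly ((upU r)⁻¹).val :=
    fun r hr => mpoly_fromBlocks mpoly_one (mpoly_neg hr) mpoly_zero mpoly_one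
  have hr : MPoly (er * Q' - er) := mpoly_sub (mpoly_mul hpoly_er hQ'poly) hpoly_er
  refine ⟨P, lowU er * upU (-tc), lowU (er * Q' - er), geo P, hPpoly, hP0, hPn, ?_, ?_,
    hlow _ hr, hlow' _ hr, hprod, geo_mul hP0, ?_⟩
  · rw [Units.val_mul]
    exact mpoly_mul (hlow _ hpoly_er) (hup _ (mpoly_neg hpoly_tc))
  · rw [mul_inv_rev, Units.val_mul]
    exact mpoly_mul (hup' _ (mpoly_neg hpoly_tc)) (hlow' _ hpoly_er)
  -- positivity of the Green series
  have hPll : ∀ i j d, s ≤ d → d < D → PP (coeff d (P (Sum.inl i) (Sum.inl j))) := by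
    intro i j d h1 h2
    change PP (coeff d (Q' i j + U i j))
    rw [map_add, hQ'lt i j d h2]
    exact pp_add (hD₁ d (le_trans hsD h1) i j) (hUn i j d)
  have hSll : ∀ d, s ≤ d → ∀ i j, PP (coeff d (geo P (Sum.inl i) (Sum.inl j))) := by
    intro d
    induction d using Nat.strong_induction_on with
    | _ d ih =>
      intro hd i j
      rcases lt_or_ge d D with h | h
      · exact pp_geo_self hPn hP0 (hPll i j d hd h)
      · have h1 : d = (d - s) + s := by omega
        rw [h1]
        exact pp_geo_right hPn hP0 (k := Sum.inl j)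
          (pp_mul (ih (d - s) (by omega) (by omega) i j) (pp_nn (hPll j j s le_rfl (by omega)))
            (pp_ne_zero (hPll j j s le_rfl (by omega))))
  have hSlr : ∀ i u, ∀ d, s + e ≤ d → PP (coeff d (geo P (Sum.inl i) (Sum.inr u))) := by
    intro i u d hd
    have h1 : d = (d - e) + e := by omega
    rw [h1]
    exact pp_geo_right hPn hP0 (k := Sum.inl o)
      (pp_mul (hSll (d - e) (by omega) i o) (hτn o e) he)
  have hPrl : ∀ u j, PP (coeff (e + (D - 1)) (P (Sum.inr u) (Sum.inl j))) := by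
    intro u j
    change PP (coeff (e + (D - 1)) (U o j))
    rw [hUge o j _ (by omega)]
    refine pp_coeff_mul (hτn o) (hQ'n o j) e (D - 1) (pp_mul' (hτn o e) he ?_)
    rw [hQ'lt o j (D - 1) (by omega)]
    exact hD₁ _ (by omega) o j
  have hSrl : ∀ u j, ∀ d, e + (D - 1) + s ≤ d →
      PP (coeff d (geo P (Sum.inr u) (Sum.inl j))) := by
    intro u j d hd
    have h1 : d = (e + (D - 1)) + (d - (e + (D - 1))) := by omega
    rw [h1]
    exact pp_geo_left hPn hP0 (k := Sum.inl j)
      (pp_mul (hPrl u j) (pp_nn (hSll _ (by omega) j j)) (pp_ne_zero (hSll _ (by omega) j j)))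
  have hSrr : ∀ u v, ∀ d, e + (D - 1) + s + e ≤ d →
      PP (coeff d (geo P (Sum.inr u) (Sum.inr v))) := by
    intro u v d hd
    have h1 : d = (d - e) + e := by omega
    rw [h1]
    exact pp_geo_right hPn hP0 (k := Sum.inl o)
      (pp_mul (hSrl u o (d - e) (by omega)) (hτn o e) he)
  rintro (i | i) (j | j)
  · exact ⟨s, fun d hd => hSll d hd i j⟩
  · exact ⟨_, fun d hd => hSlr i j d hd⟩
  · exact ⟨_, fun d hd => hSrl i j d hd⟩
  · exact ⟨_, fun d hd => hSrr i j d hd⟩

end Pool.Agent.TS
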