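import Pool.Agent.Lib.MP_402c18_an.Defs2

/-!
# MP_402c18_an, piece HUB: the renewal lemma
-/

set_option autoImplicit false
set_option linter.unusedSectionVars false

namespace Pool.Agent.TS

open PowerSeries

section hubpiece

variable {G : Type*} [Group G] [Fintype G]

theorem coeff_mul_eq_sum (x y : MonoidAlgebra ℤ G) (g : G) :
    (x * y).coeff g = ∑ h : G, x.coeff h * y.coeff (h⁻¹ * g) := by
  rw [MonoidAlgebra.coeff_mul_apply_left, Finsupp.sum_fintype]
  intro h
  simp

/-- the augmentation, with real values -/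
noncomputable def augR (x : MonoidAlgebra ℤ G) : ℝ := ∑ g : G, (x.coeff g : ℝ)

theorem augR_add (x y : MonoidAlgebra ℤ G) : augR (x + y) = augR x + augR y := by
  unfold augR
  rw [← Finset.sum_add_distrib]
  refine Finset.sum_congr rfl fun g _ => ?_
  rw [MonoidAlgebra.coeff_add, Finsupp.add_apply]
  push_cast
  ring

theorem augR_zero : augR (0 : MonoidAlgebra ℤ G) = 0 := by
  simp [augR]

theorem augR_one : augR (1 : MonoidAlgebra ℤ G) = 1 := by
  classical
  unfold augR
  rw [Finset.sum_eq_single (1 : G)]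
  · rw [MonoidAlgebra.one_def, MonoidAlgebra.coeff_single, Finsupp.single_eq_same]
    simp
  · intro h _ hne
    rw [MonoidAlgebra.one_def, MonoidAlgebra.coeff_single, Finsupp.single_eq_of_ne hne]
    simp
  · intro h
    exact absurd (Finset.mem_univ _) h

theorem augR_sum {α : Type*} (s : Finset α) (f : α → MonoidAlgebra ℤ G) :
    augR (∑ i ∈ s, f i) = ∑ i ∈ s, augR (f i) := by
  classical
  induction s using Finset.induction_on with
  | empty => simp [augR_zero]
  | insert a s ha ih => rw [Finset.sum_insert ha, Finset.sum_insert ha, augR_add, ih]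

theorem augR_mul (x y : MonoidAlgebra ℤ G) : augR (x * y) = augR x * augR y := by
  unfold augR
  simp_rw [coeff_mul_eq_sum]
  push_cast
  rw [Finset.sum_comm, Finset.sum_mul]
  refine Finset.sum_congr rfl fun h _ => ?_
  rw [← Finset.mul_sum]
  congr 1
  exact Equiv.sum_comp (Equiv.mulLeft h⁻¹) (fun g => (y.coeff g : ℝ))

theorem augR_nonneg {x : MonoidAlgebra ℤ G} (hx : NN x) : 0 ≤ augR x :=
  Finset.sum_nonneg fun g _ => by exact_mod_cast hx g

theorem NN_zero : NN (0 : MonoidAlgebra ℤ G) := fun g => by simp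

theorem NN_one : NN (1 : MonoidAlgebra ℤ G) := by
  classical
  intro g
  rw [MonoidAlgebra.one_def, MonoidAlgebra.coeff_single, Finsupp.single_apply]
  split_ifs <;> norm_num

theorem NN_mul {x y : MonoidAlgebra ℤ G} (hx : NN x) (hy : NN y) : NN (x * y) := by
  intro g
  rw [coeff_mul_eq_sum]
  exact Finset.sum_nonneg fun h _ => mul_nonneg (hx h) (hy _)

theorem NN_sum {α : Type*} (s : Finset α) (f : α → MonoidAlgebra ℤ G) (h : ∀ i ∈ s, NN (f i)) :
    NN (∑ i ∈ s, f i) := by
  intro g
  rw [MonoidAlgebra.coeff_sum, Finsupp.finsetSum_apply]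
  exact Finset.sum_nonneg fun i hi => h i hi g

/-- the recursion satisfied by the inverse of `1 - q` -/
theorem rec_of_inv {R : Type*} [Ring R] {q s : PowerSeries R} (h : (1 - q) * s = 1) (d : ℕ) :
    coeff d s = (if d = 0 then 1 else 0) +
      ∑ x ∈ Finset.HasAntidiagonal.antidiagonal d, coeff x.1 q * coeff x.2 s := by
  have h1 : s = 1 + q * s := by
    have : s - q * s = 1 := by rw [← h, sub_mul, one_mul]
    rw [← this]; abel
  conv_lhs => rw [h1]
  rw [map_add, coeff_mul, coeff_one]

theorem inv_unique {R : Type*} [Ring R] {u s s' : R} (h : s * u = 1) (h' : u * s' = 1) :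
    s = s' := by
  calc s = s * (u * s') := by rw [h', mul_one]
    _ = s' := by rw [← mul_assoc, h, one_mul]

theorem hub (r : ℝ) (hr : 0 < r)
    (p S : PowerSeries (MonoidAlgebra ℤ G)) (hp0 : coeff 0 p = 0) (hpn : ∀ d, NN (coeff d p))
    (hS : S * (1 - p) = 1) (d₁ : ℕ) (hS1 : ∀ d, d₁ ≤ d → PP (coeff d S))
    (hgrow : ∃ d, 1 < (∑ g : G, ((coeff d S).coeff g : ℝ)) * r ^ d) :
    ∃ K₀ : ℕ, ∀ K, K₀ ≤ K → ∃ (t₀ c₀ : ℝ) (s : PowerSeries (MonoidAlgebra ℤ G)),
      0 < t₀ ∧ t₀ ≤ r ∧ 0 < c₀ ∧
      s * (1 - PowerSeries.mk fun d => if d < K then coeff d p else 0) = 1 ∧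
      (1 - PowerSeries.mk fun d => if d < K then coeff d p else 0) * s = 1 ∧
      (∀ d, NN (coeff d s)) ∧
      (∀ d, (∑ g : G, ((coeff d s).coeff g : ℝ)) * t₀ ^ d ≤ 1) ∧
      (∀ d, d₁ ≤ d → ∀ g : G, c₀ ≤ ((coeff d s).coeff g : ℝ) * t₀ ^ d) := by
  classical
  -- two-sided inverse of `1 - p`
  have hSr : (1 - p) * S = 1 := by
    have hc : constantCoeff (1 - p) = ((1 : (MonoidAlgebra ℤ G)ˣ) : MonoidAlgebra ℤ G) := by
      rw [map_sub, map_one, ← coeff_zero_eq_constantCoeff_apply, hp0, sub_zero, Units.val_one]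
    have h1 := mul_invOfUnit (1 - p) 1 hc
    rw [inv_unique hS h1]
    exact h1
  -- `p` has a positive coefficient
  obtain ⟨j₀, h₀, hj⟩ : ∃ (j : ℕ) (h : G), 0 < (coeff j p).coeff h := by
    by_contra hcon
    push Not at hcon
    have hp : p = 0 := by
      ext d g
      have := le_antisymm (hcon d g) (hpn d g)
      simpa using this
    rw [hp, sub_zero, mul_one] at hS
    have := hS1 (d₁ + 1) (Nat.le_succ _) 1
    rw [hS, coeff_one, if_neg (Nat.succ_ne_zero _)] at this
    simp at this
  have hj0 : 0 < j₀ := by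
    rcases Nat.eq_zero_or_pos j₀ with h | h
    · rw [h, hp0] at hj
      simp at hj
    · exact h
  obtain ⟨dg, hdg⟩ := hgrow
  refine ⟨max (dg + 1) (d₁ + j₀ + 1), fun K hK => ?_⟩
  have hKd : dg < K := lt_of_lt_of_le (Nat.lt_succ_self _) ((le_max_left _ _).trans hK)
  have hKj : d₁ + j₀ < K := lt_of_lt_of_le (Nat.lt_succ_self _) ((le_max_right _ _).trans hK)
  set q : PowerSeries (MonoidAlgebra ℤ G) :=
    PowerSeries.mk fun d => if d < K then coeff d p else 0 with hq
  have hqc : ∀ d, coeff d q = if d < K then coeff d p else 0 := fun d => by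
    rw [hq, coeff_mk]
  have hq0 : coeff 0 q = 0 := by
    rw [hqc]; split_ifs
    · exact hp0
    · rfl
  have hqn : ∀ d, NN (coeff d q) := by
    intro d
    rw [hqc]; split_ifs
    · exact hpn d
    · exact NN_zero
  have hcq : constantCoeff (1 - q) = ((1 : (MonoidAlgebra ℤ G)ˣ) : MonoidAlgebra ℤ G) := by
    rw [map_sub, map_one, ← coeff_zero_eq_constantCoeff_apply, hq0, sub_zero, Units.val_one]
  obtain ⟨s, hs1, hs2⟩ : ∃ s : PowerSeries (MonoidAlgebra ℤ G), s * (1 - q) = 1 ∧
      (1 - q) * s = 1 := ⟨invOfUnit (1 - q) 1, invOfUnit_mul _ _ hcq, mul_invOfUnit _ _ hcq⟩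
  have hrec := rec_of_inv hs2
  have hrecS := rec_of_inv hSr
  -- nonnegativity
  have hsn : ∀ d, NN (coeff d s) := by
    intro d
    induction d using Nat.strong_induction_on with
    | _ d ih =>
      rw [hrec d]
      have hN : NN (∑ x ∈ Finset.HasAntidiagonal.antidiagonal d, coeff x.1 q * coeff x.2 s) := by
        refine NN_sum _ _ fun x hx => ?_
        rw [Finset.HasAntidiagonal.mem_antidiagonal] at hx
        rcases Nat.eq_zero_or_pos x.1 with h | h
        · rw [h, hq0, zero_mul]; exact NN_zero
        · exact NN_mul (hqn _) (ih _ (by omega))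
      intro g
      rw [MonoidAlgebra.coeff_add, Finsupp.add_apply]
      refine add_nonneg ?_ (hN g)
      split_ifs
      · exact NN_one g
      · simp
  -- comparison with `S` below `K`
  have hsS : ∀ d, d < K → coeff d s = coeff d S := by
    intro d
    induction d using Nat.strong_induction_on with
    | _ d ih =>
      intro hd
      rw [hrec d, hrecS d]
      congr 1
      refine Finset.sum_congr rfl fun x hx => ?_
      rw [Finset.HasAntidiagonal.mem_antidiagonal] at hx
      have hx1 : coeff x.1 q = coeff x.1 p := by rw [hqc, if_pos (by omega)]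
      rw [hx1]
      rcases Nat.eq_zero_or_pos x.1 with h | h
      · rw [h, hp0, zero_mul, zero_mul]
      · rw [ih _ (by omega) (by omega)]
  -- the scalar recursion
  set φ : ℝ → ℝ := fun t => ∑ i ∈ Finset.range K, augR (coeff i q) * t ^ i with hφ
  have hφc : Continuous φ := by
    rw [hφ]
    fun_prop
  have hbound : ∀ t : ℝ, 0 ≤ t → φ t ≤ 1 → ∀ d, augR (coeff d s) * t ^ d ≤ 1 := by
    intro t ht hφt d
    induction d using Nat.strong_induction_on with
    | _ d ih =>
      rcases Nat.eq_zero_or_pos d with h0 | h0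
      · subst h0
        rw [hrec 0]
        simp [hq0, augR_one]
      · rw [hrec d, if_neg (by omega), zero_add, augR_sum, Finset.sum_mul]
        calc ∑ x ∈ Finset.HasAntidiagonal.antidiagonal d, augR (coeff x.1 q * coeff x.2 s) * t ^ d
            ≤ ∑ x ∈ Finset.HasAntidiagonal.antidiagonal d, augR (coeff x.1 q) * t ^ x.1 := by
              refine Finset.sum_le_sum fun x hx => ?_
              rw [Finset.HasAntidiagonal.mem_antidiagonal] at hx
              rcases Nat.eq_zero_or_pos x.1 with h | h
              · rw [h, hq0, zero_mul, augR_zero, zero_mul, zero_mul]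
              · rw [augR_mul, ← hx, pow_add]
                have h1 := ih x.2 (by omega)
                have h2 : 0 ≤ augR (coeff x.1 q) * t ^ x.1 :=
                  mul_nonneg (augR_nonneg (hqn _)) (pow_nonneg ht _)
                calc augR (coeff x.1 q) * augR (coeff x.2 s) * (t ^ x.1 * t ^ x.2)
                    = augR (coeff x.1 q) * t ^ x.1 * (augR (coeff x.2 s) * t ^ x.2) := by ring
                  _ ≤ augR (coeff x.1 q) * t ^ x.1 * 1 := mul_le_mul_of_nonneg_left h1 h2
                  _ = _ := mul_one _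
          _ = ∑ i ∈ Finset.range (d + 1), augR (coeff i q) * t ^ i :=
              Finset.Nat.sum_antidiagonal_eq_sum_range_succ
                (fun i _ => augR (coeff i q) * t ^ i) d
          _ ≤ φ t := by
              rw [hφ]
              have hz : ∀ i ∈ Finset.range (d + 1), i ∉ Finset.range K →
                  augR (coeff i q) * t ^ i = 0 := by
                intro i _ hi
                rw [Finset.mem_range, not_lt] at hi
                rw [hqc, if_neg (by omega), augR_zero, zero_mul]
              rw [← Finset.sum_filter_of_ne (p := fun i => i ∈ Finset.range K)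
                (s := Finset.range (d + 1))]
              · refine Finset.sum_le_sum_of_subset_of_nonneg ?_ ?_
                · intro i hi
                  exact (Finset.mem_filter.mp hi).2
                · intro i _ _
                  exact mul_nonneg (augR_nonneg (hqn _)) (pow_nonneg ht _)
              · intro i hi hne
                by_contra hcon
                exact hne (hz i hi hcon)
          _ ≤ 1 := hφt
  have hφr : 1 ≤ φ r := by
    by_contra hcon
    push Not at hcon
    have := hbound r hr.le hcon.le dg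
    rw [hsS dg hKd] at this
    exact absurd hdg (not_lt.mpr this)
  have hφ0 : φ 0 = 0 := by
    rw [hφ]
    refine Finset.sum_eq_zero fun i _ => ?_
    rcases Nat.eq_zero_or_pos i with h | h
    · rw [h, hq0, augR_zero, zero_mul]
    · rw [zero_pow h.ne', mul_zero]
  obtain ⟨t₀, ⟨ht0, htr⟩, hφt⟩ : ∃ t ∈ Set.Icc (0 : ℝ) r, φ t = 1 := by
    have := intermediate_value_Icc hr.le hφc.continuousOn
    exact this ⟨by rw [hφ0]; exact zero_le_one, hφr⟩
  have ht0' : 0 < t₀ := by
    rcases ht0.eq_or_lt with h | h
    · rw [← h, hφ0] at hφt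
      exact absurd hφt zero_ne_one
    · exact h
  -- strict positivity
  have hsp : ∀ d, d₁ ≤ d → PP (coeff d s) := by
    intro d
    induction d using Nat.strong_induction_on with
    | _ d ih =>
      intro hd g
      rcases lt_or_ge d K with h | h
      · rw [hsS d h]
        exact hS1 d hd g
      · rw [hrec d, if_neg (by omega), zero_add, MonoidAlgebra.coeff_sum,
          Finsupp.finsetSum_apply]
        have hmem : ((j₀, d - j₀) : ℕ × ℕ) ∈ Finset.HasAntidiagonal.antidiagonal d := by
          rw [Finset.HasAntidiagonal.mem_antidiagonal]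
          show j₀ + (d - j₀) = d
          omega
        refine lt_of_lt_of_le ?_ (Finset.single_le_sum
          (f := fun x : ℕ × ℕ => (coeff x.1 q * coeff x.2 s).coeff g)
          (fun x _ => NN_mul (hqn _) (hsn _) g) hmem)
        show 0 < (coeff j₀ q * coeff (d - j₀) s).coeff g
        rw [coeff_mul_eq_sum]
        refine lt_of_lt_of_le ?_ (Finset.single_le_sum
          (f := fun h : G => (coeff j₀ q).coeff h * (coeff (d - j₀) s).coeff (h⁻¹ * g))
          (fun h _ => mul_nonneg (hqn _ _) (hsn _ _)) (Finset.mem_univ h₀))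
        refine mul_pos ?_ (ih (d - j₀) (by omega) (by omega) _)
        rw [hqc, if_pos (by omega)]
        exact hj
  -- the constant
  obtain ⟨c₀, hc0, hcb⟩ : ∃ c₀ : ℝ, 0 < c₀ ∧ ∀ d, d₁ ≤ d → d < d₁ + K → ∀ g : G,
      c₀ ≤ ((coeff d s).coeff g : ℝ) * t₀ ^ d := by
    have hKpos : 0 < K := by omega
    have hne : ((Finset.Ico d₁ (d₁ + K)) ×ˢ (Finset.univ : Finset G)).Nonempty := by
      refine ⟨(d₁, 1), ?_⟩
      rw [Finset.mem_product, Finset.mem_Ico]
      exact ⟨⟨le_rfl, by show d₁ < d₁ + K; omega⟩, Finset.mem_univ _⟩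
    obtain ⟨x, hx, hmin⟩ := Finset.exists_min_image _
      (fun x : ℕ × G => ((coeff x.1 s).coeff x.2 : ℝ) * t₀ ^ x.1) hne
    rw [Finset.mem_product, Finset.mem_Ico] at hx
    refine ⟨((coeff x.1 s).coeff x.2 : ℝ) * t₀ ^ x.1, ?_, ?_⟩
    · refine mul_pos ?_ (pow_pos ht0' _)
      exact_mod_cast hsp x.1 hx.1.1 x.2
    · intro d hd1 hd2 g
      exact hmin (d, g) (by
        rw [Finset.mem_product, Finset.mem_Ico]
        exact ⟨⟨hd1, hd2⟩, Finset.mem_univ _⟩)
  refine ⟨t₀, c₀, s, ht0', htr, hc0, hs1, hs2, hsn, hbound t₀ ht0 hφt.le, ?_⟩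
  intro d
  induction d using Nat.strong_induction_on with
  | _ d ih =>
    intro hd g
    rcases lt_or_ge d (d₁ + K) with h | h
    · exact hcb d hd h g
    · rw [hrec d, if_neg (by omega), zero_add, MonoidAlgebra.coeff_sum,
        Finsupp.finsetSum_apply]
      push_cast
      rw [Finset.sum_mul]
      rw [Finset.Nat.sum_antidiagonal_eq_sum_range_succ
        (fun i j => ((coeff i q * coeff j s).coeff g : ℝ) * t₀ ^ d) d]
      have hsub : Finset.range K ⊆ Finset.range (d + 1) :=
        Finset.range_subset_range.mpr (by omega)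
      have hnn : ∀ i ∈ Finset.range (d + 1), i ∉ Finset.range K →
          0 ≤ ((coeff i q * coeff (d - i) s).coeff g : ℝ) * t₀ ^ d := by
        intro i _ _
        refine mul_nonneg ?_ (pow_nonneg ht0 _)
        exact_mod_cast NN_mul (hqn _) (hsn _) g
      refine le_trans ?_ (Finset.sum_le_sum_of_subset_of_nonneg hsub hnn)
      calc c₀ = φ t₀ * c₀ := by rw [hφt, one_mul]
        _ = ∑ i ∈ Finset.range K, augR (coeff i q) * t₀ ^ i * c₀ := by
            rw [hφ, Finset.sum_mul]
        _ ≤ _ := by
            refine Finset.sum_le_sum fun i hi => ?_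
            rw [Finset.mem_range] at hi
            rcases Nat.eq_zero_or_pos i with h0 | h0
            · rw [h0, hq0, augR_zero, zero_mul, zero_mul, zero_mul]
              simp
            · rw [coeff_mul_eq_sum]
              push_cast
              unfold augR
              rw [Finset.sum_mul, Finset.sum_mul, Finset.sum_mul]
              refine Finset.sum_le_sum fun k _ => ?_
              have e : t₀ ^ d = t₀ ^ i * t₀ ^ (d - i) := by
                rw [← pow_add]; congr 1; omega
              rw [e]
              have h1 := ih (d - i) (by omega) (by omega) (k⁻¹ * g)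
              have h2 : 0 ≤ (((coeff i q).coeff k : ℤ) : ℝ) * t₀ ^ i :=
                mul_nonneg (by exact_mod_cast hqn i k) (pow_nonneg ht0 _)
              calc (((coeff i q).coeff k : ℤ) : ℝ) * t₀ ^ i * c₀
                  ≤ (((coeff i q).coeff k : ℤ) : ℝ) * t₀ ^ i *
                    ((((coeff (d - i) s).coeff (k⁻¹ * g) : ℤ) : ℝ) * t₀ ^ (d - i)) :=
                    mul_le_mul_of_nonneg_left h1 h2
                _ = _ := by ring

end hubpiece

end Pool.Agent.TS
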