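import Pool.Agent.Lib.MP_402c18_an.Defs2
import Pool.Agent.Lib.MP_402c18_an.HP
import Pool.Agent.Lib.MP_402c18_an.Hub

/-!
# MP_402c18_an: positivity of `(1-T)⁻¹ (1 - T - X)` (piece HPOS)
-/

set_option autoImplicit false
set_option linter.unusedSectionVars false

namespace Pool.Agent.TS.HPos

open PowerSeries

section

variable {G : Type*} [Group G] [Fintype G]

theorem enorm_int (n : ℤ) : ‖n‖ₑ = ENNReal.ofReal |(n : ℝ)| := by
  rw [← ofReal_norm, Int.norm_eq_abs]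

theorem gn_eq (x : MonoidAlgebra ℤ G) : gn x = ENNReal.ofReal (∑ g : G, |(x.coeff g : ℝ)|) := by
  unfold gn
  rw [ENNReal.ofReal_sum_of_nonneg fun _ _ => abs_nonneg _]
  exact Finset.sum_congr rfl fun g _ => enorm_int _

theorem abs_coeff_le {x : MonoidAlgebra ℤ G} {t : NNReal} {d : ℕ} {e : ℝ} (he : 0 ≤ e)
    (h : gn x * (t : ENNReal) ^ d ≤ ENNReal.ofReal e) (g : G) :
    |(x.coeff g : ℝ)| * (t : ℝ) ^ d ≤ e := by
  have h1 : ENNReal.ofReal (|(x.coeff g : ℝ)| * (t : ℝ) ^ d) ≤ ENNReal.ofReal e := by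
    refine le_trans ?_ h
    rw [ENNReal.ofReal_mul (abs_nonneg _), ← enorm_int,
      ENNReal.ofReal_pow t.coe_nonneg, ENNReal.ofReal_coe_nnreal]
    gcongr
    exact enorm_coeff_le_gn x g
  exact (ENNReal.ofReal_le_ofReal_iff he).mp h1

/-- product with a series of norm at most `1` in every degree -/
theorem gn_coeff_mul_le {t r : NNReal} (htr : t ≤ r) {s f : PowerSeries (MonoidAlgebra ℤ G)}
    (hs : ∀ d, gn (coeff d s) * (t : ENNReal) ^ d ≤ 1) (d : ℕ) :
    gn (coeff d (s * f)) * (t : ENNReal) ^ d ≤ wn r f := by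
  classical
  rw [coeff_mul]
  refine (mul_le_mul' (gn_sum_le _ _) le_rfl).trans ?_
  rw [Finset.sum_mul]
  have h1 : ∀ p ∈ Finset.HasAntidiagonal.antidiagonal d,
      gn (coeff p.1 s * coeff p.2 f) * (t : ENNReal) ^ d ≤
        gn (coeff p.2 f) * (r : ENNReal) ^ p.2 := by
    intro p hp
    rw [Finset.HasAntidiagonal.mem_antidiagonal] at hp
    rw [← hp, pow_add]
    calc gn (coeff p.1 s * coeff p.2 f) * ((t : ENNReal) ^ p.1 * (t : ENNReal) ^ p.2)
        ≤ (gn (coeff p.1 s) * gn (coeff p.2 f)) * ((t : ENNReal) ^ p.1 * (t : ENNReal) ^ p.2) := by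
          gcongr
          exact gn_mul_le _ _
      _ = (gn (coeff p.1 s) * (t : ENNReal) ^ p.1) * (gn (coeff p.2 f) * (t : ENNReal) ^ p.2) := by
          ring
      _ ≤ 1 * (gn (coeff p.2 f) * (r : ENNReal) ^ p.2) := by
          gcongr
          exact hs p.1
      _ = _ := one_mul _
  refine (Finset.sum_le_sum h1).trans ?_
  rw [← Finset.Nat.sum_antidiagonal_swap (n := d)
    (f := fun p : ℕ × ℕ => gn (coeff p.2 f) * (r : ENNReal) ^ p.2),
    Finset.Nat.sum_antidiagonal_eq_sum_range_succ_mk]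
  simp only [Prod.swap]
  exact ENNReal.sum_le_tsum (Finset.range d.succ)

/-- coefficient, as a real number -/
noncomputable def cr (d : ℕ) (f : PowerSeries (MonoidAlgebra ℤ G)) (g : G) : ℝ :=
  ((coeff d f).coeff g : ℝ)

theorem cr_add (d : ℕ) (f f' : PowerSeries (MonoidAlgebra ℤ G)) (g : G) :
    cr d (f + f') g = cr d f g + cr d f' g := by
  unfold cr
  rw [map_add, MonoidAlgebra.coeff_add, Finsupp.add_apply]; push_cast; rfl

theorem cr_sub (d : ℕ) (f f' : PowerSeries (MonoidAlgebra ℤ G)) (g : G) :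
    cr d (f - f') g = cr d f g - cr d f' g := by
  unfold cr
  rw [map_sub, MonoidAlgebra.coeff_sub, Finsupp.sub_apply]; push_cast; rfl

theorem cr_X_pow_mul (d k : ℕ) (f : PowerSeries (MonoidAlgebra ℤ G)) (g : G) :
    cr d (X ^ k * f) g = if k ≤ d then cr (d - k) f g else 0 := by
  unfold cr
  rw [coeff_X_pow_mul']
  split_ifs <;> simp

theorem cr_eq_zero {d : ℕ} {f : PowerSeries (MonoidAlgebra ℤ G)} (h : coeff d f = 0) (g : G) :
    cr d f g = 0 := by
  unfold cr; rw [h]; simp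

theorem nn_iff {d : ℕ} {f : PowerSeries (MonoidAlgebra ℤ G)} :
    NN (coeff d f) ↔ ∀ g, 0 ≤ cr d f g := by
  unfold NN cr
  exact forall_congr' fun g => by exact_mod_cast Iff.rfl

theorem pp_iff {d : ℕ} {f : PowerSeries (MonoidAlgebra ℤ G)} :
    PP (coeff d f) ↔ ∀ g, 0 < cr d f g := by
  unfold PP cr
  exact forall_congr' fun g => by exact_mod_cast Iff.rfl

theorem abs_cr_mul_le {t r : NNReal} (htr : t ≤ r) {s f : PowerSeries (MonoidAlgebra ℤ G)}
    (hs : ∀ d, gn (coeff d s) * (t : ENNReal) ^ d ≤ 1) {e : ℝ} (he : 0 ≤ e)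
    (hf : wn r f ≤ ENNReal.ofReal e) (d : ℕ) (g : G) :
    |cr d (s * f) g| * (t : ℝ) ^ d ≤ e :=
  abs_coeff_le he ((gn_coeff_mul_le htr hs d).trans hf) g

theorem abs_cr_le {t r : NNReal} (htr : t ≤ r) {f : PowerSeries (MonoidAlgebra ℤ G)}
    {e : ℝ} (he : 0 ≤ e) (hf : wn r f ≤ ENNReal.ofReal e) (d : ℕ) (g : G) :
    |cr d f g| * (t : ℝ) ^ d ≤ e := by
  refine abs_coeff_le he (le_trans ?_ ((gn_coeff_le_wn r f d).trans hf)) g
  gcongr

theorem coeff_mul_eq_zero {n d : ℕ} {s f : PowerSeries (MonoidAlgebra ℤ G)}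
    (hf : ∀ d, d ≤ n → coeff d f = 0) (hd : d ≤ n) : coeff d (s * f) = 0 := by
  rw [coeff_mul]
  refine Finset.sum_eq_zero fun p hp => ?_
  rw [Finset.HasAntidiagonal.mem_antidiagonal] at hp
  rw [hf p.2 (by omega), mul_zero]

/-- lower bound for the product with a nonzero nonnegative series -/
theorem cr_mul_ge {s f : PowerSeries (MonoidAlgebra ℤ G)} (hs : ∀ d, NN (coeff d s))
    (hf : ∀ d, NN (coeff d f)) {d₂ : ℕ} {g₂ : G} (h : 0 < (coeff d₂ f).coeff g₂) {d : ℕ}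
    (hd : d₂ ≤ d) (g : G) : cr (d - d₂) s (g * g₂⁻¹) ≤ cr d (s * f) g := by
  have h1 : (coeff (d - d₂) s).coeff (g * g₂⁻¹) ≤ (coeff (d - d₂) s * coeff d₂ f).coeff g := by
    rw [HP.coeff_mul_group]
    have h2 : (coeff (d - d₂) s).coeff (g * g₂⁻¹) * (coeff d₂ f).coeff ((g * g₂⁻¹)⁻¹ * g) ≤
        ∑ h, (coeff (d - d₂) s).coeff h * (coeff d₂ f).coeff (h⁻¹ * g) :=
      Finset.single_le_sum (f := fun h => (coeff (d - d₂) s).coeff h * (coeff d₂ f).coeff (h⁻¹ * g))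
        (fun h _ => mul_nonneg (hs _ _) (hf _ _)) (Finset.mem_univ _)
    refine le_trans ?_ h2
    have h3 : (g * g₂⁻¹)⁻¹ * g = g₂ := by group
    rw [h3]
    have h4 : (1 : ℤ) ≤ (coeff d₂ f).coeff g₂ := h
    have h5 := hs (d - d₂) (g * g₂⁻¹)
    nlinarith
  have h2 : (coeff (d - d₂) s * coeff d₂ f).coeff g ≤ (coeff d (s * f)).coeff g := by
    classical
    rw [coeff_mul, MonoidAlgebra.coeff_sum, Finsupp.finsetSum_apply]
    refine Finset.single_le_sum (f := fun p : ℕ × ℕ => (coeff p.1 s * coeff p.2 f).coeff g)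
      (fun p _ => HP.nn_mul (hs _) (hf _) g) (a := (d - d₂, d₂)) ?_
    rw [Finset.HasAntidiagonal.mem_antidiagonal]
    simp only
    omega
  unfold cr
  exact_mod_cast h1.trans h2

/-- the hub entry -/
theorem hub_entry {t r : NNReal} (ht0 : 0 < t) (htr : t ≤ r) {s u w δ : PowerSeries (MonoidAlgebra ℤ G)}
    (hs0 : ∀ d, NN (coeff d s)) (hs : ∀ d, gn (coeff d s) * (t : ENNReal) ^ d ≤ 1)
    {d₁ d₂ k n : ℕ} {c₀ : ℝ} (hsc : ∀ d, d₁ ≤ d → ∀ g, c₀ ≤ cr d s g * (t : ℝ) ^ d)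
    (hu : ∀ d, NN (coeff d u)) {g₂ : G} (hu2 : 0 < (coeff d₂ u).coeff g₂)
    {W : ℝ} (hW : 0 ≤ W) (hw : wn r w ≤ ENNReal.ofReal W) {e : ℝ} (he : 0 ≤ e)
    (hδ : wn r δ ≤ ENNReal.ofReal e) (hδ0 : ∀ d, d ≤ n → coeff d δ = 0)
    (hk : d₁ + d₂ ≤ 2 * k) (hn : 2 * k ≤ n) :
    (∀ d, d < 2 * k → ∀ g, 0 ≤ cr d (s * (u - X ^ (2 * k) * w + δ)) g) ∧
    (∀ d, 2 * k ≤ d → ∀ g, c₀ * (t : ℝ) ^ d₂ - (t : ℝ) ^ (2 * k) * W - e ≤
      cr d (s * (u - X ^ (2 * k) * w + δ)) g * (t : ℝ) ^ d) := by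
  have ht : (0 : ℝ) < t := ht0
  have e1 : s * (u - X ^ (2 * k) * w + δ) = s * u - X ^ (2 * k) * (s * w) + s * δ := by
    rw [mul_add, mul_sub, ← mul_assoc s (X ^ (2 * k)) w, ← X_pow_mul, mul_assoc]
  constructor
  · intro d hd g
    rw [e1, cr_add, cr_sub, cr_X_pow_mul, if_neg (by omega),
      cr_eq_zero (coeff_mul_eq_zero hδ0 (by omega)) g, sub_zero, add_zero]
    exact nn_iff.mp (HP.nn_coeff_mul hs0 hu d) g
  · intro d hd g
    rw [e1, cr_add, cr_sub, cr_X_pow_mul, if_pos hd]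
    have h1 := cr_mul_ge hs0 hu hu2 (show d₂ ≤ d by omega) g
    have h2 := hsc (d - d₂) (by omega) (g * g₂⁻¹)
    have h3 := abs_cr_mul_le htr hs hW hw (d - 2 * k) g
    have h4 := abs_cr_mul_le htr hs he hδ d g
    have p1 : (t : ℝ) ^ d = (t : ℝ) ^ (d - d₂) * (t : ℝ) ^ d₂ := by
      rw [← pow_add]; congr 1; omega
    have p2 : (t : ℝ) ^ d = (t : ℝ) ^ (d - 2 * k) * (t : ℝ) ^ (2 * k) := by
      rw [← pow_add]; congr 1; omega
    have h5 : c₀ * (t : ℝ) ^ d₂ ≤ cr d (s * u) g * (t : ℝ) ^ d := by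
      calc c₀ * (t : ℝ) ^ d₂ ≤ (cr (d - d₂) s (g * g₂⁻¹) * (t : ℝ) ^ (d - d₂)) * (t : ℝ) ^ d₂ :=
            mul_le_mul_of_nonneg_right h2 (by positivity)
        _ = cr (d - d₂) s (g * g₂⁻¹) * (t : ℝ) ^ d := by rw [p1]; ring
        _ ≤ _ := mul_le_mul_of_nonneg_right h1 (by positivity)
    have h6 : cr (d - 2 * k) (s * w) g * (t : ℝ) ^ d ≤ (t : ℝ) ^ (2 * k) * W := by
      calc cr (d - 2 * k) (s * w) g * (t : ℝ) ^ d
          = (t : ℝ) ^ (2 * k) * (cr (d - 2 * k) (s * w) g * (t : ℝ) ^ (d - 2 * k)) := by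
            rw [p2]; ring
        _ ≤ (t : ℝ) ^ (2 * k) * W := by
            apply mul_le_mul_of_nonneg_left _ (by positivity)
            refine le_trans ?_ h3
            exact mul_le_mul_of_nonneg_right (le_abs_self _) (by positivity)
    have h7 : -e ≤ cr d (s * δ) g * (t : ℝ) ^ d := by
      have : -(|cr d (s * δ) g|) * (t : ℝ) ^ d ≤ cr d (s * δ) g * (t : ℝ) ^ d :=
        mul_le_mul_of_nonneg_right (neg_abs_le _) (by positivity)
      linarith
    have e2 : (cr d (s * u) g - cr (d - 2 * k) (s * w) g + cr d (s * δ) g) * (t : ℝ) ^ d =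
      cr d (s * u) g * (t : ℝ) ^ d - cr (d - 2 * k) (s * w) g * (t : ℝ) ^ d +
        cr d (s * δ) g * (t : ℝ) ^ d := by ring
    rw [e2]
    linarith

/-- the other entries of the hub row -/
theorem row_entry {t r : NNReal} (ht0 : 0 < t) (htr : t ≤ r) {s δ : PowerSeries (MonoidAlgebra ℤ G)}
    (hs0 : ∀ d, NN (coeff d s)) (hs : ∀ d, gn (coeff d s) * (t : ENNReal) ^ d ≤ 1)
    {d₁ k n : ℕ} {c₀ : ℝ} (hsc : ∀ d, d₁ ≤ d → ∀ g, c₀ ≤ cr d s g * (t : ℝ) ^ d)
    {e : ℝ} (he : 0 ≤ e)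
    (hδ : wn r δ ≤ ENNReal.ofReal e) (hδ0 : ∀ d, d ≤ n → coeff d δ = 0)
    (hn : d₁ + k ≤ n) :
    (∀ d, d < d₁ + k → ∀ g, 0 ≤ cr d (s * (X ^ k + δ)) g) ∧
    (∀ d, d₁ + k ≤ d → ∀ g, c₀ * (t : ℝ) ^ k - e ≤ cr d (s * (X ^ k + δ)) g * (t : ℝ) ^ d) := by
  have ht : (0 : ℝ) < t := ht0
  have e1 : s * (X ^ k + δ) = X ^ k * s + s * δ := by
    rw [mul_add, ← X_pow_mul]
  constructor
  · intro d hd g
    rw [e1, cr_add, cr_X_pow_mul, cr_eq_zero (coeff_mul_eq_zero hδ0 (by omega)) g, add_zero]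
    split_ifs
    · exact nn_iff.mp (hs0 _) g
    · exact le_rfl
  · intro d hd g
    rw [e1, cr_add, cr_X_pow_mul, if_pos (by omega)]
    have h2 := hsc (d - k) (by omega) g
    have h4 := abs_cr_mul_le htr hs he hδ d g
    have p1 : (t : ℝ) ^ d = (t : ℝ) ^ (d - k) * (t : ℝ) ^ k := by
      rw [← pow_add]; congr 1; omega
    have h5 : c₀ * (t : ℝ) ^ k ≤ cr (d - k) s g * (t : ℝ) ^ d := by
      calc c₀ * (t : ℝ) ^ k ≤ (cr (d - k) s g * (t : ℝ) ^ (d - k)) * (t : ℝ) ^ k :=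
            mul_le_mul_of_nonneg_right h2 (by positivity)
        _ = _ := by rw [p1]; ring
    have h7 : -e ≤ cr d (s * δ) g * (t : ℝ) ^ d := by
      have : -(|cr d (s * δ) g|) * (t : ℝ) ^ d ≤ cr d (s * δ) g * (t : ℝ) ^ d :=
        mul_le_mul_of_nonneg_right (neg_abs_le _) (by positivity)
      linarith
    rw [add_mul]
    linarith

/-- the entries outside of the hub row: `v + δ + X ^ k * f`, `v ≥ 0` -/
theorem rest_entry {t r : NNReal} (ht0 : 0 < t) (htr : t ≤ r)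
    {v f δ : PowerSeries (MonoidAlgebra ℤ G)} (hv : ∀ d, NN (coeff d v))
    {a k n : ℕ} {m : ℝ} (hf0 : ∀ d, d < a → ∀ g, 0 ≤ cr d f g)
    (hf : ∀ d, a ≤ d → ∀ g, m ≤ cr d f g * (t : ℝ) ^ d) (hm : 0 ≤ m)
    {e : ℝ} (he : 0 ≤ e) (hδ : wn r δ ≤ ENNReal.ofReal e) (hδ0 : ∀ d, d ≤ n → coeff d δ = 0)
    (hn : a + k ≤ n) (hem : e < m * (t : ℝ) ^ k) :
    (∀ d g, 0 ≤ cr d (v + δ + X ^ k * f) g) ∧ (∀ d, n < d → ∀ g, 0 < cr d (v + δ + X ^ k * f) g) := by
  have ht : (0 : ℝ) < t := ht0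
  have h1 : ∀ d, n < d → ∀ g, 0 < cr d (v + δ + X ^ k * f) g := by
    intro d hd g
    rw [cr_add, cr_add, cr_X_pow_mul, if_pos (by omega)]
    have h2 := hf (d - k) (by omega) g
    have h3 := nn_iff.mp (hv d) g
    have h4 := abs_cr_le htr he hδ d g
    have p1 : (t : ℝ) ^ d = (t : ℝ) ^ (d - k) * (t : ℝ) ^ k := by
      rw [← pow_add]; congr 1; omega
    have h5 : m * (t : ℝ) ^ k ≤ cr (d - k) f g * (t : ℝ) ^ d := by
      calc m * (t : ℝ) ^ k ≤ (cr (d - k) f g * (t : ℝ) ^ (d - k)) * (t : ℝ) ^ k :=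
            mul_le_mul_of_nonneg_right h2 (by positivity)
        _ = _ := by rw [p1]; ring
    have h7 : -e ≤ cr d δ g * (t : ℝ) ^ d := by
      have : -(|cr d δ g|) * (t : ℝ) ^ d ≤ cr d δ g * (t : ℝ) ^ d :=
        mul_le_mul_of_nonneg_right (neg_abs_le _) (by positivity)
      linarith
    have h8 : 0 < (cr d v g + cr d δ g + cr (d - k) f g) * (t : ℝ) ^ d := by
      rw [add_mul, add_mul]
      have := mul_nonneg h3 (pow_nonneg ht.le d)
      linarith
    exact (mul_pos_iff_of_pos_right (by positivity)).mp h8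
  refine ⟨fun d g => ?_, h1⟩
  by_cases hd : n < d
  · exact (h1 d hd g).le
  · push Not at hd
    rw [cr_add, cr_add, cr_X_pow_mul, cr_eq_zero (hδ0 d hd) g, add_zero]
    apply add_nonneg (nn_iff.mp (hv d) g)
    split_ifs
    · by_cases ha : d - k < a
      · exact hf0 _ ha g
      · push Not at ha
        have h2 := hf (d - k) ha g
        have h3 : 0 ≤ cr (d - k) f g * (t : ℝ) ^ (d - k) := hm.trans h2
        exact nonneg_of_mul_nonneg_left h3 (by positivity)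
    · exact le_rfl

end

end Pool.Agent.TS.HPos

namespace Pool.Agent.TS

open PowerSeries

theorem H_pos {G ι : Type*} [Group G] [Fintype G] [Fintype ι] [DecidableEq ι] (o : ι)
    (r : NNReal) (hr0 : 0 < r) (hr1 : r < 1)
    (p w S : PowerSeries (MonoidAlgebra ℤ G)) (D : Matrix ι ι (PowerSeries (MonoidAlgebra ℤ G)))
    (hp0 : coeff 0 p = 0) (hpn : ∀ d, NN (coeff d p)) (hpinf : ¬ IsPoly p) (hpr : wn r p < ⊤)
    (hS : S * (1 - p) = 1) (d₁ : ℕ) (hS1 : ∀ d, d₁ ≤ d → PP (coeff d S))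
    (hgrow : ∃ d, 1 < (∑ g : G, ((coeff d S).coeff g : ℝ)) * (r : ℝ) ^ d)
    (hwn : ∀ d, NN (coeff d w)) (hwr : wn r w < ⊤)
    (hDn : ∀ i j d, NN (coeff d (D i j))) (hD0 : ∀ i j, coeff 0 (D i j) = 0) :
    ∃ (k : ℕ) (τ : ι → PowerSeries (MonoidAlgebra ℤ G)) (ε : ENNReal), 0 < k ∧ ε ≠ 0 ∧
      (∀ i, IsPoly (τ i)) ∧ (∀ i, coeff 0 (τ i) = 0) ∧ (∀ i d, NN (coeff d (τ i))) ∧ τ o ≠ 0 ∧
      ∀ X : Matrix ι ι (PowerSeries (MonoidAlgebra ℤ G)),
        mn r (X - (1 - starM o p w D k)) ≤ ε →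
        (∀ i j, coeff 0 (X i j) = if i = j then 1 else 0) ∧
        ∃ H : Matrix ι ι (PowerSeries (MonoidAlgebra ℤ G)),
          (1 - colM o τ) * H = 1 - colM o τ - X ∧ (∀ i j d, NN (coeff d (H i j))) ∧
          (∃ D' : ℕ, ∀ d, D' ≤ d → ∀ i j, PP (coeff d (H i j))) := by
  classical
  obtain ⟨K₀, hK₀⟩ := hub (r : ℝ) (by exact_mod_cast hr0) p S hp0 hpn hS d₁ hS1 hgrow
  have hinf : ∀ K, ∃ d, K ≤ d ∧ coeff d p ≠ 0 := by
    intro K
    by_contra hc
    push Not at hc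
    exact hpinf ⟨K, hc⟩
  obtain ⟨j₀, -, hj₀⟩ := hinf 0
  set K := max K₀ (j₀ + 1) with hK
  obtain ⟨t₀, c₀, s, ht0, htr, hc0, -, hqs, hs0, hsum, hsc⟩ := hK₀ K (le_max_left _ _)
  set q : PowerSeries (MonoidAlgebra ℤ G) := PowerSeries.mk fun d => if d < K then coeff d p else 0
    with hq
  have hqc : ∀ d, coeff d q = if d < K then coeff d p else 0 := fun d => by rw [hq, coeff_mk]
  obtain ⟨d₂, hd₂, hpd₂⟩ := hinf K
  obtain ⟨g₂, hg₂⟩ := HP.exists_pos (hpn d₂) hpd₂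
  set u := p - q with hu
  have huc : ∀ d, coeff d u = if d < K then 0 else coeff d p := by
    intro d
    rw [hu, map_sub, hqc]
    split_ifs <;> simp
  have hun : ∀ d, NN (coeff d u) := by
    intro d
    rw [huc]
    split_ifs
    · exact HP.nn_zero
    · exact hpn d
  have hu2 : 0 < (coeff d₂ u).coeff g₂ := by
    rw [huc, if_neg (by omega)]; exact hg₂
  have hqn : ∀ d, NN (coeff d q) := by
    intro d
    rw [hqc]
    split_ifs
    · exact hpn d
    · exact HP.nn_zero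
  -- parameters
  set t : NNReal := ⟨t₀, ht0.le⟩ with ht
  have htc : (t : ℝ) = t₀ := rfl
  have htr' : t ≤ r := by rw [← NNReal.coe_le_coe]; exact htr
  have ht0' : 0 < t := by rw [← NNReal.coe_pos]; exact ht0
  have ht1 : t₀ < 1 := lt_of_le_of_lt htr (by exact_mod_cast hr1)
  have hs : ∀ d, gn (coeff d s) * (t : ENNReal) ^ d ≤ 1 := by
    intro d
    have h1 : gn (coeff d s) * (t : ENNReal) ^ d =
        ENNReal.ofReal ((∑ g : G, ((coeff d s).coeff g : ℝ)) * t₀ ^ d) := by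
      have h2 : (∑ g : G, |((coeff d s).coeff g : ℝ)|) = ∑ g : G, ((coeff d s).coeff g : ℝ) := by
        refine Finset.sum_congr rfl fun g _ => abs_of_nonneg ?_
        exact_mod_cast hs0 d g
      rw [HPos.gn_eq, h2, ENNReal.ofReal_mul (Finset.sum_nonneg fun g _ => by exact_mod_cast hs0 d g),
        ENNReal.ofReal_pow ht0.le, ← htc, ENNReal.ofReal_coe_nnreal]
    rw [h1]
    calc ENNReal.ofReal ((∑ g : G, ((coeff d s).coeff g : ℝ)) * t₀ ^ d) ≤ ENNReal.ofReal 1 :=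
          ENNReal.ofReal_le_ofReal (hsum d)
      _ = 1 := ENNReal.ofReal_one
  have hsc' : ∀ d, d₁ ≤ d → ∀ g, c₀ ≤ HPos.cr d s g * (t : ℝ) ^ d := hsc
  set W := (wn r w).toReal with hW
  have hW0 : 0 ≤ W := ENNReal.toReal_nonneg
  have hww : wn r w ≤ ENNReal.ofReal W := by rw [hW, ENNReal.ofReal_toReal hwr.ne]
  obtain ⟨n₀, hn₀⟩ := exists_pow_lt_of_lt_one (show 0 < c₀ * t₀ ^ d₂ / (4 * (W + 1)) by positivity) ht1
  set k := max n₀ (d₁ + d₂ + 1) with hk
  have hk1 : d₁ + d₂ + 1 ≤ k := le_max_right _ _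
  have hkW : t₀ ^ (2 * k) * W ≤ c₀ * t₀ ^ d₂ / 4 := by
    have h1 : t₀ ^ (2 * k) ≤ t₀ ^ n₀ := by
      apply pow_le_pow_of_le_one ht0.le ht1.le
      have : n₀ ≤ k := le_max_left _ _
      omega
    have h2 : t₀ ^ (2 * k) ≤ c₀ * t₀ ^ d₂ / (4 * (W + 1)) := h1.trans hn₀.le
    have h3 : t₀ ^ (2 * k) * W ≤ c₀ * t₀ ^ d₂ / (4 * (W + 1)) * (W + 1) :=
      mul_le_mul h2 (by linarith) hW0 (by positivity)
    have h4 : c₀ * t₀ ^ d₂ / (4 * (W + 1)) * (W + 1) = c₀ * t₀ ^ d₂ / 4 := by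
      field_simp
    linarith
  set n := d₁ + d₂ + 3 * k + 1 with hn
  have hr0' : (0 : ℝ) < r := by exact_mod_cast hr0
  set e : ℝ := min ((r : ℝ) ^ n / 2) (min (c₀ * t₀ ^ (d₂ + k) / 8) (c₀ * t₀ ^ (2 * k) / 8)) with he
  have he0 : 0 < e := lt_min (by positivity) (lt_min (by positivity) (by positivity))
  have he1 : e ≤ (r : ℝ) ^ n / 2 := min_le_left _ _
  have he2 : e ≤ c₀ * t₀ ^ (d₂ + k) / 8 := (min_le_right _ _).trans (min_le_left _ _)
  have he3 : e ≤ c₀ * t₀ ^ (2 * k) / 8 := (min_le_right _ _).trans (min_le_right _ _)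
  set τ : ι → PowerSeries (MonoidAlgebra ℤ G) := fun i => if i = o then q else X ^ k with hτ
  have hqne : q ≠ 0 := by
    intro h
    have h1 := hqc j₀
    rw [h, if_pos (lt_of_lt_of_le (Nat.lt_succ_self j₀) (le_max_right _ _))] at h1
    exact hj₀ (by rw [← h1]; simp)
  have hXc : ∀ d, coeff d (X ^ k : PowerSeries (MonoidAlgebra ℤ G)) = if d = k then 1 else 0 :=
    fun d => coeff_X_pow d k
  refine ⟨k, τ, ENNReal.ofReal e, by omega, ?_, ?_, ?_, ?_, ?_, ?_⟩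
  · exact (ENNReal.ofReal_pos.mpr he0).ne'
  · intro i
    simp only [hτ]
    split_ifs
    · exact ⟨K, fun d hd => by rw [hqc, if_neg (by omega)]⟩
    · exact ⟨k + 1, fun d hd => by rw [hXc, if_neg (by omega)]⟩
  · intro i
    simp only [hτ]
    split_ifs
    · rw [hqc, hp0]; simp
    · rw [hXc, if_neg (by omega)]
  · intro i d
    simp only [hτ]
    split_ifs
    · exact hqn d
    · rw [hXc]
      split_ifs
      · exact HP.nn_one
      · exact HP.nn_zero
  · simp only [hτ, if_true]; exact hqne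
  intro Y hY
  set δ : Matrix ι ι (PowerSeries (MonoidAlgebra ℤ G)) := 1 - starM o p w D k - Y with hδ
  have hδe : ∀ i j, wn r (δ i j) ≤ ENNReal.ofReal e := by
    intro i j
    refine (wn_le_mn r δ i j).trans ?_
    rw [hδ, mn_sub_comm]; exact hY
  have hδ0 : ∀ i j d, d ≤ n → coeff d (δ i j) = 0 := by
    intro i j d hd
    refine coeff_eq_zero_of_wn_lt r hr1.le (n := n) ?_ hd
    refine lt_of_le_of_lt (hδe i j) ?_
    have h1 : (r : ENNReal) ^ n = ENNReal.ofReal ((r : ℝ) ^ n) := by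
      rw [ENNReal.ofReal_pow r.coe_nonneg, ENNReal.ofReal_coe_nnreal]
    rw [h1]
    apply (ENNReal.ofReal_lt_ofReal_iff (by positivity)).mpr
    have : 0 < (r : ℝ) ^ n := by positivity
    linarith
  have hYe : ∀ i j, Y i j = (1 : Matrix ι ι (PowerSeries (MonoidAlgebra ℤ G))) i j -
      starM o p w D k i j - δ i j := by
    intro i j
    rw [hδ]
    simp
  have hst0 : ∀ i j, coeff 0 (starM o p w D k i j) = 0 := by
    intro i j
    have hx0 : coeff 0 (X ^ k : PowerSeries (MonoidAlgebra ℤ G)) = 0 := by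
      rw [hXc, if_neg (by omega)]
    unfold starM
    split_ifs
    · rw [map_sub, hp0, coeff_X_pow_mul', if_neg (by omega), sub_zero]
    · exact hx0
    · exact hx0
    · exact hD0 i j
  constructor
  · intro i j
    rw [hYe, map_sub, map_sub, hst0, hδ0 i j 0 (by omega), sub_zero, sub_zero, Matrix.one_apply]
    split_ifs <;> simp
  -- the matrix `H`
  set N : Matrix ι ι (PowerSeries (MonoidAlgebra ℤ G)) := 1 - colM o τ - Y with hN
  have hsq : s = 1 + q * s := by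
    have h1 : s - q * s = 1 := by
      have := hqs
      rw [sub_mul, one_mul] at this
      exact this
    rw [← h1]; abel
  set H : Matrix ι ι (PowerSeries (MonoidAlgebra ℤ G)) :=
    fun i j => N i j + τ i * (s * N o j) with hH
  have hHo : ∀ j, H o j = s * N o j := by
    intro j
    simp only [hH, hτ, if_true]
    conv_rhs => rw [hsq]
    rw [add_mul, one_mul, mul_assoc]
  have hHi : ∀ i j, H i j = N i j + τ i * H o j := by
    intro i j
    rw [hHo]
  have hNe : ∀ i j, N i j = starM o p w D k i j + δ i j - colM o τ i j := by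
    intro i j
    rw [hN, Matrix.sub_apply, Matrix.sub_apply, hYe]
    abel
  -- entries
  have hoo := HPos.hub_entry (n := n) (k := k) (d₁ := d₁) (d₂ := d₂) (c₀ := c₀) ht0' htr' hs0 hs hsc'
    hun hu2 hW0 hww he0.le (hδe o o) (hδ0 o o) (by omega) (by omega)
  have eoo : H o o = s * (u - X ^ (2 * k) * w + δ o o) := by
    rw [hHo, hNe]
    unfold starM colM
    simp only [if_true, hτ]
    rw [hu]
    congr 1
    abel
  rw [← eoo, htc] at hoo
  have ht1' : ∀ m : ℕ, t₀ ^ m ≤ 1 := fun m => pow_le_one₀ ht0.le ht1.le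
  have hm1 : c₀ * t₀ ^ d₂ / 2 ≤ c₀ * t₀ ^ d₂ - t₀ ^ (2 * k) * W - e := by
    have h1 : c₀ * t₀ ^ (d₂ + k) ≤ c₀ * t₀ ^ d₂ := by
      rw [pow_add, ← mul_assoc]
      exact mul_le_of_le_one_right (by positivity) (ht1' k)
    have h2 : 0 < c₀ * t₀ ^ d₂ := by positivity
    linarith
  have hoj : ∀ j, j ≠ o → (∀ d, d < d₁ + k → ∀ g, 0 ≤ HPos.cr d (H o j) g) ∧
      (∀ d, d₁ + k ≤ d → ∀ g, c₀ * t₀ ^ k - e ≤ HPos.cr d (H o j) g * t₀ ^ d) := by
    intro j hj
    have h1 := HPos.row_entry (n := n) (k := k) (d₁ := d₁) (c₀ := c₀) ht0' htr' hs0 hs hsc'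
      he0.le (hδe o j) (hδ0 o j) (by omega)
    have h2 : H o j = s * (X ^ k + δ o j) := by
      rw [hHo, hNe]
      unfold starM colM
      rw [if_pos rfl, if_neg hj, if_neg hj, sub_zero]
    rw [h2, ← htc]
    exact h1
  have hm2 : c₀ * t₀ ^ k / 2 ≤ c₀ * t₀ ^ k - e := by
    have h1 : c₀ * t₀ ^ (2 * k) ≤ c₀ * t₀ ^ k := by
      rw [two_mul, pow_add, ← mul_assoc]
      exact mul_le_of_le_one_right (by positivity) (ht1' k)
    have h2 : 0 < c₀ * t₀ ^ k := by positivity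
    linarith
  -- positivity of all entries
  have main : ∀ i j, (∀ d g, 0 ≤ HPos.cr d (H i j) g) ∧ (∀ d, n < d → ∀ g, 0 < HPos.cr d (H i j) g) := by
    intro i j
    by_cases hi : i = o
    · subst hi
      by_cases hj : j = i
      · subst hj
        have h1 : ∀ d, 2 * k ≤ d → ∀ g, 0 < HPos.cr d (H j j) g := by
          intro d hd g
          have h2 := hoo.2 d hd g
          have h3 : 0 < c₀ * t₀ ^ d₂ / 2 := by positivity
          exact (mul_pos_iff_of_pos_right (by positivity)).mp (lt_of_lt_of_le (lt_of_lt_of_le h3 hm1) h2)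
        refine ⟨fun d g => ?_, fun d hd => h1 d (by omega)⟩
        by_cases hd : d < 2 * k
        · exact hoo.1 d hd g
        · exact (h1 d (by omega) g).le
      · obtain ⟨h4, h5⟩ := hoj j hj
        have h1 : ∀ d, d₁ + k ≤ d → ∀ g, 0 < HPos.cr d (H i j) g := by
          intro d hd g
          have h2 := h5 d hd g
          have h3 : 0 < c₀ * t₀ ^ k / 2 := by positivity
          exact (mul_pos_iff_of_pos_right (by positivity)).mp (lt_of_lt_of_le (lt_of_lt_of_le h3 hm2) h2)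
        refine ⟨fun d g => ?_, fun d hd => h1 d (by omega)⟩
        by_cases hd : d < d₁ + k
        · exact h4 d hd g
        · exact (h1 d (by omega) g).le
    · have hτi : τ i = X ^ k := by simp only [hτ, if_neg hi]
      by_cases hj : j = o
      · subst hj
        have e1 : H i j = 0 + δ i j + X ^ k * H j j := by
          rw [hHi, hNe, hτi]
          unfold starM colM
          rw [if_neg hi, if_pos rfl, if_pos rfl, hτi]
          congr 1
          abel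
        rw [e1]
        refine HPos.rest_entry (r := r) (t := t) (a := 2 * k) (n := n) (m := c₀ * t₀ ^ d₂ / 2)
          (e := e) ht0' htr' (fun d => ?_) hoo.1 ?_ (by positivity) he0.le (hδe i j) (hδ0 i j)
          (by omega) ?_
        · rw [map_zero]; exact HP.nn_zero
        · intro d hd g
          exact hm1.trans (hoo.2 d hd g)
        · rw [htc]
          have h1 : c₀ * t₀ ^ (d₂ + k) = c₀ * t₀ ^ d₂ * t₀ ^ k := by rw [pow_add, mul_assoc]
          have h2 : 0 < c₀ * t₀ ^ d₂ * t₀ ^ k := by positivity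
          linarith
      · obtain ⟨h4, h5⟩ := hoj j hj
        have e1 : H i j = D i j + δ i j + X ^ k * H o j := by
          rw [hHi, hNe, hτi]
          unfold starM colM
          rw [if_neg hi, if_neg hj, if_neg hj, sub_zero]
        rw [e1]
        refine HPos.rest_entry (r := r) (t := t) (a := d₁ + k) (n := n) (m := c₀ * t₀ ^ k / 2)
          (e := e) ht0' htr' (hDn i j) h4 ?_ (by positivity) he0.le (hδe i j) (hδ0 i j)
          (by omega) ?_
        · intro d hd g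
          exact hm2.trans (h5 d hd g)
        · rw [htc]
          have h1 : c₀ * t₀ ^ (2 * k) = c₀ * t₀ ^ k * t₀ ^ k := by rw [two_mul, pow_add, mul_assoc]
          have h2 : 0 < c₀ * t₀ ^ k * t₀ ^ k := by positivity
          linarith
  refine ⟨H, ?_, fun i j d => HPos.nn_iff.mpr ((main i j).1 d), n + 1, fun d hd i j =>
    HPos.pp_iff.mpr ((main i j).2 d (by omega))⟩
  ext i j : 2
  rw [sub_mul, one_mul, Matrix.sub_apply, Matrix.mul_apply, Finset.sum_eq_single o]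
  · have : colM o τ i o = τ i := by unfold colM; rw [if_pos rfl]
    rw [this, hHi, add_sub_cancel_right]
  · intro l _ hl
    have : colM o τ i l = 0 := by unfold colM; rw [if_neg hl]
    rw [this, zero_mul]
  · intro h
    exact absurd (Finset.mem_univ o) h

end Pool.Agent.TS
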