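import Pool.Agent.Lib.MP_402c18_an.Defs

/-!
# MP_402c18_an (S04445), piece PF: Perron–Frobenius theory with a spectral gap
-/

set_option autoImplicit false

namespace Pool.Agent.TS

namespace PF

open Matrix

variable {ι : Type*} [Fintype ι] [DecidableEq ι]

/-- weighted operator bound: `∑ j |N i j| x j ≤ c x i`. -/
def Bd (x : ι → ℝ) (N : Matrix ι ι ℝ) (c : ℝ) : Prop :=
  ∀ i, ∑ j, |N i j| * x j ≤ c * x i

omit [DecidableEq ι] in
theorem Bd.mul {x : ι → ℝ} (hx : ∀ i, 0 < x i) {N N' : Matrix ι ι ℝ} {c c' : ℝ}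
    (hc' : 0 ≤ c') (h : Bd x N c) (h' : Bd x N' c') : Bd x (N * N') (c * c') := by
  intro i
  calc ∑ j, |(N * N') i j| * x j ≤ ∑ j, (∑ l, |N i l| * |N' l j|) * x j := by
        refine Finset.sum_le_sum fun j _ => mul_le_mul_of_nonneg_right ?_ (hx j).le
        rw [Matrix.mul_apply]
        refine (Finset.abs_sum_le_sum_abs _ _).trans ?_
        simp [abs_mul]
    _ = ∑ l, |N i l| * ∑ j, |N' l j| * x j := by
        simp_rw [Finset.sum_mul, Finset.mul_sum]
        rw [Finset.sum_comm]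
        simp [mul_assoc]
    _ ≤ ∑ l, |N i l| * (c' * x l) :=
        Finset.sum_le_sum fun l _ => mul_le_mul_of_nonneg_left (h' l) (abs_nonneg _)
    _ = c' * ∑ l, |N i l| * x l := by
        rw [Finset.mul_sum]; exact Finset.sum_congr rfl fun l _ => by ring
    _ ≤ c' * (c * x i) := mul_le_mul_of_nonneg_left (h i) hc'
    _ = c * c' * x i := by ring

theorem Bd.one {x : ι → ℝ} : Bd x (1 : Matrix ι ι ℝ) 1 := by
  intro i
  rw [Finset.sum_eq_single i]
  · simp
  · intro j _ hj
    simp [Ne.symm hj]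
  · simp

theorem Bd.pow {x : ι → ℝ} (hx : ∀ i, 0 < x i) {N : Matrix ι ι ℝ} {c : ℝ}
    (hc : 0 ≤ c) (h : Bd x N c) (k : ℕ) : Bd x (N ^ k) (c ^ k) := by
  induction k with
  | zero => simpa using Bd.one
  | succ k ih =>
    rw [pow_succ, pow_succ]
    exact Bd.mul hx hc ih h

omit [DecidableEq ι] in
theorem Bd.entry {x : ι → ℝ} (hx : ∀ i, 0 < x i) {N : Matrix ι ι ℝ} {c : ℝ}
    (h : Bd x N c) (i j : ι) : |N i j| ≤ c * (x i / x j) := by
  have h1 : |N i j| * x j ≤ ∑ j, |N i j| * x j :=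
    Finset.single_le_sum (f := fun j => |N i j| * x j)
      (fun j _ => mul_nonneg (abs_nonneg _) (hx j).le) (Finset.mem_univ j)
  have h2 := h1.trans (h i)
  rw [← mul_div_assoc, le_div_iff₀ (hx j)]
  exact h2

omit [DecidableEq ι] in
theorem Bd.mono {x : ι → ℝ} (hx : ∀ i, 0 < x i) {N : Matrix ι ι ℝ} {c c' : ℝ}
    (h : Bd x N c) (hc : c ≤ c') : Bd x N c' := fun i =>
  (h i).trans (mul_le_mul_of_nonneg_right hc (hx i).le)

theorem exists_root_lt (q : ℕ) (lam c : ℝ) (hlam : 0 < lam) (hc : c < lam ^ q) :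
    ∃ μ : ℝ, 0 < μ ∧ μ < lam ∧ c < μ ^ q := by
  have h1 : ∀ᶠ t in nhds lam, c < t ^ q :=
    (continuous_pow q).continuousAt.eventually (lt_mem_nhds hc)
  have h2 : ∀ᶠ t in nhdsWithin lam (Set.Iio lam), c < t ^ q := nhdsWithin_le_nhds h1
  have h3 : ∀ᶠ t in nhdsWithin lam (Set.Iio lam), t ∈ Set.Ioo 0 lam :=
    Ioo_mem_nhdsLT hlam
  obtain ⟨μ, hμ, hμ'⟩ := (h2.and h3).exists
  exact ⟨μ, hμ'.1, hμ'.2, hμ⟩

/-- Main power bound. -/
theorem pow_bound {x : ι → ℝ} (hx : ∀ i, 0 < x i) (N : Matrix ι ι ℝ) (a : ℝ) (ha : 0 ≤ a)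
    (hN : Bd x N a) (q : ℕ) (hq0 : 0 < q) (c lam : ℝ) (hc0 : 0 ≤ c) (hNq : Bd x (N ^ q) c)
    (hlam : 0 < lam) (hc : c < lam ^ q) :
    ∃ μ K : ℝ, 0 < μ ∧ μ < lam ∧ 0 < K ∧ ∀ (k : ℕ) (i j : ι), |(N ^ k) i j| ≤ K * μ ^ k := by
  obtain ⟨μ, hμ0, hμ1, hcμ⟩ := exists_root_lt q lam c hlam hc
  set b : ℝ := max 1 (a / μ) with hb
  have hb1 : 1 ≤ b := le_max_left _ _
  have hab : a ≤ b * μ := by
    have : a / μ ≤ b := le_max_right _ _
    rwa [div_le_iff₀ hμ0] at this
  set K1 : ℝ := ∑ i, ∑ j, x i / x j with hK1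
  have hK1' : ∀ i j, x i / x j ≤ K1 := by
    intro i j
    have h1 : x i / x j ≤ ∑ j, x i / x j :=
      Finset.single_le_sum (f := fun j => x i / x j)
        (fun j _ => (div_pos (hx i) (hx j)).le) (Finset.mem_univ j)
    have h2 : ∑ j, x i / x j ≤ K1 :=
      Finset.single_le_sum (f := fun i => ∑ j, x i / x j)
        (fun i _ => Finset.sum_nonneg fun j _ => (div_pos (hx i) (hx j)).le) (Finset.mem_univ i)
    exact h1.trans h2
  have hK10 : 0 ≤ K1 := Finset.sum_nonneg fun i _ =>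
    Finset.sum_nonneg fun j _ => (div_pos (hx i) (hx j)).le
  refine ⟨μ, b ^ q * (K1 + 1), hμ0, hμ1, by positivity, ?_⟩
  intro k i j
  have hk : k = q * (k / q) + k % q := (Nat.div_add_mod k q).symm
  have hbd : Bd x (N ^ k) (b ^ q * μ ^ k) := by
    have h1 : Bd x (N ^ k) (c ^ (k / q) * a ^ (k % q)) := by
      have : N ^ k = (N ^ q) ^ (k / q) * N ^ (k % q) := by
        rw [← pow_mul, ← pow_add, ← hk]
      rw [this]
      exact Bd.mul hx (by positivity) (Bd.pow hx hc0 hNq _) (Bd.pow hx ha hN _)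
    refine Bd.mono hx h1 ?_
    calc c ^ (k / q) * a ^ (k % q) ≤ (μ ^ q) ^ (k / q) * (b * μ) ^ (k % q) := by
          gcongr
      _ = b ^ (k % q) * μ ^ k := by
          conv_rhs => rw [hk]
          rw [mul_pow, pow_add, pow_mul, ← hk]
          ring
      _ ≤ b ^ q * μ ^ k := by
          gcongr
          exact (Nat.mod_lt _ hq0).le
  calc |(N ^ k) i j| ≤ b ^ q * μ ^ k * (x i / x j) := hbd.entry hx i j
    _ ≤ b ^ q * μ ^ k * (K1 + 1) := by
        gcongr
        linarith [hK1' i j]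
    _ = b ^ q * (K1 + 1) * μ ^ k := by ring

theorem mulVec_pow_eigen {M : Matrix ι ι ℝ} {x : ι → ℝ} {lam : ℝ} (h : M.mulVec x = lam • x)
    (k : ℕ) : (M ^ k).mulVec x = lam ^ k • x := by
  induction k with
  | zero => simp
  | succ k ih =>
    rw [pow_succ, ← Matrix.mulVec_mulVec, h, Matrix.mulVec_smul, ih, smul_smul, pow_succ]
    ring_nf

theorem pow_nonneg' {M : Matrix ι ι ℝ} (h0 : ∀ i j, 0 ≤ M i j) (k : ℕ) (i j : ι) :
    0 ≤ (M ^ k) i j := by
  induction k generalizing i j with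
  | zero =>
    rw [pow_zero, Matrix.one_apply]
    split_ifs <;> norm_num
  | succ k ih =>
    rw [pow_succ, Matrix.mul_apply]
    exact Finset.sum_nonneg fun l _ => mul_nonneg (ih i l) (h0 l j)

theorem exists_eigen [Nonempty ι] (M : Matrix ι ι ℝ)
    (h0 : ∀ i j, 0 ≤ M i j) (p : ℕ) (hp0 : 0 < p) (hp : ∀ i j, 0 < (M ^ p) i j) :
    ∃ (lam : ℝ) (x : ι → ℝ), 0 < lam ∧ (∀ i, 0 < x i) ∧ M.mulVec x = lam • x := by
  set C : ℝ := ∑ i, ∑ j, M i j with hC
  have hC0 : 0 ≤ C := Finset.sum_nonneg fun i _ => Finset.sum_nonneg fun j _ => h0 i j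
  have hMC : ∀ i j, M i j ≤ C := by
    intro i j
    exact (Finset.single_le_sum (f := fun j => M i j) (fun j _ => h0 i j)
      (Finset.mem_univ j)).trans (Finset.single_le_sum (f := fun i => ∑ j, M i j)
        (fun i _ => Finset.sum_nonneg fun j _ => h0 i j) (Finset.mem_univ i))
  let S : Set (ℝ × (ι → ℝ)) := {z | z ∈ (Set.Icc 0 C) ×ˢ (stdSimplex ℝ ι) ∧
    ∀ i, z.1 * z.2 i ≤ (M.mulVec z.2) i}
  have hScomp : IsCompact S := by
    have h1 : IsCompact ((Set.Icc 0 C) ×ˢ (stdSimplex ℝ ι)) :=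
      isCompact_Icc.prod (isCompact_stdSimplex ℝ ι)
    have h2 : IsClosed {z : ℝ × (ι → ℝ) | ∀ i, z.1 * z.2 i ≤ (M.mulVec z.2) i} := by
      simp only [Set.ofPred_forall]
      refine isClosed_iInter fun i => ?_
      refine isClosed_le (by fun_prop) ?_
      have : (fun z : ℝ × (ι → ℝ) => (M.mulVec z.2) i) = fun z => ∑ j, M i j * z.2 j := by
        ext z; simp [Matrix.mulVec, dotProduct]
      rw [this]
      fun_prop
    exact h1.inter_right h2
  have hSne : S.Nonempty := by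
    obtain ⟨i0⟩ := ‹Nonempty ι›
    refine ⟨(0, Pi.single i0 1), ⟨⟨⟨le_refl _, hC0⟩, single_mem_stdSimplex ℝ i0⟩, ?_⟩⟩
    intro i
    simp only [zero_mul]
    simp only [Matrix.mulVec, dotProduct]
    refine Finset.sum_nonneg fun j _ => mul_nonneg (h0 i j) ?_
    by_cases hj : j = i0
    · subst hj; simp
    · simp [hj]
  obtain ⟨⟨lam, v⟩, hzS, hmax⟩ := hScomp.exists_isMaxOn hSne (f := Prod.fst) (by fun_prop)
  obtain ⟨⟨⟨hlam0, -⟩, hv0, hvs⟩, hle⟩ := hzS
  simp only at hlam0 hle hv0 hvs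
  -- key fact: no strict improvement
  have key : ∀ u : ι → ℝ, (∀ i, 0 < u i) → ¬ (∀ i, lam * u i < (M.mulVec u) i) := by
    intro u hu hlt
    -- a slightly larger factor works
    have h1 : ∀ i, lam < (M.mulVec u) i / u i := fun i => by
      rw [lt_div_iff₀ (hu i)]; exact hlt i
    obtain ⟨i0, -, hi0⟩ := Finset.exists_min_image Finset.univ (fun i => (M.mulVec u) i / u i)
      Finset.univ_nonempty
    set c := (M.mulVec u) i0 / u i0 with hc
    have hcl : lam < c := h1 i0
    have hs : 0 < ∑ i, u i := Finset.sum_pos (fun i _ => hu i) Finset.univ_nonempty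
    set s := ∑ i, u i with hs'
    have hcle : ∀ i, c * u i ≤ (M.mulVec u) i := fun i => by
      have := hi0 i (Finset.mem_univ i)
      rwa [le_div_iff₀ (hu i)] at this
    let w : ι → ℝ := s⁻¹ • u
    have hw : w ∈ stdSimplex ℝ ι := by
      refine ⟨fun i => ?_, ?_⟩
      · simp only [w, Pi.smul_apply, smul_eq_mul]
        exact (mul_pos (inv_pos.mpr hs) (hu i)).le
      · simp only [w, Pi.smul_apply, smul_eq_mul, ← Finset.mul_sum]
        rw [← hs']
        exact inv_mul_cancel₀ hs.ne'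
    have hwle : ∀ i, c * w i ≤ (M.mulVec w) i := by
      intro i
      simp only [w, Matrix.mulVec_smul, Pi.smul_apply, smul_eq_mul]
      have := mul_le_mul_of_nonneg_left (hcle i) (inv_pos.mpr hs).le
      linarith
    have hcC : c ≤ C := by
      have h2 : c * ∑ i, w i ≤ ∑ i, (M.mulVec w) i := by
        rw [Finset.mul_sum]
        exact Finset.sum_le_sum fun i _ => hwle i
      rw [hw.2, mul_one] at h2
      refine h2.trans ?_
      have hw1 : ∀ j, w j ≤ 1 := fun j => by
        rw [← hw.2]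
        exact Finset.single_le_sum (fun j _ => hw.1 j) (Finset.mem_univ j)
      refine Finset.sum_le_sum fun i _ => ?_
      simp only [Matrix.mulVec, dotProduct]
      refine Finset.sum_le_sum fun j _ => ?_
      exact mul_le_of_le_one_right (h0 i j) (hw1 j)
    have hmem : (c, w) ∈ S :=
      ⟨⟨⟨(hlam0.trans_lt hcl).le, hcC⟩, hw⟩, hwle⟩
    have := hmax hmem
    simp only [Set.mem_ofPred_eq] at this
    linarith
  have hMv : M.mulVec v = lam • v := by
    by_contra hne
    set w : ι → ℝ := M.mulVec v - lam • v with hw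
    have hw0 : ∀ i, 0 ≤ w i := fun i => by
      simp only [hw, Pi.sub_apply, Pi.smul_apply, smul_eq_mul]
      linarith [hle i]
    have hwne : ∃ i, 0 < w i := by
      by_contra hcon
      push Not at hcon
      apply hne
      have : w = 0 := by ext i; exact le_antisymm (hcon i) (hw0 i)
      rwa [hw, sub_eq_zero] at this
    obtain ⟨i1, hi1⟩ := hwne
    have hvne : ∃ i, 0 < v i := by
      by_contra hcon
      push Not at hcon
      have : ∑ i, v i ≤ 0 := Finset.sum_nonpos fun i _ => hcon i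
      linarith
    obtain ⟨i2, hi2⟩ := hvne
    have hpos : ∀ (z : ι → ℝ), (∀ i, 0 ≤ z i) → (∃ i, 0 < z i) → ∀ i, 0 < ((M ^ p).mulVec z) i := by
      rintro z hz ⟨l, hl⟩ i
      simp only [Matrix.mulVec, dotProduct]
      exact Finset.sum_pos' (fun j _ => mul_nonneg (hp i j).le (hz j))
        ⟨l, Finset.mem_univ l, mul_pos (hp i l) hl⟩
    refine key ((M ^ p).mulVec v) (hpos v hv0 ⟨i2, hi2⟩) ?_
    intro i
    have h3 := hpos w hw0 ⟨i1, hi1⟩ i
    have h4 : (M ^ p).mulVec w = M.mulVec ((M ^ p).mulVec v) - lam • ((M ^ p).mulVec v) := by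
      rw [hw, Matrix.mulVec_sub, Matrix.mulVec_smul, Matrix.mulVec_mulVec, Matrix.mulVec_mulVec,
        (Commute.pow_self M p).eq]
    rw [h4] at h3
    simp only [Pi.sub_apply, Pi.smul_apply, smul_eq_mul] at h3
    linarith
  have hMpv := mulVec_pow_eigen hMv p
  have hvne : ∃ i, 0 < v i := by
    by_contra hcon
    push Not at hcon
    have : ∑ i, v i ≤ 0 := Finset.sum_nonpos fun i _ => hcon i
    linarith
  obtain ⟨i2, hi2⟩ := hvne
  have hpos : ∀ i, 0 < lam ^ p * v i := by
    intro i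
    have h5 : 0 < ((M ^ p).mulVec v) i := by
      simp only [Matrix.mulVec, dotProduct]
      exact Finset.sum_pos' (fun j _ => mul_nonneg (hp i j).le (hv0 j))
        ⟨i2, Finset.mem_univ i2, mul_pos (hp i i2) hi2⟩
    rw [hMpv] at h5
    simpa using h5
  have hlamp : 0 < lam := by
    rcases hlam0.lt_or_eq with h | h
    · exact h
    · exfalso
      have := hpos i2
      rw [← h, zero_pow hp0.ne', zero_mul] at this
      exact lt_irrefl _ this
  refine ⟨lam, v, hlamp, ?_, hMv⟩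
  intro i
  exact pos_of_mul_pos_right (hpos i) (by positivity)

omit [DecidableEq ι] in
theorem mul_vecMulVec_eigen {x y : ι → ℝ} {M : Matrix ι ι ℝ} {lam : ℝ}
    (h : M.mulVec x = lam • x) : M * vecMulVec x y = lam • vecMulVec x y := by
  rw [Matrix.mul_vecMulVec, h, Matrix.smul_vecMulVec]

omit [DecidableEq ι] in
theorem vecMulVec_mul' {x y : ι → ℝ} {M : Matrix ι ι ℝ} {lam : ℝ}
    (h : Matrix.vecMul y M = lam • y) : vecMulVec x y * M = lam • vecMulVec x y := by
  rw [Matrix.vecMulVec_mul, h, Matrix.vecMulVec_smul]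

theorem gap_of_eigen [Nonempty ι] (M : Matrix ι ι ℝ)
    (h0 : ∀ i j, 0 ≤ M i j) (p : ℕ) (hp0 : 0 < p) (hp : ∀ i j, 0 < (M ^ p) i j)
    (lam : ℝ) (hlam : 0 < lam) (x y : ι → ℝ) (hx : ∀ i, 0 < x i) (hy : ∀ i, 0 < y i)
    (hMx : M.mulVec x = lam • x) (hyM : Matrix.vecMul y M = lam • y) (hxy : ∑ i, y i * x i = 1) :
    ∃ (μ K : ℝ), 0 < μ ∧ μ < lam ∧ 0 < K ∧
      ∀ (k : ℕ) (i j : ι), |(M ^ k) i j - lam ^ k * (x i * y j)| ≤ K * μ ^ k := by
  set P : Matrix ι ι ℝ := vecMulVec x y with hP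
  have hPap : ∀ i j, P i j = x i * y j := fun i j => by simp [hP, vecMulVec_apply]
  have hMP : M * P = lam • P := mul_vecMulVec_eigen hMx
  have hPM : P * M = lam • P := vecMulVec_mul' hyM
  have hPP : P * P = P := by
    ext i j
    rw [Matrix.mul_apply]
    simp only [hPap]
    calc ∑ l, x i * y l * (x l * y j) = x i * y j * ∑ l, y l * x l := by
          rw [Finset.mul_sum]; exact Finset.sum_congr rfl fun l _ => by ring
      _ = x i * y j := by rw [hxy, mul_one]
  -- powers of M - lam P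
  have hpow : ∀ k : ℕ, (M - lam • P) ^ (k + 1) = M ^ (k + 1) - lam ^ (k + 1) • P := by
    intro k
    induction k with
    | zero => simp
    | succ k ih =>
      have hMkP : M ^ (k + 1) * P = lam ^ (k + 1) • P := by
        have := mulVec_pow_eigen hMx (k + 1)
        exact mul_vecMulVec_eigen this
      rw [pow_succ, ih, Matrix.sub_mul, Matrix.mul_sub, Matrix.mul_sub, Matrix.mul_smul, hMkP,
        Matrix.smul_mul, hPM, Matrix.smul_mul, Matrix.mul_smul, hPP, ← pow_succ]
      simp only [smul_smul]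
      rw [pow_succ lam (k + 1), mul_comm lam (lam ^ (k + 1))]
      abel
  -- the constant δ
  obtain ⟨⟨i0, j0⟩, -, hδmin⟩ := Finset.exists_min_image (Finset.univ : Finset (ι × ι))
    (fun z => (M ^ p) z.1 z.2 / (x z.1 * y z.2)) Finset.univ_nonempty
  set δ : ℝ := (M ^ p) i0 j0 / (x i0 * y j0) with hδ
  have hδ0 : 0 < δ := div_pos (hp i0 j0) (mul_pos (hx _) (hy _))
  have hδle : ∀ i j, δ * P i j ≤ (M ^ p) i j := by
    intro i j
    have h1 : δ ≤ (M ^ p) i j / (x i * y j) := hδmin (i, j) (Finset.mem_univ _)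
    rw [le_div_iff₀ (mul_pos (hx _) (hy _))] at h1
    rw [hPap]; exact h1
  set R : Matrix ι ι ℝ := M ^ p - δ • P with hR
  have hR0 : ∀ i j, 0 ≤ R i j := by
    intro i j
    simp only [hR, Matrix.sub_apply, Matrix.smul_apply, smul_eq_mul]
    linarith [hδle i j]
  have hPx : P.mulVec x = x := by
    ext i
    simp only [Matrix.mulVec, dotProduct, hPap]
    calc ∑ l, x i * y l * x l = x i * ∑ l, y l * x l := by
          rw [Finset.mul_sum]; exact Finset.sum_congr rfl fun l _ => by ring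
      _ = x i := by rw [hxy, mul_one]
  set c : ℝ := lam ^ p - δ with hc
  have hRx : R.mulVec x = c • x := by
    rw [hR, Matrix.sub_mulVec, mulVec_pow_eigen hMx, Matrix.smul_mulVec, hPx, hc, sub_smul]
  have hc0 : 0 ≤ c := by
    obtain ⟨i⟩ := ‹Nonempty ι›
    have h1 : 0 ≤ (R.mulVec x) i := by
      simp only [Matrix.mulVec, dotProduct]
      exact Finset.sum_nonneg fun j _ => mul_nonneg (hR0 i j) (hx j).le
    rw [hRx, Pi.smul_apply, smul_eq_mul] at h1
    exact nonneg_of_mul_nonneg_left h1 (hx i)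
  have hcL : c < lam ^ p := by rw [hc]; linarith
  have hBdR : Bd x R c := by
    intro i
    have : ∑ j, |R i j| * x j = (R.mulVec x) i := by
      simp only [Matrix.mulVec, dotProduct]
      exact Finset.sum_congr rfl fun j _ => by rw [abs_of_nonneg (hR0 i j)]
    rw [this, hRx]
    simp
  have hBdP : Bd x P 1 := by
    intro i
    have : ∑ j, |P i j| * x j = (P.mulVec x) i := by
      simp only [Matrix.mulVec, dotProduct]
      exact Finset.sum_congr rfl fun j _ => by
        rw [abs_of_nonneg (by rw [hPap]; exact (mul_pos (hx _) (hy _)).le)]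
    rw [this, hPx]
    simp
  have hBdM : Bd x M lam := by
    intro i
    have : ∑ j, |M i j| * x j = (M.mulVec x) i := by
      simp only [Matrix.mulVec, dotProduct]
      exact Finset.sum_congr rfl fun j _ => by rw [abs_of_nonneg (h0 i j)]
    rw [this, hMx]
    simp
  have hsub : ∀ (N N' : Matrix ι ι ℝ) (a b : ℝ), Bd x N a → Bd x N' b → Bd x (N - N') (a + b) := by
    intro N N' a b h h' i
    calc ∑ j, |(N - N') i j| * x j ≤ ∑ j, (|N i j| * x j + |N' i j| * x j) := by
          refine Finset.sum_le_sum fun j _ => ?_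
          rw [← add_mul]
          refine mul_le_mul_of_nonneg_right ?_ (hx j).le
          rw [Matrix.sub_apply]
          exact abs_sub _ _
      _ = ∑ j, |N i j| * x j + ∑ j, |N' i j| * x j := Finset.sum_add_distrib
      _ ≤ a * x i + b * x i := add_le_add (h i) (h' i)
      _ = (a + b) * x i := by ring
  have hsmul : ∀ (N : Matrix ι ι ℝ) (a b : ℝ), 0 ≤ b → Bd x N a → Bd x (b • N) (b * a) := by
    intro N a b hb h i
    calc ∑ j, |(b • N) i j| * x j = b * ∑ j, |N i j| * x j := by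
          rw [Finset.mul_sum]
          refine Finset.sum_congr rfl fun j _ => ?_
          rw [Matrix.smul_apply, smul_eq_mul, abs_mul, abs_of_nonneg hb]; ring
      _ ≤ b * (a * x i) := mul_le_mul_of_nonneg_left (h i) hb
      _ = b * a * x i := by ring
  have hMpP : M ^ p * P = lam ^ p • P := mul_vecMulVec_eigen (mulVec_pow_eigen hMx p)
  have hPMp : ∀ k : ℕ, P * M ^ k = lam ^ k • P := by
    intro k
    induction k with
    | zero => simp
    | succ k ih =>
      rw [pow_succ, ← Matrix.mul_assoc, ih, Matrix.smul_mul, hPM, smul_smul, pow_succ]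
  have hRP : R * P = c • P := by
    rw [hR, Matrix.sub_mul, hMpP, Matrix.smul_mul, hPP, hc, sub_smul]
  have hPR : P * R = c • P := by
    rw [hR, Matrix.mul_sub, hPMp, Matrix.mul_smul, hPP, hc, sub_smul]
  have hRkP : ∀ m : ℕ, R ^ m * P = c ^ m • P := by
    intro m
    induction m with
    | zero => simp
    | succ m ih =>
      rw [pow_succ, Matrix.mul_assoc, hRP, Matrix.mul_smul, ih, smul_smul, pow_succ, mul_comm]
  have hMpm : ∀ m : ℕ, (M ^ p) ^ m = R ^ m + ((lam ^ p) ^ m - c ^ m) • P := by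
    intro m
    induction m with
    | zero => simp
    | succ m ih =>
      have hMp : M ^ p = R + δ • P := by rw [hR]; abel
      rw [pow_succ, ih]
      conv_lhs => rw [hMp]
      rw [Matrix.add_mul, Matrix.mul_add, Matrix.mul_add, Matrix.mul_smul, hRkP, Matrix.smul_mul,
        hPR, Matrix.smul_mul, Matrix.mul_smul, hPP, ← pow_succ]
      simp only [smul_smul]
      rw [add_assoc, ← add_smul, ← add_smul]
      congr 2
      rw [hc]
      ring
  -- choose m with 2 c^m < lam^(p m)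
  have hLp : 0 < lam ^ p := pow_pos hlam p
  have hratio : c / lam ^ p < 1 := by rw [div_lt_one hLp]; exact hcL
  obtain ⟨m, hm⟩ := exists_pow_lt_of_lt_one (show (0 : ℝ) < 1 / 2 by norm_num) hratio
  have hm0 : 0 < m := by
    rcases Nat.eq_zero_or_pos m with h | h
    · subst h; norm_num at hm
    · exact h
  have hm' : 2 * c ^ m < lam ^ (p * m) := by
    rw [div_pow, div_lt_iff₀ (by positivity)] at hm
    rw [pow_mul]
    linarith
  have hq0 : 0 < p * m := Nat.mul_pos hp0 hm0
  have hQpow : Bd x ((M - lam • P) ^ (p * m)) (2 * c ^ m) := by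
    obtain ⟨q', hq'⟩ : ∃ q', p * m = q' + 1 := ⟨p * m - 1, by omega⟩
    have h1 : (M - lam • P) ^ (p * m) = R ^ m - c ^ m • P := by
      rw [hq', hpow, ← hq', pow_mul, hMpm, pow_mul, sub_smul]
      abel
    rw [h1]
    have h2 := hsub (R ^ m) (c ^ m • P) (c ^ m) (c ^ m * 1) (Bd.pow hx hc0 hBdR m)
      (hsmul P 1 (c ^ m) (by positivity) hBdP)
    refine Bd.mono hx h2 ?_
    linarith
  have hQ : Bd x (M - lam • P) (lam + lam * 1) :=
    hsub M (lam • P) lam (lam * 1) hBdM (hsmul P 1 lam hlam.le hBdP)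
  obtain ⟨μ, K, hμ0, hμ1, hK0, hbound⟩ := pow_bound hx (M - lam • P) (lam + lam * 1)
    (by positivity) hQ (p * m) hq0 (2 * c ^ m) lam (by positivity) hQpow hlam hm'
  set K2 : ℝ := ∑ i, ∑ j, P i j with hK2
  have hPnn : ∀ i j, 0 ≤ P i j := fun i j => by rw [hPap]; exact (mul_pos (hx _) (hy _)).le
  have hPK2 : ∀ i j, P i j ≤ K2 := by
    intro i j
    exact (Finset.single_le_sum (f := fun j => P i j) (fun j _ => hPnn i j)
      (Finset.mem_univ j)).trans (Finset.single_le_sum (f := fun i => ∑ j, P i j)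
        (fun i _ => Finset.sum_nonneg fun j _ => hPnn i j) (Finset.mem_univ i))
  have hK20 : 0 ≤ K2 := Finset.sum_nonneg fun i _ => Finset.sum_nonneg fun j _ => hPnn i j
  refine ⟨μ, K + K2, hμ0, hμ1, by positivity, ?_⟩
  intro k i j
  rw [← hPap]
  rcases Nat.eq_zero_or_pos k with hk | hk
  · subst hk
    have h1 := hbound 0 i j
    simp only [pow_zero, mul_one, one_mul] at h1 ⊢
    calc |(1 : Matrix ι ι ℝ) i j - P i j| ≤ |(1 : Matrix ι ι ℝ) i j| + |P i j| := abs_sub _ _
      _ ≤ K + K2 := add_le_add h1 (by rw [abs_of_nonneg (hPnn i j)]; exact hPK2 i j)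
  · obtain ⟨k', rfl⟩ : ∃ k', k = k' + 1 := ⟨k - 1, by omega⟩
    have h1 := hbound (k' + 1) i j
    rw [hpow] at h1
    simp only [Matrix.sub_apply, Matrix.smul_apply, smul_eq_mul] at h1
    refine h1.trans ?_
    have : 0 ≤ K2 * μ ^ (k' + 1) := by positivity
    linarith

/-- both eigenvectors, normalised. -/
theorem exists_eigen_pair [Nonempty ι] (M : Matrix ι ι ℝ)
    (h0 : ∀ i j, 0 ≤ M i j) (p : ℕ) (hp0 : 0 < p) (hp : ∀ i j, 0 < (M ^ p) i j) :
    ∃ (lam : ℝ) (x y : ι → ℝ), 0 < lam ∧ (∀ i, 0 < x i) ∧ (∀ i, 0 < y i) ∧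
      M.mulVec x = lam • x ∧ Matrix.vecMul y M = lam • y ∧ ∑ i, y i * x i = 1 := by
  obtain ⟨lam, x, hlam, hx, hMx⟩ := exists_eigen M h0 p hp0 hp
  obtain ⟨lam', y, hlam', hy, hMy⟩ := exists_eigen Mᵀ (fun i j => h0 j i) p hp0 (fun i j => by
    rw [← Matrix.transpose_pow]; exact hp j i)
  rw [Matrix.mulVec_transpose] at hMy
  have hs : 0 < ∑ i, y i * x i :=
    Finset.sum_pos (fun i _ => mul_pos (hy i) (hx i)) Finset.univ_nonempty
  have h1 : lam' * ∑ i, y i * x i = lam * ∑ i, y i * x i := by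
    have h2 : (Matrix.vecMul y M) ⬝ᵥ x = y ⬝ᵥ (M.mulVec x) := (Matrix.dotProduct_mulVec y M x).symm
    rw [hMy, hMx, smul_dotProduct, dotProduct_smul] at h2
    simpa [dotProduct] using h2
  have h3 : lam' = lam := mul_right_cancel₀ hs.ne' h1
  subst h3
  refine ⟨lam', x, (∑ i, y i * x i)⁻¹ • y, hlam, hx, fun i => ?_, hMx, ?_, ?_⟩
  · simp only [Pi.smul_apply, smul_eq_mul]
    exact mul_pos (inv_pos.mpr hs) (hy i)
  · rw [Matrix.smul_vecMul, hMy, smul_comm]
  · simp only [Pi.smul_apply, smul_eq_mul, mul_assoc]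
    rw [← Finset.mul_sum]
    exact inv_mul_cancel₀ hs.ne'

end PF

theorem pf_gap {ι : Type*} [Fintype ι] [DecidableEq ι] [Nonempty ι] (M : Matrix ι ι ℝ)
    (h0 : ∀ i j, 0 ≤ M i j) (hp : ∃ p : ℕ, 0 < p ∧ ∀ i j, 0 < (M ^ p) i j) :
    ∃ (lam μ K : ℝ) (x y : ι → ℝ), 0 < lam ∧ 0 < μ ∧ μ < lam ∧ 0 < K ∧
      (∀ i, 0 < x i) ∧ (∀ i, 0 < y i) ∧
      M.mulVec x = lam • x ∧ Matrix.vecMul y M = lam • y ∧
      ∀ (k : ℕ) (i j : ι), |(M ^ k) i j - lam ^ k * (x i * y j)| ≤ K * μ ^ k := by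
  obtain ⟨p, hp0, hp⟩ := hp
  obtain ⟨lam, x, y, hlam, hx, hy, hMx, hyM, hxy⟩ := PF.exists_eigen_pair M h0 p hp0 hp
  obtain ⟨μ, K, hμ0, hμ1, hK, hb⟩ := PF.gap_of_eigen M h0 p hp0 hp lam hlam x y hx hy hMx hyM hxy
  exact ⟨lam, μ, K, x, y, hlam, hμ0, hμ1, hK, hx, hy, hMx, hyM, hb⟩


namespace PF

open Matrix

theorem coeff_mul_group {k G : Type*} [Semiring k] [Group G] [Fintype G] (a b : MonoidAlgebra k G)
    (z : G) : (a * b).coeff z = ∑ u : G, a.coeff u * b.coeff (u⁻¹ * z) := by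
  classical
  rw [MonoidAlgebra.coeff_mul_antidiag a b z
    (Finset.univ.map ⟨fun u : G => (u, u⁻¹ * z), fun u v h => by
      simpa using congrArg Prod.fst h⟩)]
  · rw [Finset.sum_map]
    rfl
  · rintro ⟨u, v⟩
    simp only [Finset.mem_map, Finset.mem_univ, true_and, Function.Embedding.coeFn_mk,
      Prod.mk.injEq]
    constructor
    · rintro ⟨w, rfl, rfl⟩
      simp
    · intro h
      exact ⟨u, rfl, by rw [← h]; simp⟩

section
variable {G : Type*} [Group G] [Fintype G] {ι : Type*} [Fintype ι] [DecidableEq ι]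

/-- real regular representation. -/
noncomputable def regR (A : Matrix ι ι (MonoidAlgebra ℤ G)) : Matrix (ι × G) (ι × G) ℝ :=
  fun p q => ((A p.1 q.1).coeff (p.2⁻¹ * q.2) : ℝ)

/-- augmentation. -/
noncomputable def aug (A : Matrix ι ι (MonoidAlgebra ℤ G)) : Matrix ι ι ℝ :=
  fun i j => ∑ g : G, ((A i j).coeff g : ℝ)

omit [DecidableEq ι] in
theorem regR_mul (A B : Matrix ι ι (MonoidAlgebra ℤ G)) : regR (A * B) = regR A * regR B := by
  ext ⟨i, g⟩ ⟨j, h⟩
  rw [Matrix.mul_apply, Fintype.sum_prod_type]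
  simp only [regR, Matrix.mul_apply, MonoidAlgebra.coeff_sum, Finsupp.finsetSum_apply]
  push_cast
  refine Finset.sum_congr rfl fun l _ => ?_
  rw [coeff_mul_group]
  push_cast
  rw [← Equiv.sum_comp (Equiv.mulLeft g⁻¹)]
  refine Finset.sum_congr rfl fun u _ => ?_
  simp only [Equiv.coe_mulLeft]
  congr 3
  group

omit [Fintype G] [Fintype ι] in
theorem regR_one [DecidableEq G] : regR (1 : Matrix ι ι (MonoidAlgebra ℤ G)) = 1 := by
  ext ⟨i, g⟩ ⟨j, h⟩
  simp only [regR, Matrix.one_apply, Prod.mk.injEq]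
  by_cases hij : i = j
  · subst hij
    simp only [if_true, true_and, MonoidAlgebra.one_def, MonoidAlgebra.coeff_single, Finsupp.single_apply]
    by_cases hgh : g = h
    · subst hgh; simp
    · have : ¬ (1 = g⁻¹ * h) := fun hh => hgh (by
        have := congrArg (fun t => g * t) hh
        simpa using this)
      simp [hgh, this]
  · simp [hij]

theorem regR_pow [DecidableEq G] (A : Matrix ι ι (MonoidAlgebra ℤ G)) (k : ℕ) :
    regR (A ^ k) = regR A ^ k := by
  induction k with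
  | zero => rw [pow_zero, pow_zero, regR_one]
  | succ k ih => rw [pow_succ, regR_mul, ih, pow_succ]

omit [DecidableEq ι] in
theorem aug_mul (A B : Matrix ι ι (MonoidAlgebra ℤ G)) : aug (A * B) = aug A * aug B := by
  ext i j
  rw [Matrix.mul_apply]
  simp only [aug, Matrix.mul_apply, MonoidAlgebra.coeff_sum, Finsupp.finsetSum_apply]
  push_cast
  rw [Finset.sum_comm]
  refine Finset.sum_congr rfl fun l _ => ?_
  simp_rw [coeff_mul_group]
  push_cast
  rw [Finset.sum_comm, Finset.sum_mul]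
  refine Finset.sum_congr rfl fun u _ => ?_
  rw [← Finset.mul_sum]
  congr 1
  exact Equiv.sum_comp (Equiv.mulLeft u⁻¹) (fun z => (((B l j).coeff z : ℤ) : ℝ))

omit [Fintype ι] in
theorem aug_one : aug (1 : Matrix ι ι (MonoidAlgebra ℤ G)) = 1 := by
  classical
  ext i j
  simp only [aug, Matrix.one_apply]
  by_cases hij : i = j
  · subst hij
    simp [MonoidAlgebra.one_def, Finsupp.single_apply]
  · simp [hij]

theorem aug_pow (A : Matrix ι ι (MonoidAlgebra ℤ G)) (k : ℕ) :
    aug (A ^ k) = aug A ^ k := by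
  induction k with
  | zero => rw [pow_zero, pow_zero, aug_one]
  | succ k ih => rw [pow_succ, aug_mul, ih, pow_succ]

theorem NN_pow {A : Matrix ι ι (MonoidAlgebra ℤ G)} (h0 : ∀ i j, NN (A i j)) (k : ℕ) (i j : ι) :
    NN ((A ^ k) i j) := by
  classical
  induction k generalizing i j with
  | zero =>
    intro g
    rw [pow_zero, Matrix.one_apply]
    split_ifs
    · rw [MonoidAlgebra.one_def, MonoidAlgebra.coeff_single, Finsupp.single_apply]
      split_ifs <;> norm_num
    · simp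
  | succ k ih =>
    intro g
    rw [pow_succ, Matrix.mul_apply, MonoidAlgebra.coeff_sum, Finsupp.finsetSum_apply]
    refine Finset.sum_nonneg fun l _ => ?_
    rw [coeff_mul_group]
    exact Finset.sum_nonneg fun u _ => mul_nonneg (ih i l u) (h0 l j _)

end

end PF

theorem pf_group {G : Type*} [Group G] [Fintype G] {κ : Type*} [Fintype κ] [DecidableEq κ]
    (A : Matrix (Unit ⊕ κ) (Unit ⊕ κ) (MonoidAlgebra ℤ G)) (h0 : ∀ i j, NN (A i j))
    (hp : ∃ p : ℕ, 0 < p ∧ ∀ i j, PP ((A ^ p) i j)) :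
    ∃ (lam μ K : ℝ) (x y : Unit ⊕ κ → ℝ), 0 < lam ∧ 0 < μ ∧ μ < lam ∧ 0 < K ∧
      (∀ i, 0 < x i) ∧ (∀ i, 0 < y i) ∧
      (∀ i, ∑ j, (∑ g : G, ((A i j).coeff g : ℝ)) * x j = lam * x i) ∧
      (∀ j, ∑ i, y i * (∑ g : G, ((A i j).coeff g : ℝ)) = lam * y j) ∧
      (∀ (k : ℕ) (i j : Unit ⊕ κ) (g : G),
        |(((A ^ k) i j).coeff g : ℝ) - lam ^ k * (x i * y j)| ≤ K * μ ^ k) ∧
      (∀ (k : ℕ) (i j : κ) (g : G),
        (((A.toBlocks₂₂ ^ k) i j).coeff g : ℝ) ≤ K * μ ^ k) ∧
      (1 < lam ∨ (IsEmpty κ ∧ Subsingleton G ∧ ∀ i j, A i j = 1)) := by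
  classical
  obtain ⟨p, hp0, hp⟩ := hp
  have hcoef0 : ∀ (k : ℕ) i j g, (0 : ℝ) ≤ (((A ^ k) i j).coeff g : ℝ) := fun k i j g => by
    exact_mod_cast PF.NN_pow h0 k i j g
  have hcoefp : ∀ i j g, (1 : ℝ) ≤ (((A ^ p) i j).coeff g : ℝ) := fun i j g => by
    have : (1 : ℤ) ≤ ((A ^ p) i j).coeff g := hp i j g
    exact_mod_cast this
  -- the augmented matrix
  set M : Matrix (Unit ⊕ κ) (Unit ⊕ κ) ℝ := PF.aug A with hM
  have hM0 : ∀ i j, 0 ≤ M i j := fun i j => by
    have := fun g => hcoef0 1 i j g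
    rw [pow_one] at this
    exact Finset.sum_nonneg fun g _ => this g
  have hcard : (1 : ℝ) ≤ Fintype.card G := by exact_mod_cast Fintype.card_pos
  have hMp : ∀ i j, (Fintype.card G : ℝ) ≤ (M ^ p) i j := fun i j => by
    rw [hM, ← PF.aug_pow]
    calc (Fintype.card G : ℝ) = ∑ g : G, (1 : ℝ) := by simp
      _ ≤ _ := Finset.sum_le_sum fun g _ => hcoefp i j g
  have hMp0 : ∀ i j, 0 < (M ^ p) i j := fun i j => by linarith [hMp i j]
  obtain ⟨lam, x, y, hlam, hx, hy, hMx, hyM, hxy⟩ := PF.exists_eigen_pair M hM0 p hp0 hMp0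
  have hcardpos : (0 : ℝ) < Fintype.card G := by linarith
  -- normalised left eigenvector
  set y' : Unit ⊕ κ → ℝ := fun j => y j / Fintype.card G with hy'
  have hy'0 : ∀ j, 0 < y' j := fun j => div_pos (hy j) hcardpos
  -- sum relations
  have hrel1 : ∀ i, ∑ j, (∑ g : G, ((A i j).coeff g : ℝ)) * x j = lam * x i := fun i => by
    have := congrFun hMx i
    simpa [Matrix.mulVec, dotProduct, hM, PF.aug] using this
  have hrel2' : ∀ j, ∑ i, y i * (∑ g : G, ((A i j).coeff g : ℝ)) = lam * y j := fun j => by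
    have := congrFun hyM j
    simpa [Matrix.vecMul, dotProduct, hM, PF.aug] using this
  have hrel2 : ∀ j, ∑ i, y' i * (∑ g : G, ((A i j).coeff g : ℝ)) = lam * y' j := fun j => by
    simp only [hy']
    rw [← mul_div_assoc, ← hrel2' j, Finset.sum_div]
    exact Finset.sum_congr rfl fun i _ => by ring
  -- the regular representation
  set N : Matrix ((Unit ⊕ κ) × G) ((Unit ⊕ κ) × G) ℝ := PF.regR A with hN
  obtain ⟨μ1, K1, hμ10, hμ11, hK1, hb1⟩ := PF.gap_of_eigen N
    (fun p q => by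
      have := hcoef0 1 p.1 q.1 (p.2⁻¹ * q.2)
      rw [pow_one] at this
      exact this) p hp0
    (fun p' q => by
      rw [hN, ← PF.regR_pow]
      have := hcoefp p'.1 q.1 (p'.2⁻¹ * q.2)
      simp only [PF.regR]
      linarith) lam hlam (fun q => x q.1) (fun q => y' q.1)
    (fun q => hx _) (fun q => hy'0 _)
    (by
      ext ⟨i, g⟩
      simp only [Matrix.mulVec, dotProduct, hN, PF.regR, Fintype.sum_prod_type, Pi.smul_apply,
        smul_eq_mul]
      rw [← hrel1 i]
      refine Finset.sum_congr rfl fun j _ => ?_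
      rw [← Finset.sum_mul]
      congr 1
      exact Equiv.sum_comp (Equiv.mulLeft g⁻¹) (fun z => (((A i j).coeff z : ℤ) : ℝ)))
    (by
      ext ⟨j, h⟩
      simp only [Matrix.vecMul, dotProduct, hN, PF.regR, Fintype.sum_prod_type, Pi.smul_apply,
        smul_eq_mul]
      rw [← hrel2 j]
      refine Finset.sum_congr rfl fun i _ => ?_
      rw [← Finset.mul_sum]
      congr 1
      rw [← Equiv.sum_comp (Equiv.inv G)]
      simp only [Equiv.inv_apply, inv_inv]
      exact Equiv.sum_comp (Equiv.mulRight h) (fun z => (((A i j).coeff z : ℤ) : ℝ)))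
    (by
      rw [Fintype.sum_prod_type]
      simp only [hy', Finset.sum_const, Finset.card_univ, nsmul_eq_mul]
      rw [← hxy]
      refine Finset.sum_congr rfl fun i _ => ?_
      field_simp)
  -- the rest
  set D : Matrix κ κ (MonoidAlgebra ℤ G) := A.toBlocks₂₂ with hD
  have hD0 : ∀ i j, NN (D i j) := fun i j => h0 _ _
  set Db : Matrix κ κ ℝ := PF.aug D with hDb
  have hDbM : ∀ i j, Db i j = M (Sum.inr i) (Sum.inr j) := fun i j => rfl
  have hDb0 : ∀ i j, 0 ≤ Db i j := fun i j => by rw [hDbM]; exact hM0 _ _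
  have hDbk : ∀ (k : ℕ) i j, (Db ^ k) i j ≤ (M ^ k) (Sum.inr i) (Sum.inr j) := by
    intro k
    induction k with
    | zero =>
      intro i j
      simp only [pow_zero, Matrix.one_apply, Sum.inr.injEq]
      exact le_refl _
    | succ k ih =>
      intro i j
      rw [pow_succ, pow_succ, Matrix.mul_apply, Matrix.mul_apply, Fintype.sum_sum_type]
      have h1 : 0 ≤ ∑ a : Unit, (M ^ k) (Sum.inr i) (Sum.inl a) * M (Sum.inl a) (Sum.inr j) :=
        Finset.sum_nonneg fun a _ => mul_nonneg (PF.pow_nonneg' hM0 k _ _) (hM0 _ _)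
      have h2 : ∑ l, (Db ^ k) i l * Db l j ≤
          ∑ l : κ, (M ^ k) (Sum.inr i) (Sum.inr l) * M (Sum.inr l) (Sum.inr j) :=
        Finset.sum_le_sum fun l _ => mul_le_mul (ih i l) (by rw [hDbM]) (hDb0 _ _)
          (PF.pow_nonneg' hM0 k _ _)
      linarith
  obtain ⟨i0, -, hi0⟩ := Finset.exists_min_image (Finset.univ : Finset (Unit ⊕ κ))
    (fun i => (M ^ p) i (Sum.inl ()) * x (Sum.inl ()) / x i) Finset.univ_nonempty
  set ε : ℝ := (M ^ p) i0 (Sum.inl ()) * x (Sum.inl ()) / x i0 with hε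
  have hε0 : 0 < ε := div_pos (mul_pos (hMp0 _ _) (hx _)) (hx _)
  have hεle : ∀ i, ε * x i ≤ (M ^ p) i (Sum.inl ()) * x (Sum.inl ()) := by
    intro i
    have h1 : ε ≤ (M ^ p) i (Sum.inl ()) * x (Sum.inl ()) / x i := hi0 i (Finset.mem_univ i)
    rwa [le_div_iff₀ (hx i)] at h1
  have hMpx : ∀ i, ∑ j, (M ^ p) i j * x j = lam ^ p * x i := fun i => by
    have := congrFun (PF.mulVec_pow_eigen hMx p) i
    simpa [Matrix.mulVec, dotProduct] using this
  have hrest : ∀ i, ε * x i + ∑ j : κ, (M ^ p) i (Sum.inr j) * x (Sum.inr j) ≤ lam ^ p * x i := by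
    intro i
    rw [← hMpx i, Fintype.sum_sum_type]
    have := hεle i
    simp only [Finset.univ_unique, Finset.sum_singleton]
    have h3 : (default : Unit) = () := rfl
    rw [h3]
    linarith
  have hrest0 : ∀ i, 0 ≤ ∑ j : κ, (M ^ p) i (Sum.inr j) * x (Sum.inr j) := fun i =>
    Finset.sum_nonneg fun j _ => mul_nonneg (hMp0 _ _).le (hx _).le
  have hεL : ε ≤ lam ^ p := by
    have h1 := hrest i0
    have h2 := hrest0 i0
    have h3 : ε * x i0 ≤ lam ^ p * x i0 := by linarith
    exact le_of_mul_le_mul_right h3 (hx i0)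
  have hxr : ∀ i : κ, 0 < x (Sum.inr i) := fun i => hx _
  obtain ⟨μ2, K2, hμ20, hμ21, hK2, hb2⟩ := PF.pow_bound (x := fun i : κ => x (Sum.inr i)) hxr Db
    lam hlam.le
    (by
      intro i
      have h1 := hrel1 (Sum.inr i)
      have h2 : ∑ j, M (Sum.inr i) j * x j = lam * x (Sum.inr i) := h1
      rw [Fintype.sum_sum_type] at h2
      have h3 : 0 ≤ ∑ a : Unit, M (Sum.inr i) (Sum.inl a) * x (Sum.inl a) :=
        Finset.sum_nonneg fun a _ => mul_nonneg (hM0 _ _) (hx _).le
      have h4 : ∑ j, |Db i j| * x (Sum.inr j) = ∑ j : κ, M (Sum.inr i) (Sum.inr j) * x (Sum.inr j) :=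
        Finset.sum_congr rfl fun j _ => by rw [abs_of_nonneg (hDb0 i j), hDbM]
      rw [h4]
      linarith)
    p hp0 (lam ^ p - ε) lam (by linarith)
    (by
      intro i
      have h4 : ∑ j, |(Db ^ p) i j| * x (Sum.inr j) ≤
          ∑ j : κ, (M ^ p) (Sum.inr i) (Sum.inr j) * x (Sum.inr j) :=
        Finset.sum_le_sum fun j _ => by
          rw [abs_of_nonneg (PF.pow_nonneg' hDb0 p i j)]
          exact mul_le_mul_of_nonneg_right (hDbk p i j) (hx _).le
      have h5 := hrest (Sum.inr i)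
      have h6 : (lam ^ p - ε) * x (Sum.inr i) = lam ^ p * x (Sum.inr i) - ε * x (Sum.inr i) := by
        ring
      rw [h6]
      linarith)
    hlam (by linarith)
  refine ⟨lam, max μ1 μ2, max K1 K2, x, y', hlam, lt_max_of_lt_left hμ10, max_lt hμ11 hμ21,
    lt_max_of_lt_left hK1, hx, hy'0, hrel1, hrel2, ?_, ?_, ?_⟩
  · intro k i j g
    have h1 := hb1 k (i, 1) (j, g)
    rw [hN, ← PF.regR_pow] at h1
    simp only [PF.regR, inv_one, one_mul] at h1
    refine h1.trans ?_
    gcongr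
    · exact le_max_left _ _
    · exact le_max_left _ _
  · intro k i j g
    have h1 := hb2 k i j
    have h2 : (((D ^ k) i j).coeff g : ℝ) ≤ (Db ^ k) i j := by
      rw [hDb, ← PF.aug_pow]
      simp only [PF.aug]
      exact Finset.single_le_sum (f := fun g : G => (((D ^ k) i j).coeff g : ℝ))
        (fun g _ => by exact_mod_cast PF.NN_pow hD0 k i j g) (Finset.mem_univ g)
    refine (h2.trans ((le_abs_self _).trans h1)).trans ?_
    gcongr
    · exact le_max_right _ _
    · exact le_max_right _ _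
  · by_cases hl : 1 < lam
    · exact Or.inl hl
    · right
      push Not at hl
      -- lam ^ p ≤ 1
      have hLp : lam ^ p ≤ 1 := pow_le_one₀ hlam.le hl
      have hS : ∀ i, (Fintype.card G : ℝ) * ∑ j, x j ≤ x i := by
        intro i
        calc (Fintype.card G : ℝ) * ∑ j, x j = ∑ j, (Fintype.card G : ℝ) * x j := Finset.mul_sum _ _ _
          _ ≤ ∑ j, (M ^ p) i j * x j :=
            Finset.sum_le_sum fun j _ => mul_le_mul_of_nonneg_right (hMp i j) (hx j).le
          _ = lam ^ p * x i := hMpx i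
          _ ≤ 1 * x i := mul_le_mul_of_nonneg_right hLp (hx i).le
          _ = x i := one_mul _
      have hxS : ∀ i, x i ≤ ∑ j, x j := fun i =>
        Finset.single_le_sum (fun j _ => (hx j).le) (Finset.mem_univ i)
      have hSpos : 0 < ∑ j, x j := Finset.sum_pos (fun j _ => hx j) Finset.univ_nonempty
      have hG1 : (Fintype.card G : ℝ) = 1 := by
        refine le_antisymm ?_ hcard
        have := (hS (Sum.inl ())).trans (hxS (Sum.inl ()))
        by_contra hcon
        push Not at hcon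
        nlinarith
      have hG : Subsingleton G := by
        have : Fintype.card G = 1 := by exact_mod_cast hG1
        exact (Fintype.card_le_one_iff_subsingleton).mp this.le
      have hκ : IsEmpty κ := by
        constructor
        intro a
        have h1 := hS (Sum.inl ())
        rw [hG1, one_mul] at h1
        have h2 : x (Sum.inl ()) + x (Sum.inr a) ≤ ∑ j, x j := by
          rw [← Finset.sum_pair (f := x) (show (Sum.inl () : Unit ⊕ κ) ≠ Sum.inr a by simp)]
          exact Finset.sum_le_sum_of_subset_of_nonneg (Finset.subset_univ _)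
            (fun j _ _ => (hx j).le)
        linarith [hx (Sum.inr a)]
      refine ⟨hκ, hG, ?_⟩
      have hidx : ∀ i : Unit ⊕ κ, i = Sum.inl () := by
        rintro (⟨⟩ | a)
        · rfl
        · exact (hκ.false a).elim
      have hA : (A (Sum.inl ()) (Sum.inl ())).coeff 1 = 1 := by
        -- eigen relation
        have h1 := hrel1 (Sum.inl ())
        rw [Fintype.sum_sum_type] at h1
        simp only [Finset.univ_eq_empty, Finset.sum_empty, add_zero, Finset.univ_unique,
          Finset.sum_singleton] at h1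
        have h3 : (default : Unit) = () := rfl
        rw [h3] at h1
        have huniq : ∑ g : G, ((A (Sum.inl ()) (Sum.inl ())).coeff g : ℝ) =
            ((A (Sum.inl ()) (Sum.inl ())).coeff 1 : ℝ) := by
          rw [Finset.sum_eq_single 1]
          · intro b _ hb
            exact (hb (Subsingleton.elim _ _)).elim
          · simp
        have h4 : ((A (Sum.inl ()) (Sum.inl ())).coeff 1 : ℝ) = lam := by
          have h5 := mul_right_cancel₀ (hx _).ne' h1
          rw [← h5]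
          exact huniq.symm
        have h5 : (0 : ℤ) < (A (Sum.inl ()) (Sum.inl ())).coeff 1 := by
          have : (0 : ℝ) < ((A (Sum.inl ()) (Sum.inl ())).coeff 1 : ℝ) := by rw [h4]; exact hlam
          exact_mod_cast this
        have h6 : (A (Sum.inl ()) (Sum.inl ())).coeff 1 ≤ (1 : ℤ) := by
          have : ((A (Sum.inl ()) (Sum.inl ())).coeff 1 : ℝ) ≤ 1 := by rw [h4]; exact hl
          exact_mod_cast this
        omega
      intro i j
      rw [hidx i, hidx j]
      apply MonoidAlgebra.coeff_injective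
      ext g
      rw [Subsingleton.elim g 1, hA, MonoidAlgebra.one_def, MonoidAlgebra.coeff_single, Finsupp.single_apply]
      simp

end Pool.Agent.TS
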