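import Pool.Agent.Lib.MP_402c18_an.Defs

/-!
# MP_402c18_an (S04445), piece KER: beta expansions, transitivity of elementary matrices on nonzero
row vectors, and the adjustment of the kernel vector.
-/

set_option autoImplicit false
set_option linter.unusedSectionVars false
set_option linter.unusedSimpArgs false

namespace Pool.Agent.TS

open PowerSeries

/-! ## Beta expansion -/

theorem exists_series_eq (ρ : ℝ) (h0 : 0 < ρ) (h1 : ρ < 1) (κ₀ : ℕ) (z : ℝ) :
    ∃ (a : ℕ → ℤ) (C : ℕ), (∀ j, |a j| ≤ C) ∧ (∀ j, j < κ₀ → a j = 0) ∧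
      HasSum (fun j => (a j : ℝ) * ρ ^ j) z := by
  classical
  have hρne : ρ ≠ 0 := ne_of_gt h0
  set w : ℕ → ℝ := fun n => Nat.rec (z / ρ ^ κ₀) (fun _ x => Int.fract x / ρ) n with hw
  have hw0 : w 0 = z / ρ ^ κ₀ := rfl
  have hwS : ∀ n, w (n + 1) = Int.fract (w n) / ρ := fun n => rfl
  set B : ℝ := |z / ρ ^ κ₀| + 1 / ρ with hB
  have hBpos : 0 ≤ B := by positivity
  have hwb : ∀ n, |w n| ≤ B := by
    intro n
    cases n with
    | zero =>
      rw [hw0, hB]
      have : 0 ≤ 1 / ρ := by positivity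
      linarith
    | succ n =>
      rw [hwS, abs_div, abs_of_pos h0, abs_of_nonneg (Int.fract_nonneg _), hB]
      have h2 : Int.fract (w n) / ρ ≤ 1 / ρ :=
        div_le_div_of_nonneg_right (le_of_lt (Int.fract_lt_one _)) h0.le
      have : 0 ≤ |z / ρ ^ κ₀| := abs_nonneg _
      linarith
  have hrec : ∀ n, w n = (⌊w n⌋ : ℝ) + ρ * w (n + 1) := by
    intro n
    rw [hwS, mul_div_cancel₀ _ hρne]
    exact (Int.floor_add_fract (w n)).symm
  have hsum : ∀ N, ∑ n ∈ Finset.range N, (⌊w n⌋ : ℝ) * ρ ^ n = w 0 - ρ ^ N * w N := by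
    intro N
    induction N with
    | zero => simp
    | succ N ih =>
      rw [Finset.sum_range_succ, ih]
      have := hrec N
      have h3 : w 0 - ρ ^ N * w N + (⌊w N⌋ : ℝ) * ρ ^ N
          = w 0 - ρ ^ N * (w N - (⌊w N⌋ : ℝ)) := by ring
      rw [h3]
      have h4 : w N - (⌊w N⌋ : ℝ) = ρ * w (N + 1) := by linarith
      rw [h4, pow_succ]
      ring
  obtain ⟨C, hC⟩ := exists_nat_gt (B + 1)
  have hfl : ∀ n, |(⌊w n⌋ : ℝ)| ≤ B + 1 := by
    intro n
    have h5 : (⌊w n⌋ : ℝ) = w n - Int.fract (w n) := by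
      have := Int.floor_add_fract (w n)
      linarith
    rw [h5]
    have h6 := Int.fract_nonneg (w n)
    have h7 := Int.fract_lt_one (w n)
    have h8 := abs_le.mp (hwb n)
    rw [abs_le]
    constructor <;> linarith [h8.1, h8.2]
  have htend : Filter.Tendsto (fun N => w 0 - ρ ^ N * w N) Filter.atTop (nhds (w 0)) := by
    have h9 : Filter.Tendsto (fun N => ρ ^ N * w N) Filter.atTop (nhds 0) := by
      have h10 : Filter.Tendsto (fun N => ρ ^ N * B) Filter.atTop (nhds 0) := by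
        have := (tendsto_pow_atTop_nhds_zero_of_lt_one h0.le h1).mul_const B
        simpa using this
      refine squeeze_zero_norm (fun N => ?_) h10
      rw [Real.norm_eq_abs, abs_mul, abs_of_nonneg (pow_nonneg h0.le N)]
      exact mul_le_mul_of_nonneg_left (hwb N) (pow_nonneg h0.le N)
    have := (tendsto_const_nhds (x := w 0) (f := Filter.atTop (α := ℕ))).sub h9
    simpa using this
  have hsm : Summable (fun n => (⌊w n⌋ : ℝ) * ρ ^ n) := by
    refine Summable.of_norm_bounded (g := fun n => (B + 1) * ρ ^ n)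
      ((summable_geometric_of_lt_one h0.le h1).mul_left _) (fun n => ?_)
    rw [Real.norm_eq_abs, abs_mul, abs_of_nonneg (pow_nonneg h0.le n)]
    exact mul_le_mul_of_nonneg_right (hfl n) (pow_nonneg h0.le n)
  have hHS : HasSum (fun n => (⌊w n⌋ : ℝ) * ρ ^ n) (w 0) := by
    have h11 := hsm.hasSum.tendsto_sum_nat
    have h12 : Filter.Tendsto (fun N => ∑ n ∈ Finset.range N, (⌊w n⌋ : ℝ) * ρ ^ n)
        Filter.atTop (nhds (w 0)) := by
      simpa [hsum] using htend
    rw [tendsto_nhds_unique h12 h11]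
    exact hsm.hasSum
  refine ⟨fun j => if j < κ₀ then 0 else ⌊w (j - κ₀)⌋, C, ?_, ?_, ?_⟩
  · intro j
    by_cases hj : j < κ₀
    · simp [hj]
    · simp only [hj, if_false]
      have h13 : (|(⌊w (j - κ₀)⌋ : ℤ)| : ℝ) ≤ (C : ℝ) := by
        have := hfl (j - κ₀)
        linarith
      exact_mod_cast h13
  · intro j hj
    simp [hj]
  · rw [← hasSum_nat_add_iff' κ₀]
    have h14 : ∑ i ∈ Finset.range κ₀, (((if i < κ₀ then (0 : ℤ) else ⌊w (i - κ₀)⌋) : ℤ) : ℝ)
        * ρ ^ i = 0 := by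
      apply Finset.sum_eq_zero
      intro i hi
      simp [Finset.mem_range.mp hi]
    rw [h14, sub_zero]
    have h15 := hHS.mul_left (ρ ^ κ₀)
    have h16 : ρ ^ κ₀ * w 0 = z := by
      rw [hw0]
      field_simp
    rw [h16] at h15
    refine h15.congr_fun ?_ |> fun h => h
    intro n
    simp only [show ¬ (n + κ₀ < κ₀) by omega, if_false, Nat.add_sub_cancel]
    rw [pow_add]
    ring


/-! ## Elementary matrices act transitively on nonzero row vectors -/

namespace Ker

theorem el_mul_el_neg {S : Type*} [Ring S] {ι : Type*} [Fintype ι] [DecidableEq ι] {a b : ι}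
    (hab : a ≠ b) (f : S) : el a b f * el a b (-f) = (1 : Matrix ι ι S) := by
  unfold el
  rw [add_mul, one_mul, mul_add, mul_one, Matrix.single_mul_single_of_ne _ _ _ _ (Ne.symm hab)]
  rw [add_zero, ← Matrix.single_neg]
  abel

/-- elementary matrices as units -/
def elU {S : Type*} [Ring S] {ι : Type*} [Fintype ι] [DecidableEq ι] {a b : ι}
    (hab : a ≠ b) (f : S) : (Matrix ι ι S)ˣ where
  val := el a b f
  inv := el a b (-f)
  val_inv := el_mul_el_neg hab f
  inv_val := by
    have := el_mul_el_neg hab (-f)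
    rwa [neg_neg] at this

theorem vecMul_el {S : Type*} [Ring S] {ι : Type*} [Fintype ι] [DecidableEq ι] (a b : ι)
    (f : S) (v : ι → S) :
    Matrix.vecMul v (el a b f) = fun j => v j + if j = b then v a * f else 0 := by
  funext j
  unfold el
  rw [Matrix.vecMul_add, Matrix.vecMul_one, Pi.add_apply]
  congr 1
  rw [Matrix.vecMul, dotProduct]
  rw [Finset.sum_eq_single a]
  · by_cases hj : j = b
    · subst hj
      simp
    · simp [Matrix.single, hj, Ne.symm hj]
  · intro i _ hi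
    simp [Matrix.single, Ne.symm hi]
  · simp

/-- the relation of being moved to by elementary matrices -/
def Mv {ι : Type*} [Fintype ι] [DecidableEq ι] (a b : ι → ℝ) : Prop :=
  ∃ M ∈ elGroup ι (Set.univ : Set ℝ), Matrix.vecMul a M.val = b

section
variable {ι : Type*} [Fintype ι] [DecidableEq ι]

theorem Mv.refl (a : ι → ℝ) : Mv a a := ⟨1, Subgroup.one_mem _, by simp⟩

theorem Mv.trans {a b c : ι → ℝ} (h : Mv a b) (h' : Mv b c) : Mv a c := by
  obtain ⟨M, hM, hM'⟩ := h
  obtain ⟨N, hN, hN'⟩ := h'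
  refine ⟨M * N, Subgroup.mul_mem _ hM hN, ?_⟩
  rw [Units.val_mul, ← Matrix.vecMul_vecMul, hM', hN']

theorem Mv.symm {a b : ι → ℝ} (h : Mv a b) : Mv b a := by
  obtain ⟨M, hM, hM'⟩ := h
  refine ⟨M⁻¹, Subgroup.inv_mem _ hM, ?_⟩
  rw [← hM', Matrix.vecMul_vecMul, ← Units.val_mul, mul_inv_cancel, Units.val_one,
    Matrix.vecMul_one]

theorem Mv.update (a : ι → ℝ) (p q : ι) (hpq : p ≠ q) (hp : a p ≠ 0) (c : ℝ) :
    Mv a (Function.update a q c) := by
  refine ⟨elU hpq ((c - a q) / a p), ?_, ?_⟩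
  · exact Subgroup.subset_closure ⟨p, q, _, hpq, Set.mem_univ _, rfl⟩
  · change Matrix.vecMul a (el p q ((c - a q) / a p)) = _
    rw [vecMul_el]
    funext j
    by_cases hj : j = q
    · subst hj
      simp only [if_true, Function.update_self]
      field_simp
      ring
    · simp [hj, Function.update_of_ne hj]

theorem Mv.clear (a : ι → ℝ) (p : ι) (hp : a p ≠ 0) (S : Finset ι) (hS : p ∉ S) :
    Mv a (fun j => if j ∈ S then 0 else a j) := by
  induction S using Finset.induction_on with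
  | empty => simpa using Mv.refl a
  | insert q S hq ih =>
    have hpq : p ≠ q := by
      intro h
      apply hS
      simp [h]
    have hpS : p ∉ S := fun h => hS (Finset.mem_insert_of_mem h)
    refine (ih hpS).trans ?_
    have h1 := Mv.update (fun j => if j ∈ S then 0 else a j) p q hpq (by simpa [hpS] using hp) 0
    have h2 : Function.update (fun j => if j ∈ S then 0 else a j) q 0
        = fun j => if j ∈ insert q S then 0 else a j := by
      funext j
      by_cases hj : j = q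
      · subst hj
        simp
      · simp [Function.update_of_ne hj, hj]
    rwa [h2] at h1

theorem Mv.toSingle (a : ι → ℝ) (p : ι) (hp : a p ≠ 0) : Mv a (Pi.single p (a p)) := by
  have h1 := Mv.clear a p hp (Finset.univ.erase p) (by simp)
  have h2 : (fun j => if j ∈ Finset.univ.erase p then 0 else a j) = Pi.single p (a p) := by
    funext j
    by_cases hj : j = p
    · subst hj
      simp
    · simp [hj]
  rwa [h2] at h1

theorem Mv.single (p q : ι) (hpq : p ≠ q) (x y : ℝ) (hx : x ≠ 0) (hy : y ≠ 0) :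
    Mv (Pi.single p x) (Pi.single q y) := by
  have h1 := Mv.update (Pi.single p x) p q hpq (by simpa using hx) y
  have h2 := Mv.toSingle (Function.update (Pi.single p x) q y : ι → ℝ) q (by simpa using hy)
  simp only [Function.update_self] at h2
  exact h1.trans h2

end

end Ker

open Ker in
theorem exists_el_vecMul {ι : Type*} [Fintype ι] [DecidableEq ι] (hc : 2 ≤ Fintype.card ι)
    (a b : ι → ℝ) (ha : a ≠ 0) (hb : b ≠ 0) :
    ∃ M ∈ elGroup ι (Set.univ : Set ℝ), Matrix.vecMul a M.val = b := by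
  obtain ⟨p, hp⟩ := Function.ne_iff.mp ha
  obtain ⟨q, hq⟩ := Function.ne_iff.mp hb
  have key : ∀ p q : ι, ∀ x y : ℝ, x ≠ 0 → y ≠ 0 → Mv (Pi.single p x) (Pi.single q y) := by
    intro p q x y hx hy
    by_cases hpq : p = q
    · subst hpq
      have : Nontrivial ι := Fintype.one_lt_card_iff_nontrivial.mp (by omega)
      obtain ⟨r, hr⟩ := exists_ne p
      exact (Mv.single p r hr.symm x 1 hx one_ne_zero).trans
        (Mv.single r p hr 1 y one_ne_zero hy)
    · exact Mv.single p q hpq x y hx hy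
  exact ((Mv.toSingle a p hp).trans (key p q _ _ hp hq)).trans (Mv.toSingle b q hq).symm


/-! ## Evaluation of power series at `ρ` -/

namespace Ker

/-- absolutely summable at `ρ` -/
def Sm (ρ : ℝ) (u : PowerSeries ℝ) : Prop := Summable (fun d => ‖coeff d u * ρ ^ d‖)

/-- the value at `ρ` -/
noncomputable def ev0 (ρ : ℝ) (u : PowerSeries ℝ) : ℝ := ∑' d : ℕ, coeff d u * ρ ^ d

section
variable {ρ : ℝ}

theorem Sm.zero : Sm ρ 0 := by
  unfold Sm
  simp

theorem Sm.one : Sm ρ 1 := by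
  unfold Sm
  refine summable_of_ne_finset_zero (s := {0}) ?_
  intro d hd
  have : d ≠ 0 := by simpa using hd
  simp [PowerSeries.coeff_one, this]

theorem Sm.add {u v : PowerSeries ℝ} (hu : Sm ρ u) (hv : Sm ρ v) : Sm ρ (u + v) := by
  unfold Sm at *
  refine Summable.of_nonneg_of_le (fun d => norm_nonneg _) (fun d => ?_) (hu.add hv)
  rw [map_add, add_mul]
  exact norm_add_le _ _

theorem Sm.neg {u : PowerSeries ℝ} (hu : Sm ρ u) : Sm ρ (-u) := by
  unfold Sm at *
  simpa using hu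

theorem Sm.sum {ι : Type*} (s : Finset ι) (f : ι → PowerSeries ℝ) (h : ∀ i ∈ s, Sm ρ (f i)) :
    Sm ρ (∑ i ∈ s, f i) := by
  classical
  induction s using Finset.induction_on with
  | empty => simpa using Sm.zero
  | insert a s ha ih =>
    rw [Finset.sum_insert ha]
    exact (h a (Finset.mem_insert_self _ _)).add
      (ih (fun i hi => h i (Finset.mem_insert_of_mem hi)))

theorem antidiag_eq (u v : PowerSeries ℝ) (n : ℕ) :
    ∑ kl ∈ Finset.HasAntidiagonal.antidiagonal n, (coeff kl.1 u * ρ ^ kl.1) * (coeff kl.2 v * ρ ^ kl.2)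
      = coeff n (u * v) * ρ ^ n := by
  rw [PowerSeries.coeff_mul, Finset.sum_mul]
  refine Finset.sum_congr rfl (fun kl hkl => ?_)
  rw [← Finset.HasAntidiagonal.mem_antidiagonal.mp hkl, pow_add]
  ring

theorem Sm.mul {u v : PowerSeries ℝ} (hu : Sm ρ u) (hv : Sm ρ v) : Sm ρ (u * v) := by
  unfold Sm at *
  have h := summable_norm_sum_mul_antidiagonal_of_summable_norm hu hv
  simpa only [antidiag_eq] using h

theorem ev0_mul {u v : PowerSeries ℝ} (hu : Sm ρ u) (hv : Sm ρ v) :
    ev0 ρ (u * v) = ev0 ρ u * ev0 ρ v := by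
  unfold Sm at *
  unfold ev0
  have h := tsum_mul_tsum_eq_tsum_sum_antidiagonal_of_summable_norm hu hv
  rw [h]
  exact tsum_congr (fun n => (antidiag_eq u v n).symm)

theorem ev0_add {u v : PowerSeries ℝ} (hu : Sm ρ u) (hv : Sm ρ v) :
    ev0 ρ (u + v) = ev0 ρ u + ev0 ρ v := by
  unfold Sm at *
  unfold ev0
  rw [← (hu.of_norm).tsum_add (hv.of_norm)]
  exact tsum_congr (fun n => by rw [map_add, add_mul])

theorem ev0_zero : ev0 ρ 0 = 0 := by
  unfold ev0
  simp

theorem ev0_one : ev0 ρ 1 = 1 := by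
  unfold ev0
  rw [tsum_eq_single 0]
  · simp
  · intro d hd
    simp [PowerSeries.coeff_one, hd]

theorem ev0_sum {ι : Type*} (s : Finset ι) (f : ι → PowerSeries ℝ) (h : ∀ i ∈ s, Sm ρ (f i)) :
    ev0 ρ (∑ i ∈ s, f i) = ∑ i ∈ s, ev0 ρ (f i) := by
  classical
  induction s using Finset.induction_on with
  | empty => simpa using ev0_zero
  | insert a s ha ih =>
    rw [Finset.sum_insert ha, Finset.sum_insert ha,
      ev0_add (h a (Finset.mem_insert_self _ _))
        (Sm.sum s f (fun i hi => h i (Finset.mem_insert_of_mem hi))),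
      ih (fun i hi => h i (Finset.mem_insert_of_mem hi))]

variable {ι : Type*} [Fintype ι] [DecidableEq ι]

/-- all entries are summable at `ρ` -/
def MSm (ρ : ℝ) (M : Matrix ι ι (PowerSeries ℝ)) : Prop := ∀ i j, Sm ρ (M i j)

theorem MSm.one : MSm ρ (1 : Matrix ι ι (PowerSeries ℝ)) := by
  intro i j
  rw [Matrix.one_apply]
  split_ifs
  · exact Sm.one
  · exact Sm.zero

theorem MSm.mul {M N : Matrix ι ι (PowerSeries ℝ)} (hM : MSm ρ M) (hN : MSm ρ N) :
    MSm ρ (M * N) := by
  intro i j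
  rw [Matrix.mul_apply]
  exact Sm.sum _ _ (fun k _ => (hM i k).mul (hN k j))

theorem map_ev0_one : (1 : Matrix ι ι (PowerSeries ℝ)).map (ev0 ρ) = 1 := by
  ext i j
  rw [Matrix.map_apply, Matrix.one_apply, Matrix.one_apply]
  split_ifs
  · exact ev0_one
  · exact ev0_zero

theorem map_ev0_mul {M N : Matrix ι ι (PowerSeries ℝ)} (hM : MSm ρ M) (hN : MSm ρ N) :
    (M * N).map (ev0 ρ) = M.map (ev0 ρ) * N.map (ev0 ρ) := by
  ext i j
  rw [Matrix.map_apply, Matrix.mul_apply, Matrix.mul_apply,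
    ev0_sum _ _ (fun k _ => (hM i k).mul (hN k j))]
  exact Finset.sum_congr rfl (fun k _ => by
    rw [ev0_mul (hM i k) (hN k j), Matrix.map_apply, Matrix.map_apply])

end

/-! ## Augmentation -/

section
variable {G : Type*} [Group G] [Fintype G]

/-- the augmentation, with real values -/
noncomputable def aug : MonoidAlgebra ℤ G →+* ℝ := (MonoidAlgebra.lift ℤ ℝ G 1).toRingHom

theorem aug_apply (x : MonoidAlgebra ℤ G) : aug x = ∑ g : G, ((x.coeff g : ℤ) : ℝ) := by
  have h : aug x = (MonoidAlgebra.lift ℤ ℝ G 1) x := rfl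
  rw [h, MonoidAlgebra.lift_apply, Finsupp.sum_fintype]
  · simp
  · intro g
    simp

/-- the augmentation of power series -/
noncomputable def augS : PowerSeries (MonoidAlgebra ℤ G) →+* PowerSeries ℝ :=
  PowerSeries.map aug

theorem ev0_augS (ρ : ℝ) (f : PowerSeries (MonoidAlgebra ℤ G)) :
    ev0 ρ (augS f) = ∑' d : ℕ, (∑ g : G, ((coeff d f).coeff g : ℝ)) * ρ ^ d := by
  unfold ev0 augS
  exact tsum_congr (fun d => by rw [PowerSeries.coeff_map, aug_apply])

end

variable {G : Type*} [Group G] [Fintype G] {ι : Type*} [Fintype ι] [DecidableEq ι]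

/-- the property carried through the closure induction -/
def Lift (G : Type*) [Group G] [Fintype G] (ρ : ℝ) (P : Set (PowerSeries (MonoidAlgebra ℤ G)))
    (M : (Matrix ι ι ℝ)ˣ) : Prop :=
  ∃ E ∈ elGroup ι P,
    MSm ρ (E.val.map augS) ∧ MSm ρ ((E⁻¹).val.map augS) ∧
    (E.val.map augS).map (ev0 ρ) = M.val ∧ ((E⁻¹).val.map augS).map (ev0 ρ) = (M⁻¹).val

theorem Lift.one {ρ : ℝ} {P : Set (PowerSeries (MonoidAlgebra ℤ G))} :
    Lift G ρ P (1 : (Matrix ι ι ℝ)ˣ) := by
  have h : (1 : Matrix ι ι (PowerSeries (MonoidAlgebra ℤ G))).map augS = 1 :=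
    Matrix.map_one _ (map_zero _) (map_one _)
  refine ⟨1, Subgroup.one_mem _, ?_, ?_, ?_, ?_⟩
  · rw [Units.val_one, h]; exact MSm.one
  · rw [inv_one, Units.val_one, h]; exact MSm.one
  · rw [Units.val_one, h, map_ev0_one, Units.val_one]
  · rw [inv_one, Units.val_one, h, map_ev0_one, inv_one, Units.val_one]

theorem Lift.mul {ρ : ℝ} {P : Set (PowerSeries (MonoidAlgebra ℤ G))} {M N : (Matrix ι ι ℝ)ˣ}
    (hM : Lift G ρ P M) (hN : Lift G ρ P N) : Lift G ρ P (M * N) := by
  obtain ⟨E, hE, hE1, hE2, hE3, hE4⟩ := hM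
  obtain ⟨F, hF, hF1, hF2, hF3, hF4⟩ := hN
  have h1 : (E * F).val.map augS = E.val.map augS * F.val.map augS := by
    rw [Units.val_mul]; exact Matrix.map_mul
  have h2 : ((E * F)⁻¹).val.map augS = (F⁻¹).val.map augS * (E⁻¹).val.map augS := by
    rw [mul_inv_rev, Units.val_mul]; exact Matrix.map_mul
  refine ⟨E * F, Subgroup.mul_mem _ hE hF, ?_, ?_, ?_, ?_⟩
  · rw [h1]; exact hE1.mul hF1
  · rw [h2]; exact hF2.mul hE2
  · rw [h1, map_ev0_mul hE1 hF1, hE3, hF3, Units.val_mul]
  · rw [h2, map_ev0_mul hF2 hE2, hE4, hF4, mul_inv_rev, Units.val_mul]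

theorem Lift.inv {ρ : ℝ} {P : Set (PowerSeries (MonoidAlgebra ℤ G))} {M : (Matrix ι ι ℝ)ˣ}
    (hM : Lift G ρ P M) : Lift G ρ P M⁻¹ := by
  obtain ⟨E, hE, hE1, hE2, hE3, hE4⟩ := hM
  exact ⟨E⁻¹, Subgroup.inv_mem _ hE, hE2, by rwa [inv_inv], hE4, by rwa [inv_inv, inv_inv]⟩

theorem map_el_ev {ρ : ℝ} (a b : ι) (f : PowerSeries (MonoidAlgebra ℤ G))
    (hf : Sm ρ (augS f)) :
    MSm ρ ((el a b f).map augS) ∧
      ((el a b f).map augS).map (ev0 ρ) = el a b (ev0 ρ (augS f)) := by
  have h0 : (el a b f).map augS = el a b (augS f) := by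
    unfold el
    rw [Matrix.map_add _ (map_add augS), Matrix.map_one _ (map_zero _) (map_one _)]
    congr 1
    ext1 i j
    simp only [Matrix.map_apply, Matrix.single_apply]
    split_ifs
    · rfl
    · exact map_zero _
  rw [h0]
  constructor
  · intro i j
    unfold el
    rw [Matrix.add_apply]
    refine Sm.add (MSm.one i j) ?_
    rw [Matrix.single_apply]
    split_ifs
    · exact hf
    · exact Sm.zero
  · ext i j
    rw [Matrix.map_apply]
    unfold el
    rw [Matrix.add_apply, Matrix.add_apply, Matrix.single_apply, Matrix.single_apply,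
      Matrix.one_apply, Matrix.one_apply]
    rw [ev0_add]
    · congr 1
      · split_ifs
        · exact ev0_one
        · exact ev0_zero
      · split_ifs
        · rfl
        · exact ev0_zero
    · split_ifs
      · exact Sm.one
      · exact Sm.zero
    · split_ifs
      · exact hf
      · exact Sm.zero

/-- the set of admissible entries -/
def KSet (G : Type*) [Group G] [Fintype G] (κ₀ : ℕ) : Set (PowerSeries (MonoidAlgebra ℤ G)) :=
  {f | (∀ d, d < κ₀ → coeff d f = 0) ∧ ∀ r : NNReal, r < 1 → wn r f < ⊤}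

theorem exists_mem_KSet (ρ : ℝ) (h0 : 0 < ρ) (h1 : ρ < 1) (κ₀ : ℕ) (x : ℝ) :
    ∃ f ∈ KSet G κ₀, Sm ρ (augS f) ∧ ev0 ρ (augS f) = x := by
  classical
  obtain ⟨a, C, hC, ha0, hs⟩ := exists_series_eq ρ h0 h1 κ₀ x
  set f : PowerSeries (MonoidAlgebra ℤ G) :=
    PowerSeries.mk (fun d => MonoidAlgebra.single (1 : G) (a d)) with hf
  have hcoef : ∀ d, coeff d f = MonoidAlgebra.single (1 : G) (a d) := fun d => by
    rw [hf, PowerSeries.coeff_mk]
  have haug : ∀ d, coeff d (augS f) = (a d : ℝ) := by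
    intro d
    unfold augS
    rw [PowerSeries.coeff_map, aug_apply, hcoef]
    simp [MonoidAlgebra.coeff_single, Finsupp.single_apply]
  refine ⟨f, ⟨?_, ?_⟩, ?_, ?_⟩
  · intro d hd
    rw [hcoef, ha0 d hd]
    simp
  · intro r hr
    have hle : wn r f ≤ ∑' d : ℕ, (((C : NNReal) * r ^ d : NNReal) : ENNReal) := by
      unfold wn
      refine ENNReal.tsum_le_tsum (fun d => ?_)
      have h2 : ∑ g : G, ‖(coeff d f).coeff g‖ₑ = ‖a d‖ₑ := by
        rw [hcoef]
        rw [Finset.sum_eq_single (1 : G)]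
        · simp [MonoidAlgebra.coeff_single]
        · intro g _ hg
          simp [MonoidAlgebra.coeff_single, Ne.symm hg]
        · simp
      rw [h2, ENNReal.coe_mul, ENNReal.coe_pow]
      refine mul_le_mul_left ?_ _
      have h3 : ‖a d‖ ≤ (C : ℝ) := by
        rw [Int.norm_eq_abs]
        exact_mod_cast hC d
      have h4 : ‖a d‖₊ ≤ (C : NNReal) := by
        rw [← NNReal.coe_le_coe]
        simpa using h3
      have h5 : ‖a d‖ₑ = ((‖a d‖₊ : NNReal) : ENNReal) := rfl
      rw [h5]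
      exact_mod_cast h4
    refine lt_of_le_of_lt hle ?_
    have hsum : Summable (fun d : ℕ => (C : NNReal) * r ^ d) :=
      (NNReal.summable_geometric hr).mul_left _
    exact lt_top_iff_ne_top.mpr (ENNReal.tsum_coe_ne_top_iff_summable.mpr hsum)
  · unfold Sm
    simp only [haug]
    refine Summable.of_nonneg_of_le (fun d => norm_nonneg _) (fun d => ?_)
      ((summable_geometric_of_lt_one h0.le h1).mul_left (C : ℝ))
    rw [norm_mul, norm_pow, Real.norm_eq_abs ρ, abs_of_pos h0]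
    refine mul_le_mul_of_nonneg_right ?_ (pow_nonneg h0.le d)
    rw [Real.norm_eq_abs]
    exact_mod_cast hC d
  · unfold ev0
    simp only [haug]
    exact hs.tsum_eq

theorem Sm_augS_neg {ρ : ℝ} {f : PowerSeries (MonoidAlgebra ℤ G)} (hf : Sm ρ (augS f)) :
    Sm ρ (augS (-f)) := by
  rw [map_neg]
  exact hf.neg

theorem lift_of_mem (ρ : ℝ) (h0 : 0 < ρ) (h1 : ρ < 1) (κ₀ : ℕ) (M : (Matrix ι ι ℝ)ˣ)
    (hM : M ∈ elGroup ι (Set.univ : Set ℝ)) : Lift G ρ (KSet G κ₀) M := by
  unfold elGroup at hM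
  induction hM using Subgroup.closure_induction with
  | mem M hM =>
    obtain ⟨a, b, x, hab, -, hM⟩ := hM
    obtain ⟨f, hf, hfS, hfe⟩ := exists_mem_KSet (G := G) ρ h0 h1 κ₀ x
    have hMinv : (M⁻¹).val = el a b (-x) := by
      have h2 : M = elU hab x := Units.ext hM
      rw [h2]
      rfl
    obtain ⟨h3, h4⟩ := map_el_ev (ρ := ρ) a b f hfS
    obtain ⟨h5, h6⟩ := map_el_ev (ρ := ρ) a b (-f) (Sm_augS_neg hfS)
    refine ⟨elU hab f, Subgroup.subset_closure ⟨a, b, f, hab, hf, rfl⟩, h3, h5, ?_, ?_⟩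
    · rw [hM, ← hfe]
      exact h4
    · rw [hMinv]
      refine h6.trans ?_
      have h7 : ev0 ρ (augS (-f)) = - x := by
        have h8 := ev0_add hfS (Sm_augS_neg hfS)
        rw [← map_add, add_neg_cancel, map_zero, ev0_zero, hfe] at h8
        linarith
      rw [h7]
  | one => exact Lift.one
  | mul M N _ _ hM hN => exact hM.mul hN
  | inv M _ hM => exact hM.inv

end Ker

open Ker in
theorem exists_kernel_adjust {G : Type*} [Group G] [Fintype G] {ι : Type*} [Fintype ι]
    [DecidableEq ι] (hc : 2 ≤ Fintype.card ι) (ρ : ℝ) (h0 : 0 < ρ) (h1 : ρ < 1) (κ₀ : ℕ)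
    (a b : ι → ℝ) (ha : a ≠ 0) (hb : b ≠ 0) :
    ∃ E ∈ elGroup ι {f : PowerSeries (MonoidAlgebra ℤ G) |
        (∀ d, d < κ₀ → coeff d f = 0) ∧ ∀ r : NNReal, r < 1 → wn r f < ⊤},
      ∀ j, ∑ i, a i * (∑' d : ℕ, (∑ g : G, ((coeff d (E.val i j)).coeff g : ℝ)) * ρ ^ d)
          = b j := by
  obtain ⟨M, hM, hMab⟩ := exists_el_vecMul hc a b ha hb
  obtain ⟨E, hE, -, -, hE3, -⟩ := lift_of_mem (G := G) ρ h0 h1 κ₀ M hM
  refine ⟨E, hE, fun j => ?_⟩
  rw [← hMab, ← hE3]
  simp only [Matrix.vecMul, dotProduct, Matrix.map_apply]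
  exact Finset.sum_congr rfl (fun i _ => by rw [ev0_augS])

end Pool.Agent.TS
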