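import Pool.Agent.Lib.MP_402c18_an.Defs2
import Pool.Agent.Lib.MP_402c18_an.Ker

/-!
# Truncation: approximation of products of elementary matrices by polynomial ones
-/

set_option autoImplicit false
set_option linter.unusedSectionVars false

namespace Pool.Agent.TS

open PowerSeries

namespace Trunc

/-- the truncation of a power series below `K` -/
noncomputable def tr {R : Type*} [Semiring R] (K : ℕ) (f : PowerSeries R) : PowerSeries R :=
  PowerSeries.mk fun d => if d < K then coeff d f else 0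

theorem isPoly_tr {R : Type*} [Semiring R] (K : ℕ) (f : PowerSeries R) : IsPoly (tr K f) := by
  refine ⟨K, fun d hd => ?_⟩
  rw [tr, coeff_mk, if_neg (not_lt.mpr hd)]

theorem isPoly_zero {R : Type*} [Semiring R] : IsPoly (0 : PowerSeries R) :=
  ⟨0, fun d _ => by rw [map_zero]⟩

theorem isPoly_one {R : Type*} [Semiring R] : IsPoly (1 : PowerSeries R) := by
  refine ⟨1, fun d hd => ?_⟩
  rw [coeff_one, if_neg (by omega)]

theorem IsPoly.add {R : Type*} [Semiring R] {f g : PowerSeries R} (hf : IsPoly f)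
    (hg : IsPoly g) : IsPoly (f + g) := by
  obtain ⟨K, hK⟩ := hf
  obtain ⟨L, hL⟩ := hg
  refine ⟨max K L, fun d hd => ?_⟩
  rw [map_add, hK d (le_trans (le_max_left _ _) hd), hL d (le_trans (le_max_right _ _) hd),
    add_zero]

theorem IsPoly.neg {R : Type*} [Ring R] {f : PowerSeries R} (hf : IsPoly f) : IsPoly (-f) := by
  obtain ⟨K, hK⟩ := hf
  refine ⟨K, fun d hd => ?_⟩
  rw [map_neg, hK d hd, neg_zero]

theorem IsPoly.mul {R : Type*} [Semiring R] {f g : PowerSeries R} (hf : IsPoly f)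
    (hg : IsPoly g) : IsPoly (f * g) := by
  obtain ⟨K, hK⟩ := hf
  obtain ⟨L, hL⟩ := hg
  refine ⟨K + L, fun d hd => ?_⟩
  rw [coeff_mul]
  refine Finset.sum_eq_zero fun p hp => ?_
  rw [Finset.HasAntidiagonal.mem_antidiagonal] at hp
  by_cases h : K ≤ p.1
  · rw [hK _ h, zero_mul]
  · rw [hL p.2 (by omega), mul_zero]

theorem isPoly_sum {R α : Type*} [Semiring R] (s : Finset α) (f : α → PowerSeries R)
    (h : ∀ a ∈ s, IsPoly (f a)) : IsPoly (∑ a ∈ s, f a) := by
  classical
  induction s using Finset.induction_on with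
  | empty => simpa using isPoly_zero
  | insert a s ha ih =>
    rw [Finset.sum_insert ha]
    exact IsPoly.add (h a (Finset.mem_insert_self _ _))
      (ih fun b hb => h b (Finset.mem_insert_of_mem hb))

theorem mpoly_one {R ι : Type*} [Semiring R] [DecidableEq ι] :
    MPoly (1 : Matrix ι ι (PowerSeries R)) := by
  intro i j
  rw [Matrix.one_apply]
  split_ifs
  · exact isPoly_one
  · exact isPoly_zero

theorem MPoly.mul {R ι : Type*} [Semiring R] [Fintype ι]
    {A B : Matrix ι ι (PowerSeries R)} (hA : MPoly A) (hB : MPoly B) : MPoly (A * B) := by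
  intro i j
  rw [Matrix.mul_apply]
  exact isPoly_sum _ _ fun l _ => IsPoly.mul (hA i l) (hB l j)

theorem mpoly_el {R ι : Type*} [Ring R] [DecidableEq ι] (a b : ι) {f : PowerSeries R}
    (hf : IsPoly f) : MPoly (el a b f : Matrix ι ι (PowerSeries R)) := by
  intro i j
  rw [el, Matrix.add_apply]
  refine IsPoly.add (mpoly_one i j) ?_
  rw [Matrix.single_apply]
  split_ifs
  · exact hf
  · exact isPoly_zero

/-- a unit whose value is an elementary matrix is the elementary unit -/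
theorem eq_elU {S ι : Type*} [Ring S] [Fintype ι] [DecidableEq ι] {a b : ι} (hab : a ≠ b) {f : S}
    {u : (Matrix ι ι S)ˣ} (hu : (u : Matrix ι ι S) = el a b f) : u = Ker.elU hab f :=
  Units.ext hu

theorem inv_eq_el {S ι : Type*} [Ring S] [Fintype ι] [DecidableEq ι] {a b : ι} (hab : a ≠ b)
    {f : S} {u : (Matrix ι ι S)ˣ} (hu : (u : Matrix ι ι S) = el a b f) :
    (u⁻¹ : (Matrix ι ι S)ˣ).val = el a b (-f) := by
  rw [eq_elU hab hu]
  rfl

theorem elU_val {S ι : Type*} [Ring S] [Fintype ι] [DecidableEq ι] {a b : ι} (hab : a ≠ b)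
    (f : S) : (Ker.elU hab f).val = el a b f := rfl

theorem elU_inv {S ι : Type*} [Ring S] [Fintype ι] [DecidableEq ι] {a b : ι} (hab : a ≠ b)
    (f : S) : (Ker.elU hab f)⁻¹.val = el a b (-f) := rfl

variable {G : Type*} [Group G] [Fintype G]

theorem exists_tr (r : NNReal) (f : PowerSeries (MonoidAlgebra ℤ G)) (hf : wn r f < ⊤)
    (ε : ENNReal) (hε : ε ≠ 0) : ∃ K : ℕ, wn r (f - tr K f) ≤ ε := by
  have h1 := ENNReal.tendsto_sum_nat_add (fun d => gn (coeff d f) * (r : ENNReal) ^ d)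
    (by rw [← wn_eq]; exact hf.ne)
  have h2 : ∀ᶠ K : ℕ in Filter.atTop,
      ∑' d : ℕ, gn (coeff (d + K) f) * (r : ENNReal) ^ (d + K) ≤ ε :=
    (ENNReal.tendsto_nhds_zero.mp h1) ε (pos_iff_ne_zero.mpr hε)
  obtain ⟨K, hK⟩ := h2.exists
  refine ⟨K, le_trans (le_of_eq ?_) hK⟩
  have h3 := Summable.sum_add_tsum_nat_add' (k := K)
    (f := fun d => gn (coeff d (f - tr K f)) * (r : ENNReal) ^ d) ENNReal.summable
  rw [wn_eq, ← h3, Finset.sum_eq_zero, zero_add]
  · refine tsum_congr fun d => ?_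
    rw [map_sub, tr, coeff_mk, if_neg (by omega), sub_zero]
  · intro d hd
    rw [Finset.mem_range] at hd
    rw [map_sub, tr, coeff_mk, if_pos hd, sub_self, gn_zero, zero_mul]

variable {ι : Type*} [Fintype ι] [DecidableEq ι]

theorem mn_single_le (r : NNReal) (a b : ι) (f : PowerSeries (MonoidAlgebra ℤ G)) :
    mn r (Matrix.single a b f) ≤ wn r f := by
  unfold mn
  rw [Finset.sum_eq_single a, Finset.sum_eq_single b]
  · rw [Matrix.single_apply_same]
  · intro j _ hj
    rw [Matrix.single_apply, if_neg (by tauto), wn_zero]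
  · intro h
    exact absurd (Finset.mem_univ b) h
  · intro i _ hi
    refine Finset.sum_eq_zero fun j _ => ?_
    rw [Matrix.single_apply, if_neg (by tauto), wn_zero]
  · intro h
    exact absurd (Finset.mem_univ a) h

theorem mn_one_lt_top (r : NNReal) :
    mn r (1 : Matrix ι ι (PowerSeries (MonoidAlgebra ℤ G))) < ⊤ :=
  mn_lt_top_of_mpoly r mpoly_one

theorem mn_el_lt_top (r : NNReal) (a b : ι) {f : PowerSeries (MonoidAlgebra ℤ G)}
    (hf : wn r f < ⊤) : mn r (el a b f : Matrix ι ι (PowerSeries (MonoidAlgebra ℤ G))) < ⊤ := by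
  unfold el
  exact (mn_add_le r _ _).trans_lt
    (ENNReal.add_lt_top.mpr ⟨mn_one_lt_top r, (mn_single_le r a b f).trans_lt hf⟩)

theorem el_sub_el {S : Type*} [Ring S] (a b : ι) (f g : S) :
    (el a b f - el a b g : Matrix ι ι S) = Matrix.single a b (f - g) := by
  unfold el
  rw [add_sub_add_left_eq_sub, sub_eq_add_neg, sub_eq_add_neg, Matrix.single_add, Matrix.single_neg]

/-- the two simultaneous statements -/
theorem both_lt_top (r : NNReal) (E : (Matrix ι ι (PowerSeries (MonoidAlgebra ℤ G)))ˣ)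
    (hE : E ∈ elGroup ι {f : PowerSeries (MonoidAlgebra ℤ G) | wn r f < ⊤}) :
    mn r E.val < ⊤ ∧ mn r E⁻¹.val < ⊤ := by
  unfold elGroup at hE
  induction hE using Subgroup.closure_induction with
  | mem u hu =>
    obtain ⟨a, b, f, hab, hf, hu⟩ := hu
    have hf' : wn r f < ⊤ := hf
    rw [inv_eq_el hab hu, hu]
    refine ⟨mn_el_lt_top r a b hf', mn_el_lt_top r a b (f := -f) ?_⟩
    rw [wn_neg]
    exact hf'
  | one =>
    simp only [inv_one, Units.val_one, and_self]
    exact mn_one_lt_top r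
  | mul u v _ _ ihu ihv =>
    obtain ⟨hu1, hu2⟩ := ihu
    obtain ⟨hv1, hv2⟩ := ihv
    constructor
    · rw [Units.val_mul]
      exact (mn_mul_le r _ _).trans_lt (ENNReal.mul_lt_top hu1 hv1)
    · rw [mul_inv_rev, Units.val_mul]
      exact (mn_mul_le r _ _).trans_lt (ENNReal.mul_lt_top hv2 hu2)
  | inv u _ ih =>
    rw [inv_inv]
    exact ⟨ih.2, ih.1⟩

theorem mul_approx (r : NNReal) (A B A' B' : Matrix ι ι (PowerSeries (MonoidAlgebra ℤ G)))
    (δ ε : ENNReal) (hδ1 : δ ≤ 1) (hδ : δ * (mn r A + mn r B + 1) ≤ ε)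
    (hA : mn r (A - A') ≤ δ) (hB : mn r (B - B') ≤ δ) : mn r (A * B - A' * B') ≤ ε := by
  have e : A * B - A' * B' = (A - A') * B + A' * (B - B') := by
    rw [sub_mul, mul_sub]
    abel
  have hA' : mn r A' ≤ mn r A + 1 := by
    have : A' = A - (A - A') := by abel
    calc mn r A' = mn r (A - (A - A')) := by rw [← this]
      _ ≤ mn r A + mn r (A - A') := mn_sub_le r _ _
      _ ≤ mn r A + 1 := by
        gcongr
        exact hA.trans hδ1
  calc mn r (A * B - A' * B') = mn r ((A - A') * B + A' * (B - B')) := by rw [e]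
    _ ≤ mn r ((A - A') * B) + mn r (A' * (B - B')) := mn_add_le r _ _
    _ ≤ mn r (A - A') * mn r B + mn r A' * mn r (B - B') :=
      add_le_add (mn_mul_le r _ _) (mn_mul_le r _ _)
    _ ≤ δ * mn r B + (mn r A + 1) * δ := by gcongr
    _ = δ * (mn r A + mn r B + 1) := by ring
    _ ≤ ε := hδ

theorem exists_delta (M ε : ENNReal) (hM : M ≠ ⊤) (hε : ε ≠ 0) :
    ∃ δ : ENNReal, δ ≠ 0 ∧ δ ≤ 1 ∧ δ * M ≤ ε := by
  refine ⟨min 1 (ε / M), ?_, min_le_left _ _, ?_⟩
  · have h : ε / M ≠ 0 := ENNReal.div_ne_zero.mpr ⟨hε, hM⟩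
    intro h0
    rcases min_eq_iff.mp h0 with h1 | h1
    · exact one_ne_zero h1.1
    · exact h h1.1
  · calc min 1 (ε / M) * M ≤ ε / M * M := by
          gcongr
          exact min_le_right _ _
      _ = M * (ε / M) := mul_comm _ _
      _ ≤ ε := ENNReal.mul_div_le

theorem both_approx (r : NNReal) (E : (Matrix ι ι (PowerSeries (MonoidAlgebra ℤ G)))ˣ)
    (hE : E ∈ elGroup ι {f : PowerSeries (MonoidAlgebra ℤ G) | wn r f < ⊤}) :
    ∀ ε : ENNReal, ε ≠ 0 → ∃ E' ∈ elGroup ι {f : PowerSeries (MonoidAlgebra ℤ G) | IsPoly f},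
      mn r (E.val - E'.val) ≤ ε ∧ mn r (E⁻¹.val - E'⁻¹.val) ≤ ε := by
  unfold elGroup at hE
  induction hE using Subgroup.closure_induction with
  | mem u hu =>
    intro ε hε
    obtain ⟨a, b, f, hab, hf, hu⟩ := hu
    have hf' : wn r f < ⊤ := hf
    obtain ⟨K, hK⟩ := exists_tr r f hf' ε hε
    refine ⟨Ker.elU hab (tr K f), Subgroup.subset_closure ⟨a, b, tr K f, hab, isPoly_tr K f, rfl⟩,
      ?_, ?_⟩
    · rw [hu, elU_val, el_sub_el]
      exact (mn_single_le r a b _).trans hK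
    · rw [inv_eq_el hab hu, elU_inv, el_sub_el]
      refine (mn_single_le r a b _).trans ?_
      have e : -f - -(tr K f) = -(f - tr K f) := by abel
      rw [e, wn_neg]
      exact hK
  | one =>
    intro ε _
    refine ⟨1, Subgroup.one_mem _, ?_, ?_⟩
    · rw [sub_self, mn_zero]
      exact zero_le
    · rw [sub_self, mn_zero]
      exact zero_le
  | mul u v hu hv ihu ihv =>
    intro ε hε
    obtain ⟨hu1, hu2⟩ := both_lt_top r u hu
    obtain ⟨hv1, hv2⟩ := both_lt_top r v hv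
    obtain ⟨δ, hδ0, hδ1, hδ⟩ := exists_delta (mn r u.val + mn r v.val + 1) ε
      (ENNReal.add_lt_top.mpr ⟨ENNReal.add_lt_top.mpr ⟨hu1, hv1⟩, ENNReal.one_lt_top⟩).ne hε
    obtain ⟨δ', hδ0', hδ1', hδ'⟩ := exists_delta (mn r v⁻¹.val + mn r u⁻¹.val + 1) ε
      (ENNReal.add_lt_top.mpr ⟨ENNReal.add_lt_top.mpr ⟨hv2, hu2⟩, ENNReal.one_lt_top⟩).ne hε
    have hm : min δ δ' ≠ 0 := by
      intro h0
      rcases min_eq_iff.mp h0 with h1 | h1
      · exact hδ0 h1.1
      · exact hδ0' h1.1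
    obtain ⟨u', hu', hu1', hu2'⟩ := ihu _ hm
    obtain ⟨v', hv', hv1', hv2'⟩ := ihv _ hm
    refine ⟨u' * v', Subgroup.mul_mem _ hu' hv', ?_, ?_⟩
    · rw [Units.val_mul, Units.val_mul]
      exact mul_approx r _ _ _ _ δ ε hδ1 hδ (hu1'.trans (min_le_left _ _))
        (hv1'.trans (min_le_left _ _))
    · rw [mul_inv_rev, mul_inv_rev, Units.val_mul, Units.val_mul]
      exact mul_approx r _ _ _ _ δ' ε hδ1' hδ' (hv2'.trans (min_le_right _ _))
        (hu2'.trans (min_le_right _ _))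
  | inv u _ ih =>
    intro ε hε
    obtain ⟨u', hu', h1, h2⟩ := ih ε hε
    refine ⟨u'⁻¹, Subgroup.inv_mem _ hu', h2, ?_⟩
    rw [inv_inv, inv_inv]
    exact h1

end Trunc

/-- products of elementary matrices of finite weighted norm are approximated by products of
polynomial elementary matrices -/
theorem exists_poly_approx {G ι : Type*} [Group G] [Fintype G] [Fintype ι] [DecidableEq ι]
    (r : NNReal) (E : (Matrix ι ι (PowerSeries (MonoidAlgebra ℤ G)))ˣ)
    (hE : E ∈ elGroup ι {f : PowerSeries (MonoidAlgebra ℤ G) | wn r f < ⊤})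
    (ε : ENNReal) (hε : ε ≠ 0) :
    ∃ E' ∈ elGroup ι {f : PowerSeries (MonoidAlgebra ℤ G) | IsPoly f},
      mn r (E.val - E'.val) ≤ ε := by
  obtain ⟨E', hE', h, _⟩ := Trunc.both_approx r E hE ε hε
  exact ⟨E', hE', h⟩

theorem elGroup_mn_lt_top {G ι : Type*} [Group G] [Fintype G] [Fintype ι] [DecidableEq ι]
    (r : NNReal) (E : (Matrix ι ι (PowerSeries (MonoidAlgebra ℤ G)))ˣ)
    (hE : E ∈ elGroup ι {f : PowerSeries (MonoidAlgebra ℤ G) | wn r f < ⊤}) :
    mn r E.val < ⊤ :=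
  (Trunc.both_lt_top r E hE).1

theorem elGroup_mpoly {R ι : Type*} [Ring R] [Fintype ι] [DecidableEq ι]
    (E : (Matrix ι ι (PowerSeries R))ˣ)
    (hE : E ∈ elGroup ι {f : PowerSeries R | IsPoly f}) : MPoly E.val := by
  have : MPoly E.val ∧ MPoly E⁻¹.val := by
    unfold elGroup at hE
    induction hE using Subgroup.closure_induction with
    | mem u hu =>
      obtain ⟨a, b, f, hab, hf, hu⟩ := hu
      have hf' : IsPoly f := hf
      rw [Trunc.inv_eq_el hab hu, hu]
      exact ⟨Trunc.mpoly_el a b hf', Trunc.mpoly_el a b (f := -f) (Trunc.IsPoly.neg hf')⟩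
    | one =>
      simp only [inv_one, Units.val_one, and_self]
      exact Trunc.mpoly_one
    | mul u v _ _ ihu ihv =>
      obtain ⟨hu1, hu2⟩ := ihu
      obtain ⟨hv1, hv2⟩ := ihv
      constructor
      · rw [Units.val_mul]
        exact Trunc.MPoly.mul hu1 hv1
      · rw [mul_inv_rev, Units.val_mul]
        exact Trunc.MPoly.mul hv2 hu2
    | inv u _ ih =>
      rw [inv_inv]
      exact ⟨ih.2, ih.1⟩
  exact this.1

end Pool.Agent.TS
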