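import Pool.Agent.Lib.MP_402c18_an.TA5
import Pool.Agent.Lib.MP_402c18_an.Trunc
import Pool.Agent.Lib.MP_402c18_an.HPos
import Pool.Agent.Lib.MP_402c18_an.HP
import Pool.Agent.Lib.MP_402c18_an.Comp
import Pool.Agent.Lib.MP_402c18_an.PF

/-!
# Conversions for the final assembly
-/

set_option autoImplicit false
set_option linter.unusedSectionVars false

namespace Pool.Agent.TS

open PowerSeries

section conv

variable {G : Type*} [Group G] [Fintype G]

theorem mem_closure_iff_NN (x : MonoidAlgebra ℤ G) :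
    x ∈ AddSubmonoid.closure (Set.range (fun g : G => MonoidAlgebra.of ℤ G g)) ↔ NN x := by
  classical
  constructor
  · intro h
    induction h using AddSubmonoid.closure_induction with
    | mem y hy =>
      obtain ⟨g, rfl⟩ := hy
      intro h
      simp only
      rw [MonoidAlgebra.of_apply, MonoidAlgebra.coeff_single, Finsupp.single_apply]
      split_ifs <;> norm_num
    | zero => intro h; simp
    | add a b _ _ ha hb =>
      intro h
      rw [MonoidAlgebra.coeff_add, Finsupp.add_apply]
      exact add_nonneg (ha h) (hb h)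
  · intro h
    rw [eq_sum_single x]
    refine AddSubmonoid.sum_mem _ fun g _ => ?_
    have h1 : MonoidAlgebra.single g (x.coeff g) =
        (x.coeff g).toNat • (MonoidAlgebra.of ℤ G g) := by
      rw [MonoidAlgebra.of_apply, MonoidAlgebra.smul_single]
      congr 1
      have := Int.toNat_of_nonneg (h g)
      simp [this]
    rw [h1]
    exact AddSubmonoid.nsmul_mem _ (AddSubmonoid.subset_closure (Set.mem_range_self g)) _

theorem coeff_sum_of (g : G) : (∑ h : G, MonoidAlgebra.of ℤ G h).coeff g = 1 := by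
  classical
  rw [MonoidAlgebra.coeff_sum, Finsupp.finsetSum_apply, Finset.sum_eq_single g]
  · rw [MonoidAlgebra.of_apply, MonoidAlgebra.coeff_single, Finsupp.single_eq_same]
  · intro h _ hne
    rw [MonoidAlgebra.of_apply, MonoidAlgebra.coeff_single, Finsupp.single_eq_of_ne hne.symm]
  · intro h
    exact absurd (Finset.mem_univ g) h

theorem mem_closure_iff_PP (x : MonoidAlgebra ℤ G) :
    x - ∑ g : G, MonoidAlgebra.of ℤ G g ∈
      AddSubmonoid.closure (Set.range (fun g : G => MonoidAlgebra.of ℤ G g)) ↔ PP x := by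
  rw [mem_closure_iff_NN]
  constructor
  · intro h g
    have := h g
    rw [MonoidAlgebra.coeff_sub, Finsupp.sub_apply, coeff_sum_of] at this
    linarith
  · intro h g
    rw [MonoidAlgebra.coeff_sub, Finsupp.sub_apply, coeff_sum_of]
    have := h g
    linarith

end conv

section blocks

variable {R : Type*} [Ring R] {ι κ : Type*} [Fintype ι] [DecidableEq ι] [Fintype κ] [DecidableEq κ]

theorem pow_fromBlocks_left (A : Matrix ι ι R) (k : ℕ) (hk : 0 < k) :
    (Matrix.fromBlocks A 0 0 (0 : Matrix κ κ R)) ^ k = Matrix.fromBlocks (A ^ k) 0 0 0 := by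
  obtain ⟨k, rfl⟩ := Nat.exists_eq_succ_of_ne_zero hk.ne'
  induction k with
  | zero => simp
  | succ k ih =>
    rw [pow_succ, ih (Nat.succ_pos k), Matrix.fromBlocks_multiply, pow_succ A (k + 1)]
    simp

theorem pow_fromBlocks_right (B : Matrix κ κ R) (k : ℕ) (hk : 0 < k) :
    (Matrix.fromBlocks (0 : Matrix ι ι R) 0 0 B) ^ k = Matrix.fromBlocks 0 0 0 (B ^ k) := by
  obtain ⟨k, rfl⟩ := Nat.exists_eq_succ_of_ne_zero hk.ne'
  induction k with
  | zero => simp
  | succ k ih =>
    rw [pow_succ, ih (Nat.succ_pos k), Matrix.fromBlocks_multiply, pow_succ B (k + 1)]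
    simp

theorem trace_pow_left (A : Matrix ι ι R) (k : ℕ) (hk : 0 < k) :
    ((Matrix.fromBlocks A 0 0 (0 : Matrix κ κ R)) ^ k).trace = (A ^ k).trace := by
  rw [pow_fromBlocks_left A k hk]
  simp [Matrix.trace, Fintype.sum_sum_type]

theorem trace_pow_right (B : Matrix κ κ R) (k : ℕ) (hk : 0 < k) :
    ((Matrix.fromBlocks (0 : Matrix ι ι R) 0 0 B) ^ k).trace = (B ^ k).trace := by
  rw [pow_fromBlocks_right B k hk]
  simp [Matrix.trace, Fintype.sum_sum_type]

theorem reindex_pow (e : ι ≃ κ) (A : Matrix ι ι R) (k : ℕ) :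
    (Matrix.reindex e e A) ^ k = Matrix.reindex e e (A ^ k) := by
  induction k with
  | zero =>
    rw [pow_zero, pow_zero]
    ext i j
    rw [Matrix.reindex_apply, Matrix.submatrix_apply, Matrix.one_apply, Matrix.one_apply]
    simp
  | succ k ih =>
    rw [pow_succ, ih, pow_succ, Matrix.reindex_apply, Matrix.reindex_apply, Matrix.reindex_apply,
      Matrix.submatrix_mul_equiv]

theorem trace_reindex' (e : ι ≃ κ) (A : Matrix ι ι R) :
    (Matrix.reindex e e A).trace = A.trace := by
  rw [Matrix.trace, Matrix.trace]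
  exact Fintype.sum_equiv e.symm _ _ (fun i => rfl)

theorem tmul_fromBlocks (B : Matrix ι ι R) :
    Matrix.fromBlocks (1 - tmul B) 0 0 (1 : Matrix κ κ (PowerSeries R)) =
      1 - tmul (Matrix.fromBlocks B 0 0 0) := by
  have h : tmul (Matrix.fromBlocks B 0 0 (0 : Matrix κ κ R)) =
      Matrix.fromBlocks (tmul B) 0 0 0 := by
    unfold tmul
    rw [Matrix.fromBlocks_map]
    congr 1 <;> · ext i j d; simp
  rw [h, ← Matrix.fromBlocks_one]
  ext1 i j
  rcases i with i | i <;> rcases j with j | j <;>
  simp [Matrix.sub_apply, Matrix.one_apply]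

/-- block sum of a unit with the identity -/
noncomputable def dU (u : (Matrix ι ι (PowerSeries R))ˣ) (κ : Type*) [Fintype κ] [DecidableEq κ] :
    (Matrix (ι ⊕ κ) (ι ⊕ κ) (PowerSeries R))ˣ where
  val := Matrix.fromBlocks u.val 0 0 1
  inv := Matrix.fromBlocks (u⁻¹).val 0 0 1
  val_inv := by
    rw [Matrix.fromBlocks_multiply]
    simp
  inv_val := by
    rw [Matrix.fromBlocks_multiply]
    simp

theorem mpoly_fromBlocks {X : Matrix ι ι (PowerSeries R)} (hX : MPoly X) :
    MPoly (Matrix.fromBlocks X 0 0 (1 : Matrix κ κ (PowerSeries R))) := by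
  rintro (i | i) (j | j)
  · exact hX i j
  · exact ⟨0, fun d _ => by simp⟩
  · exact ⟨0, fun d _ => by simp⟩
  · rw [Matrix.fromBlocks_apply₂₂, Matrix.one_apply]
    split_ifs
    · exact ⟨1, fun d hd => by rw [coeff_one, if_neg (by omega)]⟩
    · exact ⟨0, fun d _ => by rw [map_zero]⟩

end blocks

end Pool.Agent.TS
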