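import Pool.Agent.Lib.MP_402c18_an.ScafSer

/-!
# Piece SCAF
-/

set_option autoImplicit false

namespace Pool.Agent.TS

open PowerSeries Filter

section schur

variable {R : Type*} [Ring R] {κ : Type*} [Fintype κ] [DecidableEq κ]

/-- the first return series at the hub -/
noncomputable def fret (A : Matrix (Unit ⊕ κ) (Unit ⊕ κ) R) : Matrix Unit Unit (PowerSeries R) :=
  tmul A.toBlocks₁₁ + tmul A.toBlocks₁₂ * res A.toBlocks₂₂ * tmul A.toBlocks₂₁

theorem schur_res (A : Matrix (Unit ⊕ κ) (Unit ⊕ κ) R) :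
    res A (Sum.inl ()) (Sum.inl ()) * (1 - fret A () ()) = 1 := by
  have h := res_mul A
  have e1 : (1 - tmul A) = Matrix.fromBlocks (1 - tmul A.toBlocks₁₁) (-tmul A.toBlocks₁₂)
      (-tmul A.toBlocks₂₁) (1 - tmul A.toBlocks₂₂) := by
    ext1 i j
    rcases i with i | i <;> rcases j with j | j <;>
      simp [tmul, Matrix.one_apply, Matrix.toBlocks₁₁, Matrix.toBlocks₁₂, Matrix.toBlocks₂₁,
        Matrix.toBlocks₂₂]
  rw [e1, ← Matrix.fromBlocks_toBlocks (res A), Matrix.fromBlocks_multiply,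
    ← Matrix.fromBlocks_one, Matrix.fromBlocks_inj] at h
  obtain ⟨h1, h2, -, -⟩ := h
  set R1 := (res A).toBlocks₁₁
  set R2 := (res A).toBlocks₁₂
  have h3 : R2 = R1 * tmul A.toBlocks₁₂ * res A.toBlocks₂₂ := by
    have h4 : R2 * (1 - tmul A.toBlocks₂₂) = R1 * tmul A.toBlocks₁₂ := by
      rw [Matrix.mul_neg] at h2
      exact (neg_add_eq_zero.mp h2).symm
    rw [← h4, Matrix.mul_assoc, mul_res, Matrix.mul_one]
  have h5 : R1 * (1 - fret A) = 1 := by
    refine Eq.trans ?_ h1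
    rw [h3, fret]
    simp only [Matrix.mul_sub, Matrix.mul_add, Matrix.mul_one, Matrix.mul_neg, Matrix.mul_assoc]
    abel
  have h6 := congrFun (congrFun h5 ()) ()
  rw [Matrix.mul_apply, Fintype.sum_unique, Matrix.one_apply_eq] at h6
  exact h6

theorem coeff_zero_fret (A : Matrix (Unit ⊕ κ) (Unit ⊕ κ) R) : coeff 0 (fret A () ()) = 0 := by
  have h1 : cf 0 (fret A) = 0 := by
    rw [fret, cf_add, cf_mul_tmul_zero, cf_tmul]
    simp
  exact congrFun (congrFun h1 ()) ()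

end schur

section asym

variable {G : Type*} [Group G] [Fintype G]

omit [Fintype G] in
theorem asym_diff {s : ℕ → G → ℝ} {lam μ K c : ℝ} (hlam : 1 < lam) (hμ0 : 0 < μ) (hμ : μ < lam)
    (hK : 0 < K) (hc : 0 < c) (h : ∀ k g, |s k g - lam ^ k * c| ≤ K * μ ^ k) (d : ℕ) (hd : 0 < d)
    (g₀ : G) :
    ∃ (c' : ℝ) (d₁ : ℕ), 0 < c' ∧ d ≤ d₁ ∧ ∀ n, d₁ ≤ n → ∀ g,
      c' * lam ^ n ≤ s n g - s (n - d) (g * g₀) := by
  have hlam0 : 0 < lam := by linarith
  set θ : ℝ := (lam ^ d)⁻¹ with hθ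
  have hld : 1 < lam ^ d := one_lt_pow₀ hlam (by omega)
  have hθ1 : θ < 1 := inv_lt_one_of_one_lt₀ hld
  set c' : ℝ := c * (1 - θ) / 2 with hc'
  have hc'0 : 0 < c' := by
    have : 0 < 1 - θ := by linarith
    positivity
  set B : ℝ := K * (1 + (μ ^ d)⁻¹) with hB
  have hB0 : 0 < B := by positivity
  have ht : Tendsto (fun n : ℕ => (μ / lam) ^ n) atTop (nhds 0) :=
    tendsto_pow_atTop_nhds_zero_of_lt_one (by positivity) ((div_lt_one hlam0).mpr hμ)
  have hev : ∀ᶠ n : ℕ in atTop, (μ / lam) ^ n < c' / B := ht.eventually_lt_const (by positivity)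
  obtain ⟨n₀, hn₀⟩ := eventually_atTop.mp hev
  refine ⟨c', max d n₀, hc'0, le_max_left _ _, fun n hn g => ?_⟩
  have hdn : d ≤ n := (le_max_left _ _).trans hn
  have h1 := hn₀ n ((le_max_right _ _).trans hn)
  have h2 := (abs_le.mp (h n g)).1
  have h3 := (abs_le.mp (h (n - d) (g * g₀))).2
  have e1 : lam ^ (n - d) = lam ^ n * θ := by
    rw [hθ, ← div_eq_mul_inv, eq_div_iff (by positivity), ← pow_add, Nat.sub_add_cancel hdn]
  have e2 : μ ^ (n - d) = μ ^ n * (μ ^ d)⁻¹ := by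
    rw [← div_eq_mul_inv, eq_div_iff (by positivity), ← pow_add, Nat.sub_add_cancel hdn]
  rw [e1] at h3
  rw [e2] at h3
  rw [div_pow, div_lt_div_iff₀ (by positivity) hB0] at h1
  have e3 : μ ^ n * B = K * μ ^ n + K * (μ ^ n * (μ ^ d)⁻¹) := by rw [hB]; ring
  have e4 : c' * lam ^ n = (lam ^ n * c - lam ^ n * θ * c) / 2 := by rw [hc']; ring
  nlinarith

end asym

section chain

variable {R : Type*} [Ring R] {κ κ' : Type*} [Fintype κ] [DecidableEq κ] [Fintype κ']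
  [DecidableEq κ']

/-- the rest matrix `diag(N, x, y)` -/
def dg3 {S : Type*} [Ring S] (N : Matrix κ κ S) (x : S) (Y : Matrix κ' κ' S) :
    Matrix (κ ⊕ (Unit ⊕ κ')) (κ ⊕ (Unit ⊕ κ')) S :=
  Matrix.fromBlocks N 0 0 (Matrix.fromBlocks (Matrix.of fun _ _ => x) 0 0 Y)

omit [DecidableEq κ] [DecidableEq κ'] in
theorem dg3_mul {S : Type*} [Ring S] (N N' : Matrix κ κ S) (x x' : S) (Y Y' : Matrix κ' κ' S) :
    dg3 N x Y * dg3 N' x' Y' = dg3 (N * N') (x * x') (Y * Y') := by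
  unfold dg3
  rw [Matrix.fromBlocks_multiply, Matrix.fromBlocks_multiply]
  simp only [Matrix.mul_zero, Matrix.zero_mul, add_zero, zero_add]
  congr 2
  ext i j
  simp [Matrix.mul_apply]

omit [Fintype κ] [Fintype κ'] [DecidableEq κ] [DecidableEq κ'] in
theorem dg3_pred {S : Type*} [Ring S] (Q : S → Prop) (h0 : Q 0) {N : Matrix κ κ S} {x : S}
    {Y : Matrix κ' κ' S} (hN : ∀ i j, Q (N i j)) (hx : Q x) (hY : ∀ i j, Q (Y i j)) (i j) :
    Q (dg3 N x Y i j) := by
  rcases i with i | i | i <;> rcases j with j | j | j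
  · exact hN i j
  · exact h0
  · exact h0
  · exact h0
  · exact hx
  · exact h0
  · exact h0
  · exact h0
  · exact hY i j

omit [Fintype κ] [DecidableEq κ] in
theorem one_pred {S : Type*} [Ring S] {ι : Type*} [DecidableEq ι] (Q : S → Prop) (h0 : Q 0)
    (h1 : Q 1) (i j : ι) : Q ((1 : Matrix ι ι S) i j) := by
  rw [Matrix.one_apply]
  split_ifs
  · exact h1
  · exact h0

omit [Fintype κ] [Fintype κ'] in
theorem dg3_one {S : Type*} [Ring S] : dg3 (1 : Matrix κ κ S) 1 (1 : Matrix κ' κ' S) = 1 := by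
  unfold dg3
  ext i j
  rcases i with i | i | i <;> rcases j with j | j | j <;> simp [Matrix.one_apply]

/-- `diag(1 - tA) → diag(uv, M₀)` -/
theorem chain1 {P : Set (PowerSeries R)} (hP : ∀ f ∈ P, -f ∈ P) (h0 : (0 : PowerSeries R) ∈ P)
    (A : Matrix (Unit ⊕ κ) (Unit ⊕ κ) R)
    (hb : ∀ j, (tmul A.toBlocks₁₂ * res A.toBlocks₂₂) () j ∈ P)
    (hc : ∀ j, (res A.toBlocks₂₂ * tmul A.toBlocks₂₁) j () ∈ P) :
    Eqv P (Matrix.fromBlocks (1 - tmul A.toBlocks₁₁) (Matrix.fromCols (-tmul A.toBlocks₁₂) 0)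
      (Matrix.fromRows (-tmul A.toBlocks₂₁) 0)
      (dg3 (1 - tmul A.toBlocks₂₂) 1 (1 : Matrix κ' κ' (PowerSeries R))))
      (Matrix.fromBlocks (1 - fret A) 0 0
        (dg3 (1 - tmul A.toBlocks₂₂) 1 (1 : Matrix κ' κ' (PowerSeries R)))) := by
  have hMN : dg3 (1 - tmul A.toBlocks₂₂) 1 (1 : Matrix κ' κ' (PowerSeries R)) *
      dg3 (res A.toBlocks₂₂) 1 1 = 1 := by
    rw [dg3_mul, mul_res, one_mul, one_mul, dg3_one]
  have hNM : dg3 (res A.toBlocks₂₂) 1 (1 : Matrix κ' κ' (PowerSeries R)) *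
      dg3 (1 - tmul A.toBlocks₂₂) 1 1 = 1 := by
    rw [dg3_mul, res_mul, one_mul, one_mul, dg3_one]
  have hbN : Matrix.fromCols (-tmul A.toBlocks₁₂) (0 : Matrix Unit (Unit ⊕ κ') (PowerSeries R)) *
      dg3 (res A.toBlocks₂₂) 1 (1 : Matrix κ' κ' (PowerSeries R)) =
      Matrix.fromCols (-(tmul A.toBlocks₁₂ * res A.toBlocks₂₂)) 0 := by
    rw [dg3, Matrix.fromCols_mul_fromBlocks]
    simp
  have hNc : dg3 (res A.toBlocks₂₂) 1 (1 : Matrix κ' κ' (PowerSeries R)) *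
      Matrix.fromRows (-tmul A.toBlocks₂₁) (0 : Matrix (Unit ⊕ κ') Unit (PowerSeries R)) =
      Matrix.fromRows (-(res A.toBlocks₂₂ * tmul A.toBlocks₂₁)) 0 := by
    rw [dg3, Matrix.fromBlocks_mul_fromRows]
    simp
  have h := eqv_block hP (1 - tmul A.toBlocks₁₁) (Matrix.fromCols (-tmul A.toBlocks₁₂) 0)
    (Matrix.fromRows (-tmul A.toBlocks₂₁) 0) _ _ hMN hNM (by
      intro j
      rw [hbN]
      rcases j with j | j
      · simpa using hP _ (hb j)
      · simpa using h0) (by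
      intro j
      rw [hNc]
      rcases j with j | j
      · simpa using hP _ (hc j)
      · simpa using h0)
  rw [hbN, Matrix.fromCols_mul_fromRows] at h
  rw [Matrix.mul_zero, add_zero, Matrix.neg_mul, Matrix.mul_neg, neg_neg, sub_sub, ← fret] at h
  exact h

/-- `diag(uv, 1) → diag(v, u)` on the hub and the dummy vertex. -/
theorem chain2 {S : Type*} [Ring S] {P : Set S} (hP : ∀ f ∈ P, -f ∈ P) (h0 : (0 : S) ∈ P)
    (h1 : (1 : S) ∈ P) (hmul : ∀ f ∈ P, ∀ g ∈ P, f * g ∈ P) (N N' : Matrix κ κ S)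
    (hN : N * N' = 1) (hN' : N' * N = 1) (u ui v : S) (hu : u * ui = 1) (hu' : ui * u = 1)
    (huP : u ∈ P) (huiP : ui ∈ P) (hvP : v ∈ P) (h1u : 1 - u ∈ P) :
    Eqv P (Matrix.fromBlocks (Matrix.of fun (_ _ : Unit) => u * v) 0 0
      (dg3 N 1 (1 : Matrix κ' κ' S)))
      (Matrix.fromBlocks (Matrix.of fun (_ _ : Unit) => v) 0 0
      (dg3 N u (1 : Matrix κ' κ' S))) := by
  -- the intermediate matrices
  set bY : Matrix Unit (κ ⊕ (Unit ⊕ κ')) S :=
    Matrix.fromCols 0 (Matrix.fromCols (Matrix.of fun _ _ => -u) 0) with hbY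
  set cY : Matrix (κ ⊕ (Unit ⊕ κ')) Unit S :=
    Matrix.fromRows 0 (Matrix.fromRows (Matrix.of fun _ _ => v) 0) with hcY
  set bZ : Matrix Unit (κ ⊕ (Unit ⊕ κ')) S :=
    Matrix.fromCols 0 (Matrix.fromCols (Matrix.of fun _ _ => 1 - u) 0) with hbZ
  have hM0 : dg3 N 1 (1 : Matrix κ' κ' S) * dg3 N' 1 1 = 1 := by
    rw [dg3_mul, hN, one_mul, one_mul, dg3_one]
  have hM0' : dg3 N' 1 (1 : Matrix κ' κ' S) * dg3 N 1 1 = 1 := by
    rw [dg3_mul, hN', one_mul, one_mul, dg3_one]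
  have hM1 : dg3 N u (1 : Matrix κ' κ' S) * dg3 N' ui 1 = 1 := by
    rw [dg3_mul, hN, hu, one_mul, dg3_one]
  have hM1' : dg3 N' ui (1 : Matrix κ' κ' S) * dg3 N u 1 = 1 := by
    rw [dg3_mul, hN', hu', one_mul, dg3_one]
  have hbN : bY * dg3 N' 1 (1 : Matrix κ' κ' S) = bY := by
    rw [hbY, dg3, Matrix.fromCols_mul_fromBlocks, Matrix.fromCols_mul_fromBlocks]
    simp only [Matrix.zero_mul, Matrix.mul_zero, add_zero, zero_add, Matrix.mul_one]
    congr 2
    ext i j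
    simp [Matrix.mul_apply]
  have hNc : dg3 N' 1 (1 : Matrix κ' κ' S) * cY = cY := by
    rw [hcY, dg3, Matrix.fromBlocks_mul_fromRows, Matrix.fromBlocks_mul_fromRows]
    simp only [Matrix.zero_mul, Matrix.mul_zero, add_zero, zero_add]
    congr 2
    ext i j
    simp [Matrix.mul_apply]
  have hbNZ : bZ * dg3 N' ui (1 : Matrix κ' κ' S) =
      Matrix.fromCols 0 (Matrix.fromCols (Matrix.of fun _ _ => (1 - u) * ui) 0) := by
    rw [hbZ, dg3, Matrix.fromCols_mul_fromBlocks, Matrix.fromCols_mul_fromBlocks]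
    simp only [Matrix.zero_mul, Matrix.mul_zero, add_zero, zero_add]
    congr 2
    ext i j
    simp [Matrix.mul_apply]
  have hY := eqv_block hP (0 : Matrix Unit Unit S) bY cY _ _ hM0 hM0' (by
      intro j
      rw [hbN, hbY]
      rcases j with j | j | j
      · simpa using h0
      · simpa using hP _ huP
      · simpa using h0) (by
      intro j
      rw [hNc, hcY]
      rcases j with j | j | j
      · simpa using h0
      · simpa using hvP
      · simpa using h0)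
  rw [hbN] at hY
  have eY : (0 : Matrix Unit Unit S) - bY * cY = Matrix.of fun _ _ => u * v := by
    rw [hbY, hcY, Matrix.fromCols_mul_fromRows, Matrix.fromCols_mul_fromRows]
    ext i j
    simp [Matrix.mul_apply]
  rw [eY] at hY
  have hZ := eqv_block hP (Matrix.of fun _ _ => v : Matrix Unit Unit S) bZ 0 _ _ hM1 hM1' (by
      intro j
      rw [hbNZ]
      rcases j with j | j | j
      · simpa using h0
      · simpa using hmul _ h1u _ huiP
      · simpa using h0) (by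
      intro j
      rw [Matrix.mul_zero]
      simpa using h0)
  rw [Matrix.mul_zero, sub_zero] at hZ
  -- the middle step
  have hne : (Sum.inl () : Unit ⊕ (κ ⊕ (Unit ⊕ κ'))) ≠ Sum.inr (Sum.inr (Sum.inl ())) := by simp
  have hmid : Eqv P (Matrix.fromBlocks 0 bY cY (dg3 N 1 (1 : Matrix κ' κ' S)))
      (Matrix.fromBlocks (Matrix.of fun _ _ => v) bZ 0 (dg3 N u (1 : Matrix κ' κ' S))) := by
    refine Eqv.left (M := elU _ _ hne.symm (-1) * elU _ _ hne 1)
      (mul_mem (elU_mem _ _ _ _ (hP _ h1)) (elU_mem _ _ _ _ h1)) ?_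
    rw [Units.val_mul, Matrix.mul_assoc]
    show el _ _ (-1) * (el _ _ 1 * _) = _
    ext i j
    rw [el_mul_apply, el_mul_apply, el_mul_apply]
    rcases i with i | i | i | i <;> rcases j with j | j | j | j <;>
      simp [hbY, hcY, hbZ, dg3]
    abel
  exact (hY.symm.trans hmid).trans hZ

/-- from `diag(v, 1 - D')` to the star matrix -/
theorem chain3 {P : Set (PowerSeries R)} (hP : ∀ f ∈ P, -f ∈ P) {J : Type*} [Fintype J]
    [DecidableEq J] (D N : Matrix J J (PowerSeries R)) (hDN : (1 - D) * N = 1)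
    (hND : N * (1 - D) = 1) (k : ℕ) (p : PowerSeries R)
    (hb : ∀ j, (∑ i, X ^ k * N i j) ∈ P) (hc : ∀ j, (∑ i, N j i * X ^ k) ∈ P) :
    Eqv P (Matrix.fromBlocks (Matrix.of fun _ _ => 1 - (p - X ^ (2 * k) * ∑ i, ∑ j, N i j))
      (Matrix.of fun _ _ => -X ^ k) (Matrix.of fun _ _ => -X ^ k) (1 - D))
      (Matrix.fromBlocks (Matrix.of fun _ _ => 1 - p) 0 0 (1 - D) :
        Matrix (Unit ⊕ J) (Unit ⊕ J) (PowerSeries R)) := by
  set b : Matrix Unit J (PowerSeries R) := Matrix.of fun _ _ => -X ^ k with hbdef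
  set c : Matrix J Unit (PowerSeries R) := Matrix.of fun _ _ => -X ^ k with hcdef
  set a : Matrix Unit Unit (PowerSeries R) :=
    Matrix.of fun _ _ => 1 - (p - X ^ (2 * k) * ∑ i, ∑ j, N i j) with hadef
  have h := eqv_block hP a b c (1 - D) N hDN hND (by
      intro j
      rw [Matrix.mul_apply]
      have : (∑ i, b () i * N i j) = -(∑ i, X ^ k * N i j) := by
        rw [← Finset.sum_neg_distrib]
        apply Finset.sum_congr rfl
        intro i _
        simp [hbdef]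
      rw [this]
      exact hP _ (hb j)) (by
      intro j
      rw [Matrix.mul_apply]
      have : (∑ i, N j i * c i ()) = -(∑ i, N j i * X ^ k) := by
        rw [← Finset.sum_neg_distrib]
        apply Finset.sum_congr rfl
        intro i _
        simp [hcdef]
      rw [this]
      exact hP _ (hc j))
  have e : a - b * N * c = Matrix.of fun (_ _ : Unit) => 1 - p := by
    ext1 i j
    have e2 : (b * N * c) i j = X ^ (2 * k) * ∑ i, ∑ j, N i j := by
      rw [Matrix.mul_apply]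
      rw [Finset.sum_comm (f := fun i j => N i j), Finset.mul_sum]
      apply Finset.sum_congr rfl
      intro l _
      rw [Matrix.mul_apply, Finset.sum_mul, Finset.mul_sum]
      apply Finset.sum_congr rfl
      intro l' _
      simp only [hbdef, hcdef, Matrix.of_apply]
      have hcm : N l' l * X ^ k = X ^ k * N l' l := ((commute_X (N l' l)).pow_right k).eq
      rw [neg_mul, neg_mul, mul_neg, neg_neg, mul_assoc, hcm, ← mul_assoc, ← pow_add, two_mul]
    rw [Matrix.sub_apply, e2, hadef, Matrix.of_apply, Matrix.of_apply]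
    abel
  rw [e] at h
  exact h

end chain

section main

variable {G : Type*} [Group G] [Fintype G]

omit [Fintype G] in
theorem SN.ne_zero_coeff {f : PowerSeries (MonoidAlgebra ℤ G)} (h : f ≠ 0) : ∃ d, coeff d f ≠ 0 := by
  by_contra hc
  push Not at hc
  apply h
  ext1 d
  rw [hc d, map_zero]

omit [Fintype G] in
/-- removing one monomial -/
theorem sn_sub_monomial {f : PowerSeries (MonoidAlgebra ℤ G)} (hf : SN f) (d : ℕ) (g : G)
    (h : 0 < (coeff d f).coeff g) : SN (f - monomial d (MonoidAlgebra.single g 1)) := by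
  classical
  intro n
  rw [map_sub, coeff_monomial]
  split_ifs with hn
  · subst hn
    intro x
    rw [MonoidAlgebra.coeff_sub, Finsupp.sub_apply, MonoidAlgebra.coeff_single, Finsupp.single_apply]
    split_ifs with hx
    · subst hx
      omega
    · rw [sub_zero]
      exact hf n x
  · rw [sub_zero]
    exact hf n

omit [Fintype G] in
theorem not_isPoly_ginv_mul {f : PowerSeries (MonoidAlgebra ℤ G)} (hf : SN f) (h0 : f ≠ 0) (d : ℕ)
    (hd : 0 < d) (g : G) : ¬ IsPoly (ginv d g * f) := by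
  rintro ⟨K, hK⟩
  obtain ⟨e, he⟩ := SN.ne_zero_coeff h0
  have h1 := hK (K * d + e) (by nlinarith)
  rw [coeff_mul] at h1
  refine NN.sum_ne_zero _ _ (fun p _ => (sn_ginv d g p.1).mul (hf p.2)) (K * d, e)
    (Finset.HasAntidiagonal.mem_antidiagonal.mpr rfl) ?_ h1
  refine NN.mul_ne_zero (sn_ginv d g _) ?_ (hf e) he
  rw [coeff_ginv, if_pos (dvd_mul_left d K)]
  intro h
  have h2 : (MonoidAlgebra.single (g ^ (K * d / d)) (1 : ℤ)).coeff (g ^ (K * d / d)) = 0 := by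
    rw [h]; simp
  rw [MonoidAlgebra.coeff_single, Finsupp.single_eq_same] at h2
  exact one_ne_zero h2

omit [Fintype G] in
theorem coeff_mul_single_apply (x : MonoidAlgebra ℤ G) (g₀ g : G) :
    (x * MonoidAlgebra.single g₀ 1).coeff g = x.coeff (g * g₀⁻¹) := by
  rw [MonoidAlgebra.coeff_mul_single_apply, mul_one]

theorem fn_tmul {α β : Type*} (r : NNReal) (B : Matrix α β (MonoidAlgebra ℤ G)) (i : α) (j : β) :
    wn r (tmul B i j) < ⊤ := fn_monomial 1 (B i j)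

omit [Fintype G] in
theorem sn_tmul {α β : Type*} (B : Matrix α β (MonoidAlgebra ℤ G)) (hB : ∀ i j, NN (B i j)) (i : α)
    (j : β) : SN (tmul B i j) := SN.monomial (hB i j)

theorem fn_fret {κ : Type*} [Fintype κ] [DecidableEq κ] (r : NNReal)
    (A : Matrix (Unit ⊕ κ) (Unit ⊕ κ) (MonoidAlgebra ℤ G))
    (h : ∀ i j, wn r (res A.toBlocks₂₂ i j) < ⊤) : wn r (fret A () ()) < ⊤ := by
  rw [fret, Matrix.add_apply]
  refine fn_add (fn_tmul _ _ _ _) (fn_mat_mul (fun i j => ?_) (fun i j => ?_) _ _)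
  · exact fn_mat_mul (fun i j => fn_tmul r _ i j) h i j
  · exact fn_tmul r _ i j

omit [Fintype G] in
theorem sn_fret {κ : Type*} [Fintype κ] [DecidableEq κ]
    (A : Matrix (Unit ⊕ κ) (Unit ⊕ κ) (MonoidAlgebra ℤ G)) (h0 : ∀ i j, NN (A i j))
    (h : ∀ i j, SN (res A.toBlocks₂₂ i j)) : SN (fret A () ()) := by
  rw [fret, Matrix.add_apply]
  refine SN.add (sn_tmul _ (fun i j => h0 _ _) _ _) (sn_mat_mul (fun i j => ?_) (fun i j => ?_) _ _)
  · exact sn_mat_mul (fun i j => sn_tmul _ (fun i j => h0 _ _) i j) h i j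
  · exact sn_tmul _ (fun i j => h0 _ _) i j

theorem fn_dg3 {κ κ' : Type*} [DecidableEq κ'] {r : NNReal}
    (N : Matrix κ κ (PowerSeries (MonoidAlgebra ℤ G))) (hN : ∀ i j, wn r (N i j) < ⊤)
    (x : PowerSeries (MonoidAlgebra ℤ G)) (hx : wn r x < ⊤) (i j) :
    wn r (dg3 N x (1 : Matrix κ' κ' (PowerSeries (MonoidAlgebra ℤ G))) i j) < ⊤ := by
  have h0 : (fun f : PowerSeries (MonoidAlgebra ℤ G) => wn r f < ⊤) 0 := fn_zero
  have h1 : (fun f : PowerSeries (MonoidAlgebra ℤ G) => wn r f < ⊤) 1 := fn_one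
  have h2 := one_pred (ι := κ') (fun f : PowerSeries (MonoidAlgebra ℤ G) => wn r f < ⊤) h0 h1
  exact dg3_pred (fun f : PowerSeries (MonoidAlgebra ℤ G) => wn r f < ⊤) h0 hN hx h2 i j

omit [Fintype G] in
theorem sn_dg3 {κ κ' : Type*} [DecidableEq κ']
    (N : Matrix κ κ (PowerSeries (MonoidAlgebra ℤ G))) (hN : ∀ i j, SN (N i j))
    (x : PowerSeries (MonoidAlgebra ℤ G)) (hx : SN x) (i j) :
    SN (dg3 N x (1 : Matrix κ' κ' (PowerSeries (MonoidAlgebra ℤ G))) i j) :=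
  dg3_pred SN SN.zero hN hx (one_pred SN SN.zero SN.one) i j

theorem scaffold {G κ κ' : Type*} [Group G] [Fintype G] [Fintype κ] [DecidableEq κ]
    [Fintype κ'] [DecidableEq κ']
    (A : Matrix (Unit ⊕ κ) (Unit ⊕ κ) (MonoidAlgebra ℤ G)) (h0 : ∀ i j, NN (A i j))
    (lam μ K : ℝ) (x y : Unit ⊕ κ → ℝ) (hlam : 1 < lam) (hμ0 : 0 < μ) (hμ : μ < lam) (hK : 0 < K)
    (hx : ∀ i, 0 < x i) (hy : ∀ i, 0 < y i)
    (hasym : ∀ (k : ℕ) (i j : Unit ⊕ κ) (g : G),
        |(((A ^ k) i j).coeff g : ℝ) - lam ^ k * (x i * y j)| ≤ K * μ ^ k)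
    (hrest : ∀ (k : ℕ) (i j : κ) (g : G), (((A.toBlocks₂₂ ^ k) i j).coeff g : ℝ) ≤ K * μ ^ k)
    (r : NNReal) (hr1 : r < 1) (hr : 1 < lam * r) (hrμ : (r : ℝ) * μ < 1) :
    ∃ (p w S : PowerSeries (MonoidAlgebra ℤ G))
      (D : Matrix ((Unit ⊕ κ) ⊕ (Unit ⊕ κ')) ((Unit ⊕ κ) ⊕ (Unit ⊕ κ'))
        (PowerSeries (MonoidAlgebra ℤ G))) (d₁ : ℕ),
      coeff 0 p = 0 ∧ (∀ d, NN (coeff d p)) ∧ ¬ IsPoly p ∧ wn r p < ⊤ ∧
      S * (1 - p) = 1 ∧ (∀ d, d₁ ≤ d → PP (coeff d S)) ∧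
      (∃ d, 1 < (∑ g : G, ((coeff d S).coeff g : ℝ)) * (r : ℝ) ^ d) ∧
      (∀ d, NN (coeff d w)) ∧ wn r w < ⊤ ∧
      (∀ i j d, NN (coeff d (D i j))) ∧ (∀ i j, coeff 0 (D i j) = 0) ∧
      ∀ k : ℕ, 0 < k →
        ∃ M₁ ∈ elGroup ((Unit ⊕ κ) ⊕ (Unit ⊕ κ'))
            {f : PowerSeries (MonoidAlgebra ℤ G) | wn r f < ⊤},
        ∃ M₂ ∈ elGroup ((Unit ⊕ κ) ⊕ (Unit ⊕ κ'))
            {f : PowerSeries (MonoidAlgebra ℤ G) | wn r f < ⊤},
          M₁.val * (1 - tmul (Matrix.fromBlocks A 0 0 0)) * M₂.val =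
            1 - starM (Sum.inl (Sum.inl ())) p w D k := by
  classical
  have hlam0 : 0 < lam := by linarith
  set P : Set (PowerSeries (MonoidAlgebra ℤ G)) :=
    {f : PowerSeries (MonoidAlgebra ℤ G) | wn r f < ⊤} with hPdef
  have hPneg : ∀ f ∈ P, -f ∈ P := fun f hf => fn_neg hf
  have hP0 : (0 : PowerSeries (MonoidAlgebra ℤ G)) ∈ P := fn_zero
  have hP1 : (1 : PowerSeries (MonoidAlgebra ℤ G)) ∈ P := fn_one
  have hPmul : ∀ f ∈ P, ∀ g ∈ P, f * g ∈ P := fun f hf g hg => fn_mul hf hg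
  -- the rest block
  have hA22 : ∀ i j, NN (A.toBlocks₂₂ i j) := fun i j => h0 _ _
  have hresf : ∀ i j, wn r (res A.toBlocks₂₂ i j) < ⊤ := fn_res hA22 hμ0 hK hrμ hrest
  have hresn : ∀ i j, SN (res A.toBlocks₂₂ i j) := sn_res hA22
  -- first return series
  set p1 : PowerSeries (MonoidAlgebra ℤ G) := fret A () () with hp1def
  set S1 : PowerSeries (MonoidAlgebra ℤ G) := res A (Sum.inl ()) (Sum.inl ()) with hS1def
  have hS1 : S1 * (1 - p1) = 1 := schur_res A
  have hp10 : coeff 0 p1 = 0 := coeff_zero_fret A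
  have hp1n : SN p1 := sn_fret A h0 hresn
  have hp1f : wn r p1 < ⊤ := fn_fret r A hresf
  -- asymptotics
  have hS1c : ∀ n, coeff n S1 = (A ^ n) (Sum.inl ()) (Sum.inl ()) := fun n => by
    rw [hS1def, res, coeff_mk]
  have hdiff := asym_diff (G := G) (s := fun n g => (((A ^ n) (Sum.inl ()) (Sum.inl ())).coeff g : ℝ))
    hlam hμ0 hμ hK (mul_pos (hx (Sum.inl ())) (hy (Sum.inl ())))
    (fun k g => hasym k (Sum.inl ()) (Sum.inl ()) g)
  -- `p1 ≠ 0`
  have hdiff' : ∀ (d : ℕ), 0 < d → ∀ g₀ : G, ∃ (c' : ℝ) (d₁ : ℕ), 0 < c' ∧ d ≤ d₁ ∧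
      ∀ n, d₁ ≤ n → ∀ g, c' * lam ^ n ≤
        ((coeff n (S1 * (1 - monomial d (MonoidAlgebra.single g₀ 1)))).coeff g : ℝ) := by
    intro d hd g₀
    obtain ⟨c', d₁, h1, h2, h3⟩ := hdiff d hd g₀⁻¹
    refine ⟨c', d₁, h1, h2, fun n hn g => ?_⟩
    refine (h3 n hn g).trans (le_of_eq ?_)
    rw [mul_sub, mul_one, map_sub, coeff_mul_monomial', if_pos (h2.trans hn), hS1c, hS1c,
      MonoidAlgebra.coeff_sub, Finsupp.sub_apply, coeff_mul_single_apply]
    push_cast
    ring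
  have hp1ne : p1 ≠ 0 := by
    intro h
    rw [h, sub_zero, mul_one] at hS1
    obtain ⟨c', d₁, h1, h2, h3⟩ := hdiff' 1 one_pos 1
    have h4 := h3 (d₁ + 1) (by omega) 1
    rw [hS1, one_mul, map_sub, coeff_one, if_neg (by omega), coeff_monomial, if_neg (by omega)] at h4
    simp at h4
    have : 0 < c' * lam ^ (d₁ + 1) := by positivity
    linarith
  obtain ⟨dd, hdd⟩ := SN.ne_zero_coeff hp1ne
  obtain ⟨gg, hgg⟩ := (hp1n dd).exists_pos hdd
  have hddpos : 0 < dd := by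
    rcases Nat.eq_zero_or_pos dd with h | h
    · rw [h, hp10] at hdd
      exact absurd rfl hdd
    · exact h
  set x₀ : MonoidAlgebra ℤ G := MonoidAlgebra.single gg 1 with hx₀
  set pp : PowerSeries (MonoidAlgebra ℤ G) := p1 - monomial dd x₀ with hpp
  have hppn : SN pp := sn_sub_monomial hp1n dd gg hgg
  have hppf : wn r pp < ⊤ := fn_sub hp1f (fn_monomial _ _)
  obtain ⟨c', d₁, hc', hd₁, hS⟩ := hdiff' dd hddpos gg
  have hppne : pp ≠ 0 := by
    intro h
    have h1 : p1 = monomial dd x₀ := sub_eq_zero.mp h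
    rw [h1] at hS1
    have h4 := hS (d₁ + 1) (by omega) 1
    rw [hS1, coeff_one, if_neg (by omega)] at h4
    simp at h4
    have : 0 < c' * lam ^ (d₁ + 1) := by positivity
    linarith
  set u : PowerSeries (MonoidAlgebra ℤ G) := 1 - monomial dd x₀ with hu
  set ui : PowerSeries (MonoidAlgebra ℤ G) := ginv dd gg with hui
  have huui : u * ui = 1 := one_sub_mul_ginv dd hddpos gg
  have huiu : ui * u = 1 := ginv_mul_one_sub dd hddpos gg
  have huf : wn r u < ⊤ := fn_sub fn_one (fn_monomial _ _)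
  have huif : wn r ui < ⊤ := fn_ginv dd gg hr1
  set p : PowerSeries (MonoidAlgebra ℤ G) := ui * pp with hp
  have huv : u * (1 - p) = 1 - p1 := by
    rw [hp, mul_sub, mul_one, ← mul_assoc, huui, one_mul, hpp, hu]
    abel
  have hpf : wn r p < ⊤ := fn_mul huif hppf
  have hpp0 : coeff 0 pp = 0 := by
    rw [hpp, map_sub, hp10, coeff_monomial, if_neg (by omega), sub_zero]
  have hp0 : coeff 0 p = 0 := by
    rw [hp, coeff_mul, Finset.sum_eq_zero]
    intro q hq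
    rw [Finset.HasAntidiagonal.mem_antidiagonal] at hq
    have : q.2 = 0 := by omega
    rw [this, hpp0, mul_zero]
  -- the rest matrices
  set Dr : Matrix (κ ⊕ (Unit ⊕ κ')) (κ ⊕ (Unit ⊕ κ')) (PowerSeries (MonoidAlgebra ℤ G)) :=
    dg3 (tmul A.toBlocks₂₂) (monomial dd x₀) 0 with hDr
  set Nr : Matrix (κ ⊕ (Unit ⊕ κ')) (κ ⊕ (Unit ⊕ κ')) (PowerSeries (MonoidAlgebra ℤ G)) :=
    dg3 (res A.toBlocks₂₂) ui 1 with hNr
  have h1D : 1 - Dr = dg3 (1 - tmul A.toBlocks₂₂) u 1 := by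
    rw [hDr, ← dg3_one]
    ext1 i j
    rcases i with i | i | i <;> rcases j with j | j | j <;> simp [dg3, hu]
  have hDN : (1 - Dr) * Nr = 1 := by
    rw [h1D, hNr, dg3_mul, mul_res, huui, one_mul, dg3_one]
  have hND : Nr * (1 - Dr) = 1 := by
    rw [h1D, hNr, dg3_mul, res_mul, huiu, one_mul, dg3_one]
  have hNrf : ∀ i j, wn r (Nr i j) < ⊤ := fn_dg3 _ hresf _ huif
  have hNrn : ∀ i j, SN (Nr i j) := sn_dg3 _ hresn _ (sn_ginv dd gg)
  set w : PowerSeries (MonoidAlgebra ℤ G) := ∑ i, ∑ j, Nr i j with hw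
  set e : (Unit ⊕ κ) ⊕ (Unit ⊕ κ') ≃ Unit ⊕ (κ ⊕ (Unit ⊕ κ')) := Equiv.sumAssoc Unit κ (Unit ⊕ κ')
    with he
  set D : Matrix ((Unit ⊕ κ) ⊕ (Unit ⊕ κ')) ((Unit ⊕ κ) ⊕ (Unit ⊕ κ'))
      (PowerSeries (MonoidAlgebra ℤ G)) :=
    (Matrix.fromBlocks (0 : Matrix Unit Unit _) 0 0 Dr).submatrix e e with hD
  refine ⟨p, w, S1 * u, D, d₁, hp0, fun d => (SN.mul (sn_ginv dd gg) hppn) d,
    not_isPoly_ginv_mul hppn hppne dd hddpos gg, hpf, ?_, ?_, ?_, ?_, ?_, ?_, ?_, ?_⟩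
  · rw [mul_assoc, huv, hS1]
  · intro d hd g
    have h1 := hS d hd g
    have h2 : 0 < c' * lam ^ d := by positivity
    have h3 : (0 : ℝ) < ((coeff d (S1 * u)).coeff g : ℝ) := by linarith
    exact_mod_cast h3
  · have hgt : 1 < lam * (r : ℝ) := hr
    have ht := tendsto_pow_atTop_atTop_of_one_lt hgt
    obtain ⟨n₀, hn₀⟩ := eventually_atTop.mp (ht.eventually_gt_atTop (1 / c'))
    refine ⟨max n₀ d₁, ?_⟩
    set n := max n₀ d₁ with hn
    have h1 := hn₀ n (le_max_left _ _)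
    have h2 : c' * lam ^ n ≤ ∑ g : G, ((coeff n (S1 * u)).coeff g : ℝ) := by
      refine (hS n (le_max_right _ _) 1).trans ?_
      refine Finset.single_le_sum (f := fun g => ((coeff n (S1 * u)).coeff g : ℝ)) (fun g _ => ?_)
        (Finset.mem_univ 1)
      have h3 := hS n (le_max_right _ _) g
      have h4 : 0 < c' * lam ^ n := by positivity
      linarith
    have h5 : c' * lam ^ n * (r : ℝ) ^ n ≤ (∑ g : G, ((coeff n (S1 * u)).coeff g : ℝ)) * (r : ℝ) ^ n :=
      mul_le_mul_of_nonneg_right h2 (by positivity)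
    rw [mul_assoc, ← mul_pow] at h5
    rw [div_lt_iff₀ hc'] at h1
    linarith
  · exact fun d => (SN.sum _ _ fun i _ => SN.sum _ _ fun j _ => hNrn i j) d
  · exact fn_sum _ _ fun i _ => fn_sum _ _ fun j _ => hNrf i j
  · intro i j d
    rw [hD, Matrix.submatrix_apply]
    have hDrn : ∀ i j, SN (Dr i j) :=
      dg3_pred SN SN.zero (sn_tmul _ hA22) (SN.monomial (nn_single gg)) (fun _ _ => SN.zero)
    rcases e i with i' | i' <;> rcases e j with j' | j'
    · exact SN.zero d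
    · exact SN.zero d
    · exact SN.zero d
    · exact hDrn i' j' d
  · intro i j
    rw [hD, Matrix.submatrix_apply]
    have hDr0 : ∀ i j, coeff 0 (Dr i j) = 0 := by
      have hz : (fun f : PowerSeries (MonoidAlgebra ℤ G) => coeff 0 f = 0) 0 := map_zero _
      have h1 : ∀ i j, (fun f : PowerSeries (MonoidAlgebra ℤ G) => coeff 0 f = 0)
          (tmul A.toBlocks₂₂ i j) := fun i j => by
        show coeff 0 (tmul A.toBlocks₂₂ i j) = 0
        rw [tmul, Matrix.map_apply, coeff_monomial, if_neg (by omega)]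
      have h2 : (fun f : PowerSeries (MonoidAlgebra ℤ G) => coeff 0 f = 0) (monomial dd x₀) := by
        show coeff 0 (monomial dd x₀) = 0
        rw [coeff_monomial, if_neg (by omega)]
      exact dg3_pred (fun f : PowerSeries (MonoidAlgebra ℤ G) => coeff 0 f = 0) hz h1 h2
        (fun _ _ => hz)
    rcases e i with i' | i' <;> rcases e j with j' | j'
    · exact map_zero _
    · exact map_zero _
    · exact map_zero _
    · exact hDr0 i' j'
  · intro k _
    have hX : wn r ((X : PowerSeries (MonoidAlgebra ℤ G)) ^ k) < ⊤ := by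
      rw [X_pow_eq]
      exact fn_monomial _ _
    have c1 := chain1 (κ' := κ') hPneg hP0 A
      (fun j => fn_mat_mul (fun i j => fn_tmul r _ i j) hresf () j)
      (fun j => fn_mat_mul hresf (fun i j => fn_tmul r _ i j) j ())
    have e1 : (1 - fret A) = Matrix.of fun (_ _ : Unit) => u * (1 - p) := by
      ext1 i j
      rw [Matrix.sub_apply, Matrix.of_apply, huv, Matrix.one_apply_eq]
    rw [e1] at c1
    have c2 := chain2 (κ' := κ') hPneg hP0 hP1 hPmul (1 - tmul A.toBlocks₂₂) (res A.toBlocks₂₂)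
      (mul_res _) (res_mul _) u ui (1 - p) huui huiu huf huif (fn_sub fn_one hpf)
      (fn_sub fn_one huf)
    have c3 := chain3 hPneg Dr Nr hDN hND k p
      (fun j => fn_sum _ _ fun i _ => fn_mul hX (hNrf i j))
      (fun j => fn_sum _ _ fun i _ => fn_mul (hNrf j i) hX)
    rw [← h1D] at c2
    have c4 := ((c1.trans c2).trans c3.symm).reindex e.symm
    rw [Equiv.symm_symm] at c4
    have e2 : (Matrix.fromBlocks (1 - tmul A.toBlocks₁₁)
        (Matrix.fromCols (-tmul A.toBlocks₁₂) 0) (Matrix.fromRows (-tmul A.toBlocks₂₁) 0)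
        (dg3 (1 - tmul A.toBlocks₂₂) 1 (1 : Matrix κ' κ' (PowerSeries (MonoidAlgebra ℤ G))))).submatrix
        e e = 1 - tmul (Matrix.fromBlocks A 0 0 0) := by
      ext1 i j
      rcases i with (i | i) | (i | i) <;> rcases j with (j | j) | (j | j) <;>
        simp [he, dg3, tmul, Matrix.toBlocks₁₁, Matrix.toBlocks₁₂, Matrix.toBlocks₂₁,
          Matrix.toBlocks₂₂, Matrix.one_apply]
    have e3 : (Matrix.fromBlocks (Matrix.of fun (_ _ : Unit) => 1 - (p - X ^ (2 * k) *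
        ∑ i, ∑ j, Nr i j)) (Matrix.of fun _ _ => -X ^ k) (Matrix.of fun _ _ => -X ^ k)
        (1 - Dr)).submatrix e e = 1 - starM (Sum.inl (Sum.inl ())) p w D k := by
      ext1 i j
      rcases i with (i | i) | (i | i) <;> rcases j with (j | j) | (j | j) <;>
        simp [he, hD, starM, Matrix.one_apply, hw]
    rw [e2, e3] at c4
    exact c4

end main

end Pool.Agent.TS
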