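import Pool.Agent.Lib.MP_402c18_an.Fin1
import Pool.Agent.Lib.MP_402c18_an.Scaf

/-!
# The final assembly, main case `λ > 1`
-/

set_option autoImplicit false
set_option linter.unusedSectionVars false

namespace Pool.Agent.TS

open PowerSeries

section

variable {G : Type*} [Group G] [Fintype G]

/-- combine two approximations -/
theorem poly_equiv_approx {ι : Type*} [Fintype ι] [DecidableEq ι] (r : NNReal)
    (E F : (Matrix ι ι (PowerSeries (MonoidAlgebra ℤ G)))ˣ)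
    (hE : E ∈ elGroup ι {f : PowerSeries (MonoidAlgebra ℤ G) | wn r f < ⊤})
    (hF : F ∈ elGroup ι {f : PowerSeries (MonoidAlgebra ℤ G) | wn r f < ⊤})
    (X : Matrix ι ι (PowerSeries (MonoidAlgebra ℤ G))) (hX : mn r X < ⊤)
    (ε : ENNReal) (hε : ε ≠ 0) :
    ∃ E' ∈ elGroup ι {f : PowerSeries (MonoidAlgebra ℤ G) | IsPoly f},
    ∃ F' ∈ elGroup ι {f : PowerSeries (MonoidAlgebra ℤ G) | IsPoly f},
      mn r (E'.val * X * F'.val - E.val * X * F.val) ≤ ε := by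
  have hEf := elGroup_mn_lt_top r E hE
  have hFf := elGroup_mn_lt_top r F hF
  set a := mn r X * mn r F.val + 1 with ha
  have hat : a ≠ ⊤ := by
    rw [ha]
    exact ENNReal.add_ne_top.mpr ⟨ENNReal.mul_ne_top hX.ne hFf.ne, by norm_num⟩
  have ha0 : a ≠ 0 := by rw [ha]; simp
  have hε2 : ε / 2 ≠ 0 := by simpa using hε
  obtain ⟨E', hE', h1⟩ := exists_poly_approx r E hE (ε / 2 / a)
    (ENNReal.div_ne_zero.mpr ⟨hε2, hat⟩)
  have hE'f : mn r E'.val < ⊤ := mn_lt_top_of_mpoly r (elGroup_mpoly E' hE')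
  set b := mn r E'.val * mn r X + 1 with hb
  have hbt : b ≠ ⊤ := by
    rw [hb]
    exact ENNReal.add_ne_top.mpr ⟨ENNReal.mul_ne_top hE'f.ne hX.ne, by norm_num⟩
  have hb0 : b ≠ 0 := by rw [hb]; simp
  obtain ⟨F', hF', h2⟩ := exists_poly_approx r F hF (ε / 2 / b)
    (ENNReal.div_ne_zero.mpr ⟨hε2, hbt⟩)
  refine ⟨E', hE', F', hF', ?_⟩
  have e : E'.val * X * F'.val - E.val * X * F.val =
      -((E.val - E'.val) * X * F.val) - (E'.val * X * (F.val - F'.val)) := by noncomm_ring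
  rw [e]
  refine (mn_sub_le r _ _).trans ?_
  rw [mn_neg]
  calc mn r ((E.val - E'.val) * X * F.val) + mn r (E'.val * X * (F.val - F'.val))
      ≤ (ε / 2 / a) * (mn r X * mn r F.val) + (mn r E'.val * mn r X) * (ε / 2 / b) := by
        refine add_le_add ?_ ?_
        · rw [mul_assoc]
          refine (mn_mul_le r _ _).trans ?_
          exact mul_le_mul' h1 (mn_mul_le r _ _)
        · refine (mn_mul_le r _ _).trans ?_
          exact mul_le_mul' (mn_mul_le r _ _) h2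
    _ ≤ (ε / 2 / a) * a + b * (ε / 2 / b) := by
        refine add_le_add (mul_le_mul' le_rfl ?_) (mul_le_mul' ?_ le_rfl)
        · rw [ha]; exact le_self_add
        · rw [hb]; exact le_self_add
    _ = ε / 2 + ε / 2 := by
        rw [ENNReal.div_mul_cancel ha0 hat, ENNReal.mul_div_cancel hb0 hbt]
    _ = ε := ENNReal.add_halves ε

theorem exists_r (lam μ : ℝ) (hlam : 1 < lam) (hμ0 : 0 < μ) (hμ : μ < lam) :
    ∃ r : NNReal, r < 1 ∧ 1 < lam * r ∧ (r : ℝ) * μ < 1 := by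
  have h1 : lam⁻¹ < 1 := inv_lt_one_of_one_lt₀ hlam
  have h2 : lam⁻¹ < μ⁻¹ := by
    rw [inv_lt_inv₀ (by linarith) hμ0]
    exact hμ
  obtain ⟨s, hs1, hs2⟩ := exists_between (lt_min h1 h2)
  have hs0 : 0 < s := lt_trans (by positivity) hs1
  have hs : ((s.toNNReal : NNReal) : ℝ) = s := Real.coe_toNNReal s hs0.le
  refine ⟨s.toNNReal, ?_, ?_, ?_⟩
  · rw [← NNReal.coe_lt_coe, hs]
    exact lt_of_lt_of_le hs2 (min_le_left _ _)
  · rw [hs]
    rw [inv_lt_iff_one_lt_mul₀ (by linarith)] at hs1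
    rw [mul_comm]
    exact hs1
  · rw [hs]
    have h3 : s < μ⁻¹ := lt_of_lt_of_le hs2 (min_le_right _ _)
    calc s * μ < μ⁻¹ * μ := mul_lt_mul_of_pos_right h3 hμ0
      _ = 1 := inv_mul_cancel₀ hμ0.ne'

theorem mpoly_mul {ι : Type*} [Fintype ι] [DecidableEq ι] {R : Type*} [Ring R]
    {A B : Matrix ι ι (PowerSeries R)} (hA : MPoly A) (hB : MPoly B) : MPoly (A * B) := by
  intro i j
  have hmul : ∀ f g : PowerSeries R, IsPoly f → IsPoly g → IsPoly (f * g) := by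
    rintro f g ⟨K, hK⟩ ⟨L, hL⟩
    refine ⟨K + L, fun d hd => ?_⟩
    rw [coeff_mul]
    refine Finset.sum_eq_zero fun p hp => ?_
    rw [Finset.HasAntidiagonal.mem_antidiagonal] at hp
    rcases le_or_gt K p.1 with h | h
    · rw [hK _ h, zero_mul]
    · rw [hL _ (by omega), mul_zero]
  have hsum : ∀ (s : Finset ι) (f : ι → PowerSeries R), (∀ l ∈ s, IsPoly (f l)) →
      IsPoly (∑ l ∈ s, f l) := by
    intro s f
    induction s using Finset.induction_on with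
    | empty => intro _; exact ⟨0, fun d _ => by simp⟩
    | insert a s ha ih =>
      intro h
      rw [Finset.sum_insert ha]
      exact (h a (Finset.mem_insert_self a s)).add'
        (ih fun l hl => h l (Finset.mem_insert_of_mem hl))
  rw [Matrix.mul_apply]
  exact hsum _ _ fun l _ => hmul _ _ (hA i l) (hB l j)

theorem main_case {κ : Type*} [Fintype κ] [DecidableEq κ] {m : ℕ}
    (A : Matrix (Unit ⊕ κ) (Unit ⊕ κ) (MonoidAlgebra ℤ G))
    (B : Matrix (Fin m) (Fin m) (MonoidAlgebra ℤ G))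
    (h0 : ∀ i j, NN (A i j))
    (lam μ K : ℝ) (x y : Unit ⊕ κ → ℝ) (hlam : 1 < lam) (hμ0 : 0 < μ) (hμ : μ < lam) (hK : 0 < K)
    (hx : ∀ i, 0 < x i) (hy : ∀ i, 0 < y i)
    (hyA : ∀ j, ∑ i, y i * (∑ g : G, ((A i j).coeff g : ℝ)) = lam * y j)
    (hasym : ∀ (k : ℕ) (i j : Unit ⊕ κ) (g : G),
        |(((A ^ k) i j).coeff g : ℝ) - lam ^ k * (x i * y j)| ≤ K * μ ^ k)
    (hrest : ∀ (k : ℕ) (i j : κ) (g : G), (((A.toBlocks₂₂ ^ k) i j).coeff g : ℝ) ≤ K * μ ^ k)
    (htr : ∀ k : ℕ, 0 < k → (A ^ k).trace - (B ^ k).trace ∈ AddSubgroup.closure (TrSet G)) :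
    ∃ (k : ℕ) (C : Matrix (Fin k) (Fin k) (MonoidAlgebra ℤ G)),
      0 < k ∧ (∀ i j, NN (C i j)) ∧ (∃ p : ℕ, 0 < p ∧ ∀ i j, PP ((C ^ p) i j)) ∧ SE B C := by
  classical
  obtain ⟨r, hr1, hr, hrμ⟩ := exists_r lam μ hlam hμ0 hμ
  have hr0 : 0 < r := by
    rcases eq_or_lt_of_le (zero_le (a := r)) with h | h
    · rw [← h] at hr
      simp at hr
      linarith
    · exact h
  -- the padded matrices
  set A' : Matrix ((Unit ⊕ κ) ⊕ (Unit ⊕ Fin m)) ((Unit ⊕ κ) ⊕ (Unit ⊕ Fin m))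
    (MonoidAlgebra ℤ G) := Matrix.fromBlocks A 0 0 0 with hA'
  set B₁ : Matrix (Unit ⊕ Fin m) (Unit ⊕ Fin m) (MonoidAlgebra ℤ G) :=
    Matrix.fromBlocks 0 0 0 B with hB₁
  set B' : Matrix ((Unit ⊕ κ) ⊕ (Unit ⊕ Fin m)) ((Unit ⊕ κ) ⊕ (Unit ⊕ Fin m))
    (MonoidAlgebra ℤ G) := Matrix.fromBlocks 0 0 0 B₁ with hB'
  have htr' : ∀ k : ℕ, 0 < k → (A' ^ k).trace - (B' ^ k).trace ∈
      AddSubgroup.closure (TrSet G) := by
    intro k hk
    rw [hA', hB', trace_pow_left A k hk, trace_pow_right B₁ k hk, hB₁, trace_pow_right B k hk]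
    exact htr k hk
  set x' : (Unit ⊕ κ) ⊕ (Unit ⊕ Fin m) → ℝ := Sum.elim x 0 with hx'
  set y' : (Unit ⊕ κ) ⊕ (Unit ⊕ Fin m) → ℝ := Sum.elim y 0 with hy'
  have hy'0 : y' ≠ 0 := by
    intro h
    have := congrFun h (Sum.inl (Sum.inl ()))
    rw [hy'] at this
    simp only [Sum.elim_inl, Pi.zero_apply] at this
    exact (hy (Sum.inl ())).ne' this
  have hyA' : ∀ j, ∑ i, y' i * (∑ g : G, ((A' i j).coeff g : ℝ)) = lam * y' j := by
    intro j
    rw [Fintype.sum_sum_type]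
    rcases j with j | j
    · rw [hy', hA']
      simp only [Sum.elim_inl, Sum.elim_inr, Pi.zero_apply, zero_mul, Finset.sum_const_zero,
        add_zero, Matrix.fromBlocks_apply₁₁]
      exact hyA j
    · rw [hy', hA']
      simp
  have hasym' : ∀ (k : ℕ) (i j : (Unit ⊕ κ) ⊕ (Unit ⊕ Fin m)) (g : G),
      |(((A' ^ k) i j).coeff g : ℝ) - lam ^ k * (x' i * y' j)| ≤ (K + 1) * μ ^ k := by
    intro k i j g
    have hμk : 0 ≤ μ ^ k := by positivity
    rcases Nat.eq_zero_or_pos k with hk | hk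
    · rw [hk, pow_zero, pow_zero, pow_zero, mul_one, one_mul]
      rcases i with i | i <;> rcases j with j | j
      · have h1 := hasym 0 i j g
        rw [pow_zero, pow_zero, pow_zero, mul_one, one_mul] at h1
        have h2 : (1 : Matrix ((Unit ⊕ κ) ⊕ (Unit ⊕ Fin m)) ((Unit ⊕ κ) ⊕ (Unit ⊕ Fin m))
            (MonoidAlgebra ℤ G)) (Sum.inl i) (Sum.inl j) =
            (1 : Matrix (Unit ⊕ κ) (Unit ⊕ κ) (MonoidAlgebra ℤ G)) i j := by
          rw [Matrix.one_apply, Matrix.one_apply]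
          simp
        rw [h2, hx', hy']
        simp only [Sum.elim_inl]
        linarith
      · rw [hx', hy', Matrix.one_apply_ne (by simp)]
        simp
        linarith
      · rw [hx', hy', Matrix.one_apply_ne (by simp)]
        simp
        linarith
      · rw [hx', hy', Matrix.one_apply]
        have h3 : |((((if (Sum.inr i : (Unit ⊕ κ) ⊕ (Unit ⊕ Fin m)) = Sum.inr j then
            (1 : MonoidAlgebra ℤ G) else 0).coeff g : ℤ)) : ℝ)| ≤ 1 := by
          split_ifs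
          · rw [MonoidAlgebra.one_def, MonoidAlgebra.coeff_single, Finsupp.single_apply]
            split_ifs <;> simp
          · simp
        simp only [Sum.elim_inr, Pi.zero_apply, mul_zero, sub_zero]
        linarith
    · rw [hA', pow_fromBlocks_left A k hk]
      have hbase : 0 ≤ (K + 1) * μ ^ k := by positivity
      rcases i with i | i <;> rcases j with j | j
      · rw [hx', hy']
        simp only [Sum.elim_inl, Matrix.fromBlocks_apply₁₁]
        refine (hasym k i j g).trans ?_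
        nlinarith
      · rw [hx', hy']
        simpa using hbase
      · rw [hx', hy']
        simpa using hbase
      · rw [hx', hy']
        simpa using hbase
  -- scaffold
  obtain ⟨p, w, S, D, d₁, hp0, hpn, hpinf, hpr, hS, hS1, hgrow, hwn, hwr, hDn, hD0, hscaf⟩ :=
    scaffold (κ' := Fin m) A h0 lam μ K x y hlam hμ0 hμ hK hx hy hasym hrest r hr1 hr hrμ
  obtain ⟨k, τ, ε, hk, hε, hτp, hτ0, hτn, hτo, hH⟩ :=
    H_pos (Sum.inl (Sum.inl ()) : (Unit ⊕ κ) ⊕ (Unit ⊕ Fin m)) r hr0 hr1 p w S D hp0 hpn hpinf hpr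
      hS d₁ hS1 hgrow hwn hwr hDn hD0
  obtain ⟨M₁, hM₁, M₂, hM₂, hM⟩ := hscaf k hk
  have hM₁f := elGroup_mn_lt_top r M₁ hM₁
  have hM₂f := elGroup_mn_lt_top r M₂ hM₂
  have hε2 : ε / 2 ≠ 0 := by simpa using hε
  set a := mn r M₁.val * mn r M₂.val + 1 with ha
  have hat : a ≠ ⊤ := by
    rw [ha]
    exact ENNReal.add_ne_top.mpr ⟨ENNReal.mul_ne_top hM₁f.ne hM₂f.ne, by norm_num⟩
  have ha0 : a ≠ 0 := by rw [ha]; simp
  obtain ⟨E, hE, F, hF, hEF⟩ := theoremA
    (Sum.inl (Sum.inl ()) : (Unit ⊕ κ) ⊕ (Unit ⊕ Fin m)) (Sum.inr (Sum.inl ())) (by simp) A' B'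
    lam μ (K + 1) x' y' hlam hμ0 hasym' hy'0 hyA' htr' r hr1 hr hrμ (ε / 2 / a)
    (ENNReal.div_ne_zero.mpr ⟨hε2, hat⟩)
  have hXBf : mn r (1 - tmul B') < ⊤ := mn_lt_top_of_mpoly r (mpoly_one_sub_tmul B')
  obtain ⟨E', hE', F', hF', hEF'⟩ := poly_equiv_approx r (M₁ * E) (F * M₂)
    (Subgroup.mul_mem _ hM₁ hE) (Subgroup.mul_mem _ hF hM₂) (1 - tmul B') hXBf (ε / 2) hε2
  set X := E'.val * (1 - tmul B') * F'.val with hX
  have hXp : MPoly X := mpoly_mul (mpoly_mul (elGroup_mpoly E' hE') (mpoly_one_sub_tmul B'))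
    (elGroup_mpoly F' hF')
  have hXε : mn r (X - (1 - starM (Sum.inl (Sum.inl ())) p w D k)) ≤ ε := by
    rw [← hM]
    have e : X - M₁.val * (1 - tmul (Matrix.fromBlocks A 0 0 0)) * M₂.val =
        (E'.val * (1 - tmul B') * F'.val - (M₁ * E).val * (1 - tmul B') * (F * M₂).val) +
        M₁.val * (E.val * (1 - tmul B') * F.val - (1 - tmul A')) * M₂.val := by
      rw [Units.val_mul, Units.val_mul, hX, hA']
      noncomm_ring
    rw [e]
    refine (mn_add_le r _ _).trans ?_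
    calc _ ≤ ε / 2 + mn r M₁.val * (ε / 2 / a) * mn r M₂.val := by
          refine add_le_add hEF' ?_
          refine (mn_mul_le r _ _).trans (mul_le_mul' ?_ le_rfl)
          exact (mn_mul_le r _ _).trans (mul_le_mul' le_rfl hEF)
      _ = ε / 2 + (mn r M₁.val * mn r M₂.val) * (ε / 2 / a) := by ring
      _ ≤ ε / 2 + a * (ε / 2 / a) := by
          refine add_le_add le_rfl (mul_le_mul' ?_ le_rfl)
          rw [ha]; exact le_self_add
      _ = ε / 2 + ε / 2 := by rw [ENNReal.mul_div_cancel ha0 hat]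
      _ = ε := ENNReal.add_halves ε
  obtain ⟨hX0, H, hHeq, hHn, hHp⟩ := hH X hXε
  obtain ⟨P, E₄, F₄, S', hPp, hP0, hPn, hE₄, hE₄', hF₄, hF₄', hPeq, hS', hgreen⟩ :=
    presentation_of_H (Sum.inl (Sum.inl ()) : (Unit ⊕ κ) ⊕ (Unit ⊕ Fin m)) X H τ hXp hX0 hτp hτ0
      hτn hτo (colM (Sum.inl (Sum.inl ())) τ) rfl hHeq hHn hHp
  have hfin := exists_primitive_of_presentation
    (Matrix.fromBlocks B' 0 0 (0 : Matrix Unit Unit (MonoidAlgebra ℤ G))) P hPp hP0 hPn
    (E₄ * dU E' Unit) (dU F' Unit * F₄) ?_ ?_ ?_ ?_ ?_ S' hS' hgreen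
  · obtain ⟨k', C, hk', hC1, hC2, hSE⟩ := hfin
    refine ⟨k', C, hk', hC1, hC2, ?_⟩
    have s1 : SE B B₁ := SE.pad_left B
    have s2 : SE B₁ B' := SE.pad_left B₁
    have s3 : SE B' (Matrix.fromBlocks B' 0 0 (0 : Matrix Unit Unit (MonoidAlgebra ℤ G))) :=
      SE.pad_right B'
    exact ((s1.trans s2).trans s3).trans hSE
  · rw [Units.val_mul]
    exact mpoly_mul hE₄ (mpoly_fromBlocks (elGroup_mpoly E' hE'))
  · rw [mul_inv_rev, Units.val_mul]
    exact mpoly_mul (mpoly_fromBlocks (elGroup_mpoly (E'⁻¹) (Subgroup.inv_mem _ hE'))) hE₄'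
  · rw [Units.val_mul]
    exact mpoly_mul (mpoly_fromBlocks (elGroup_mpoly F' hF')) hF₄
  · rw [mul_inv_rev, Units.val_mul]
    exact mpoly_mul hF₄' (mpoly_fromBlocks (elGroup_mpoly (F'⁻¹) (Subgroup.inv_mem _ hF')))
  · rw [← hPeq, ← tmul_fromBlocks, Units.val_mul, Units.val_mul]
    have e : Matrix.fromBlocks X 0 0 (1 : Matrix Unit Unit (PowerSeries (MonoidAlgebra ℤ G))) =
        (dU E' Unit).val * Matrix.fromBlocks (1 - tmul B') 0 0 1 * (dU F' Unit).val := by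
      show _ = Matrix.fromBlocks E'.val 0 0 1 * Matrix.fromBlocks (1 - tmul B') 0 0 1 *
        Matrix.fromBlocks F'.val 0 0 1
      rw [Matrix.fromBlocks_multiply, Matrix.fromBlocks_multiply, hX]
      simp
    rw [e]
    simp only [mul_assoc]

end

end Pool.Agent.TS
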