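import Pool.Agent.Lib.MP_402c18_an.Fin2
import Pool.Agent.Lib.MP_402c18_an.Case1

/-!
# The final theorem
-/

set_option autoImplicit false
set_option linter.unusedSectionVars false

namespace Pool.Agent.TS

open PowerSeries

section

variable {G : Type*} [Group G] [Fintype G]

/-- the integers as constants in the group ring -/
noncomputable def cZ (G : Type*) [Group G] : ℤ →+* MonoidAlgebra ℤ G := Int.castRingHom _

theorem cZ_augZ [Subsingleton G] (x : MonoidAlgebra ℤ G) : cZ G (augZ G x) = x := by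
  conv_rhs => rw [eq_sum_single x]
  rw [augZ_apply, map_sum]
  refine Finset.sum_congr rfl fun g _ => ?_
  have hg : g = 1 := Subsingleton.elim _ _
  rw [hg]
  show ((x.coeff 1 : ℤ) : MonoidAlgebra ℤ G) = _
  rw [MonoidAlgebra.intCast_def, Int.cast_id]

theorem case_trivial [Subsingleton G] {m : ℕ}
    (B : Matrix (Fin m) (Fin m) (MonoidAlgebra ℤ G))
    (htr : ∀ k : ℕ, 0 < k → augZ G (B ^ k).trace = 1) :
    ∃ (k : ℕ) (C : Matrix (Fin k) (Fin k) (MonoidAlgebra ℤ G)),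
      0 < k ∧ (∀ i j, NN (C i j)) ∧ (∃ p : ℕ, 0 < p ∧ ∀ i j, PP ((C ^ p) i j)) ∧ SE B C := by
  have h1 : ∀ k : ℕ, 0 < k → ((B.map (augZ G)) ^ k).trace = 1 := by
    intro k hk
    rw [← htr k hk]
    have h1 : (B.map (augZ G)) ^ k = (B ^ k).map (augZ G) :=
      (map_pow (RingHom.mapMatrix (augZ G) : Matrix (Fin m) (Fin m) (MonoidAlgebra ℤ G) →+* _)
        B k).symm
    rw [h1, Matrix.trace, Matrix.trace, map_sum]
    rfl
  obtain ⟨l, R, S, hR, hS, hRS, hSR⟩ := case_one (B.map (augZ G)) h1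
  have hB : (B.map (augZ G)).map (cZ G) = B := by
    ext1 i j
    rw [Matrix.map_apply, Matrix.map_apply, cZ_augZ]
  have hBl : ((B.map (augZ G)) ^ l).map (cZ G) = B ^ l := by
    have := map_pow (RingHom.mapMatrix (cZ G) : Matrix (Fin m) (Fin m) ℤ →+* _) (B.map (augZ G)) l
    rw [RingHom.mapMatrix_apply, RingHom.mapMatrix_apply, hB] at this
    exact this
  have hone : ∀ i j : Fin 1, (1 : Matrix (Fin 1) (Fin 1) (MonoidAlgebra ℤ G)) i j = 1 := by
    intro i j
    rw [Subsingleton.elim i j, Matrix.one_apply_eq]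
  have hcoef : ∀ g : G, (1 : MonoidAlgebra ℤ G).coeff g = 1 := by
    intro g
    rw [Subsingleton.elim g 1, MonoidAlgebra.one_def, MonoidAlgebra.coeff_single,
      Finsupp.single_eq_same]
  refine ⟨1, 1, Nat.one_pos, ?_, ⟨1, Nat.one_pos, ?_⟩, l, R.map (cZ G), S.map (cZ G), ?_, ?_, ?_, ?_⟩
  · intro i j g
    rw [hone, hcoef]
    norm_num
  · intro i j g
    rw [pow_one, hone, hcoef]
    norm_num
  · rw [Matrix.mul_one]
    conv_lhs => rw [← hB, ← Matrix.map_mul, hR]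
  · rw [Matrix.one_mul]
    conv_lhs => rw [← hB, ← Matrix.map_mul, hS]
  · rw [← Matrix.map_mul, hRS, hBl]
  · rw [← Matrix.map_mul, hSR, one_pow]
    exact Matrix.map_one _ (map_zero _) (map_one _)

theorem final (n m : ℕ) (A : Matrix (Fin n) (Fin n) (MonoidAlgebra ℤ G))
    (B : Matrix (Fin m) (Fin m) (MonoidAlgebra ℤ G)) (hn : 0 < n)
    (hA : ∀ i j, NN (A i j)) (hAp : ∃ p : ℕ, 0 < p ∧ ∀ i j, PP ((A ^ p) i j))
    (htr : ∀ k : ℕ, 0 < k → (A ^ k).trace - (B ^ k).trace ∈ AddSubgroup.closure (TrSet G)) :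
    ∃ (k : ℕ) (C : Matrix (Fin k) (Fin k) (MonoidAlgebra ℤ G)),
      0 < k ∧ (∀ i j, NN (C i j)) ∧ (∃ p : ℕ, 0 < p ∧ ∀ i j, PP ((C ^ p) i j)) ∧ SE B C := by
  classical
  obtain ⟨n', rfl⟩ := Nat.exists_eq_succ_of_ne_zero hn.ne'
  let e : Fin (n' + 1) ≃ Unit ⊕ Fin n' := Fintype.equivOfCardEq (by simp [add_comm])
  set A₀ := Matrix.reindex e e A with hA₀
  have hA₀n : ∀ i j, NN (A₀ i j) := fun i j => hA _ _
  have hA₀p : ∃ p : ℕ, 0 < p ∧ ∀ i j, PP ((A₀ ^ p) i j) := by
    obtain ⟨p, hp, h⟩ := hAp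
    refine ⟨p, hp, fun i j => ?_⟩
    rw [hA₀, reindex_pow]
    exact h _ _
  have htr' : ∀ k : ℕ, 0 < k → (A₀ ^ k).trace - (B ^ k).trace ∈ AddSubgroup.closure (TrSet G) := by
    intro k hk
    rw [hA₀, reindex_pow, trace_reindex']
    exact htr k hk
  obtain ⟨lam, μ, K, x, y, hlam0, hμ0, hμ, hK, hx, hy, _, hyA, hasym, hrest, hcase⟩ :=
    pf_group A₀ hA₀n hA₀p
  rcases hcase with hlam | ⟨he, hG, hone⟩
  · exact main_case A₀ B hA₀n lam μ K x y hlam hμ0 hμ hK hx hy hyA hasym hrest htr'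
  · refine case_trivial B ?_
    intro k hk
    rw [← augZ_eq_of_mem (htr' k hk)]
    have h1 : A₀ = 1 := by
      ext1 i j
      rw [hone]
      have : i = j := by
        rcases i with i | i
        · rcases j with j | j
          · rfl
          · exact (he.false j).elim
        · exact (he.false i).elim
      rw [this, Matrix.one_apply_eq]
    rw [h1, one_pow, Matrix.trace_one, map_natCast]
    have : Fintype.card (Unit ⊕ Fin n') = 1 := by
      rw [Fintype.card_sum, Fintype.card_unit, Fintype.card_eq_zero]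
    rw [this]
    simp

end

end Pool.Agent.TS
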