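import Pool.Agent.Lib.MP_402c18_an.Norm
import Pool.Agent.Lib.MP_402c18_an.Core3

/-!
# The normed ring of matrices over the real group ring, and power series of matrices
-/

set_option autoImplicit false
set_option linter.unusedSectionVars false

namespace Pool.Agent.TS

open PowerSeries

section toPS

variable {S : Type*} [Ring S] {ι : Type*} [Fintype ι] [DecidableEq ι]

/-- matrices of power series as power series of matrices -/
noncomputable def toPS : Matrix ι ι (PowerSeries S) →+* PowerSeries (Matrix ι ι S) where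
  toFun A := PowerSeries.mk fun d => A.map (coeff d)
  map_one' := by
    ext d i j
    rw [coeff_mk, coeff_one, Matrix.map_apply, Matrix.one_apply]
    split_ifs with h1 h2 h2
    · rw [h1, h2, coeff_zero_one, Matrix.one_apply_eq]
    · rw [coeff_one, if_neg h2, Matrix.zero_apply]
    · rw [map_zero, Matrix.one_apply_ne h1]
    · rw [map_zero, Matrix.zero_apply]
  map_zero' := by
    ext d i j
    rw [coeff_mk, Matrix.map_apply, Matrix.zero_apply, map_zero, map_zero, Matrix.zero_apply]
  map_add' A B := by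
    ext d i j
    rw [coeff_mk, Matrix.map_apply, Matrix.add_apply, map_add, map_add, Matrix.add_apply, coeff_mk,
      coeff_mk, Matrix.map_apply, Matrix.map_apply]
  map_mul' A B := by
    ext d i j
    rw [coeff_mk, Matrix.map_apply, Matrix.mul_apply, map_sum, coeff_mul, Matrix.sum_apply]
    simp_rw [coeff_mul]
    rw [Finset.sum_comm]
    refine Finset.sum_congr rfl fun p _ => ?_
    rw [Matrix.mul_apply]
    refine Finset.sum_congr rfl fun l _ => ?_
    rw [coeff_mk, coeff_mk, Matrix.map_apply, Matrix.map_apply]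

theorem coeff_toPS (A : Matrix ι ι (PowerSeries S)) (d : ℕ) :
    coeff d (toPS A) = A.map (coeff d) := by
  show coeff d (PowerSeries.mk fun d => A.map (coeff d)) = _
  rw [coeff_mk]

theorem coeff_toPS_apply (A : Matrix ι ι (PowerSeries S)) (d : ℕ) (i j : ι) :
    (coeff d (toPS A)) i j = coeff d (A i j) := by
  rw [coeff_toPS, Matrix.map_apply]

theorem toPS_injective : Function.Injective (toPS : Matrix ι ι (PowerSeries S) → _) := by
  intro A B h
  ext i j d
  rw [← coeff_toPS_apply, ← coeff_toPS_apply, h]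

end toPS

section norm

variable {G ι : Type*} [Group G] [Fintype G] [Fintype ι] [DecidableEq ι]

/-- extended norm -/
noncomputable def mge (A : Matrix ι ι (MonoidAlgebra ℝ G)) : ENNReal := ∑ i, ∑ j, gn (A i j)

theorem mge_ne_top (A : Matrix ι ι (MonoidAlgebra ℝ G)) : mge A ≠ ⊤ :=
  ENNReal.sum_ne_top.mpr fun _ _ => ENNReal.sum_ne_top.mpr fun _ _ => gn_ne_top _

theorem mge_add_le (A B : Matrix ι ι (MonoidAlgebra ℝ G)) : mge (A + B) ≤ mge A + mge B := by
  unfold mge
  rw [← Finset.sum_add_distrib]
  refine Finset.sum_le_sum fun i _ => ?_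
  rw [← Finset.sum_add_distrib]
  exact Finset.sum_le_sum fun j _ => gn_add_le _ _

theorem mge_neg (A : Matrix ι ι (MonoidAlgebra ℝ G)) : mge (-A) = mge A := by
  unfold mge
  refine Finset.sum_congr rfl fun i _ => Finset.sum_congr rfl fun j _ => ?_
  rw [Matrix.neg_apply, gn_neg]

theorem mge_zero : mge (0 : Matrix ι ι (MonoidAlgebra ℝ G)) = 0 := by
  unfold mge
  simp [gn_zero]

theorem mge_mul_le (A B : Matrix ι ι (MonoidAlgebra ℝ G)) : mge (A * B) ≤ mge A * mge B := by
  unfold mge
  rw [Finset.sum_mul]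
  refine Finset.sum_le_sum fun i _ => ?_
  calc ∑ j, gn ((A * B) i j) ≤ ∑ j, ∑ l, gn (A i l) * gn (B l j) := by
        refine Finset.sum_le_sum fun j _ => ?_
        rw [Matrix.mul_apply]
        refine (gn_sum_le _ _).trans ?_
        exact Finset.sum_le_sum fun l _ => gn_mul_le _ _
    _ = ∑ l, gn (A i l) * ∑ j, gn (B l j) := by
        rw [Finset.sum_comm]
        refine Finset.sum_congr rfl fun l _ => ?_
        rw [Finset.mul_sum]
    _ ≤ ∑ l, gn (A i l) * ∑ l', ∑ j, gn (B l' j) := by
        refine Finset.sum_le_sum fun l _ => mul_le_mul' le_rfl ?_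
        exact Finset.single_le_sum (f := fun l' => ∑ j, gn (B l' j)) (fun _ _ => zero_le)
          (Finset.mem_univ l)
    _ = _ := by rw [Finset.sum_mul]

theorem mge_eq_zero {A : Matrix ι ι (MonoidAlgebra ℝ G)} (h : mge A = 0) : A = 0 := by
  unfold mge at h
  ext1 i j
  rw [Finset.sum_eq_zero_iff] at h
  have h1 := h i (Finset.mem_univ i)
  rw [Finset.sum_eq_zero_iff] at h1
  exact gn_eq_zero (h1 j (Finset.mem_univ j))

theorem gn_smul (c : ℝ) (x : MonoidAlgebra ℝ G) : gn (c • x) = ‖c‖ₑ * gn x := by
  unfold gn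
  rw [Finset.mul_sum]
  refine Finset.sum_congr rfl fun g _ => ?_
  rw [MonoidAlgebra.coeff_smul, Finsupp.smul_apply, smul_eq_mul, enorm_mul]

theorem mge_smul (c : ℝ) (A : Matrix ι ι (MonoidAlgebra ℝ G)) : mge (c • A) = ‖c‖ₑ * mge A := by
  unfold mge
  rw [Finset.mul_sum]
  refine Finset.sum_congr rfl fun i _ => ?_
  rw [Finset.mul_sum]
  refine Finset.sum_congr rfl fun j _ => ?_
  rw [Matrix.smul_apply, gn_smul]

/-- the norm as an additive group norm -/
noncomputable def matGroupNorm (G ι : Type*) [Group G] [Fintype G] [Fintype ι] [DecidableEq ι] :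
    AddGroupNorm (Matrix ι ι (MonoidAlgebra ℝ G)) where
  toFun A := (mge A).toReal
  map_zero' := by rw [mge_zero]; rfl
  add_le' A B := by
    rw [← ENNReal.toReal_add (mge_ne_top A) (mge_ne_top B)]
    exact ENNReal.toReal_mono (ENNReal.add_ne_top.mpr ⟨mge_ne_top A, mge_ne_top B⟩) (mge_add_le A B)
  neg' A := by rw [mge_neg]
  eq_zero_of_map_eq_zero' A h := by
    apply mge_eq_zero
    rcases (ENNReal.toReal_eq_zero_iff _).mp h with h | h
    · exact h
    · exact absurd h (mge_ne_top A)

/-- the normed ring structure -/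
@[reducible] noncomputable def matNormedRing (G ι : Type*) [Group G] [Fintype G] [Fintype ι]
    [DecidableEq ι] : NormedRing (Matrix ι ι (MonoidAlgebra ℝ G)) :=
  { (matGroupNorm G ι).toNormedAddCommGroup, (inferInstance : Ring (Matrix ι ι (MonoidAlgebra ℝ G))) with
    norm_mul_le := by
      intro A B
      show (mge (A * B)).toReal ≤ (mge A).toReal * (mge B).toReal
      rw [← ENNReal.toReal_mul]
      exact ENNReal.toReal_mono (ENNReal.mul_ne_top (mge_ne_top A) (mge_ne_top B)) (mge_mul_le A B) }

/-- the normed algebra structure -/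
@[reducible] noncomputable def matNormedAlgebra (G ι : Type*) [Group G] [Fintype G] [Fintype ι]
    [DecidableEq ι] :
    letI := matNormedRing G ι
    NormedAlgebra ℝ (Matrix ι ι (MonoidAlgebra ℝ G)) :=
  letI := matNormedRing G ι
  { (inferInstance : Algebra ℝ (Matrix ι ι (MonoidAlgebra ℝ G))) with
    norm_smul_le := by
      intro c A
      show (mge (c • A)).toReal ≤ ‖c‖ * (mge A).toReal
      rw [mge_smul, ENNReal.toReal_mul, toReal_enorm] }

theorem enorm_eq_mge (A : Matrix ι ι (MonoidAlgebra ℝ G)) :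
    letI := matNormedRing G ι
    ‖A‖ₑ = mge A := by
  let := matNormedRing G ι
  rw [← ofReal_norm]
  show ENNReal.ofReal (mge A).toReal = mge A
  exact ENNReal.ofReal_toReal (mge_ne_top A)

end norm

end Pool.Agent.TS
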