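import Pool.Agent.Lib.MP_402c18_an.Inst1

/-!
# The embedding of the integral matrices, the class trace
-/

set_option autoImplicit false
set_option linter.unusedSectionVars false

namespace Pool.Agent.TS

open PowerSeries

section Psi

variable {G ι : Type*} [Group G] [Fintype G] [Fintype ι] [DecidableEq ι]

/-- `ℤG → ℝG` -/
noncomputable def cR (G : Type*) [Group G] : MonoidAlgebra ℤ G →+* MonoidAlgebra ℝ G :=
  MonoidAlgebra.mapRingHom G (Int.castRingHom ℝ)

theorem coeff_cR (x : MonoidAlgebra ℤ G) (g : G) : (cR G x).coeff g = (x.coeff g : ℝ) := by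
  unfold cR
  rw [MonoidAlgebra.coeff_mapRingHom]
  rfl

theorem cR_injective : Function.Injective (cR G) := by
  intro x y h
  ext g
  have := congrArg (fun z => z.coeff g) h
  simp only [coeff_cR] at this
  exact_mod_cast this

theorem gn_cR (x : MonoidAlgebra ℤ G) : gn (cR G x) = gn x := by
  unfold gn
  refine Finset.sum_congr rfl fun g _ => ?_
  rw [coeff_cR, enorm_eq_nnnorm, enorm_eq_nnnorm]
  congr 1

/-- integral matrices of power series as power series of real matrices -/
noncomputable def Psi (G ι : Type*) [Group G] [Fintype ι] [DecidableEq ι] :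
    Matrix ι ι (PowerSeries (MonoidAlgebra ℤ G)) →+* PowerSeries (Matrix ι ι (MonoidAlgebra ℝ G)) :=
  toPS.comp (RingHom.mapMatrix (PowerSeries.map (cR G)))

theorem coeff_Psi (A : Matrix ι ι (PowerSeries (MonoidAlgebra ℤ G))) (d : ℕ) (i j : ι) :
    (coeff d (Psi G ι A)) i j = cR G (coeff d (A i j)) := by
  unfold Psi
  rw [RingHom.comp_apply, coeff_toPS_apply, RingHom.mapMatrix_apply, Matrix.map_apply, coeff_map]

theorem Psi_injective : Function.Injective (Psi G ι) := by
  intro A B h
  ext i j d : 3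
  refine congrArg MonoidAlgebra.coeff (cR_injective ?_)
  rw [← coeff_Psi, ← coeff_Psi, h]

theorem N_Psi (r : NNReal) (A : Matrix ι ι (PowerSeries (MonoidAlgebra ℤ G))) :
    letI := matNormedRing G ι
    N r (Psi G ι A) = mn r A := by
  let := matNormedRing G ι
  unfold N mn
  have h : ∀ d : ℕ, ‖coeff d (Psi G ι A)‖ₑ * (r : ENNReal) ^ d =
      ∑ i, ∑ j, gn (coeff d (A i j)) * (r : ENNReal) ^ d := by
    intro d
    rw [enorm_eq_mge]
    unfold mge
    rw [Finset.sum_mul]
    refine Finset.sum_congr rfl fun i _ => ?_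
    rw [Finset.sum_mul]
    refine Finset.sum_congr rfl fun j _ => ?_
    rw [coeff_Psi, gn_cR]
  rw [tsum_congr h]
  rw [Summable.tsum_finsetSum (fun i _ => ENNReal.summable)]
  refine Finset.sum_congr rfl fun i _ => ?_
  rw [Summable.tsum_finsetSum (fun i _ => ENNReal.summable)]
  rfl

end Psi

section tau

variable {k G ι : Type*} [CommRing k] [Group G] [Fintype G] [Fintype ι] [DecidableEq ι]

open Classical in
/-- the sum of the coefficients over a conjugacy class -/
noncomputable def cs (g : G) : MonoidAlgebra k G →+ k where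
  toFun x := ∑ h : G, if IsConj g h then x.coeff h else 0
  map_zero' := by simp
  map_add' x y := by
    rw [← Finset.sum_add_distrib]
    refine Finset.sum_congr rfl fun h _ => ?_
    rw [MonoidAlgebra.coeff_add, Finsupp.add_apply]
    split_ifs <;> simp

open Classical in
theorem cs_apply (g : G) (x : MonoidAlgebra k G) :
    cs g x = ∑ h : G, if IsConj g h then x.coeff h else 0 := rfl

open Classical in
theorem cs_single (g h : G) (a : k) :
    cs g (MonoidAlgebra.single h a) = if IsConj g h then a else 0 := by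
  rw [cs_apply, Finset.sum_eq_single h]
  · rw [MonoidAlgebra.coeff_single, Finsupp.single_eq_same]
  · intro h' _ hne
    rw [MonoidAlgebra.coeff_single, Finsupp.single_eq_of_ne hne]
    simp
  · intro h'
    exact absurd (Finset.mem_univ h) h'

theorem isConj_mul_comm (g h : G) : IsConj (g * h) (h * g) := by
  rw [isConj_iff]
  exact ⟨h, by group⟩

theorem eq_sum_single' (x : MonoidAlgebra k G) :
    x = ∑ g : G, MonoidAlgebra.single g (x.coeff g) := by
  classical
  ext h
  rw [MonoidAlgebra.coeff_sum, Finsupp.finsetSum_apply, Finset.sum_eq_single h]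
  · rw [MonoidAlgebra.coeff_single, Finsupp.single_eq_same]
  · intro g _ hne
    rw [MonoidAlgebra.coeff_single, Finsupp.single_eq_of_ne hne.symm]
  · intro h'
    exact absurd (Finset.mem_univ h) h'

theorem cs_mul_comm (g : G) (x y : MonoidAlgebra k G) : cs g (x * y) = cs g (y * x) := by
  classical
  have e1 : x * y = ∑ a : G, ∑ b : G, MonoidAlgebra.single (a * b) (x.coeff a * y.coeff b) := by
    conv_lhs => rw [eq_sum_single' x, eq_sum_single' y]
    rw [Finset.sum_mul_sum]
    simp_rw [MonoidAlgebra.single_mul_single]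
  have e2 : y * x = ∑ b : G, ∑ a : G, MonoidAlgebra.single (b * a) (y.coeff b * x.coeff a) := by
    conv_lhs => rw [eq_sum_single' x, eq_sum_single' y]
    rw [Finset.sum_mul_sum]
    simp_rw [MonoidAlgebra.single_mul_single]
  rw [e1, e2, Finset.sum_comm]
  simp_rw [map_sum, cs_single]
  refine Finset.sum_congr rfl fun b _ => Finset.sum_congr rfl fun a _ => ?_
  have : IsConj g (a * b) ↔ IsConj g (b * a) :=
    ⟨fun h => h.trans (isConj_mul_comm a b), fun h => h.trans (isConj_mul_comm b a)⟩
  by_cases h : IsConj g (a * b)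
  · rw [if_pos h, if_pos (this.mp h), mul_comm]
  · rw [if_neg h, if_neg (fun h' => h (this.mpr h'))]

/-- the class trace of a matrix over the group ring -/
noncomputable def ctr (k G ι : Type*) [CommRing k] [Group G] [Fintype G] [Fintype ι]
    [DecidableEq ι] : Matrix ι ι (MonoidAlgebra k G) →+ (G → k) where
  toFun A g := ∑ i, cs g (A i i)
  map_zero' := by
    ext g
    simp
  map_add' A B := by
    ext g
    rw [Pi.add_apply, ← Finset.sum_add_distrib]
    refine Finset.sum_congr rfl fun i _ => ?_
    rw [Matrix.add_apply, map_add]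

theorem ctr_apply (A : Matrix ι ι (MonoidAlgebra k G)) (g : G) :
    ctr k G ι A g = ∑ i, cs g (A i i) := rfl

theorem ctr_mul_comm (A B : Matrix ι ι (MonoidAlgebra k G)) :
    ctr k G ι (A * B) = ctr k G ι (B * A) := by
  ext g
  rw [ctr_apply, ctr_apply]
  simp_rw [Matrix.mul_apply, map_sum]
  rw [Finset.sum_comm]
  refine Finset.sum_congr rfl fun i _ => Finset.sum_congr rfl fun j _ => ?_
  exact cs_mul_comm g _ _

theorem ctr_single_ne (a b : ι) (hab : a ≠ b) (x : MonoidAlgebra k G) :
    ctr k G ι (Matrix.single a b x) = 0 := by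
  ext g
  rw [ctr_apply, Pi.zero_apply]
  refine Finset.sum_eq_zero fun i _ => ?_
  rw [Matrix.single_apply, if_neg, map_zero]
  rintro ⟨h1, h2⟩
  exact hab (h1.trans h2.symm)

end tau

section tauR

variable {G ι : Type*} [Group G] [Fintype G] [Fintype ι] [DecidableEq ι]

theorem enorm_cs_le (g : G) (x : MonoidAlgebra ℝ G) : ‖cs g x‖ₑ ≤ gn x := by
  classical
  rw [cs_apply]
  refine (enorm_sum_le _ _).trans ?_
  unfold gn
  refine Finset.sum_le_sum fun h _ => ?_
  split_ifs
  · exact le_rfl
  · simp

theorem enorm_ctr_le (A : Matrix ι ι (MonoidAlgebra ℝ G)) : ‖ctr ℝ G ι A‖ₑ ≤ mge A := by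
  have h : ∀ g, ‖ctr ℝ G ι A g‖ₑ ≤ mge A := by
    intro g
    rw [ctr_apply]
    refine (enorm_sum_le _ _).trans ?_
    unfold mge
    refine Finset.sum_le_sum fun i _ => ?_
    refine (enorm_cs_le g _).trans ?_
    exact Finset.single_le_sum (f := fun j => gn (A i j)) (fun _ _ => zero_le) (Finset.mem_univ i)
  obtain ⟨c, hc⟩ : ∃ c : NNReal, (c : ENNReal) = mge A :=
    ⟨(mge A).toNNReal, ENNReal.coe_toNNReal (mge_ne_top A)⟩
  rw [← hc] at h ⊢
  rw [enorm_eq_nnnorm, ENNReal.coe_le_coe, pi_nnnorm_le_iff]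
  intro g
  have := h g
  rwa [enorm_eq_nnnorm, ENNReal.coe_le_coe] at this

theorem ctr_smul (c : ℝ) (A : Matrix ι ι (MonoidAlgebra ℝ G)) :
    ctr ℝ G ι (c • A) = c • ctr ℝ G ι A := by
  classical
  ext g
  rw [ctr_apply, Pi.smul_apply, ctr_apply, smul_eq_mul, Finset.mul_sum]
  refine Finset.sum_congr rfl fun i _ => ?_
  rw [cs_apply, cs_apply, Finset.mul_sum]
  refine Finset.sum_congr rfl fun h _ => ?_
  rw [Matrix.smul_apply, MonoidAlgebra.coeff_smul, Finsupp.smul_apply, smul_eq_mul]
  split_ifs <;> simp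

end tauR

end Pool.Agent.TS
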