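import Pool.Agent.Lib.MP_402c18_an.Inst2

/-!
# The elementary group and its approximants
-/

set_option autoImplicit false
set_option linter.unusedSectionVars false

namespace Pool.Agent.TS

open PowerSeries

section el

variable {S : Type*} [Ring S] {ι : Type*} [Fintype ι] [DecidableEq ι]

theorem el_mul_el (a b : ι) (hab : a ≠ b) (f g : S) : el a b f * el a b g = el a b (f + g) := by
  unfold el
  rw [mul_add, mul_one, add_mul, one_mul, Matrix.single_mul_single_of_ne _ _ _ _ hab.symm,
    add_zero, add_assoc, Matrix.single_add]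

theorem single_neg' (a b : ι) (f : S) : Matrix.single a b (-f) = -Matrix.single a b f := by
  ext i j
  rw [Matrix.neg_apply, Matrix.single_apply, Matrix.single_apply]
  split_ifs <;> simp

theorem el_zero (a b : ι) : el a b (0 : S) = 1 := by
  unfold el
  rw [Matrix.single_zero, add_zero]

/-- elementary matrices as units -/
def elUnit (a b : ι) (hab : a ≠ b) (f : S) : (Matrix ι ι S)ˣ where
  val := el a b f
  inv := el a b (-f)
  val_inv := by rw [el_mul_el a b hab, add_neg_cancel, el_zero]
  inv_val := by rw [el_mul_el a b hab, neg_add_cancel, el_zero]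

theorem elUnit_mem (P : Set S) (a b : ι) (hab : a ≠ b) (f : S) (hf : f ∈ P) :
    elUnit a b hab f ∈ elGroup ι P :=
  Subgroup.subset_closure ⟨a, b, f, hab, hf, rfl⟩

theorem elUnit_inv_val (a b : ι) (hab : a ≠ b) (f : S) :
    ((elUnit a b hab f)⁻¹).val = el a b (-f) := rfl

theorem eq_elUnit {a b : ι} (hab : a ≠ b) {f : S} {u : (Matrix ι ι S)ˣ} (hu : u.val = el a b f) :
    u = elUnit a b hab f := Units.ext hu

/-- the basic commutator identity -/
theorem commutator_identity (a b : ι) (hab : a ≠ b) (x h : S) :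
    el a b x * el b a h * el a b (-x) * el b a (-(h + h * x * h)) =
      1 + (Matrix.single a a (x * h) - Matrix.single b b (h * x)) +
      (Matrix.single a a (x * h * x * h + x * h * x * h * x * h) - Matrix.single a b (x * h * x) +
        Matrix.single b a (h * x * h * x * h)) := by
  have hba : b ≠ a := hab.symm
  have e1 : el a b x * el b a h =
      1 + Matrix.single a b x + Matrix.single b a h + Matrix.single a a (x * h) := by
    unfold el
    rw [mul_add, mul_one, add_mul, one_mul, Matrix.single_mul_single_same]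
    abel
  have e2 : el a b x * el b a h * el a b (-x) = 1 + Matrix.single b a h +
      Matrix.single a a (x * h) - Matrix.single b b (h * x) - Matrix.single a b (x * h * x) := by
    rw [e1]
    unfold el
    simp only [mul_add, mul_one, add_mul, one_mul, Matrix.single_mul_single_same,
      Matrix.single_mul_single_of_ne _ _ _ _ hba, mul_neg, single_neg']
    abel
  rw [e2]
  unfold el
  simp only [mul_add, mul_one, add_mul, sub_mul, one_mul, Matrix.single_mul_single_same,
      Matrix.single_mul_single_of_ne _ _ _ _ hab, mul_neg, single_neg', neg_add,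
      Matrix.single_add, mul_assoc]
  abel

end el

section gamma

variable {G ι : Type*} [Group G] [Fintype G] [Fintype ι] [DecidableEq ι]

/-- `Psi` on units -/
noncomputable def PsiU (G ι : Type*) [Group G] [Fintype ι] [DecidableEq ι] :
    (Matrix ι ι (PowerSeries (MonoidAlgebra ℤ G)))ˣ →*
      (PowerSeries (Matrix ι ι (MonoidAlgebra ℝ G)))ˣ :=
  Units.map (Psi G ι).toMonoidHom

theorem PsiU_val (u : (Matrix ι ι (PowerSeries (MonoidAlgebra ℤ G)))ˣ) :
    (PsiU G ι u).val = Psi G ι u.val := rfl

theorem PsiU_inv_val (u : (Matrix ι ι (PowerSeries (MonoidAlgebra ℤ G)))ˣ) :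
    ((PsiU G ι u)⁻¹).val = Psi G ι (u⁻¹).val := rfl

theorem coeff_Psi_single (a b : ι) (f : PowerSeries (MonoidAlgebra ℤ G)) (d : ℕ) :
    coeff d (Psi G ι (Matrix.single a b f)) = Matrix.single a b (cR G (coeff d f)) := by
  ext1 i j
  rw [coeff_Psi, Matrix.single_apply, Matrix.single_apply]
  split_ifs with h
  · rfl
  · rw [map_zero, map_zero]

theorem Psi_el (a b : ι) (f : PowerSeries (MonoidAlgebra ℤ G)) :
    Psi G ι (el a b f) = 1 + Psi G ι (Matrix.single a b f) := by
  unfold el
  rw [map_add, map_one]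

theorem gam_el (a b : ι) (hab : a ≠ b) (f : PowerSeries (MonoidAlgebra ℤ G)) (d : ℕ) :
    gam (ctr ℝ G ι) (PsiU G ι (elUnit a b hab f)) d = 0 := by
  unfold gam
  rw [PsiU_inv_val, PsiU_val, elUnit_inv_val]
  show ctr ℝ G ι (coeff d (Psi G ι (el a b (-f)) * Dt (Psi G ι (el a b f)))) = 0
  rw [Psi_el, Psi_el, Dt_add, Dt_one, zero_add, add_mul, one_mul, map_add]
  have h1 : coeff d (Psi G ι (Matrix.single a b (-f)) * Dt (Psi G ι (Matrix.single a b f))) = 0 := by
    rw [coeff_mul]
    refine Finset.sum_eq_zero fun p _ => ?_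
    rw [coeff_Dt, coeff_Psi_single, coeff_Psi_single, mul_smul_comm,
      Matrix.single_mul_single_of_ne _ _ _ _ hab.symm, smul_zero]
  rw [h1, add_zero, coeff_Dt, coeff_Psi_single, map_nsmul, ctr_single_ne a b hab, smul_zero]

theorem gam_elGroup (P : Set (PowerSeries (MonoidAlgebra ℤ G)))
    (u : (Matrix ι ι (PowerSeries (MonoidAlgebra ℤ G)))ˣ) (hu : u ∈ elGroup ι P) :
    ∀ d, gam (ctr ℝ G ι) (PsiU G ι u) d = 0 := by
  unfold elGroup at hu
  induction hu using Subgroup.closure_induction with
  | mem u hu =>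
    obtain ⟨a, b, f, hab, _, hu⟩ := hu
    rw [eq_elUnit hab hu]
    exact gam_el a b hab f
  | one =>
    intro d
    rw [map_one, gam_one]
  | mul u v _ _ hu hv =>
    intro d
    rw [map_mul, gam_mul _ ctr_mul_comm, hu d, hv d, add_zero]
  | inv u _ hu =>
    intro d
    rw [map_inv, gam_inv _ ctr_mul_comm, hu d, neg_zero]

/-- the polynomial elementary group inside the units of `M⟦t⟧` -/
noncomputable def ER (G ι : Type*) [Group G] [Fintype ι] [DecidableEq ι] :
    Subgroup (PowerSeries (Matrix ι ι (MonoidAlgebra ℝ G)))ˣ :=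
  (elGroup ι {f : PowerSeries (MonoidAlgebra ℤ G) | IsPoly f}).map (PsiU G ι)

/-- the integral matrices -/
noncomputable def LR (G ι : Type*) [Group G] [Fintype ι] [DecidableEq ι] :
    Subring (Matrix ι ι (MonoidAlgebra ℝ G)) :=
  (RingHom.mapMatrix (cR G) : Matrix ι ι (MonoidAlgebra ℤ G) →+* Matrix ι ι (MonoidAlgebra ℝ G)).range

theorem coeff_Psi_mem (A : Matrix ι ι (PowerSeries (MonoidAlgebra ℤ G))) (d : ℕ) :
    coeff d (Psi G ι A) ∈ LR G ι := by
  refine ⟨A.map (coeff d), ?_⟩
  ext1 i j
  rw [coeff_Psi, RingHom.mapMatrix_apply, Matrix.map_apply, Matrix.map_apply]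

theorem gam_ER (u : (PowerSeries (Matrix ι ι (MonoidAlgebra ℝ G)))ˣ) (hu : u ∈ ER G ι) (d : ℕ) :
    gam (ctr ℝ G ι) u d = 0 := by
  obtain ⟨v, hv, rfl⟩ := hu
  exact gam_elGroup _ v hv d

theorem int_ER (u : (PowerSeries (Matrix ι ι (MonoidAlgebra ℝ G)))ˣ) (hu : u ∈ ER G ι) (d : ℕ) :
    coeff d u.val ∈ LR G ι := by
  obtain ⟨v, hv, rfl⟩ := hu
  exact coeff_Psi_mem v.val d

end gamma

end Pool.Agent.TS
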