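import Pool.Agent.Lib.MP_402c18_an.Inst3

/-!
# The step of the elimination for matrices over the group ring
-/

set_option autoImplicit false
set_option linter.unusedSectionVars false

namespace Pool.Agent.TS

open PowerSeries

section good

variable {G ι : Type*} [Group G] [Fintype G] [Fintype ι] [DecidableEq ι]

attribute [local instance] matNormedRing matNormedAlgebra

/-- `x` is approximated to first order in degree `j` by a product of `n` basic factors -/
def Good (r : NNReal) (j n : ℕ) (x : Matrix ι ι (MonoidAlgebra ℝ G)) : Prop :=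
  ctr ℝ G ι x = 0 ∧ mge x ≤ 2 * n ∧
    ∃ u ∈ ER G ι, ∃ Ω : PowerSeries (Matrix ι ι (MonoidAlgebra ℝ G)),
      (u⁻¹).val = 1 - monomial j x + Ω ∧ OrdGE (j + 1) Ω ∧
      N r Ω ≤ 8 * (n * (r : ENNReal) ^ j) ^ 2

theorem Good.zero (r : NNReal) (j : ℕ) : Good r j 0 (0 : Matrix ι ι (MonoidAlgebra ℝ G)) := by
  refine ⟨map_zero _, ?_, 1, (ER G ι).one_mem, 0, ?_, ?_, ?_⟩
  · rw [mge_zero]; exact zero_le
  · rw [map_zero, inv_one, Units.val_one, sub_zero, add_zero]
  · intro d _
    rw [map_zero]
  · rw [N_zero]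
    exact zero_le

theorem Good.mono {r : NNReal} {j n m : ℕ} {x : Matrix ι ι (MonoidAlgebra ℝ G)}
    (h : Good r j n x) (hnm : n ≤ m) : Good r j m x := by
  obtain ⟨h1, h2, u, hu, Ω, h3, h4, h5⟩ := h
  refine ⟨h1, h2.trans ?_, u, hu, Ω, h3, h4, h5.trans ?_⟩
  · gcongr
  · gcongr

theorem Good.add {r : NNReal} {j n m : ℕ} (hj : 1 ≤ j) {x y : Matrix ι ι (MonoidAlgebra ℝ G)}
    (hx : Good r j n x) (hy : Good r j m y)
    (hnm : 4 * (((n + m : ℕ) : ENNReal) * (r : ENNReal) ^ j) ≤ 1) :
    Good r j (n + m) (x + y) := by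
  obtain ⟨h1, h2, u, hu, Ω, h3, h4, h5⟩ := hx
  obtain ⟨k1, k2, v, hv, Λ, k3, k4, k5⟩ := hy
  set ρ : ENNReal := (r : ENNReal) ^ j with hρ
  have hn : 4 * ((n : ENNReal) * ρ) ≤ 1 := by
    refine le_trans ?_ hnm
    push_cast
    gcongr
    exact le_self_add
  have hm : 4 * ((m : ENNReal) * ρ) ≤ 1 := by
    refine le_trans ?_ hnm
    push_cast
    gcongr
    exact le_add_self
  refine ⟨?_, ?_, v * u, (ER G ι).mul_mem hv hu,
    Ω + Λ + (-monomial j x + Ω) * (-monomial j y + Λ), ?_, ?_, ?_⟩
  · rw [map_add, h1, k1, add_zero]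
  · refine (mge_add_le _ _).trans ?_
    push_cast
    rw [mul_add]
    exact add_le_add h2 k2
  · rw [mul_inv_rev, Units.val_mul, h3, k3, map_add]
    noncomm_ring
  · have e1 : OrdGE j (-monomial j x + Ω) := (OrdGE.monomial j x).neg.add (h4.mono (by omega))
    have e2 : OrdGE j (-monomial j y + Λ) := (OrdGE.monomial j y).neg.add (k4.mono (by omega))
    exact (h4.add k4).add ((e1.mul e2).mono (by omega))
  · have g1 : N r (-monomial j x + Ω) ≤ 4 * (n * ρ) := by
      calc N r (-monomial j x + Ω) ≤ N r (-monomial j x) + N r Ω := N_add_le r _ _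
        _ ≤ 2 * n * ρ + 8 * (n * ρ) ^ 2 := by
            rw [N_neg, N_monomial, enorm_eq_mge]
            gcongr
        _ = 2 * n * ρ + (2 * (n * ρ)) * (4 * (n * ρ)) := by ring
        _ ≤ 2 * n * ρ + (2 * (n * ρ)) * 1 := by gcongr
        _ = _ := by ring
    have g2 : N r (-monomial j y + Λ) ≤ 4 * (m * ρ) := by
      calc N r (-monomial j y + Λ) ≤ N r (-monomial j y) + N r Λ := N_add_le r _ _
        _ ≤ 2 * m * ρ + 8 * (m * ρ) ^ 2 := by
            rw [N_neg, N_monomial, enorm_eq_mge]
            gcongr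
        _ = 2 * m * ρ + (2 * (m * ρ)) * (4 * (m * ρ)) := by ring
        _ ≤ 2 * m * ρ + (2 * (m * ρ)) * 1 := by gcongr
        _ = _ := by ring
    calc N r (Ω + Λ + (-monomial j x + Ω) * (-monomial j y + Λ))
        ≤ (N r Ω + N r Λ) + N r (-monomial j x + Ω) * N r (-monomial j y + Λ) := by
          refine (N_add_le r _ _).trans (add_le_add (N_add_le r _ _) (N_mul_le r _ _))
      _ ≤ (8 * (n * ρ) ^ 2 + 8 * (m * ρ) ^ 2) + (4 * (n * ρ)) * (4 * (m * ρ)) := by
          gcongr
      _ = 8 * (((n + m : ℕ) : ENNReal) * ρ) ^ 2 := by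
          push_cast
          ring

theorem Good.nsmul {r : NNReal} {j n : ℕ} (hj : 1 ≤ j) {x : Matrix ι ι (MonoidAlgebra ℝ G)}
    (hx : Good r j n x) (k : ℕ)
    (hk : 4 * (((k * n : ℕ) : ENNReal) * (r : ENNReal) ^ j) ≤ 1) :
    Good r j (k * n) (k • x) := by
  induction k with
  | zero =>
    rw [zero_mul, zero_smul]
    exact Good.zero r j
  | succ k ih =>
    have h1 : Good r j (k * n) (k • x) := by
      apply ih
      refine le_trans ?_ hk
      gcongr
      exact Nat.le_succ k
    rw [succ_nsmul, Nat.succ_mul]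
    refine Good.add hj h1 hx ?_
    rwa [Nat.succ_mul] at hk

theorem Good.zsmul {r : NNReal} {j n : ℕ} (hj : 1 ≤ j) {x : Matrix ι ι (MonoidAlgebra ℝ G)}
    (hx : Good r j n x) (hx' : Good r j n (-x)) (k : ℤ)
    (hk : 4 * (((k.natAbs * n : ℕ) : ENNReal) * (r : ENNReal) ^ j) ≤ 1) :
    Good r j (k.natAbs * n) (k • x) := by
  rcases Int.natAbs_eq k with h | h
  · have e : k • x = k.natAbs • x := by
      conv_lhs => rw [h]
      rw [natCast_zsmul]
    rw [e]
    exact Good.nsmul hj hx _ hk
  · have e : k • x = k.natAbs • (-x) := by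
      conv_lhs => rw [h]
      rw [neg_smul, natCast_zsmul, smul_neg]
    rw [e]
    exact Good.nsmul hj hx' _ hk

theorem Good.sum {r : NNReal} {j : ℕ} (hj : 1 ≤ j) {α : Type*} (s : Finset α) (n : α → ℕ)
    (x : α → Matrix ι ι (MonoidAlgebra ℝ G)) (hx : ∀ a ∈ s, Good r j (n a) (x a))
    (hs : 4 * (((∑ a ∈ s, n a : ℕ) : ENNReal) * (r : ENNReal) ^ j) ≤ 1) :
    Good r j (∑ a ∈ s, n a) (∑ a ∈ s, x a) := by
  classical
  induction s using Finset.induction_on with
  | empty =>
    rw [Finset.sum_empty, Finset.sum_empty]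
    exact Good.zero r j
  | insert a s ha ih =>
    rw [Finset.sum_insert ha] at hs
    rw [Finset.sum_insert ha, Finset.sum_insert ha]
    refine Good.add hj (hx a (Finset.mem_insert_self a s)) (ih ?_ ?_) hs
    · intro b hb
      exact hx b (Finset.mem_insert_of_mem hb)
    · refine le_trans ?_ hs
      gcongr
      exact Nat.le_add_left _ _

theorem mge_single (a b : ι) (x : MonoidAlgebra ℝ G) : mge (Matrix.single a b x) = gn x := by
  unfold mge
  rw [Finset.sum_eq_single a]
  · rw [Finset.sum_eq_single b]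
    · rw [Matrix.single_apply_same]
    · intro j _ hne
      rw [Matrix.single_apply, if_neg (fun h => hne h.2.symm), gn_zero]
    · intro h
      exact absurd (Finset.mem_univ b) h
  · intro i _ hne
    refine Finset.sum_eq_zero fun j _ => ?_
    rw [Matrix.single_apply, if_neg (fun h => hne h.1.symm), gn_zero]
  · intro h
    exact absurd (Finset.mem_univ a) h

theorem mn_single (r : NNReal) (a b : ι) (f : PowerSeries (MonoidAlgebra ℤ G)) :
    mn r (Matrix.single a b f) = wn r f := by
  unfold mn
  rw [Finset.sum_eq_single a]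
  · rw [Finset.sum_eq_single b]
    · rw [Matrix.single_apply_same]
    · intro j _ hne
      rw [Matrix.single_apply, if_neg (fun h => hne h.2.symm), wn_zero]
    · intro h
      exact absurd (Finset.mem_univ b) h
  · intro i _ hne
    refine Finset.sum_eq_zero fun j _ => ?_
    rw [Matrix.single_apply, if_neg (fun h => hne h.1.symm), wn_zero]
  · intro h
    exact absurd (Finset.mem_univ a) h

theorem Psi_single_monomial (a b : ι) (j : ℕ) (c : MonoidAlgebra ℤ G) :
    Psi G ι (Matrix.single a b (monomial j c)) = monomial j (Matrix.single a b (cR G c)) := by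
  ext1 d
  rw [coeff_Psi_single, coeff_monomial, coeff_monomial]
  split_ifs
  · rfl
  · rw [map_zero, Matrix.single_zero]

theorem ord_Psi_single (a b : ι) (j : ℕ) (f : PowerSeries (MonoidAlgebra ℤ G)) (hf : OrdGE j f) :
    OrdGE j (Psi G ι (Matrix.single a b f)) := by
  intro d hd
  rw [coeff_Psi_single, hf d hd, map_zero, Matrix.single_zero]

theorem isPoly_monomial {S : Type*} [Ring S] (j : ℕ) (c : S) : IsPoly (monomial j c) := by
  refine ⟨j + 1, fun d hd => ?_⟩
  rw [coeff_monomial, if_neg (by omega)]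

theorem IsPoly.neg' {S : Type*} [Ring S] {f : PowerSeries S} (hf : IsPoly f) : IsPoly (-f) := by
  obtain ⟨K, hK⟩ := hf
  exact ⟨K, fun d hd => by rw [map_neg, hK d hd, neg_zero]⟩

theorem IsPoly.add' {S : Type*} [Ring S] {f g : PowerSeries S} (hf : IsPoly f) (hg : IsPoly g) :
    IsPoly (f + g) := by
  obtain ⟨K, hK⟩ := hf
  obtain ⟨L, hL⟩ := hg
  exact ⟨max K L, fun d hd => by
    rw [map_add, hK d (le_trans (le_max_left _ _) hd), hL d (le_trans (le_max_right _ _) hd),
      add_zero]⟩

theorem gn_single_unit (g : G) (e : ℤ) (he : e = 1 ∨ e = -1) :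
    gn (MonoidAlgebra.single g e : MonoidAlgebra ℤ G) = 1 := by
  rw [gn_single]
  rcases he with h | h
  · rw [h]; simp
  · rw [h]; simp

theorem Good.off (r : NNReal) (j : ℕ) (a b : ι) (hab : a ≠ b) (g : G) (e : ℤ)
    (he : e = 1 ∨ e = -1) :
    Good r j 1 (Matrix.single a b (MonoidAlgebra.single g (e : ℝ))) := by
  refine ⟨ctr_single_ne a b hab _, ?_,
    PsiU G ι (elUnit a b hab (monomial j (MonoidAlgebra.single g e))), ?_, 0, ?_, ?_, ?_⟩
  · rw [mge_single, gn_single]
    rcases he with h | h
    · rw [h]; simp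
    · rw [h]; simp
  · exact Subgroup.mem_map_of_mem _ (elUnit_mem _ a b hab _ (isPoly_monomial _ _))
  · rw [PsiU_inv_val, elUnit_inv_val, Psi_el, single_neg', map_neg, Psi_single_monomial, add_zero,
      sub_eq_add_neg]
    unfold cR
    rw [MonoidAlgebra.mapRingHom_single]
    rfl
  · intro d _
    rw [map_zero]
  · rw [N_zero]
    exact zero_le

theorem Good.diag (r : NNReal) (hr : r ≤ 1) (j : ℕ) (hj : 1 ≤ j) (a b : ι) (hab : a ≠ b) (g h : G)
    (e : ℤ) (he : e = 1 ∨ e = -1) :
    Good r j 1 (Matrix.single a a (MonoidAlgebra.single (g * h) (e : ℝ)) -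
      Matrix.single b b (MonoidAlgebra.single (h * g) (e : ℝ))) := by
  set x : PowerSeries (MonoidAlgebra ℤ G) := -monomial j (MonoidAlgebra.single g e) with hx
  set y : PowerSeries (MonoidAlgebra ℤ G) := monomial 0 (MonoidAlgebra.single h 1) with hy
  have hxp : IsPoly x := (isPoly_monomial _ _).neg'
  have hyp : IsPoly y := isPoly_monomial _ _
  have hyxy : y * x * y = -monomial j (MonoidAlgebra.single (h * g * h) e) := by
    rw [hx, hy, mul_neg, neg_mul, monomial_mul_monomial, monomial_mul_monomial,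
      MonoidAlgebra.single_mul_single, MonoidAlgebra.single_mul_single]
    simp
  have hxy : x * y = -monomial j (MonoidAlgebra.single (g * h) e) := by
    rw [hx, hy, neg_mul, monomial_mul_monomial, MonoidAlgebra.single_mul_single]
    simp
  have hyx : y * x = -monomial j (MonoidAlgebra.single (h * g) e) := by
    rw [hx, hy, mul_neg, monomial_mul_monomial, MonoidAlgebra.single_mul_single]
    simp
  set w := elUnit a b hab x * elUnit b a hab.symm y * elUnit a b hab (-x) *
    elUnit b a hab.symm (-(y + y * x * y)) with hw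
  have hwmem : w ∈ elGroup ι {f : PowerSeries (MonoidAlgebra ℤ G) | IsPoly f} := by
    refine Subgroup.mul_mem _ (Subgroup.mul_mem _ (Subgroup.mul_mem _ ?_ ?_) ?_) ?_
    · exact elUnit_mem _ a b hab _ hxp
    · exact elUnit_mem _ b a hab.symm _ hyp
    · exact elUnit_mem _ a b hab _ hxp.neg'
    · refine elUnit_mem _ b a hab.symm _ ?_
      refine (hyp.add' ?_).neg'
      rw [hyxy]
      exact (isPoly_monomial _ _).neg'
  have hwval : w.val = 1 + (Matrix.single a a (x * y) - Matrix.single b b (y * x)) +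
      (Matrix.single a a (x * y * x * y + x * y * x * y * x * y) - Matrix.single a b (x * y * x) +
        Matrix.single b a (y * x * y * x * y)) := commutator_identity a b hab x y
  set ρ : ENNReal := (r : ENNReal) ^ j with hρ
  have hwx : wn r x = ρ := by
    rw [hx, wn_neg, wn_monomial, gn_single_unit g e he, one_mul]
  have hwy : wn r y = 1 := by
    rw [hy, wn_monomial, gn_single_unit h 1 (Or.inl rfl), one_mul, pow_zero]
  have hρ1 : ρ ≤ 1 := by
    rw [hρ]
    exact pow_le_one' (by exact_mod_cast hr) j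
  have hox : OrdGE j x := by
    rw [hx]
    exact (OrdGE.monomial j _).neg
  refine ⟨?_, ?_, (PsiU G ι w)⁻¹, (ER G ι).inv_mem (Subgroup.mem_map_of_mem _ hwmem),
    Psi G ι (Matrix.single a a (x * y * x * y + x * y * x * y * x * y) -
      Matrix.single a b (x * y * x) + Matrix.single b a (y * x * y * x * y)), ?_, ?_, ?_⟩
  · ext c
    classical
    rw [map_sub, Pi.sub_apply, ctr_apply, ctr_apply, Pi.zero_apply]
    rw [Finset.sum_eq_single a, Finset.sum_eq_single b]
    · rw [Matrix.single_apply_same, Matrix.single_apply_same, cs_single, cs_single]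
      have : IsConj c (g * h) ↔ IsConj c (h * g) :=
        ⟨fun h' => h'.trans (isConj_mul_comm g h), fun h' => h'.trans (isConj_mul_comm h g)⟩
      by_cases hc : IsConj c (g * h)
      · rw [if_pos hc, if_pos (this.mp hc), sub_self]
      · rw [if_neg hc, if_neg (fun h' => hc (this.mpr h')), sub_self]
    · intro i _ hne
      rw [Matrix.single_apply, if_neg (fun h => hne h.1.symm), map_zero]
    · intro h
      exact absurd (Finset.mem_univ _) h
    · intro i _ hne
      rw [Matrix.single_apply, if_neg (fun h => hne h.1.symm), map_zero]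
    · intro h
      exact absurd (Finset.mem_univ _) h
  · rw [sub_eq_add_neg]
    refine (mge_add_le _ _).trans ?_
    rw [mge_neg, mge_single, mge_single, gn_single, gn_single]
    have : ‖(e : ℝ)‖ₑ = 1 := by
      rcases he with h | h
      · rw [h]; simp
      · rw [h]; simp
    rw [this]
    norm_num
  · rw [inv_inv, PsiU_val, hwval, map_add, map_add, map_one]
    congr 1
    rw [hxy, hyx, map_sub, single_neg', single_neg', map_neg, map_neg, Psi_single_monomial,
      Psi_single_monomial]
    unfold cR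
    rw [MonoidAlgebra.mapRingHom_single, MonoidAlgebra.mapRingHom_single, map_sub]
    simp only [eq_intCast]
    abel
  · have o1 : OrdGE (j + 1) (x * y * x * y + x * y * x * y * x * y) := by
      have o : OrdGE (j + j) (x * y * x) := (OrdGE.mul_right y hox).mul hox
      have o' : OrdGE (j + 1) (x * y * x) := o.mono (by omega)
      refine (OrdGE.mul_right _ o').add ?_
      exact OrdGE.mul_right _ (OrdGE.mul_right _ (OrdGE.mul_right _ o'))
    have o2 : OrdGE (j + 1) (x * y * x) := ((OrdGE.mul_right y hox).mul hox).mono (by omega)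
    have o3 : OrdGE (j + 1) (y * x * y * x * y) := by
      have o : OrdGE (j + j) (y * x * y * x) :=
        (OrdGE.mul_right y (OrdGE.mul_left y hox)).mul hox
      exact OrdGE.mul_right _ (o.mono (by omega))
    rw [map_add, map_sub]
    exact ((ord_Psi_single a a _ _ o1).sub (ord_Psi_single a b _ _ o2)).add
      (ord_Psi_single b a _ _ o3)
  · rw [N_Psi]
    have w1 : wn r (x * y) ≤ ρ := by
      refine (wn_mul_le r _ _).trans ?_
      rw [hwx, hwy, mul_one]
    have w1' : wn r (y * x) ≤ ρ := by
      refine (wn_mul_le r _ _).trans ?_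
      rw [hwx, hwy, one_mul]
    have w2 : wn r (x * y * x) ≤ ρ ^ 2 := by
      refine (wn_mul_le r _ _).trans ?_
      rw [pow_two]
      exact mul_le_mul' w1 hwx.le
    have w3 : wn r (x * y * x * y) ≤ ρ ^ 2 := by
      refine (wn_mul_le r _ _).trans ?_
      rw [hwy, mul_one]
      exact w2
    have w4 : wn r (x * y * x * y * x * y) ≤ ρ ^ 2 := by
      rw [mul_assoc (x * y * x * y)]
      refine (wn_mul_le r _ _).trans ?_
      calc wn r (x * y * x * y) * wn r (x * y) ≤ ρ ^ 2 * 1 := mul_le_mul' w3 (w1.trans hρ1)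
        _ = ρ ^ 2 := mul_one _
    have w5 : wn r (y * x * y * x * y) ≤ ρ ^ 2 := by
      have : y * x * y * x * y = (y * x) * (y * x) * y := by noncomm_ring
      rw [this]
      refine (wn_mul_le r _ _).trans ?_
      rw [hwy, mul_one, pow_two]
      refine (wn_mul_le r _ _).trans ?_
      exact mul_le_mul' w1' w1'
    calc mn r (Matrix.single a a (x * y * x * y + x * y * x * y * x * y) -
          Matrix.single a b (x * y * x) + Matrix.single b a (y * x * y * x * y))
        ≤ (mn r (Matrix.single a a (x * y * x * y + x * y * x * y * x * y)) +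
          mn r (Matrix.single a b (x * y * x))) + mn r (Matrix.single b a (y * x * y * x * y)) :=
          (mn_add_le r _ _).trans (add_le_add (mn_sub_le r _ _) le_rfl)
      _ ≤ ((ρ ^ 2 + ρ ^ 2) + ρ ^ 2) + ρ ^ 2 := by
          rw [mn_single, mn_single, mn_single]
          exact add_le_add (add_le_add ((wn_add_le r _ _).trans (add_le_add w3 w4)) w2) w5
      _ = 4 * ρ ^ 2 := by ring
      _ ≤ 8 * (((1 : ℕ) : ENNReal) * ρ) ^ 2 := by
          rw [Nat.cast_one, one_mul]
          gcongr
          norm_num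

end good

end Pool.Agent.TS
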