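import Pool.Agent.Lib.MP_402c18_an.Inst4

/-!
# Rounding, and the instance of `Gen` for matrices over the group ring
-/

set_option autoImplicit false
set_option linter.unusedSectionVars false

namespace Pool.Agent.TS

open PowerSeries

section rep

variable {G : Type*} [Group G]

/-- a representative of the conjugacy class -/
noncomputable def repC (c : ConjClasses G) : G := Classical.choose (ConjClasses.exists_rep c)

/-- a representative of the conjugacy class -/
noncomputable def rep (g : G) : G := repC (ConjClasses.mk g)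

theorem rep_spec (g : G) : IsConj (rep g) g := by
  have := Classical.choose_spec (ConjClasses.exists_rep (ConjClasses.mk g))
  exact ConjClasses.mk_eq_mk_iff_isConj.mp this

theorem rep_eq {g h : G} (hgh : IsConj g h) : rep g = rep h := by
  unfold rep
  rw [ConjClasses.mk_eq_mk_iff_isConj.mpr hgh]

theorem rep_rep (g : G) : rep (rep g) = rep g := rep_eq (rep_spec g)

theorem rep_factor (g : G) : ∃ a b : G, a * b = g ∧ b * a = rep g := by
  obtain ⟨c, hc⟩ := isConj_iff.mp (rep_spec g)
  exact ⟨c * rep g, c⁻¹, hc, by group⟩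

end rep

section round

theorem round_abs_le (t : ℝ) : |(round t : ℝ)| ≤ 2 * |t| := by
  have h1 := abs_sub_round t
  rcases lt_or_ge |t| (1 / 2) with h | h
  · have : round t = 0 := by
      rw [round_eq_zero_iff]
      rw [abs_lt] at h
      exact ⟨by linarith [h.1], h.2⟩
    rw [this]
    simp
  · have h2 : |(round t : ℝ)| ≤ |t| + |t - round t| := by
      have : (round t : ℝ) = t - (t - round t) := by ring
      calc |(round t : ℝ)| = |t - (t - round t)| := by rw [← this]
        _ ≤ _ := abs_sub _ _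
    linarith

theorem round_natAbs_le (t : ℝ) : (((round t).natAbs : ℕ) : ENNReal) ≤ 2 * ‖t‖ₑ := by
  have h := round_abs_le t
  rw [Real.enorm_eq_ofReal_abs]
  have e1 : (((round t).natAbs : ℕ) : ENNReal) = ENNReal.ofReal |(round t : ℝ)| := by
    rw [← Int.cast_abs, ← ENNReal.ofReal_natCast, Nat.cast_natAbs]
  rw [e1, show (2 : ENNReal) = ENNReal.ofReal 2 by simp, ← ENNReal.ofReal_mul (by norm_num)]
  exact ENNReal.ofReal_le_ofReal h

theorem sub_round_enorm_le (t : ℝ) : ‖t - round t‖ₑ ≤ 1 := by
  rw [Real.enorm_eq_ofReal_abs, show (1 : ENNReal) = ENNReal.ofReal 1 by simp]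
  apply ENNReal.ofReal_le_ofReal
  linarith [abs_sub_round t]

end round

section inst

variable {G ι : Type*} [Group G] [Fintype G] [Fintype ι] [DecidableEq ι]

attribute [local instance] matNormedRing matNormedAlgebra

/-- the basic trace-free elements -/
noncomputable def nu (o : ι) (p : ι × ι × G) : Matrix ι ι (MonoidAlgebra ℝ G) :=
  if p.1 = p.2.1 then Matrix.single p.1 p.1 (MonoidAlgebra.single p.2.2 1) -
    Matrix.single o o (MonoidAlgebra.single (rep p.2.2) 1)
  else Matrix.single p.1 p.2.1 (MonoidAlgebra.single p.2.2 1)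

theorem good_nu_aux (r : NNReal) (hr : r ≤ 1) (j : ℕ) (hj : 1 ≤ j) (o o' : ι) (hoo : o ≠ o')
    (h8 : 4 * (((2 : ℕ) : ENNReal) * (r : ENNReal) ^ j) ≤ 1) (p : ι × ι × G) (e : ℤ)
    (he : e = 1 ∨ e = -1) :
    Good r j 2 ((e : ℤ) • nu o p) := by
  obtain ⟨a, b, g⟩ := p
  unfold nu
  simp only
  split_ifs with hab
  · obtain ⟨c, d, hcd, hdc⟩ := rep_factor g
    rcases eq_or_ne a o with hao | hao
    · -- a = o : two steps
      have h1 := Good.diag r hr j hj o o' hoo g 1 e he
      have h2 := Good.diag r hr j hj o' o hoo.symm c d e he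
      have h3 := Good.add hj h1 h2 h8
      convert h3 using 1
      rw [hao, mul_one, one_mul, hcd, hdc]
      rw [smul_sub]
      have e1 : ∀ (i : ι) (x : G), (e : ℤ) • Matrix.single i i (MonoidAlgebra.single x (1 : ℝ)) =
          Matrix.single i i (MonoidAlgebra.single x (e : ℝ)) := by
        intro i x
        rw [Matrix.smul_single, MonoidAlgebra.smul_single]
        simp
      rw [e1, e1]
      abel
    · have h1 := Good.diag r hr j hj a o hao c d e he
      refine (Good.mono ?_ (show 1 ≤ 2 by norm_num))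
      convert h1 using 1
      rw [hcd, hdc, smul_sub]
      have e1 : ∀ (i : ι) (x : G), (e : ℤ) • Matrix.single i i (MonoidAlgebra.single x (1 : ℝ)) =
          Matrix.single i i (MonoidAlgebra.single x (e : ℝ)) := by
        intro i x
        rw [Matrix.smul_single, MonoidAlgebra.smul_single]
        simp
      rw [e1, e1]
  · have h1 := Good.off r j a b hab g e he
    refine (Good.mono ?_ (show 1 ≤ 2 by norm_num))
    convert h1 using 1
    rw [Matrix.smul_single, MonoidAlgebra.smul_single]
    simp

/-- the rounded multiplicities -/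
noncomputable def mm (z : Matrix ι ι (MonoidAlgebra ℝ G)) (p : ι × ι × G) : ℤ :=
  round ((z p.1 p.2.1).coeff p.2.2)

/-- the approximating element -/
noncomputable def xx (o : ι) (z : Matrix ι ι (MonoidAlgebra ℝ G)) :
    Matrix ι ι (MonoidAlgebra ℝ G) := ∑ p, mm z p • nu o p

theorem mge_eq_sum (z : Matrix ι ι (MonoidAlgebra ℝ G)) :
    mge z = ∑ p : ι × ι × G, ‖(z p.1 p.2.1).coeff p.2.2‖ₑ := by
  unfold mge gn
  rw [Fintype.sum_prod_type]
  refine Finset.sum_congr rfl fun i _ => ?_
  rw [Fintype.sum_prod_type]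

theorem good_xx (r : NNReal) (hr : r ≤ 1) (j : ℕ) (hj : 1 ≤ j) (o o' : ι) (hoo : o ≠ o')
    (z : Matrix ι ι (MonoidAlgebra ℝ G)) (h16 : 16 * (mge z * (r : ENNReal) ^ j) ≤ 1) :
    ∃ n : ℕ, Good r j n (xx o z) ∧ (n : ENNReal) ≤ 4 * mge z := by
  have hn : (((∑ p : ι × ι × G, (mm z p).natAbs * 2 : ℕ)) : ENNReal) ≤ 4 * mge z := by
    rw [mge_eq_sum, Finset.mul_sum]
    push_cast
    refine Finset.sum_le_sum fun p _ => ?_
    calc (((mm z p).natAbs : ℕ) : ENNReal) * 2 ≤ (2 * ‖(z p.1 p.2.1).coeff p.2.2‖ₑ) * 2 := by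
          gcongr
          exact round_natAbs_le _
      _ = _ := by ring
  have h4 : 4 * (((∑ p : ι × ι × G, (mm z p).natAbs * 2 : ℕ) : ENNReal) * (r : ENNReal) ^ j) ≤ 1 := by
    refine le_trans ?_ h16
    calc 4 * (((∑ p : ι × ι × G, (mm z p).natAbs * 2 : ℕ) : ENNReal) * (r : ENNReal) ^ j)
        ≤ 4 * ((4 * mge z) * (r : ENNReal) ^ j) := by gcongr
      _ = _ := by ring
  refine ⟨∑ p : ι × ι × G, (mm z p).natAbs * 2, ?_, hn⟩
  refine Good.sum hj Finset.univ _ _ ?_ h4
  intro p _
  rcases eq_or_ne (mm z p) 0 with h0 | h0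
  · rw [h0, zero_smul, Int.natAbs_zero, zero_mul]
    exact Good.zero r j
  · have h4p : 4 * ((((mm z p).natAbs * 2 : ℕ) : ENNReal) * (r : ENNReal) ^ j) ≤ 1 := by
      refine le_trans ?_ h4
      gcongr
      exact Finset.single_le_sum (f := fun p => (mm z p).natAbs * 2) (fun _ _ => Nat.zero_le _)
        (Finset.mem_univ p)
    have h8 : 4 * (((2 : ℕ) : ENNReal) * (r : ENNReal) ^ j) ≤ 1 := by
      refine le_trans ?_ h4p
      gcongr
      have : 1 ≤ (mm z p).natAbs := Int.natAbs_pos.mpr h0
      omega
    have g1 := good_nu_aux r hr j hj o o' hoo h8 p 1 (Or.inl rfl)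
    have g2 := good_nu_aux r hr j hj o o' hoo h8 p (-1) (Or.inr rfl)
    rw [one_smul] at g1
    rw [neg_smul, one_smul] at g2
    exact Good.zsmul hj g1 g2 _ h4p

/-- the correction supported at `(o,o)` -/
noncomputable def RR (o : ι) (z : Matrix ι ι (MonoidAlgebra ℝ G)) : MonoidAlgebra ℝ G :=
  ∑ a : ι, ∑ g : G, (mm z (a, a, g)) • MonoidAlgebra.single (rep g) (1 : ℝ)

theorem xx_eq (o : ι) (z : Matrix ι ι (MonoidAlgebra ℝ G)) :
    xx o z = (∑ p : ι × ι × G, mm z p •
      Matrix.single p.1 p.2.1 (MonoidAlgebra.single p.2.2 (1 : ℝ))) - Matrix.single o o (RR o z) := by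
  have h : ∀ p : ι × ι × G, mm z p • nu o p =
      mm z p • Matrix.single p.1 p.2.1 (MonoidAlgebra.single p.2.2 (1 : ℝ)) -
      (if p.1 = p.2.1 then mm z p • Matrix.single o o (MonoidAlgebra.single (rep p.2.2) (1 : ℝ))
        else 0) := by
    rintro ⟨a, b, g⟩
    unfold nu
    simp only
    split_ifs with hab
    · rw [smul_sub, hab]
    · rw [sub_zero]
  unfold xx
  simp_rw [h]
  rw [Finset.sum_sub_distrib]
  congr 1
  rw [Fintype.sum_prod_type]
  simp_rw [Fintype.sum_prod_type]
  unfold RR
  have e : ∀ a : ι, ∑ b : ι, ∑ g : G, (if a = b then mm z (a, b, g) •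
      Matrix.single o o (MonoidAlgebra.single (rep g) (1 : ℝ)) else 0) =
      Matrix.single o o (∑ g : G, mm z (a, a, g) • MonoidAlgebra.single (rep g) (1 : ℝ)) := by
    intro a
    rw [Finset.sum_eq_single a]
    · simp only [if_true]
      have : ∀ s : Finset G, ∑ g ∈ s, mm z (a, a, g) •
          Matrix.single o o (MonoidAlgebra.single (rep g) (1 : ℝ)) =
          Matrix.single o o (∑ g ∈ s, mm z (a, a, g) • MonoidAlgebra.single (rep g) (1 : ℝ)) := by
        classical
        intro s
        induction s using Finset.induction_on with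
        | empty => simp
        | insert x s hx ih =>
          rw [Finset.sum_insert hx, Finset.sum_insert hx, ih, Matrix.single_add, Matrix.smul_single]
      exact this Finset.univ
    · intro b _ hb
      refine Finset.sum_eq_zero fun g _ => ?_
      rw [if_neg hb.symm]
    · intro h
      exact absurd (Finset.mem_univ a) h
  simp_rw [e]
  have e2 : ∀ (s : Finset ι) (f : ι → MonoidAlgebra ℝ G), ∑ a ∈ s, Matrix.single o o (f a) =
      Matrix.single o o (∑ a ∈ s, f a) := by
    classical
    intro s f
    induction s using Finset.induction_on with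
    | empty => simp
    | insert x s hx ih => rw [Finset.sum_insert hx, Finset.sum_insert hx, ih, Matrix.single_add]
  exact e2 Finset.univ _

theorem coeff_y (z : Matrix ι ι (MonoidAlgebra ℝ G)) (i j : ι) (g : G) :
    ((∑ p : ι × ι × G, mm z p •
      Matrix.single p.1 p.2.1 (MonoidAlgebra.single p.2.2 (1 : ℝ))) i j).coeff g =
      (mm z (i, j, g) : ℝ) := by
  rw [Matrix.sum_apply, MonoidAlgebra.coeff_sum, Finsupp.finsetSum_apply,
    Finset.sum_eq_single (i, j, g)]
  · rw [Matrix.smul_apply, Matrix.single_apply_same, MonoidAlgebra.smul_single,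
      MonoidAlgebra.coeff_single, Finsupp.single_eq_same]
    simp
  · rintro ⟨a, b, h⟩ _ hne
    simp only
    rw [Matrix.smul_apply, Matrix.single_apply]
    split_ifs with hab
    · obtain ⟨h1, h2⟩ := hab
      have hgh : g ≠ h := by
        rintro rfl
        exact hne (by rw [h1, h2])
      rw [MonoidAlgebra.smul_single, MonoidAlgebra.coeff_single, Finsupp.single_eq_of_ne hgh]
    · simp
  · intro h
    exact absurd (Finset.mem_univ _) h

theorem mge_sub_y (z : Matrix ι ι (MonoidAlgebra ℝ G)) :
    mge (z - ∑ p : ι × ι × G, mm z p •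
      Matrix.single p.1 p.2.1 (MonoidAlgebra.single p.2.2 (1 : ℝ))) ≤
      (Fintype.card ι : ENNReal) ^ 2 * Fintype.card G := by
  rw [mge_eq_sum]
  calc _ ≤ ∑ p : ι × ι × G, (1 : ENNReal) := by
        refine Finset.sum_le_sum fun p _ => ?_
        rw [Matrix.sub_apply, MonoidAlgebra.coeff_sub, Finsupp.sub_apply, coeff_y]
        exact sub_round_enorm_le _
    _ = _ := by
        rw [Finset.sum_const, Finset.card_univ, Fintype.card_prod, Fintype.card_prod]
        push_cast
        rw [nsmul_eq_mul, mul_one]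
        push_cast
        ring

open Classical in
theorem coeff_RR (o : ι) (z : Matrix ι ι (MonoidAlgebra ℝ G)) (c : G) :
    (RR o z).coeff c = if rep c = c then
      ctr ℝ G ι z c - ∑ a : ι, ∑ g : G, (if IsConj c g then
        (z a a).coeff g - mm z (a, a, g) else 0) else 0 := by
  have h1 : (RR o z).coeff c = ∑ a : ι, ∑ g : G, if rep g = c then (mm z (a, a, g) : ℝ) else 0 := by
    unfold RR
    rw [MonoidAlgebra.coeff_sum, Finsupp.finsetSum_apply]
    refine Finset.sum_congr rfl fun a _ => ?_
    rw [MonoidAlgebra.coeff_sum, Finsupp.finsetSum_apply]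
    refine Finset.sum_congr rfl fun g _ => ?_
    rw [MonoidAlgebra.smul_single, MonoidAlgebra.coeff_single, Finsupp.single_apply]
    split_ifs <;> simp
  rw [h1]
  split_ifs with hc
  · have h2 : ctr ℝ G ι z c = ∑ a : ι, ∑ g : G, if IsConj c g then (z a a).coeff g else 0 := rfl
    rw [h2, ← Finset.sum_sub_distrib]
    refine Finset.sum_congr rfl fun a _ => ?_
    rw [← Finset.sum_sub_distrib]
    refine Finset.sum_congr rfl fun g _ => ?_
    have h3 : rep g = c ↔ IsConj c g := by
      constructor
      · intro h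
        rw [← h]
        exact rep_spec g
      · intro h
        rw [← rep_eq h, hc]
    by_cases h4 : rep g = c
    · rw [if_pos h4, if_pos (h3.mp h4), if_pos (h3.mp h4)]
      ring
    · have h5 : ¬ IsConj c g := fun h => h4 (h3.mpr h)
      rw [if_neg h4, if_neg h5, if_neg h5, sub_zero]
  · refine Finset.sum_eq_zero fun a _ => Finset.sum_eq_zero fun g _ => ?_
    rw [if_neg]
    intro h
    apply hc
    rw [← h, rep_rep]

theorem gn_RR_le (o : ι) (z : Matrix ι ι (MonoidAlgebra ℝ G)) :
    gn (RR o z) ≤ Fintype.card G * (‖ctr ℝ G ι z‖ₑ + Fintype.card ι * Fintype.card G) := by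
  classical
  unfold gn
  calc ∑ c : G, ‖(RR o z).coeff c‖ₑ
      ≤ ∑ c : G, (‖ctr ℝ G ι z‖ₑ + (Fintype.card ι : ENNReal) * Fintype.card G) := by
        refine Finset.sum_le_sum fun c _ => ?_
        rw [coeff_RR]
        split_ifs with hc
        · refine enorm_sub_le.trans (add_le_add ?_ ?_)
          · rw [enorm_eq_nnnorm, enorm_eq_nnnorm, ENNReal.coe_le_coe]
            exact nnnorm_le_pi_nnnorm _ c
          · refine (enorm_sum_le _ _).trans ?_
            calc ∑ a : ι, ‖∑ g : G, (if IsConj c g then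
                  (z a a).coeff g - (mm z (a, a, g) : ℝ) else 0)‖ₑ
                ≤ ∑ a : ι, ∑ g : G, (1 : ENNReal) := by
                  refine Finset.sum_le_sum fun a _ => ?_
                  refine (enorm_sum_le _ _).trans ?_
                  refine Finset.sum_le_sum fun g _ => ?_
                  split_ifs
                  · exact sub_round_enorm_le _
                  · simp
              _ = _ := by
                  rw [Finset.sum_const, Finset.sum_const, Finset.card_univ, Finset.card_univ]
                  simp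
        · simp
    _ = _ := by
        rw [Finset.sum_const, Finset.card_univ, nsmul_eq_mul]

theorem mge_sub_xx (o : ι) (z : Matrix ι ι (MonoidAlgebra ℝ G)) :
    mge (z - xx o z) ≤ ((Fintype.card ι : ENNReal) ^ 2 * Fintype.card G +
      Fintype.card ι * (Fintype.card G : ENNReal) ^ 2) + Fintype.card G * ‖ctr ℝ G ι z‖ₑ := by
  have e : z - xx o z = (z - ∑ p : ι × ι × G, mm z p •
      Matrix.single p.1 p.2.1 (MonoidAlgebra.single p.2.2 (1 : ℝ))) +
      Matrix.single o o (RR o z) := by
    rw [xx_eq]
    abel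
  rw [e]
  refine (mge_add_le _ _).trans ?_
  rw [mge_single]
  calc _ ≤ (Fintype.card ι : ENNReal) ^ 2 * Fintype.card G +
        Fintype.card G * (‖ctr ℝ G ι z‖ₑ + Fintype.card ι * Fintype.card G) :=
        add_le_add (mge_sub_y z) (gn_RR_le o z)
    _ = _ := by ring

theorem xx_of_mem (o : ι) (z : Matrix ι ι (MonoidAlgebra ℝ G)) (hz : z ∈ LR G ι)
    (hτ : ctr ℝ G ι z = 0) : xx o z = z := by
  classical
  have hint : ∀ i j g, ((mm z (i, j, g) : ℤ) : ℝ) = (z i j).coeff g := by
    intro i j g
    obtain ⟨w, hw⟩ := hz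
    have : (z i j).coeff g = (((w i j).coeff g : ℤ) : ℝ) := by
      rw [← hw, RingHom.mapMatrix_apply, Matrix.map_apply, coeff_cR]
    unfold mm
    simp only
    rw [this, round_intCast]
  have hR : RR o z = 0 := by
    ext c
    rw [coeff_RR]
    split_ifs with hc
    · rw [hτ, Pi.zero_apply, zero_sub]
      rw [Finset.sum_eq_zero]
      · simp
      · intro a _
        refine Finset.sum_eq_zero fun g _ => ?_
        rw [hint, sub_self]
        simp
    · simp
  rw [xx_eq, hR, Matrix.single_zero, sub_zero]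
  ext i j g
  rw [coeff_y, hint]

/-- the constants -/
noncomputable def KG (G : Type*) [Fintype G] : ENNReal := 128 + Fintype.card G

/-- the constants -/
noncomputable def K1G (G ι : Type*) [Fintype G] [Fintype ι] : ENNReal :=
  (Fintype.card ι : ENNReal) ^ 2 * Fintype.card G + Fintype.card ι * (Fintype.card G : ENNReal) ^ 2

theorem gen_inst (r : NNReal) (hr : r < 1) (hr0 : 0 < r) (o o' : ι) (hoo : o ≠ o') :
    Gen (ctr ℝ G ι) (LR G ι) (ER G ι) r (KG G) (K1G G ι) where
  comm := ctr_mul_comm
  bound a := by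
    rw [enorm_eq_mge]
    calc ‖ctr ℝ G ι a‖ₑ ≤ 1 * mge a := by rw [one_mul]; exact enorm_ctr_le a
      _ ≤ _ := by
        gcongr
        unfold KG
        exact le_trans (by norm_num) le_self_add
  gam_zero := fun Φ hΦ d => gam_ER Φ hΦ d
  int := fun Φ hΦ d => int_ER Φ hΦ d
  one_le := by
    unfold KG
    exact le_trans (by norm_num) le_self_add
  ne_top := by
    unfold KG
    finiteness
  ne_top₁ := by
    unfold K1G
    finiteness
  r_lt := hr
  r_pos := hr0
  step := by
    intro j z hj hz
    rw [enorm_eq_mge] at hz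
    have hK : (128 : ENNReal) ≤ KG G := le_self_add
    have h16 : 16 * (mge z * (r : ENNReal) ^ j) ≤ 1 := by
      refine le_trans ?_ hz
      gcongr
      refine le_trans ?_ (mul_le_mul' le_rfl hK)
      norm_num
    obtain ⟨n, hgood, hn⟩ := good_xx r hr.le j hj o o' hoo z h16
    obtain ⟨h1, h2, u, hu, Ω, h3, h4, h5⟩ := hgood
    refine ⟨u, hu, xx o z, Ω, h3, h4, ?_, ?_, ?_, h1, ?_⟩
    · rw [enorm_eq_mge]
      refine h5.trans ?_
      calc 8 * ((n : ENNReal) * (r : ENNReal) ^ j) ^ 2
          ≤ 8 * ((4 * mge z) * (r : ENNReal) ^ j) ^ 2 := by gcongr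
        _ = 128 * (mge z * (r : ENNReal) ^ j) ^ 2 := by ring
        _ ≤ _ := by gcongr
    · rw [enorm_eq_mge, enorm_eq_mge]
      calc mge (xx o z) ≤ 2 * n := h2
        _ ≤ 2 * (4 * mge z) := by gcongr
        _ = 8 * mge z := by ring
        _ ≤ _ := by
          gcongr
          exact le_trans (by norm_num) hK
    · rw [enorm_eq_mge]
      refine (mge_sub_xx o z).trans ?_
      unfold K1G
      gcongr
      unfold KG
      exact le_add_self
    · intro hzL hzτ
      exact xx_of_mem o z hzL hzτ

end inst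

end Pool.Agent.TS
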