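import Pool.Agent.Lib.MP_402c18_an.Defs

/-!
# The weighted norms `wn` and `mn`
-/

set_option autoImplicit false
set_option linter.unusedSectionVars false

namespace Pool.Agent.TS

open PowerSeries

section

variable {k G : Type*} [NormedRing k] [Group G] [Fintype G]

/-- the `ℓ¹` norm on the group ring, as an extended nonnegative real -/
noncomputable def gn (x : MonoidAlgebra k G) : ENNReal := ∑ g : G, ‖x.coeff g‖ₑ

theorem wn_eq (r : NNReal) (f : PowerSeries (MonoidAlgebra k G)) :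
    wn r f = ∑' d : ℕ, gn (coeff d f) * (r : ENNReal) ^ d := rfl

theorem gn_zero : gn (0 : MonoidAlgebra k G) = 0 := by
  simp [gn]

theorem gn_add_le (x y : MonoidAlgebra k G) : gn (x + y) ≤ gn x + gn y := by
  unfold gn
  rw [← Finset.sum_add_distrib]
  refine Finset.sum_le_sum fun g _ => ?_
  rw [MonoidAlgebra.coeff_add, Finsupp.add_apply]
  exact enorm_add_le _ _

theorem gn_neg (x : MonoidAlgebra k G) : gn (-x) = gn x := by
  unfold gn
  refine Finset.sum_congr rfl fun g _ => ?_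
  rw [MonoidAlgebra.coeff_neg, Finsupp.neg_apply, enorm_neg]

theorem gn_sum_le {α : Type*} (s : Finset α) (f : α → MonoidAlgebra k G) :
    gn (∑ i ∈ s, f i) ≤ ∑ i ∈ s, gn (f i) := by
  classical
  induction s using Finset.induction_on with
  | empty => simp [gn_zero]
  | insert a s ha ih =>
    rw [Finset.sum_insert ha, Finset.sum_insert ha]
    exact (gn_add_le _ _).trans (add_le_add le_rfl ih)

theorem gn_single (g : G) (a : k) : gn (MonoidAlgebra.single g a) = ‖a‖ₑ := by
  classical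
  unfold gn
  rw [Finset.sum_eq_single g]
  · rw [MonoidAlgebra.coeff_single, Finsupp.single_eq_same]
  · intro h _ hne
    rw [MonoidAlgebra.coeff_single, Finsupp.single_eq_of_ne hne, enorm_zero]
  · intro h
    exact absurd (Finset.mem_univ g) h

theorem eq_sum_single (x : MonoidAlgebra k G) :
    x = ∑ g : G, MonoidAlgebra.single g (x.coeff g) := by
  classical
  ext h
  rw [MonoidAlgebra.coeff_sum, Finsupp.finsetSum_apply, Finset.sum_eq_single h]
  · rw [MonoidAlgebra.coeff_single, Finsupp.single_eq_same]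
  · intro g _ hne
    rw [MonoidAlgebra.coeff_single, Finsupp.single_eq_of_ne hne.symm]
  · intro h'
    exact absurd (Finset.mem_univ h) h'

theorem enorm_mul_le_k (a b : k) : ‖a * b‖ₑ ≤ ‖a‖ₑ * ‖b‖ₑ := by
  rw [enorm_eq_nnnorm, enorm_eq_nnnorm, enorm_eq_nnnorm, ← ENNReal.coe_mul]
  exact ENNReal.coe_le_coe.mpr (nnnorm_mul_le a b)

theorem gn_mul_le (x y : MonoidAlgebra k G) : gn (x * y) ≤ gn x * gn y := by
  have e : x * y = ∑ g : G, ∑ h : G, MonoidAlgebra.single (g * h) (x.coeff g * y.coeff h) := by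
    conv_lhs => rw [eq_sum_single x, eq_sum_single y]
    rw [Finset.sum_mul_sum]
    simp_rw [MonoidAlgebra.single_mul_single]
  rw [e]
  refine (gn_sum_le _ _).trans ?_
  unfold gn at *
  rw [Finset.sum_mul_sum]
  refine Finset.sum_le_sum fun g _ => ?_
  refine (gn_sum_le _ _).trans ?_
  refine Finset.sum_le_sum fun h _ => ?_
  rw [gn_single]
  exact enorm_mul_le_k _ _

theorem gn_eq_zero {x : MonoidAlgebra k G} (h : gn x = 0) : x = 0 := by
  ext g
  unfold gn at h
  rw [Finset.sum_eq_zero_iff] at h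
  have := h g (Finset.mem_univ g)
  rw [enorm_eq_zero] at this
  rw [this]
  simp

theorem enorm_coeff_le_gn (x : MonoidAlgebra k G) (g : G) : ‖x.coeff g‖ₑ ≤ gn x :=
  Finset.single_le_sum (f := fun g => ‖x.coeff g‖ₑ) (fun _ _ => zero_le) (Finset.mem_univ g)

theorem gn_ne_top (x : MonoidAlgebra k G) : gn x ≠ ⊤ := by
  unfold gn
  exact ENNReal.sum_ne_top.mpr fun g _ => enorm_ne_top

/-! ### `wn` -/

theorem wn_zero (r : NNReal) : wn r (0 : PowerSeries (MonoidAlgebra k G)) = 0 := by
  rw [wn_eq]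
  simp [gn_zero]

theorem wn_add_le (r : NNReal) (f g : PowerSeries (MonoidAlgebra k G)) :
    wn r (f + g) ≤ wn r f + wn r g := by
  rw [wn_eq, wn_eq, wn_eq, ← ENNReal.tsum_add]
  refine ENNReal.tsum_le_tsum fun d => ?_
  rw [map_add, ← add_mul]
  gcongr
  exact gn_add_le _ _

theorem wn_neg (r : NNReal) (f : PowerSeries (MonoidAlgebra k G)) : wn r (-f) = wn r f := by
  rw [wn_eq, wn_eq]
  refine tsum_congr fun d => ?_
  rw [map_neg, gn_neg]

theorem wn_sub_le (r : NNReal) (f g : PowerSeries (MonoidAlgebra k G)) :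
    wn r (f - g) ≤ wn r f + wn r g := by
  rw [sub_eq_add_neg, ← wn_neg r g]
  exact wn_add_le r f (-g)

theorem wn_sum_le {α : Type*} (r : NNReal) (s : Finset α)
    (f : α → PowerSeries (MonoidAlgebra k G)) :
    wn r (∑ i ∈ s, f i) ≤ ∑ i ∈ s, wn r (f i) := by
  classical
  induction s using Finset.induction_on with
  | empty => simp [wn_zero]
  | insert a s ha ih =>
    rw [Finset.sum_insert ha, Finset.sum_insert ha]
    exact (wn_add_le r _ _).trans (add_le_add le_rfl ih)

theorem wn_mul_le (r : NNReal) (f g : PowerSeries (MonoidAlgebra k G)) :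
    wn r (f * g) ≤ wn r f * wn r g := by
  rw [wn_eq, wn_eq, wn_eq]
  rw [← ENNReal.tsum_mul_right]
  simp_rw [← ENNReal.tsum_mul_left]
  rw [← ENNReal.tsum_prod]
  rw [← Finset.HasAntidiagonal.sigmaAntidiagonalEquivProd.tsum_eq]
  rw [ENNReal.tsum_sigma']
  refine ENNReal.tsum_le_tsum fun d => ?_
  rw [PowerSeries.coeff_mul, tsum_fintype, Finset.univ_eq_attach]
  simp only [Finset.HasAntidiagonal.sigmaAntidiagonalEquivProd_apply]
  rw [Finset.sum_attach (Finset.HasAntidiagonal.antidiagonal d) (fun p : ℕ × ℕ =>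
    gn (coeff p.1 f) * (r : ENNReal) ^ p.1 * (gn (coeff p.2 g) * (r : ENNReal) ^ p.2))]
  refine (mul_le_mul' (gn_sum_le _ _) le_rfl).trans ?_
  rw [Finset.sum_mul]
  refine Finset.sum_le_sum fun p hp => ?_
  rw [Finset.HasAntidiagonal.mem_antidiagonal] at hp
  rw [← hp, pow_add]
  calc gn (coeff p.1 f * coeff p.2 g) * ((r : ENNReal) ^ p.1 * (r : ENNReal) ^ p.2)
      ≤ (gn (coeff p.1 f) * gn (coeff p.2 g)) * ((r : ENNReal) ^ p.1 * (r : ENNReal) ^ p.2) := by
        gcongr
        exact gn_mul_le _ _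
    _ = _ := by ring

theorem wn_monomial (r : NNReal) (j : ℕ) (a : MonoidAlgebra k G) :
    wn r (monomial j a) = gn a * (r : ENNReal) ^ j := by
  rw [wn_eq, tsum_eq_single j]
  · simp
  · intro d hd
    rw [coeff_monomial, if_neg hd, gn_zero, zero_mul]

theorem gn_coeff_le_wn (r : NNReal) (f : PowerSeries (MonoidAlgebra k G)) (d : ℕ) :
    gn (coeff d f) * (r : ENNReal) ^ d ≤ wn r f :=
  ENNReal.le_tsum (f := fun d => gn (coeff d f) * (r : ENNReal) ^ d) d

theorem wn_lt_top_of_isPoly (r : NNReal) {f : PowerSeries (MonoidAlgebra k G)} (hf : IsPoly f) :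
    wn r f < ⊤ := by
  obtain ⟨K, hK⟩ := hf
  rw [wn_eq, tsum_eq_sum (s := Finset.range K)]
  · refine ENNReal.sum_lt_top.mpr fun d _ => ?_
    exact ENNReal.mul_lt_top (gn_ne_top _).lt_top (ENNReal.pow_lt_top ENNReal.coe_lt_top)
  · intro d hd
    rw [Finset.mem_range, not_lt] at hd
    rw [hK d hd, gn_zero, zero_mul]

/-! ### `mn` -/

variable {ι κ ν : Type*} [Fintype ι] [Fintype κ] [Fintype ν]

theorem mn_zero (r : NNReal) : mn r (0 : Matrix ι κ (PowerSeries (MonoidAlgebra k G))) = 0 := by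
  unfold mn
  simp [wn_zero]

theorem mn_add_le (r : NNReal) (A B : Matrix ι κ (PowerSeries (MonoidAlgebra k G))) :
    mn r (A + B) ≤ mn r A + mn r B := by
  unfold mn
  rw [← Finset.sum_add_distrib]
  refine Finset.sum_le_sum fun i _ => ?_
  rw [← Finset.sum_add_distrib]
  refine Finset.sum_le_sum fun j _ => ?_
  exact wn_add_le r _ _

theorem mn_neg (r : NNReal) (A : Matrix ι κ (PowerSeries (MonoidAlgebra k G))) :
    mn r (-A) = mn r A := by
  unfold mn
  refine Finset.sum_congr rfl fun i _ => Finset.sum_congr rfl fun j _ => ?_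
  rw [Matrix.neg_apply, wn_neg]

theorem mn_sub_le (r : NNReal) (A B : Matrix ι κ (PowerSeries (MonoidAlgebra k G))) :
    mn r (A - B) ≤ mn r A + mn r B := by
  rw [sub_eq_add_neg, ← mn_neg r B]
  exact mn_add_le r A (-B)

theorem mn_sub_comm (r : NNReal) (A B : Matrix ι κ (PowerSeries (MonoidAlgebra k G))) :
    mn r (A - B) = mn r (B - A) := by
  rw [← mn_neg r (A - B), neg_sub]

theorem mn_mul_le (r : NNReal) (A : Matrix ι κ (PowerSeries (MonoidAlgebra k G)))
    (B : Matrix κ ν (PowerSeries (MonoidAlgebra k G))) :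
    mn r (A * B) ≤ mn r A * mn r B := by
  unfold mn
  rw [Finset.sum_mul]
  refine Finset.sum_le_sum fun i _ => ?_
  calc ∑ j, wn r ((A * B) i j) ≤ ∑ j, ∑ l, wn r (A i l) * wn r (B l j) := by
        refine Finset.sum_le_sum fun j _ => ?_
        rw [Matrix.mul_apply]
        refine (wn_sum_le r _ _).trans ?_
        exact Finset.sum_le_sum fun l _ => wn_mul_le r _ _
    _ = ∑ l, wn r (A i l) * ∑ j, wn r (B l j) := by
        rw [Finset.sum_comm]
        refine Finset.sum_congr rfl fun l _ => ?_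
        rw [Finset.mul_sum]
    _ ≤ ∑ l, wn r (A i l) * ∑ l', ∑ j, wn r (B l' j) := by
        refine Finset.sum_le_sum fun l _ => ?_
        gcongr
        exact Finset.single_le_sum (f := fun l' => ∑ j, wn r (B l' j)) (fun _ _ => zero_le)
          (Finset.mem_univ l)
    _ = _ := by rw [Finset.sum_mul]

theorem wn_le_mn (r : NNReal) (A : Matrix ι κ (PowerSeries (MonoidAlgebra k G))) (i : ι) (j : κ) :
    wn r (A i j) ≤ mn r A := by
  unfold mn
  refine le_trans ?_ (Finset.single_le_sum (f := fun i => ∑ j, wn r (A i j))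
    (fun _ _ => zero_le) (Finset.mem_univ i))
  exact Finset.single_le_sum (f := fun j => wn r (A i j)) (fun _ _ => zero_le) (Finset.mem_univ j)

theorem mn_lt_top_iff (r : NNReal) (A : Matrix ι κ (PowerSeries (MonoidAlgebra k G))) :
    mn r A < ⊤ ↔ ∀ i j, wn r (A i j) < ⊤ := by
  constructor
  · intro h i j
    exact (wn_le_mn r A i j).trans_lt h
  · intro h
    unfold mn
    exact ENNReal.sum_lt_top.mpr fun i _ => ENNReal.sum_lt_top.mpr fun j _ => h i j

theorem mn_lt_top_of_mpoly (r : NNReal) {A : Matrix ι κ (PowerSeries (MonoidAlgebra k G))}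
    (hA : MPoly A) : mn r A < ⊤ :=
  (mn_lt_top_iff r A).mpr fun i j => wn_lt_top_of_isPoly r (hA i j)

end

section int

variable {G : Type*} [Group G] [Fintype G]

theorem one_le_gn_of_ne_zero {x : MonoidAlgebra ℤ G} (hx : x ≠ 0) : 1 ≤ gn x := by
  have : ∃ g, x.coeff g ≠ 0 := by
    by_contra h
    push Not at h
    apply hx
    ext g
    rw [h g]
    simp
  obtain ⟨g, hg⟩ := this
  refine le_trans ?_ (enorm_coeff_le_gn x g)
  rw [enorm_eq_nnnorm, ← ENNReal.coe_one]
  apply ENNReal.coe_le_coe.mpr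
  rw [← NNReal.coe_le_coe, coe_nnnorm, NNReal.coe_one, Int.norm_eq_abs]
  have h1 : (1 : ℤ) ≤ |x.coeff g| := Int.one_le_abs hg
  exact_mod_cast h1

/-- integral power series of small norm vanish in low degrees -/
theorem coeff_eq_zero_of_wn_lt (r : NNReal) (hr : r ≤ 1) {f : PowerSeries (MonoidAlgebra ℤ G)}
    {n : ℕ} (h : wn r f < (r : ENNReal) ^ n) {d : ℕ} (hd : d ≤ n) : coeff d f = 0 := by
  by_contra hne
  have h1 := one_le_gn_of_ne_zero hne
  have h2 := gn_coeff_le_wn r f d
  have h3 : (r : ENNReal) ^ n ≤ (r : ENNReal) ^ d := pow_le_pow_right_of_le_one' (by exact_mod_cast hr) hd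
  have h4 : (r : ENNReal) ^ d ≤ gn (coeff d f) * (r : ENNReal) ^ d := by
    calc (r : ENNReal) ^ d = 1 * (r : ENNReal) ^ d := by rw [one_mul]
      _ ≤ _ := by gcongr
  exact absurd ((h3.trans h4).trans h2) (not_le.mpr h)

end int

end Pool.Agent.TS
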