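import Pool.Agent.Lib.MP_402c18_an.Defs

/-!
# MP_402c18_an (S04445): shift equivalence and polynomial matrices

`SE` is an equivalence relation, padding by zeros and reindexing do not change the class, and
an isomorphism of the modules presented by `1 - tA` and `1 - tB` gives a shift equivalence
(`SE.of_poly`, `SE.of_equiv`).
-/

set_option autoImplicit false

namespace Pool.Agent.TS

open PowerSeries

/-! ## Polynomial matrices -/

section poly

variable {R : Type*} [Ring R]

theorem IsPoly.zero : IsPoly (0 : PowerSeries R) := ⟨0, fun d _ => by simp⟩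

theorem IsPoly.one : IsPoly (1 : PowerSeries R) :=
  ⟨1, fun d hd => by rw [coeff_one, if_neg (by omega)]⟩

theorem IsPoly.monomial (n : ℕ) (a : R) : IsPoly (PowerSeries.monomial n a) :=
  ⟨n + 1, fun d hd => by rw [coeff_monomial, if_neg (by omega)]⟩

theorem IsPoly.add {f g : PowerSeries R} (hf : IsPoly f) (hg : IsPoly g) : IsPoly (f + g) := by
  obtain ⟨K, hK⟩ := hf
  obtain ⟨L, hL⟩ := hg
  refine ⟨max K L, fun d hd => ?_⟩
  rw [map_add, hK d (le_trans (le_max_left _ _) hd), hL d (le_trans (le_max_right _ _) hd),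
    add_zero]

theorem IsPoly.neg {f : PowerSeries R} (hf : IsPoly f) : IsPoly (-f) := by
  obtain ⟨K, hK⟩ := hf
  exact ⟨K, fun d hd => by rw [map_neg, hK d hd, neg_zero]⟩

theorem IsPoly.sub {f g : PowerSeries R} (hf : IsPoly f) (hg : IsPoly g) : IsPoly (f - g) := by
  rw [sub_eq_add_neg]; exact hf.add hg.neg

theorem IsPoly.mul {f g : PowerSeries R} (hf : IsPoly f) (hg : IsPoly g) : IsPoly (f * g) := by
  obtain ⟨K, hK⟩ := hf
  obtain ⟨L, hL⟩ := hg
  refine ⟨K + L, fun d hd => ?_⟩
  rw [coeff_mul]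
  refine Finset.sum_eq_zero fun p hp => ?_
  rw [Finset.HasAntidiagonal.mem_antidiagonal] at hp
  by_cases h : K ≤ p.1
  · rw [hK _ h, zero_mul]
  · rw [hL p.2 (by omega), mul_zero]

theorem IsPoly.sum {α : Type*} (s : Finset α) (f : α → PowerSeries R)
    (h : ∀ a ∈ s, IsPoly (f a)) : IsPoly (∑ a ∈ s, f a) :=
  Finset.sum_induction f IsPoly (fun _ _ => IsPoly.add) IsPoly.zero h

variable {ι κ ν : Type*}

theorem MPoly.zero : MPoly (0 : Matrix ι κ (PowerSeries R)) := fun _ _ => IsPoly.zero

theorem MPoly.one [DecidableEq ι] : MPoly (1 : Matrix ι ι (PowerSeries R)) := by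
  intro i j
  by_cases h : i = j
  · rw [h, Matrix.one_apply_eq]; exact IsPoly.one
  · rw [Matrix.one_apply_ne h]; exact IsPoly.zero

theorem MPoly.add {M N : Matrix ι κ (PowerSeries R)} (hM : MPoly M) (hN : MPoly N) :
    MPoly (M + N) := fun i j => (hM i j).add (hN i j)

theorem MPoly.sub {M N : Matrix ι κ (PowerSeries R)} (hM : MPoly M) (hN : MPoly N) :
    MPoly (M - N) := fun i j => (hM i j).sub (hN i j)

theorem MPoly.mul [Fintype κ] {M : Matrix ι κ (PowerSeries R)} {N : Matrix κ ν (PowerSeries R)}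
    (hM : MPoly M) (hN : MPoly N) : MPoly (M * N) := by
  intro i j
  rw [Matrix.mul_apply]
  exact IsPoly.sum _ _ fun a _ => (hM i a).mul (hN a j)

theorem MPoly.tmul (A : Matrix ι κ R) : MPoly (tmul A) := fun i j => IsPoly.monomial 1 (A i j)

/-- a uniform degree bound for a polynomial matrix -/
theorem MPoly.bound [Finite ι] [Finite κ] {M : Matrix ι κ (PowerSeries R)} (hM : MPoly M) :
    ∃ K : ℕ, ∀ d, K ≤ d → ∀ i j, coeff d (M i j) = 0 := by
  cases nonempty_fintype ι
  cases nonempty_fintype κ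
  choose K hK using hM
  refine ⟨∑ i, ∑ j, K i j, fun d hd i j => hK i j d (le_trans ?_ hd)⟩
  calc K i j ≤ ∑ j, K i j := Finset.single_le_sum (f := fun j => K i j) (by simp) (Finset.mem_univ j)
    _ ≤ ∑ i, ∑ j, K i j :=
      Finset.single_le_sum (f := fun i => ∑ j, K i j) (by simp) (Finset.mem_univ i)

end poly

/-! ## Coefficient matrices -/

section cf

variable {R : Type*} [Ring R] {ι κ ν : Type*}

/-- The matrix of `d`-th coefficients. -/
noncomputable def cf (d : ℕ) (M : Matrix ι κ (PowerSeries R)) : Matrix ι κ R := fun i j => coeff d (M i j)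

theorem cf_apply (d : ℕ) (M : Matrix ι κ (PowerSeries R)) (i : ι) (j : κ) :
    cf d M i j = coeff d (M i j) := rfl

theorem cf0 {M : Matrix ι κ (PowerSeries R)} {K : ℕ}
    (hM : ∀ d, K ≤ d → ∀ i j, coeff d (M i j) = 0) (d : ℕ) (hd : K ≤ d) : cf d M = 0 := by
  ext i j; exact hM d hd i j

theorem cf_add (d : ℕ) (M N : Matrix ι κ (PowerSeries R)) : cf d (M + N) = cf d M + cf d N := by
  ext i j; simp [cf]

theorem cf_sub (d : ℕ) (M N : Matrix ι κ (PowerSeries R)) : cf d (M - N) = cf d M - cf d N := by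
  ext i j; simp [cf]

theorem cf_one [DecidableEq ι] (d : ℕ) :
    cf d (1 : Matrix ι ι (PowerSeries R)) = if d = 0 then 1 else 0 := by
  ext i j
  by_cases h : i = j
  · subst h
    by_cases hd : d = 0 <;> simp [cf, hd, coeff_one]
  · by_cases hd : d = 0 <;> simp [cf, hd, h, Matrix.one_apply_ne]

theorem cf_ext {M N : Matrix ι κ (PowerSeries R)} (h : ∀ d, cf d M = cf d N) : M = N := by
  ext i j d
  exact congrFun (congrFun (h d) i) j

theorem cf_mul [Fintype κ] (d : ℕ) (M : Matrix ι κ (PowerSeries R))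
    (N : Matrix κ ν (PowerSeries R)) :
    cf d (M * N) = ∑ p ∈ Finset.HasAntidiagonal.antidiagonal d, cf p.1 M * cf p.2 N := by
  ext i j
  rw [cf_apply, Matrix.mul_apply, map_sum, Matrix.sum_apply]
  simp_rw [coeff_mul, Matrix.mul_apply, cf_apply]
  rw [Finset.sum_comm]

theorem cf_tmul (d : ℕ) (A : Matrix ι κ R) : cf d (tmul A) = if d = 1 then A else 0 := by
  ext i j
  rw [cf_apply, tmul, Matrix.map_apply, coeff_monomial]
  split_ifs <;> rfl

theorem cf_tmul_mul_zero [Fintype κ] (A : Matrix ι κ R) (M : Matrix κ ν (PowerSeries R)) :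
    cf 0 (tmul A * M) = 0 := by
  rw [cf_mul]
  simp [cf_tmul]

theorem cf_tmul_mul_succ [Fintype κ] (d : ℕ) (A : Matrix ι κ R) (M : Matrix κ ν (PowerSeries R)) :
    cf (d + 1) (tmul A * M) = A * cf d M := by
  rw [cf_mul, Finset.sum_eq_single (1, d)]
  · simp [cf_tmul]
  · intro p hp hne
    rw [Finset.HasAntidiagonal.mem_antidiagonal] at hp
    rw [cf_tmul, if_neg, Matrix.zero_mul]
    rintro h
    exact hne (Prod.ext h (by simp; omega))
  · intro h
    exact absurd (Finset.HasAntidiagonal.mem_antidiagonal.2 (by simp; omega)) h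

theorem cf_mul_tmul_zero [Fintype κ] (M : Matrix ι κ (PowerSeries R)) (A : Matrix κ ν R) :
    cf 0 (M * tmul A) = 0 := by
  rw [cf_mul]
  simp [cf_tmul]

theorem cf_mul_tmul_succ [Fintype κ] (d : ℕ) (M : Matrix ι κ (PowerSeries R)) (A : Matrix κ ν R) :
    cf (d + 1) (M * tmul A) = cf d M * A := by
  rw [cf_mul, Finset.sum_eq_single (d, 1)]
  · simp [cf_tmul]
  · intro p hp hne
    rw [Finset.HasAntidiagonal.mem_antidiagonal] at hp
    rw [cf_tmul, if_neg, Matrix.mul_zero]
    rintro h
    exact hne (Prod.ext (by simp; omega) h)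
  · intro h
    exact absurd (Finset.HasAntidiagonal.mem_antidiagonal.2 (by simp)) h

end cf

/-! ## The resolvent -/

section res

variable {R : Type*} [Ring R] {ι κ : Type*} [Fintype ι] [DecidableEq ι]

/-- The resolvent `∑ tⁿ Aⁿ`. -/
noncomputable def res (A : Matrix ι ι R) : Matrix ι ι (PowerSeries R) :=
  fun i j => PowerSeries.mk fun n => (A ^ n) i j

theorem cf_res (A : Matrix ι ι R) (d : ℕ) : cf d (res A) = A ^ d := by
  ext i j
  rw [cf_apply, res, coeff_mk]

theorem res_mul (A : Matrix ι ι R) : res A * (1 - tmul A) = 1 := by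
  refine cf_ext fun d => ?_
  rw [Matrix.mul_sub, Matrix.mul_one, cf_sub, cf_one, cf_res]
  cases d with
  | zero => rw [cf_mul_tmul_zero]; simp
  | succ d => rw [cf_mul_tmul_succ, cf_res, pow_succ]; simp

theorem mul_res (A : Matrix ι ι R) : (1 - tmul A) * res A = 1 := by
  refine cf_ext fun d => ?_
  rw [Matrix.sub_mul, Matrix.one_mul, cf_sub, cf_one, cf_res]
  cases d with
  | zero => rw [cf_tmul_mul_zero]; simp
  | succ d => rw [cf_tmul_mul_succ, cf_res, pow_succ']; simp

/-- recursion for the coefficients of `f (1 - tB)⁻¹` -/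
theorem cf_mul_res_succ (f : Matrix κ ι (PowerSeries R)) (B : Matrix ι ι R) (n : ℕ) :
    cf (n + 1) (f * res B) = cf n (f * res B) * B + cf (n + 1) f := by
  have h : f * res B - f * res B * tmul B = f := by
    have := congrArg (fun M => f * M) (res_mul B)
    simp only [Matrix.mul_sub, Matrix.mul_one, ← Matrix.mul_assoc] at this
    exact this
  have h2 := congrArg (cf (n + 1)) h
  rw [cf_sub, cf_mul_tmul_succ] at h2
  rw [← h2]; abel

/-- recursion for the coefficients of `(1 - tA)⁻¹ g` -/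
theorem cf_res_mul_succ (g : Matrix ι κ (PowerSeries R)) (A : Matrix ι ι R) (n : ℕ) :
    cf (n + 1) (res A * g) = A * cf n (res A * g) + cf (n + 1) g := by
  have h : res A * g - tmul A * (res A * g) = g := by
    have := congrArg (fun M => M * g) (mul_res A)
    simp only [Matrix.sub_mul, Matrix.one_mul, Matrix.mul_assoc] at this
    exact this
  have h2 := congrArg (cf (n + 1)) h
  rw [cf_sub, cf_tmul_mul_succ] at h2
  rw [← h2]; abel

end res

/-! ## Shift equivalence -/

section SE

variable {R : Type*} [Ring R] {ι κ ν : Type*} [Fintype ι] [DecidableEq ι] [Fintype κ] [DecidableEq κ]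
  [Fintype ν] [DecidableEq ν]

theorem SE.symm {A : Matrix ι ι R} {B : Matrix κ κ R} (h : SE A B) : SE B A := by
  obtain ⟨l, U, V, h1, h2, h3, h4⟩ := h
  exact ⟨l, V, U, h2.symm, h1.symm, h4, h3⟩

theorem pow_intertwine {A : Matrix ι ι R} {B : Matrix κ κ R} {U : Matrix ι κ R}
    (h : A * U = U * B) (k : ℕ) : A ^ k * U = U * B ^ k := by
  induction k with
  | zero => simp
  | succ k ih => rw [pow_succ, pow_succ, Matrix.mul_assoc, h, ← Matrix.mul_assoc, ih,
      Matrix.mul_assoc]

theorem SE.trans {A : Matrix ι ι R} {B : Matrix κ κ R} {C : Matrix ν ν R}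
    (h : SE A B) (h' : SE B C) : SE A C := by
  obtain ⟨l, U, V, h1, h2, h3, h4⟩ := h
  obtain ⟨l', U', V', h1', h2', h3', h4'⟩ := h'
  refine ⟨l + l', U * U', V' * V, ?_, ?_, ?_, ?_⟩
  · rw [← Matrix.mul_assoc, h1, Matrix.mul_assoc, h1', Matrix.mul_assoc]
  · rw [Matrix.mul_assoc, h2, ← Matrix.mul_assoc, h2', Matrix.mul_assoc]
  · rw [Matrix.mul_assoc, ← Matrix.mul_assoc U' V' V, h3', ← Matrix.mul_assoc,
      ← pow_intertwine h1, Matrix.mul_assoc, h3, ← pow_add, add_comm]
  · rw [Matrix.mul_assoc, ← Matrix.mul_assoc V U U', h4, pow_intertwine h1', ← Matrix.mul_assoc,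
      h4', ← pow_add, add_comm]

theorem SE.pad_left (B : Matrix κ κ R) : SE B (Matrix.fromBlocks (0 : Matrix ι ι R) 0 0 B) := by
  refine ⟨1, Matrix.of fun i j => Sum.elim (fun _ => 0) (fun j => B i j) j,
    Matrix.of fun i j => Sum.elim (fun _ => 0) (fun i => (1 : Matrix κ κ R) i j) i,
    ?_, ?_, ?_, ?_⟩
  · ext i (j | j) <;> simp [Matrix.mul_apply]
  · ext (i | i) j <;> simp [Matrix.mul_apply, Matrix.one_apply]
  · ext i j; simp [Matrix.mul_apply, Matrix.one_apply]
  · ext (i | i) (j | j) <;> simp [Matrix.mul_apply, Matrix.one_apply]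

theorem SE.pad_right (B : Matrix κ κ R) : SE B (Matrix.fromBlocks B 0 0 (0 : Matrix ι ι R)) := by
  refine ⟨1, Matrix.of fun i j => Sum.elim (fun j => B i j) (fun _ => 0) j,
    Matrix.of fun i j => Sum.elim (fun i => (1 : Matrix κ κ R) i j) (fun _ => 0) i,
    ?_, ?_, ?_, ?_⟩
  · ext i (j | j) <;> simp [Matrix.mul_apply]
  · ext (i | i) j <;> simp [Matrix.mul_apply, Matrix.one_apply]
  · ext i j; simp [Matrix.mul_apply, Matrix.one_apply]
  · ext (i | i) (j | j) <;> simp [Matrix.mul_apply, Matrix.one_apply]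

theorem SE.reindex (B : Matrix κ κ R) (e : κ ≃ ι) : SE B (Matrix.reindex e e B) := by
  refine ⟨1, B.submatrix id e.symm, (1 : Matrix κ κ R).submatrix e.symm id, ?_, ?_, ?_, ?_⟩
  · rw [Matrix.reindex_apply, Matrix.submatrix_mul_equiv]
    ext i j; simp [Matrix.mul_apply]
  · ext i j
    simp [Matrix.mul_apply, Matrix.one_apply]
    rw [Finset.sum_eq_single (e j)]
    · simp
    · intro b _ hb
      rw [if_neg]
      intro h; exact hb (by rw [← h]; simp)
    · simp
  · rw [Matrix.submatrix_mul_equiv]; simp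
  · ext i j
    simp [Matrix.mul_apply, Matrix.one_apply]

/-- An isomorphism between the modules presented by `1 - tA` and `1 - tB`, given by polynomial
matrices, gives a shift equivalence. -/
theorem SE.of_poly (A : Matrix ι ι R) (B : Matrix κ κ R)
    (f g : Matrix ι κ (PowerSeries R)) (f' h : Matrix κ ι (PowerSeries R))
    (q : Matrix ι ι (PowerSeries R)) (q' : Matrix κ κ (PowerSeries R))
    (hf : MPoly f) (hg : MPoly g) (hf' : MPoly f') (hh : MPoly h) (hq : MPoly q) (hq' : MPoly q')
    (h1 : (1 - tmul A) * f = g * (1 - tmul B)) (h2 : (1 - tmul B) * f' = h * (1 - tmul A))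
    (h3 : 1 - f * f' = q * (1 - tmul A)) (h4 : 1 - f' * f = q' * (1 - tmul B)) : SE A B := by
  obtain ⟨K1, hf⟩ := hf.bound
  obtain ⟨K2, hg⟩ := hg.bound
  obtain ⟨K3, hf'⟩ := hf'.bound
  obtain ⟨K4, hh⟩ := hh.bound
  obtain ⟨K5, hq⟩ := hq.bound
  obtain ⟨K6, hq'⟩ := hq'.bound
  set n := K1 + K2 + K3 + K4 + K5 + K6 with hn
  -- the two descriptions of `U` and `V`
  have eU : f * res B = res A * g := by
    calc f * res B = (res A * (1 - tmul A)) * f * res B := by rw [res_mul, Matrix.one_mul]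
      _ = res A * ((1 - tmul A) * f) * res B := by simp only [Matrix.mul_assoc]
      _ = res A * g * ((1 - tmul B) * res B) := by rw [h1]; simp only [Matrix.mul_assoc]
      _ = res A * g := by rw [mul_res, Matrix.mul_one]
  have eV : f' * res A = res B * h := by
    calc f' * res A = (res B * (1 - tmul B)) * f' * res A := by rw [res_mul, Matrix.one_mul]
      _ = res B * ((1 - tmul B) * f') * res A := by simp only [Matrix.mul_assoc]
      _ = res B * h * ((1 - tmul A) * res A) := by rw [h2]; simp only [Matrix.mul_assoc]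
      _ = res B * h := by rw [mul_res, Matrix.mul_one]
  have U1 : ∀ m, n ≤ m → cf (m + 1) (f * res B) = cf m (f * res B) * B := fun m hm => by
    rw [cf_mul_res_succ, cf0 hf _ (by omega), add_zero]
  have U2 : ∀ m, n ≤ m → cf (m + 1) (f * res B) = A * cf m (f * res B) := fun m hm => by
    rw [eU, cf_res_mul_succ, cf0 hg _ (by omega), add_zero]
  have V1 : ∀ m, n ≤ m → cf (m + 1) (f' * res A) = cf m (f' * res A) * A := fun m hm => by
    rw [cf_mul_res_succ, cf0 hf' _ (by omega), add_zero]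
  have V2 : ∀ m, n ≤ m → cf (m + 1) (f' * res A) = B * cf m (f' * res A) := fun m hm => by
    rw [eV, cf_res_mul_succ, cf0 hh _ (by omega), add_zero]
  have U3 : ∀ j, cf (n + j) (f * res B) = A ^ j * cf n (f * res B) := by
    intro j
    induction j with
    | zero => simp
    | succ j ih => rw [← add_assoc, U2 _ (by omega), ih, pow_succ', Matrix.mul_assoc]
  have V3 : ∀ j, cf (n + j) (f' * res A) = B ^ j * cf n (f' * res A) := by
    intro j
    induction j with
    | zero => simp
    | succ j ih => rw [← add_assoc, V2 _ (by omega), ih, pow_succ', Matrix.mul_assoc]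
  refine ⟨n + n, cf n (f * res B), cf n (f' * res A), ?_, ?_, ?_, ?_⟩
  · rw [← U2 n le_rfl, U1 n le_rfl]
  · rw [← V1 n le_rfl, V2 n le_rfl]
  · have e1 : f * (f' * res A) = res A - q := by
      rw [← Matrix.mul_assoc]
      have : f * f' = 1 - q * (1 - tmul A) := by rw [← h3]; abel
      rw [this, Matrix.sub_mul, Matrix.one_mul, Matrix.mul_assoc, mul_res, Matrix.mul_one]
    have e2 : cf (n + n) (f * (f' * res A)) = A ^ (n + n) := by
      rw [e1, cf_sub, cf_res, cf0 hq _ (by omega), sub_zero]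
    rw [← e2, cf_mul (n + n), cf_mul n, Matrix.sum_mul,
      Finset.Nat.sum_antidiagonal_eq_sum_range_succ_mk,
      Finset.Nat.sum_antidiagonal_eq_sum_range_succ_mk]
    refine Finset.sum_subset_zero_on_sdiff ?_ ?_ ?_
    · intro k hk
      rw [Finset.mem_range] at hk ⊢; omega
    · intro k hk
      rw [Finset.mem_sdiff, Finset.mem_range, Finset.mem_range] at hk
      rw [cf0 hf _ (by omega), Matrix.zero_mul]
    · intro k hk
      rw [Finset.mem_range] at hk
      rw [Matrix.mul_assoc, cf_res, ← V3]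
      congr 2
      simp only
      omega
  · have e1 : f' * (f * res B) = res B - q' := by
      rw [← Matrix.mul_assoc]
      have : f' * f = 1 - q' * (1 - tmul B) := by rw [← h4]; abel
      rw [this, Matrix.sub_mul, Matrix.one_mul, Matrix.mul_assoc, mul_res, Matrix.mul_one]
    have e2 : cf (n + n) (f' * (f * res B)) = B ^ (n + n) := by
      rw [e1, cf_sub, cf_res, cf0 hq' _ (by omega), sub_zero]
    rw [← e2, cf_mul (n + n), cf_mul n, Matrix.sum_mul,
      Finset.Nat.sum_antidiagonal_eq_sum_range_succ_mk,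
      Finset.Nat.sum_antidiagonal_eq_sum_range_succ_mk]
    refine Finset.sum_subset_zero_on_sdiff ?_ ?_ ?_
    · intro k hk
      rw [Finset.mem_range] at hk ⊢; omega
    · intro k hk
      rw [Finset.mem_sdiff, Finset.mem_range, Finset.mem_range] at hk
      rw [cf0 hf' _ (by omega), Matrix.zero_mul]
    · intro k hk
      rw [Finset.mem_range] at hk
      rw [Matrix.mul_assoc, cf_res, ← U3]
      congr 2
      simp only
      omega

theorem SE.of_equiv (A B : Matrix ι ι R) (E F : (Matrix ι ι (PowerSeries R))ˣ)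
    (hE : MPoly E.val) (hE' : MPoly (E⁻¹).val) (hF : MPoly F.val) (hF' : MPoly (F⁻¹).val)
    (h : E.val * (1 - tmul A) * F.val = 1 - tmul B) : SE A B := by
  refine SE.of_poly A B F.val (E⁻¹).val (F⁻¹).val E.val 0 0 hF hE' hF' hE MPoly.zero MPoly.zero
    ?_ ?_ ?_ ?_
  · rw [← h, Matrix.mul_assoc, ← Matrix.mul_assoc (E⁻¹).val E.val, Units.inv_mul,
      Matrix.one_mul]
  · rw [← h, Matrix.mul_assoc, Units.mul_inv, Matrix.mul_one]
  · rw [Units.mul_inv, sub_self, Matrix.zero_mul]
  · rw [Units.inv_mul, sub_self, Matrix.zero_mul]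

end SE

end Pool.Agent.TS
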