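import Pool.Agent.Lib.MP_402c18_an.Defs2

/-!
# Block algebra with elementary matrices (for the piece SCAF)
-/

set_option autoImplicit false

namespace Pool.Agent.TS

section alg

variable {S : Type*} [Ring S] {ι κ : Type*} [Fintype ι] [DecidableEq ι] [Fintype κ] [DecidableEq κ]

theorem el_mul_el' (a b : ι) (h : a ≠ b) (f g : S) : el a b f * el a b g = el a b (f + g) := by
  unfold el
  have h0 : Matrix.single a b f * Matrix.single a b g = 0 :=
    Matrix.single_mul_single_of_ne _ _ _ _ (Ne.symm h) _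
  rw [Matrix.add_mul, Matrix.mul_add, Matrix.mul_add, Matrix.one_mul, Matrix.one_mul, Matrix.mul_one,
    h0, add_zero, Matrix.single_add]
  abel

/-- the elementary unit -/
def elU (a b : ι) (h : a ≠ b) (f : S) : (Matrix ι ι S)ˣ where
  val := el a b f
  inv := el a b (-f)
  val_inv := by rw [el_mul_el' a b h]; simp [el]
  inv_val := by rw [el_mul_el' a b h]; simp [el]

theorem elU_mem (a b : ι) (h : a ≠ b) (f : S) {P : Set S} (hf : f ∈ P) : elU a b h f ∈ elGroup ι P :=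
  Subgroup.subset_closure ⟨a, b, f, h, hf, rfl⟩

theorem row_unip {P : Set S} (o : ι) (f : ι → S) (s : Finset ι) (hs : o ∉ s)
    (hf : ∀ j ∈ s, f j ∈ P) :
    ∃ M ∈ elGroup ι P, M.val = 1 + ∑ j ∈ s, Matrix.single o j (f j) := by
  induction s using Finset.induction_on with
  | empty => exact ⟨1, one_mem _, by simp⟩
  | insert a s ha ih =>
    obtain ⟨M, hM, hMv⟩ := ih (fun h => hs (Finset.mem_insert_of_mem h))
      (fun j hj => hf j (Finset.mem_insert_of_mem hj))
    have hoa : o ≠ a := fun h => hs (h ▸ Finset.mem_insert_self a s)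
    refine ⟨elU o a hoa (f a) * M, mul_mem (elU_mem _ _ _ _ (hf a (Finset.mem_insert_self a s))) hM, ?_⟩
    rw [Units.val_mul, hMv]
    show el o a (f a) * _ = _
    unfold el
    rw [Finset.sum_insert ha, Matrix.add_mul, Matrix.one_mul, Matrix.mul_add, Matrix.mul_one,
      Matrix.mul_sum, Finset.sum_eq_zero (s := s) (f := fun i => Matrix.single o a (f a) *
        Matrix.single o i (f i)) (fun i _ => Matrix.single_mul_single_of_ne _ _ _ _ (Ne.symm hoa) _)]
    abel

theorem col_unip {P : Set S} (o : ι) (f : ι → S) (s : Finset ι) (hs : o ∉ s)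
    (hf : ∀ j ∈ s, f j ∈ P) :
    ∃ M ∈ elGroup ι P, M.val = 1 + ∑ j ∈ s, Matrix.single j o (f j) := by
  induction s using Finset.induction_on with
  | empty => exact ⟨1, one_mem _, by simp⟩
  | insert a s ha ih =>
    obtain ⟨M, hM, hMv⟩ := ih (fun h => hs (Finset.mem_insert_of_mem h))
      (fun j hj => hf j (Finset.mem_insert_of_mem hj))
    have hoa : a ≠ o := fun h => hs (h ▸ Finset.mem_insert_self a s)
    refine ⟨M * elU a o hoa (f a), mul_mem hM (elU_mem _ _ _ _ (hf a (Finset.mem_insert_self a s))), ?_⟩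
    rw [Units.val_mul, hMv]
    show _ * el a o (f a) = _
    unfold el
    rw [Finset.sum_insert ha, Matrix.mul_add, Matrix.mul_one, Matrix.add_mul, Matrix.one_mul,
      Matrix.sum_mul, Finset.sum_eq_zero (s := s) (f := fun i => Matrix.single i o (f i) *
        Matrix.single a o (f a)) (fun i _ => Matrix.single_mul_single_of_ne _ _ _ _ (Ne.symm hoa) _)]
    abel

theorem row_block {P : Set S} (Z : Matrix Unit ι S) (hZ : ∀ j, Z () j ∈ P) :
    ∃ M ∈ elGroup (Unit ⊕ ι) P, M.val = Matrix.fromBlocks 1 Z 0 1 := by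
  obtain ⟨M, hM, hMv⟩ := row_unip (P := P) (Sum.inl () : Unit ⊕ ι)
    (fun j => Sum.elim (fun _ => 0) (fun j => Z () j) j)
    (Finset.univ.map ⟨Sum.inr, Sum.inr_injective⟩) (by simp) (by
      intro j hj
      obtain ⟨j', _, rfl⟩ := Finset.mem_map.mp hj
      exact hZ j')
  refine ⟨M, hM, ?_⟩
  rw [hMv, Finset.sum_map]
  ext i j
  rw [Matrix.add_apply, Matrix.sum_apply]
  rcases i with ⟨⟩ | i <;> rcases j with ⟨⟩ | j
  · simp
  · simp [Matrix.single_apply]
  · simp
  · simp [Matrix.one_apply]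

theorem col_block {P : Set S} (Z : Matrix ι Unit S) (hZ : ∀ j, Z j () ∈ P) :
    ∃ M ∈ elGroup (Unit ⊕ ι) P, M.val = Matrix.fromBlocks 1 0 Z 1 := by
  obtain ⟨M, hM, hMv⟩ := col_unip (P := P) (Sum.inl () : Unit ⊕ ι)
    (fun j => Sum.elim (fun _ => 0) (fun j => Z j ()) j)
    (Finset.univ.map ⟨Sum.inr, Sum.inr_injective⟩) (by simp) (by
      intro j hj
      obtain ⟨j', _, rfl⟩ := Finset.mem_map.mp hj
      exact hZ j')
  refine ⟨M, hM, ?_⟩
  rw [hMv, Finset.sum_map]
  ext i j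
  rw [Matrix.add_apply, Matrix.sum_apply]
  rcases i with ⟨⟩ | i <;> rcases j with ⟨⟩ | j
  · simp
  · simp
  · simp [Matrix.single_apply]
  · simp [Matrix.one_apply]

/-- equivalence by elementary matrices -/
def Eqv (P : Set S) (X Y : Matrix ι ι S) : Prop :=
  ∃ M₁ ∈ elGroup ι P, ∃ M₂ ∈ elGroup ι P, M₁.val * X * M₂.val = Y

theorem Eqv.symm {P : Set S} {X Y : Matrix ι ι S} (h : Eqv P X Y) : Eqv P Y X := by
  obtain ⟨M₁, h1, M₂, h2, rfl⟩ := h
  refine ⟨M₁⁻¹, inv_mem h1, M₂⁻¹, inv_mem h2, ?_⟩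
  have e : M₁⁻¹.val * (M₁.val * X * M₂.val) * M₂⁻¹.val =
      (M₁⁻¹.val * M₁.val) * X * (M₂.val * M₂⁻¹.val) := by noncomm_ring
  rw [e, Units.inv_mul, Units.mul_inv, one_mul, mul_one]

theorem Eqv.trans {P : Set S} {X Y Z : Matrix ι ι S} (h : Eqv P X Y) (h' : Eqv P Y Z) :
    Eqv P X Z := by
  obtain ⟨M₁, h1, M₂, h2, rfl⟩ := h
  obtain ⟨N₁, h1', N₂, h2', rfl⟩ := h'
  refine ⟨N₁ * M₁, mul_mem h1' h1, M₂ * N₂, mul_mem h2 h2', ?_⟩
  rw [Units.val_mul, Units.val_mul]
  noncomm_ring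

theorem Eqv.left {P : Set S} {X Y : Matrix ι ι S} {M : (Matrix ι ι S)ˣ} (hM : M ∈ elGroup ι P)
    (h : M.val * X = Y) : Eqv P X Y := ⟨M, hM, 1, one_mem _, by simpa using h⟩

/-- The basic block elimination. -/
theorem eqv_block {P : Set S} (hP : ∀ f ∈ P, -f ∈ P) (a : Matrix Unit Unit S) (b : Matrix Unit ι S)
    (c : Matrix ι Unit S) (M N : Matrix ι ι S) (hMN : M * N = 1) (hNM : N * M = 1)
    (hb : ∀ j, (b * N) () j ∈ P) (hc : ∀ j, (N * c) j () ∈ P) :
    Eqv P (Matrix.fromBlocks a b c M) (Matrix.fromBlocks (a - b * N * c) 0 0 M) := by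
  obtain ⟨M₁, h1, h1v⟩ := row_block (P := P) (-(b * N)) (fun j => hP _ (hb j))
  obtain ⟨M₂, h2, h2v⟩ := col_block (P := P) (-(N * c)) (fun j => hP _ (hc j))
  refine ⟨M₁, h1, M₂, h2, ?_⟩
  rw [h1v, h2v, Matrix.fromBlocks_multiply, Matrix.fromBlocks_multiply]
  have e1 : b + -(b * N) * M = 0 := by
    rw [Matrix.neg_mul, Matrix.mul_assoc, hNM, Matrix.mul_one, add_neg_cancel]
  have e2 : c + M * -(N * c) = 0 := by
    rw [Matrix.mul_neg, ← Matrix.mul_assoc, hMN, Matrix.one_mul, add_neg_cancel]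
  simp only [Matrix.one_mul, Matrix.mul_one, Matrix.zero_mul, Matrix.mul_zero, zero_add, add_zero,
    e1, e2]
  rw [Matrix.neg_mul, sub_eq_add_neg]

omit [Fintype κ] [DecidableEq κ] in
/-- left multiplication by an elementary matrix -/
theorem el_mul_apply (a b : ι) (f : S) (M : Matrix ι κ S) (i : ι) (j : κ) :
    (el a b f * M) i j = M i j + if i = a then f * M b j else 0 := by
  unfold el
  rw [Matrix.add_mul, Matrix.one_mul, Matrix.add_apply]
  congr 1
  split_ifs with h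
  · subst h
    rw [Matrix.single_mul_apply_same]
  · rw [Matrix.single_mul_apply_of_ne _ _ _ _ _ h]

theorem Eqv.reindex {P : Set S} {X Y : Matrix ι ι S} (e : ι ≃ κ) (h : Eqv P X Y) :
    Eqv P (X.submatrix e.symm e.symm) (Y.submatrix e.symm e.symm) := by
  have key : ∀ M ∈ elGroup ι P, ∃ M' ∈ elGroup κ P, M'.val = M.val.submatrix e.symm e.symm := by
    intro M hM
    set φ : Matrix ι ι S →+* Matrix κ κ S := (Matrix.reindexRingEquiv S e).toRingHom with hφ
    refine ⟨Units.map φ M, ?_, rfl⟩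
    have : (elGroup ι P).map (Units.map (φ : Matrix ι ι S →* Matrix κ κ S)) ≤ elGroup κ P := by
      unfold elGroup
      rw [MonoidHom.map_closure]
      apply Subgroup.closure_mono
      rintro _ ⟨u, ⟨a, b, f, hab, hf, hu⟩, rfl⟩
      refine ⟨e a, e b, f, fun h => hab (e.injective h), hf, ?_⟩
      show (u.val).submatrix e.symm e.symm = el (e a) (e b) f
      rw [hu]
      ext i j
      simp only [el, Matrix.submatrix_apply, Matrix.add_apply, Matrix.one_apply, Matrix.single_apply]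
      congr 1
      · simp
      · simp [Equiv.eq_symm_apply]
    exact this ⟨M, hM, rfl⟩
  obtain ⟨M₁, h1, M₂, h2, rfl⟩ := h
  obtain ⟨M₁', h1', e1⟩ := key M₁ h1
  obtain ⟨M₂', h2', e2⟩ := key M₂ h2
  refine ⟨M₁', h1', M₂', h2', ?_⟩
  rw [e1, e2, Matrix.submatrix_mul_equiv, Matrix.submatrix_mul_equiv]

end alg

end Pool.Agent.TS
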