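import Pool.Agent.Lib.MP_402c18_an.Comp
import Pool.Agent.Lib.MP_402c18_an.ScafAlg

/-!
# Series lemmas (for the piece SCAF)
-/

set_option autoImplicit false

namespace Pool.Agent.TS

open PowerSeries Filter

section ser

variable {G : Type*} [Group G] [Fintype G]

/-- series with nonnegative coefficients -/
def SN (f : PowerSeries (MonoidAlgebra ℤ G)) : Prop := ∀ d, NN (coeff d f)

omit [Fintype G] in
theorem SN.zero : SN (0 : PowerSeries (MonoidAlgebra ℤ G)) := fun d => by
  rw [map_zero]; exact NN.zero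

omit [Fintype G] in
theorem SN.add {f g : PowerSeries (MonoidAlgebra ℤ G)} (hf : SN f) (hg : SN g) : SN (f + g) :=
  fun d => by rw [map_add]; exact (hf d).add (hg d)

omit [Fintype G] in
theorem SN.sum {α : Type*} (s : Finset α) (f : α → PowerSeries (MonoidAlgebra ℤ G))
    (h : ∀ a ∈ s, SN (f a)) : SN (∑ a ∈ s, f a) :=
  Finset.sum_induction f SN (fun _ _ => SN.add) SN.zero h

omit [Fintype G] in
theorem SN.mul {f g : PowerSeries (MonoidAlgebra ℤ G)} (hf : SN f) (hg : SN g) : SN (f * g) :=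
  fun d => by
    rw [coeff_mul]
    exact NN.sum _ _ fun p _ => (hf p.1).mul (hg p.2)

omit [Fintype G] in
theorem SN.monomial {n : ℕ} {x : MonoidAlgebra ℤ G} (hx : NN x) : SN (monomial n x) := fun d => by
  rw [coeff_monomial]
  split_ifs
  · exact hx
  · exact NN.zero

omit [Fintype G] in
theorem SN.one : SN (1 : PowerSeries (MonoidAlgebra ℤ G)) := fun d => by
  rw [coeff_one]
  split_ifs
  · exact NN.one
  · exact NN.zero

variable {r : NNReal}

theorem fn_zero : wn r (0 : PowerSeries (MonoidAlgebra ℤ G)) < ⊤ := by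
  rw [wn_zero]; exact ENNReal.zero_lt_top

theorem fn_one : wn r (1 : PowerSeries (MonoidAlgebra ℤ G)) < ⊤ :=
  wn_lt_top_of_isPoly r IsPoly.one

theorem fn_monomial (n : ℕ) (x : MonoidAlgebra ℤ G) : wn r (monomial n x) < ⊤ :=
  wn_lt_top_of_isPoly r (IsPoly.monomial n x)

theorem fn_add {f g : PowerSeries (MonoidAlgebra ℤ G)} (hf : wn r f < ⊤) (hg : wn r g < ⊤) :
    wn r (f + g) < ⊤ := (wn_add_le r f g).trans_lt (ENNReal.add_lt_top.mpr ⟨hf, hg⟩)

theorem fn_neg {f : PowerSeries (MonoidAlgebra ℤ G)} (hf : wn r f < ⊤) : wn r (-f) < ⊤ := by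
  rwa [wn_neg]

theorem fn_sub {f g : PowerSeries (MonoidAlgebra ℤ G)} (hf : wn r f < ⊤) (hg : wn r g < ⊤) :
    wn r (f - g) < ⊤ := (wn_sub_le r f g).trans_lt (ENNReal.add_lt_top.mpr ⟨hf, hg⟩)

theorem fn_mul {f g : PowerSeries (MonoidAlgebra ℤ G)} (hf : wn r f < ⊤) (hg : wn r g < ⊤) :
    wn r (f * g) < ⊤ := (wn_mul_le r f g).trans_lt (ENNReal.mul_lt_top hf hg)

theorem fn_sum {α : Type*} (s : Finset α) (f : α → PowerSeries (MonoidAlgebra ℤ G))
    (h : ∀ a ∈ s, wn r (f a) < ⊤) : wn r (∑ a ∈ s, f a) < ⊤ :=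
  (wn_sum_le r s f).trans_lt (ENNReal.sum_lt_top.mpr h)

theorem fn_mat_mul {α β γ : Type*} [Fintype β] {M : Matrix α β (PowerSeries (MonoidAlgebra ℤ G))}
    {N : Matrix β γ (PowerSeries (MonoidAlgebra ℤ G))} (hM : ∀ i j, wn r (M i j) < ⊤)
    (hN : ∀ i j, wn r (N i j) < ⊤) (i : α) (j : γ) : wn r ((M * N) i j) < ⊤ := by
  rw [Matrix.mul_apply]
  exact fn_sum _ _ fun k _ => fn_mul (hM i k) (hN k j)

omit [Fintype G] in
theorem sn_mat_mul {α β γ : Type*} [Fintype β] {M : Matrix α β (PowerSeries (MonoidAlgebra ℤ G))}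
    {N : Matrix β γ (PowerSeries (MonoidAlgebra ℤ G))} (hM : ∀ i j, SN (M i j))
    (hN : ∀ i j, SN (N i j)) (i : α) (j : γ) : SN ((M * N) i j) := by
  rw [Matrix.mul_apply]
  exact SN.sum _ _ fun k _ => (hM i k).mul (hN k j)

omit [Fintype G] in
theorem sn_res {ι : Type*} [Fintype ι] [DecidableEq ι] {A : Matrix ι ι (MonoidAlgebra ℤ G)}
    (hA : ∀ i j, NN (A i j)) (i j : ι) : SN (res A i j) := fun d => by
  rw [res, coeff_mk]
  exact NN.pow hA d i j

/-- finiteness of the resolvent norm from a geometric bound -/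
theorem fn_res {ι : Type*} [Fintype ι] [DecidableEq ι] {A : Matrix ι ι (MonoidAlgebra ℤ G)}
    (hA : ∀ i j, NN (A i j)) {μ K : ℝ} (hμ : 0 < μ) (hK : 0 < K) (hrμ : (r : ℝ) * μ < 1)
    (h : ∀ (k : ℕ) (i j : ι) (g : G), (((A ^ k) i j).coeff g : ℝ) ≤ K * μ ^ k) (i j : ι) :
    wn r (res A i j) < ⊤ := by
  have hgn : ∀ d, gn (coeff d (res A i j)) ≤
      ENNReal.ofReal (Fintype.card G * K) * (ENNReal.ofReal μ) ^ d := by
    intro d
    rw [res, coeff_mk, ← ENNReal.ofReal_pow hμ.le, ← ENNReal.ofReal_mul (by positivity)]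
    unfold gn
    calc ∑ g : G, ‖((A ^ d) i j).coeff g‖ₑ ≤ ∑ _g : G, ENNReal.ofReal (K * μ ^ d) := by
          refine Finset.sum_le_sum fun g _ => ?_
          have h1 : ‖((A ^ d) i j).coeff g‖ₑ = ENNReal.ofReal ((((A ^ d) i j).coeff g : ℤ) : ℝ) := by
            rw [← ofReal_norm, Int.norm_eq_abs, abs_of_nonneg]
            exact_mod_cast NN.pow hA d i j g
          rw [h1]
          exact ENNReal.ofReal_le_ofReal (h d i j g)
      _ = _ := by
          rw [Finset.sum_const, Finset.card_univ, nsmul_eq_mul, ← ENNReal.ofReal_natCast,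
            ← ENNReal.ofReal_mul (by positivity), mul_assoc]
  rw [wn_eq]
  calc ∑' d : ℕ, gn (coeff d (res A i j)) * (r : ENNReal) ^ d
      ≤ ∑' d : ℕ, ENNReal.ofReal (Fintype.card G * K) * (ENNReal.ofReal (μ * r)) ^ d := by
        refine ENNReal.tsum_le_tsum fun d => ?_
        rw [ENNReal.ofReal_mul hμ.le, ENNReal.ofReal_coe_nnreal, mul_pow, ← mul_assoc]
        gcongr
        exact hgn d
    _ < ⊤ := by
        rw [ENNReal.tsum_mul_left]
        refine ENNReal.mul_lt_top ENNReal.ofReal_lt_top ?_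
        rw [ENNReal.tsum_geometric]
        rw [ENNReal.inv_lt_top]
        rw [tsub_pos_iff_lt, ENNReal.ofReal_lt_one]
        rw [mul_comm]; exact hrμ

omit [Fintype G] in
theorem coeff_monomial_mul' (d n : ℕ) (x : MonoidAlgebra ℤ G)
    (f : PowerSeries (MonoidAlgebra ℤ G)) :
    coeff n (monomial d x * f) = if d ≤ n then x * coeff (n - d) f else 0 := by
  rw [coeff_mul]
  split_ifs with h
  · rw [Finset.sum_eq_single (d, n - d)]
    · rw [coeff_monomial, if_pos rfl]
    · intro p hp hne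
      rw [Finset.HasAntidiagonal.mem_antidiagonal] at hp
      rw [coeff_monomial, if_neg, zero_mul]
      intro h'
      exact hne (Prod.ext h' (by simp; omega))
    · intro h'
      exact absurd (Finset.HasAntidiagonal.mem_antidiagonal.mpr (by simp; omega)) h'
  · refine Finset.sum_eq_zero fun p hp => ?_
    rw [Finset.HasAntidiagonal.mem_antidiagonal] at hp
    rw [coeff_monomial, if_neg (by omega), zero_mul]

omit [Fintype G] in
theorem coeff_mul_monomial' (d n : ℕ) (x : MonoidAlgebra ℤ G)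
    (f : PowerSeries (MonoidAlgebra ℤ G)) :
    coeff n (f * monomial d x) = if d ≤ n then coeff (n - d) f * x else 0 := by
  rw [coeff_mul]
  split_ifs with h
  · rw [Finset.sum_eq_single (n - d, d)]
    · rw [coeff_monomial, if_pos rfl]
    · intro p hp hne
      rw [Finset.HasAntidiagonal.mem_antidiagonal] at hp
      rw [coeff_monomial, if_neg, mul_zero]
      intro h'
      exact hne (Prod.ext (by simp; omega) h')
    · intro h'
      exact absurd (Finset.HasAntidiagonal.mem_antidiagonal.mpr (by simp; omega)) h'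
  · refine Finset.sum_eq_zero fun p hp => ?_
    rw [Finset.HasAntidiagonal.mem_antidiagonal] at hp
    rw [coeff_monomial, if_neg (by omega), mul_zero]

/-- the inverse of `1 - t^d g` -/
noncomputable def ginv (d : ℕ) (g : G) : PowerSeries (MonoidAlgebra ℤ G) :=
  PowerSeries.mk fun n => if d ∣ n then MonoidAlgebra.single (g ^ (n / d)) 1 else 0

omit [Fintype G] in
theorem coeff_ginv (d : ℕ) (g : G) (n : ℕ) :
    coeff n (ginv d g) = if d ∣ n then MonoidAlgebra.single (g ^ (n / d)) 1 else 0 := by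
  rw [ginv, coeff_mk]

omit [Fintype G] in
theorem one_sub_mul_ginv (d : ℕ) (hd : 0 < d) (g : G) :
    (1 - monomial d (MonoidAlgebra.single g 1)) * ginv d g = 1 := by
  ext1 n
  rw [sub_mul, one_mul, map_sub, coeff_monomial_mul', coeff_ginv, coeff_one]
  by_cases hn : d ≤ n
  · rw [if_pos hn, coeff_ginv, if_neg (by omega : ¬ n = 0)]
    by_cases h : d ∣ n
    · have h2 : d ∣ n - d := Nat.dvd_sub h (dvd_refl d)
      rw [if_pos h, if_pos h2, MonoidAlgebra.single_mul_single, one_mul]
      obtain ⟨m, rfl⟩ := h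
      have hm : 1 ≤ m := by
        by_contra hc
        have : m = 0 := by omega
        subst this
        omega
      obtain ⟨m', rfl⟩ : ∃ m', m = m' + 1 := ⟨m - 1, by omega⟩
      have e1 : d * (m' + 1) / d = m' + 1 := Nat.mul_div_cancel_left _ hd
      have e2 : (d * (m' + 1) - d) / d = m' := by
        rw [Nat.mul_add, Nat.mul_one, Nat.add_sub_cancel]
        exact Nat.mul_div_cancel_left _ hd
      rw [e1, e2, ← pow_succ', sub_self]
    · have h2 : ¬ d ∣ n - d := by
        intro h2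
        apply h
        have := Nat.dvd_add h2 (dvd_refl d)
        rwa [Nat.sub_add_cancel hn] at this
      rw [if_neg h, if_neg h2, mul_zero, sub_zero]
  · rw [if_neg hn, sub_zero]
    by_cases h0 : n = 0
    · subst h0
      rw [if_pos (dvd_zero d), if_pos rfl, Nat.zero_div, pow_zero, MonoidAlgebra.one_def]
    · rw [if_neg h0, if_neg]
      intro h
      exact hn (Nat.le_of_dvd (by omega) h)

omit [Fintype G] in
theorem ginv_mul_one_sub (d : ℕ) (hd : 0 < d) (g : G) :
    ginv d g * (1 - monomial d (MonoidAlgebra.single g 1)) = 1 := by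
  ext1 n
  rw [mul_sub, mul_one, map_sub, coeff_mul_monomial', coeff_ginv, coeff_one]
  by_cases hn : d ≤ n
  · rw [if_pos hn, coeff_ginv, if_neg (by omega : ¬ n = 0)]
    by_cases h : d ∣ n
    · have h2 : d ∣ n - d := Nat.dvd_sub h (dvd_refl d)
      rw [if_pos h, if_pos h2, MonoidAlgebra.single_mul_single, one_mul]
      obtain ⟨m, rfl⟩ := h
      have hm : 1 ≤ m := by
        by_contra hc
        have : m = 0 := by omega
        subst this
        omega
      obtain ⟨m', rfl⟩ : ∃ m', m = m' + 1 := ⟨m - 1, by omega⟩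
      have e1 : d * (m' + 1) / d = m' + 1 := Nat.mul_div_cancel_left _ hd
      have e2 : (d * (m' + 1) - d) / d = m' := by
        rw [Nat.mul_add, Nat.mul_one, Nat.add_sub_cancel]
        exact Nat.mul_div_cancel_left _ hd
      rw [e1, e2, ← pow_succ, sub_self]
    · have h2 : ¬ d ∣ n - d := by
        intro h2
        apply h
        have := Nat.dvd_add h2 (dvd_refl d)
        rwa [Nat.sub_add_cancel hn] at this
      rw [if_neg h, if_neg h2, zero_mul, sub_zero]
  · rw [if_neg hn, sub_zero]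
    by_cases h0 : n = 0
    · subst h0
      rw [if_pos (dvd_zero d), if_pos rfl, Nat.zero_div, pow_zero, MonoidAlgebra.one_def]
    · rw [if_neg h0, if_neg]
      intro h
      exact hn (Nat.le_of_dvd (by omega) h)

omit [Group G] [Fintype G] in
theorem nn_single (g : G) : NN (MonoidAlgebra.single g (1 : ℤ)) := fun h => by
  classical
  rw [MonoidAlgebra.coeff_single, Finsupp.single_apply]
  split_ifs <;> norm_num

omit [Fintype G] in
theorem sn_ginv (d : ℕ) (g : G) : SN (ginv d g) := fun n => by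
  rw [coeff_ginv]
  split_ifs
  · exact nn_single _
  · exact NN.zero

theorem fn_ginv (d : ℕ) (g : G) (hr : r < 1) : wn r (ginv d g) < ⊤ := by
  rw [wn_eq]
  calc ∑' n : ℕ, gn (coeff n (ginv d g)) * (r : ENNReal) ^ n ≤ ∑' n : ℕ, (r : ENNReal) ^ n := by
        refine ENNReal.tsum_le_tsum fun n => ?_
        have h1 : gn (coeff n (ginv d g)) ≤ 1 := by
          rw [coeff_ginv]
          split_ifs
          · rw [gn_single]
            simp
          · rw [gn_zero]; exact zero_le
        calc gn (coeff n (ginv d g)) * (r : ENNReal) ^ n ≤ 1 * (r : ENNReal) ^ n := by gcongr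
          _ = _ := one_mul _
    _ < ⊤ := by
        rw [ENNReal.tsum_geometric, ENNReal.inv_lt_top, tsub_pos_iff_lt]
        exact_mod_cast hr

end ser

end Pool.Agent.TS
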