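import Pool.Agent.Lib.MP_402c18_an.Inst5

/-!
# The unit `1 - tA` and its logarithmic trace
-/

set_option autoImplicit false
set_option linter.unusedSectionVars false

namespace Pool.Agent.TS

open PowerSeries

section geo

variable {M : Type*} [Ring M]

theorem monomial_one_eq (A : M) : (monomial 1 A : PowerSeries M) = C A * X := by
  ext d
  rw [coeff_monomial, coeff_C_mul, coeff_X]
  split_ifs <;> simp

theorem geo_mul (A : M) : (1 - monomial 1 A) * PowerSeries.mk (fun k => A ^ k) = 1 := by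
  ext d
  rw [sub_mul, one_mul, map_sub, coeff_mk, monomial_one_eq, mul_assoc, coeff_C_mul]
  rcases d with _ | d
  · simp
  · rw [coeff_succ_X_mul, coeff_mk, coeff_one, if_neg (by omega), ← pow_succ', sub_self]

theorem mul_geo (A : M) : PowerSeries.mk (fun k => A ^ k) * (1 - monomial 1 A) = 1 := by
  ext d
  rw [mul_sub, mul_one, map_sub, coeff_mk, monomial_one_eq, ← mul_assoc]
  rcases d with _ | d
  · simp
  · rw [coeff_succ_mul_X, coeff_mul_C, coeff_mk, coeff_one, if_neg (by omega), ← pow_succ, sub_self]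

end geo

section XU

variable {R : Type*} [Ring R] {ι : Type*} [Fintype ι] [DecidableEq ι]

/-- the inverse of `1 - tA` -/
noncomputable def invT (A : Matrix ι ι R) : Matrix ι ι (PowerSeries R) :=
  fun i j => PowerSeries.mk fun k => (A ^ k) i j

theorem toPS_tmul (A : Matrix ι ι R) : toPS (tmul A) = monomial 1 A := by
  ext1 d
  ext1 i j
  rw [coeff_toPS_apply, tmul, Matrix.map_apply, coeff_monomial, coeff_monomial]
  split_ifs <;> rfl

theorem toPS_invT (A : Matrix ι ι R) : toPS (invT A) = PowerSeries.mk (fun k => A ^ k) := by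
  ext1 d
  ext1 i j
  rw [coeff_toPS_apply, invT, coeff_mk, coeff_mk]

theorem one_sub_tmul_mul_invT (A : Matrix ι ι R) : (1 - tmul A) * invT A = 1 := by
  apply toPS_injective
  rw [map_mul, map_sub, map_one, toPS_tmul, toPS_invT, geo_mul]

theorem invT_mul_one_sub_tmul (A : Matrix ι ι R) : invT A * (1 - tmul A) = 1 := by
  apply toPS_injective
  rw [map_mul, map_sub, map_one, toPS_tmul, toPS_invT, mul_geo]

/-- `1 - tA` as a unit -/
noncomputable def XU (A : Matrix ι ι R) : (Matrix ι ι (PowerSeries R))ˣ where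
  val := 1 - tmul A
  inv := invT A
  val_inv := one_sub_tmul_mul_invT A
  inv_val := invT_mul_one_sub_tmul A

theorem XU_val (A : Matrix ι ι R) : (XU A).val = 1 - tmul A := rfl

theorem XU_inv_val (A : Matrix ι ι R) : ((XU A)⁻¹).val = invT A := rfl

end XU

section gamXU

variable {G ι : Type*} [Group G] [Fintype G] [Fintype ι] [DecidableEq ι]

theorem Psi_one_sub_tmul (A : Matrix ι ι (MonoidAlgebra ℤ G)) :
    Psi G ι (1 - tmul A) = 1 - monomial 1 (A.map (cR G)) := by
  rw [map_sub, map_one]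
  congr 1
  ext1 d
  ext1 i j
  rw [coeff_Psi, tmul, Matrix.map_apply, coeff_monomial, coeff_monomial]
  split_ifs
  · rfl
  · rw [map_zero, Matrix.zero_apply]

theorem map_cR_pow (A : Matrix ι ι (MonoidAlgebra ℤ G)) (k : ℕ) :
    (A.map (cR G)) ^ k = (A ^ k).map (cR G) := by
  have := map_pow (RingHom.mapMatrix (cR G) : Matrix ι ι (MonoidAlgebra ℤ G) →+* _) A k
  exact this.symm

theorem Psi_invT (A : Matrix ι ι (MonoidAlgebra ℤ G)) :
    Psi G ι (invT A) = PowerSeries.mk (fun k => (A.map (cR G)) ^ k) := by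
  ext1 d
  ext1 i j
  rw [coeff_Psi, invT, coeff_mk, coeff_mk, map_cR_pow, Matrix.map_apply]

theorem Dt_one_sub_monomial {M : Type*} [Ring M] (A : M) :
    Dt (1 - monomial 1 A : PowerSeries M) = -monomial 1 A := by
  ext d
  rw [coeff_Dt, map_sub, map_neg, coeff_one, coeff_monomial]
  rcases eq_or_ne d 0 with h | h
  · rw [h]; simp
  · rw [if_neg h]
    rcases eq_or_ne d 1 with h1 | h1
    · rw [h1]; simp
    · rw [if_neg h1]; simp

theorem gam_XU (A : Matrix ι ι (MonoidAlgebra ℤ G)) (d : ℕ) :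
    gam (ctr ℝ G ι) (PsiU G ι (XU A)) d =
      if d = 0 then 0 else -ctr ℝ G ι ((A.map (cR G)) ^ d) := by
  unfold gam
  rw [PsiU_inv_val, PsiU_val, XU_inv_val, XU_val, Psi_one_sub_tmul, Psi_invT,
    Dt_one_sub_monomial, mul_neg, map_neg, map_neg, monomial_one_eq, ← mul_assoc]
  rcases d with _ | d
  · rw [coeff_zero_mul_X]; simp
  · rw [coeff_succ_mul_X, coeff_mul_C, coeff_mk, ← pow_succ, if_neg (by omega)]

theorem cs_cR (g : G) (x : MonoidAlgebra ℤ G) : cs g (cR G x) = ((cs g x : ℤ) : ℝ) := by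
  classical
  rw [cs_apply, cs_apply]
  push_cast
  refine Finset.sum_congr rfl fun h _ => ?_
  rw [coeff_cR]

theorem ctr_map_cR (A : Matrix ι ι (MonoidAlgebra ℤ G)) (g : G) :
    ctr ℝ G ι (A.map (cR G)) g = ((ctr ℤ G ι A g : ℤ) : ℝ) := by
  rw [ctr_apply, ctr_apply]
  push_cast
  refine Finset.sum_congr rfl fun i _ => ?_
  rw [Matrix.map_apply, cs_cR]

theorem gam_XU_eq (A B : Matrix ι ι (MonoidAlgebra ℤ G))
    (h : ∀ k : ℕ, 0 < k → ctr ℤ G ι (A ^ k) = ctr ℤ G ι (B ^ k)) (d : ℕ) :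
    gam (ctr ℝ G ι) (PsiU G ι (XU A)) d = gam (ctr ℝ G ι) (PsiU G ι (XU B)) d := by
  rw [gam_XU, gam_XU]
  split_ifs with hd
  · rfl
  · congr 1
    ext g
    rw [map_cR_pow, map_cR_pow, ctr_map_cR, ctr_map_cR, h d (by omega)]

end gamXU

end Pool.Agent.TS
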