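import Pool.Agent.Lib.MP_402c18_an.TA1

/-!
# Elimination modulo `t^κ`
-/

set_option autoImplicit false
set_option linter.unusedSectionVars false

namespace Pool.Agent.TS

open PowerSeries

section

variable {G ι : Type*} [Group G] [Fintype G] [Fintype ι] [DecidableEq ι]

theorem formal_step (o o' : ι) (hoo : o ≠ o') (j : ℕ) (hj : 1 ≤ j)
    (z : Matrix ι ι (MonoidAlgebra ℝ G)) (hz : z ∈ LR G ι) (hτ : ctr ℝ G ι z = 0) :
    ∃ u ∈ ER G ι, ∃ Ω : PowerSeries (Matrix ι ι (MonoidAlgebra ℝ G)),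
      (u⁻¹).val = 1 - monomial j z + Ω ∧ OrdGE (j + 1) Ω := by
  set c : NNReal := (mge z).toNNReal with hc
  have hcz : mge z = (c : ENNReal) := (ENNReal.coe_toNNReal (mge_ne_top z)).symm
  set r : NNReal := (16 * c + 1)⁻¹ with hr
  have hr1 : r ≤ 1 := by
    rw [hr]
    apply inv_le_one_of_one_le₀
    exact le_add_self
  have h16 : 16 * (mge z * (r : ENNReal) ^ j) ≤ 1 := by
    rw [hcz]
    have h1 : r ^ j ≤ r := by
      calc r ^ j ≤ r ^ 1 := pow_le_pow_right_of_le_one' hr1 hj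
        _ = r := pow_one r
    have h2 : 16 * (c * r ^ j) ≤ 1 := by
      calc 16 * (c * r ^ j) ≤ 16 * (c * r) := by gcongr
        _ = (16 * c) * r := by ring
        _ ≤ (16 * c + 1) * r := by
            gcongr
            exact le_self_add
        _ = 1 := by
            rw [hr]
            exact mul_inv_cancel₀ (by positivity)
    exact_mod_cast h2
  obtain ⟨n, hgood, _⟩ := good_xx r hr1 j hj o o' hoo z h16
  obtain ⟨_, _, u, hu, Ω, h3, h4, _⟩ := hgood
  rw [xx_of_mem o z hz hτ] at h3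
  exact ⟨u, hu, Ω, h3, h4⟩

theorem exists_mod (o o' : ι) (hoo : o ≠ o') (Z : (Matrix ι ι (PowerSeries (MonoidAlgebra ℤ G)))ˣ)
    (hZ : OrdGE 1 ((PsiU G ι Z).val - 1)) (hgam : ∀ d, gam (ctr ℝ G ι) (PsiU G ι Z) d = 0)
    (κ : ℕ) :
    ∃ E ∈ elGroup ι {f : PowerSeries (MonoidAlgebra ℤ G) | IsPoly f},
      OrdGE (κ + 1) ((PsiU G ι (Z * E⁻¹)).val - 1) := by
  induction κ with
  | zero =>
    refine ⟨1, Subgroup.one_mem _, ?_⟩
    rw [inv_one, mul_one]
    exact hZ
  | succ κ ih =>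
    obtain ⟨E, hE, hord⟩ := ih
    set Z' := Z * E⁻¹ with hZ'
    set z := coeff (κ + 1) ((PsiU G ι Z').val - 1) with hz
    have hgam' : ∀ d, gam (ctr ℝ G ι) (PsiU G ι Z') d = 0 := by
      intro d
      rw [hZ', map_mul, map_inv, gam_mul _ ctr_mul_comm, gam_inv _ ctr_mul_comm, hgam d,
        gam_elGroup _ E hE d, neg_zero, add_zero]
    have hzL : z ∈ LR G ι := by
      rw [hz, map_sub]
      refine Subring.sub_mem _ (coeff_Psi_mem _ _) ?_
      rw [coeff_one, if_neg (by omega)]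
      exact Subring.zero_mem _
    have hzτ : ctr ℝ G ι z = 0 := by
      have h := gam_of_ord (ctr ℝ G ι) (PsiU G ι Z') (κ + 1) (by omega) hord
      rw [hgam' (κ + 1)] at h
      have h' : ((κ + 1 : ℕ) : ℝ) • ctr ℝ G ι z = 0 := by
        rw [Nat.cast_smul_eq_nsmul]
        exact h.symm
      rcases smul_eq_zero.mp h' with h0 | h0
      · exfalso
        have : (κ + 1 : ℕ) = 0 := by exact_mod_cast h0
        omega
      · exact h0
    obtain ⟨u, hu, Ω, h3, h4⟩ := formal_step o o' hoo (κ + 1) (by omega) z hzL hzτ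
    obtain ⟨φ, hφ, rfl⟩ := hu
    refine ⟨φ * E, Subgroup.mul_mem _ hφ hE, ?_⟩
    rw [mul_inv_rev, ← mul_assoc, ← hZ', map_mul, Units.val_mul]
    have h5 : (PsiU G ι φ⁻¹).val = 1 - monomial (κ + 1) z + Ω := by
      rw [← h3, map_inv]
    rw [h5]
    have e : (PsiU G ι Z').val * (1 - monomial (κ + 1) z + Ω) - 1 =
        (((PsiU G ι Z').val - 1) - monomial (κ + 1) z) +
        (Ω + ((PsiU G ι Z').val - 1) * (-monomial (κ + 1) z + Ω)) := by
      noncomm_ring
    rw [e]
    have o1 : OrdGE (κ + 1 + 1) (((PsiU G ι Z').val - 1) - monomial (κ + 1) z) := by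
      intro d hd
      rw [map_sub]
      rcases Nat.lt_succ_iff_lt_or_eq.mp hd with hlt | heq
      · rw [hord d hlt, coeff_monomial, if_neg (by omega), sub_zero]
      · rw [heq, coeff_monomial_same, hz, sub_self]
    have o2 : OrdGE (κ + 1 + 1) (((PsiU G ι Z').val - 1) * (-monomial (κ + 1) z + Ω)) := by
      have := hord.mul ((OrdGE.monomial (κ + 1) z).neg.add (h4.mono (by omega)))
      exact this.mono (by omega)
    exact o1.add (h4.add o2)

end

end Pool.Agent.TS
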