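import Pool.Agent.Lib.MP_402c18_an.TA2

/-!
# Finiteness of the norm of `(1 - tA)⁻¹ X₀` under the kernel condition
-/

set_option autoImplicit false
set_option linter.unusedSectionVars false

namespace Pool.Agent.TS

open PowerSeries

section cast

variable {G ι : Type*} [Group G] [Fintype G] [Fintype ι] [DecidableEq ι]

/-- the cast of power series -/
noncomputable def cS (G : Type*) [Group G] :
    PowerSeries (MonoidAlgebra ℤ G) →+* PowerSeries (MonoidAlgebra ℝ G) := PowerSeries.map (cR G)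

theorem wn_cS (r : NNReal) (f : PowerSeries (MonoidAlgebra ℤ G)) : wn r (cS G f) = wn r f := by
  rw [wn_eq, wn_eq]
  refine tsum_congr fun d => ?_
  unfold cS
  rw [coeff_map, gn_cR]

/-- the cast of matrices -/
noncomputable def cM (G ι : Type*) [Group G] [Fintype ι] [DecidableEq ι] :
    Matrix ι ι (PowerSeries (MonoidAlgebra ℤ G)) →+* Matrix ι ι (PowerSeries (MonoidAlgebra ℝ G)) :=
  RingHom.mapMatrix (cS G)

theorem mn_cM (r : NNReal) (A : Matrix ι ι (PowerSeries (MonoidAlgebra ℤ G))) :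
    mn r (cM G ι A) = mn r A := by
  unfold mn cM
  refine Finset.sum_congr rfl fun i _ => Finset.sum_congr rfl fun j _ => ?_
  rw [RingHom.mapMatrix_apply, Matrix.map_apply, wn_cS]

theorem cM_apply (A : Matrix ι ι (PowerSeries (MonoidAlgebra ℤ G))) (i j : ι) :
    cM G ι A i j = cS G (A i j) := rfl

theorem coeff_cS (f : PowerSeries (MonoidAlgebra ℤ G)) (d : ℕ) :
    coeff d (cS G f) = cR G (coeff d f) := by
  unfold cS
  rw [coeff_map]

theorem coeff_invT (A : Matrix ι ι (MonoidAlgebra ℤ G)) (i j : ι) (k : ℕ) :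
    coeff k (invT A i j) = (A ^ k) i j := by
  unfold invT
  rw [coeff_mk]

/-- the sum of all group elements -/
noncomputable def sumG (G : Type*) [Group G] [Fintype G] : MonoidAlgebra ℝ G :=
  ∑ g : G, MonoidAlgebra.single g 1

theorem sumG_mul (w : MonoidAlgebra ℝ G) : sumG G * w = (∑ g : G, w.coeff g) • sumG G := by
  conv_lhs => rw [eq_sum_single w]
  unfold sumG
  rw [Finset.sum_mul_sum, Finset.sum_comm, Finset.sum_smul]
  refine Finset.sum_congr rfl fun h _ => ?_
  simp_rw [MonoidAlgebra.single_mul_single, one_mul]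
  rw [Finset.smul_sum]
  simp_rw [MonoidAlgebra.smul_single, smul_eq_mul, mul_one]
  exact Fintype.sum_equiv (Equiv.mulRight h) _ _ (fun g => rfl)

theorem gn_sumG : gn (sumG G) = Fintype.card G := by
  unfold gn sumG
  have : ∀ g : G, ‖(∑ h : G, MonoidAlgebra.single h (1 : ℝ)).coeff g‖ₑ = 1 := by
    intro g
    classical
    rw [MonoidAlgebra.coeff_sum, Finsupp.finsetSum_apply, Finset.sum_eq_single g]
    · rw [MonoidAlgebra.coeff_single, Finsupp.single_eq_same]
      simp
    · intro h _ hne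
      rw [MonoidAlgebra.coeff_single, Finsupp.single_eq_of_ne hne.symm]
    · intro h
      exact absurd (Finset.mem_univ g) h
  simp_rw [this]
  rw [Finset.sum_const, Finset.card_univ, nsmul_eq_mul, mul_one]

end cast

section division

/-- the division lemma: `f(1/λ) = 0` implies that `f/(1-λt)` has finite norm at `r > 1/λ` -/
theorem division (lam : ℝ) (r : NNReal) (hlam : 0 < lam) (hr : 1 < lam * r) (f : ℕ → ℝ)
    (hf : ∑' m : ℕ, ‖f m‖ₑ * (r : ENNReal) ^ m ≠ ⊤)
    (h0 : ∑' m : ℕ, f m * (lam⁻¹) ^ m = 0) :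
    ∑' d : ℕ, ‖∑ p ∈ Finset.HasAntidiagonal.antidiagonal d, lam ^ p.1 * f p.2‖ₑ *
      (r : ENNReal) ^ d ≠ ⊤ := by
  have hr0 : (0 : ℝ) < r := by
    by_contra hneg
    have : (r : ℝ) = 0 := le_antisymm (not_lt.mp hneg) r.coe_nonneg
    rw [this, mul_zero] at hr
    linarith
  -- summability of f m * lam⁻¹ ^ m
  have hsum : Summable (fun m => f m * (lam⁻¹) ^ m) := by
    have h1 : Summable (fun m => ‖f m‖ * (r : ℝ) ^ m) := by
      have h2 := ENNReal.summable_toReal hf
      convert h2 using 2 with m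
      rw [ENNReal.toReal_mul, toReal_enorm, ENNReal.toReal_pow, ENNReal.coe_toReal]
    refine Summable.of_norm_bounded h1 fun m => ?_
    rw [norm_mul, norm_pow]
    gcongr
    rw [norm_inv, Real.norm_of_nonneg hlam.le, inv_le_iff_one_le_mul₀ hlam, mul_comm]
    exact hr.le
  set θ : ENNReal := ENNReal.ofReal ((lam * r)⁻¹) with hθ
  have hθ1 : θ < 1 := by
    rw [hθ, show (1 : ENNReal) = ENNReal.ofReal 1 by simp]
    rw [ENNReal.ofReal_lt_ofReal_iff zero_lt_one]
    exact inv_lt_one_of_one_lt₀ hr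
  have hkey : ∀ d : ℕ, ‖∑ p ∈ Finset.HasAntidiagonal.antidiagonal d, lam ^ p.1 * f p.2‖ₑ *
      (r : ENNReal) ^ d ≤
      ∑' m : ℕ, (‖f (m + (d + 1))‖ₑ * (r : ENNReal) ^ (m + (d + 1))) * θ ^ (m + 1) := by
    intro d
    have e1 : ∑ p ∈ Finset.HasAntidiagonal.antidiagonal d, lam ^ p.1 * f p.2 =
        lam ^ d * ∑ m ∈ Finset.range (d + 1), f m * (lam⁻¹) ^ m := by
      rw [← Finset.Nat.sum_antidiagonal_swap]
      rw [Finset.Nat.sum_antidiagonal_eq_sum_range_succ_mk, Finset.mul_sum]
      refine Finset.sum_congr rfl fun m hm => ?_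
      rw [Finset.mem_range] at hm
      simp only [Prod.swap_prod_mk]
      have : lam ^ d = lam ^ (d - m) * lam ^ m := by
        rw [← pow_add]
        congr 1
        omega
      rw [this, inv_pow]
      field_simp
    have e2 : ∑ m ∈ Finset.range (d + 1), f m * (lam⁻¹) ^ m =
        - ∑' m : ℕ, f (m + (d + 1)) * (lam⁻¹) ^ (m + (d + 1)) := by
      have := hsum.sum_add_tsum_nat_add (d + 1)
      rw [h0] at this
      linarith
    rw [e1, e2, mul_neg, enorm_neg, ← tsum_mul_left]
    calc ‖∑' m : ℕ, lam ^ d * (f (m + (d + 1)) * (lam⁻¹) ^ (m + (d + 1)))‖ₑ * (r : ENNReal) ^ d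
        ≤ (∑' m : ℕ, ‖lam ^ d * (f (m + (d + 1)) * (lam⁻¹) ^ (m + (d + 1)))‖ₑ) *
          (r : ENNReal) ^ d := by
          gcongr
          exact enorm_tsum_le_tsum_enorm
      _ = ∑' m : ℕ, (‖f (m + (d + 1))‖ₑ * (r : ENNReal) ^ (m + (d + 1))) * θ ^ (m + 1) := by
          rw [← ENNReal.tsum_mul_right]
          refine tsum_congr fun m => ?_
          have e3 : lam ^ d * (f (m + (d + 1)) * (lam⁻¹) ^ (m + (d + 1))) =
              f (m + (d + 1)) * (lam⁻¹) ^ (m + 1) := by
            rw [show m + (d + 1) = d + (m + 1) by ring, pow_add, inv_pow, inv_pow]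
            field_simp
          rw [e3, enorm_mul, mul_assoc, mul_assoc]
          congr 1
          have hpos : (0 : ℝ) ≤ (lam⁻¹) ^ (m + 1) := by positivity
          rw [Real.enorm_of_nonneg hpos, hθ, ← ENNReal.ofReal_pow (by positivity),
            ← ENNReal.ofReal_coe_nnreal, ← ENNReal.ofReal_pow r.coe_nonneg,
            ← ENNReal.ofReal_pow r.coe_nonneg, ← ENNReal.ofReal_mul hpos,
            ← ENNReal.ofReal_mul (by positivity)]
          congr 1
          rw [show m + (d + 1) = d + (m + 1) by ring, pow_add (r : ℝ) d, mul_inv, mul_pow, inv_pow,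
            inv_pow]
          field_simp
  refine ne_top_of_le_ne_top ?_ (ENNReal.tsum_le_tsum hkey)
  rw [ENNReal.tsum_comm]
  have hle : ∑' m : ℕ, ∑' d : ℕ, (‖f (m + (d + 1))‖ₑ * (r : ENNReal) ^ (m + (d + 1))) * θ ^ (m + 1)
      ≤ ∑' m : ℕ, (∑' n : ℕ, ‖f n‖ₑ * (r : ENNReal) ^ n) * θ ^ (m + 1) := by
    refine ENNReal.tsum_le_tsum fun m => ?_
    rw [ENNReal.tsum_mul_right]
    refine mul_le_mul' ?_ le_rfl
    have hinj : Function.Injective (fun d : ℕ => m + (d + 1)) := by
      intro a b hab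
      simp only at hab
      omega
    exact ENNReal.tsum_comp_le_tsum_of_injective hinj (fun n => ‖f n‖ₑ * (r : ENNReal) ^ n)
  refine ne_top_of_le_ne_top ?_ hle
  rw [ENNReal.tsum_mul_left]
  refine ENNReal.mul_ne_top hf ?_
  have hgeo : ∑' m : ℕ, θ ^ (m + 1) ≤ ∑' m : ℕ, θ ^ m := by
    refine ENNReal.tsum_le_tsum fun m => ?_
    exact pow_le_pow_right_of_le_one' hθ1.le (Nat.le_succ m)
  refine ne_top_of_le_ne_top ?_ hgeo
  rw [ENNReal.tsum_geometric]
  exact ENNReal.inv_ne_top.mpr (tsub_pos_of_lt hθ1).ne'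

end division

section finite

variable {G ι : Type*} [Group G] [Fintype G] [Fintype ι] [DecidableEq ι]

theorem enorm_sum_coeff_le (x : MonoidAlgebra ℤ G) : ‖∑ g : G, (x.coeff g : ℝ)‖ₑ ≤ gn x := by
  refine (enorm_sum_le _ _).trans (le_of_eq ?_)
  rw [← gn_cR]
  unfold gn
  refine Finset.sum_congr rfl fun g _ => ?_
  rw [coeff_cR]

theorem summable_of_wn (f : PowerSeries (MonoidAlgebra ℤ G)) (r : NNReal) (hf : wn r f < ⊤)
    (s : ℝ) (hs0 : 0 ≤ s) (hs : s ≤ r) :
    Summable (fun d : ℕ => (∑ g : G, ((coeff d f).coeff g : ℝ)) * s ^ d) := by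
  have h1 : Summable (fun d : ℕ => ‖∑ g : G, ((coeff d f).coeff g : ℝ)‖ * (r : ℝ) ^ d) := by
    have h2 : ∑' d : ℕ, ‖∑ g : G, ((coeff d f).coeff g : ℝ)‖ₑ * (r : ENNReal) ^ d ≠ ⊤ := by
      refine ne_top_of_le_ne_top hf.ne ?_
      rw [wn_eq]
      refine ENNReal.tsum_le_tsum fun d => ?_
      gcongr
      exact enorm_sum_coeff_le _
    have h3 := ENNReal.summable_toReal h2
    convert h3 using 2 with m
    rw [ENNReal.toReal_mul, toReal_enorm, ENNReal.toReal_pow, ENNReal.coe_toReal]
  refine Summable.of_norm_bounded h1 fun m => ?_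
  rw [norm_mul, norm_pow, Real.norm_of_nonneg hs0]
  gcongr

theorem mn_invT_mul_lt_top (A : Matrix ι ι (MonoidAlgebra ℤ G)) (lam μ K : ℝ) (x y : ι → ℝ)
    (hlam : 0 < lam) (hμ : 0 < μ)
    (hasym : ∀ (k : ℕ) (i j : ι) (g : G),
        |(((A ^ k) i j).coeff g : ℝ) - lam ^ k * (x i * y j)| ≤ K * μ ^ k)
    (r : NNReal) (hr : 1 < lam * r) (hrμ : (r : ℝ) * μ < 1)
    (X₀ : Matrix ι ι (PowerSeries (MonoidAlgebra ℤ G))) (hX : mn r X₀ < ⊤)
    (hker : ∀ j, ∑ i, y i * (∑' d : ℕ, (∑ g : G, ((coeff d (X₀ i j)).coeff g : ℝ)) *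
      (lam⁻¹) ^ d) = 0) :
    mn r (invT A * X₀) < ⊤ := by
  set P : Matrix ι ι (PowerSeries (MonoidAlgebra ℝ G)) :=
    fun i j => PowerSeries.mk fun k => (lam ^ k * (x i * y j)) • sumG G with hP
  set Rm : Matrix ι ι (PowerSeries (MonoidAlgebra ℝ G)) := cM G ι (invT A) - P with hRm
  have hdec : cM G ι (invT A * X₀) = P * cM G ι X₀ + Rm * cM G ι X₀ := by
    rw [map_mul, hRm, sub_mul]
    abel
  rw [← mn_cM, hdec]
  refine (mn_add_le r _ _).trans_lt (ENNReal.add_lt_top.mpr ⟨?_, ?_⟩)
  · rw [mn_lt_top_iff]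
    intro i j
    set f : ℕ → ℝ := fun m => ∑ l, y l * (∑ g : G, ((coeff m (X₀ l j)).coeff g : ℝ)) with hf
    have hcoef : ∀ d : ℕ, coeff d ((P * cM G ι X₀) i j) =
        (x i * ∑ p ∈ Finset.HasAntidiagonal.antidiagonal d, lam ^ p.1 * f p.2) • sumG G := by
      intro d
      rw [Matrix.mul_apply, map_sum]
      simp_rw [coeff_mul]
      rw [Finset.sum_comm, Finset.mul_sum, Finset.sum_smul]
      refine Finset.sum_congr rfl fun p _ => ?_
      rw [hf]
      simp only
      rw [Finset.mul_sum, Finset.mul_sum, Finset.sum_smul]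
      refine Finset.sum_congr rfl fun l _ => ?_
      rw [hP]
      simp only
      rw [coeff_mk]
      unfold cM cS
      rw [RingHom.mapMatrix_apply, Matrix.map_apply, coeff_map, smul_mul_assoc, sumG_mul, smul_smul]
      congr 1
      simp_rw [coeff_cR]
      ring
    have hfsum : ∑' m : ℕ, ‖f m‖ₑ * (r : ENNReal) ^ m ≠ ⊤ := by
      have h1 : ∑' m : ℕ, ‖f m‖ₑ * (r : ENNReal) ^ m ≤ ∑ l, ‖y l‖ₑ * wn r (X₀ l j) := by
        calc ∑' m : ℕ, ‖f m‖ₑ * (r : ENNReal) ^ m
            ≤ ∑' m : ℕ, ∑ l, ‖y l‖ₑ * (gn (coeff m (X₀ l j)) * (r : ENNReal) ^ m) := by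
              refine ENNReal.tsum_le_tsum fun m => ?_
              rw [hf]
              simp only
              calc _ ≤ (∑ l, ‖y l‖ₑ * gn (coeff m (X₀ l j))) * (r : ENNReal) ^ m := by
                    refine mul_le_mul' ((enorm_sum_le _ _).trans ?_) le_rfl
                    refine Finset.sum_le_sum fun l _ => ?_
                    rw [enorm_mul]
                    exact mul_le_mul' le_rfl (enorm_sum_coeff_le _)
                _ = _ := by
                    rw [Finset.sum_mul]
                    refine Finset.sum_congr rfl fun l _ => ?_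
                    ring
          _ = _ := by
              rw [Summable.tsum_finsetSum (fun i _ => ENNReal.summable)]
              refine Finset.sum_congr rfl fun l _ => ?_
              rw [ENNReal.tsum_mul_left, wn_eq]
      refine ne_top_of_le_ne_top ?_ h1
      refine ENNReal.sum_ne_top.mpr fun l _ => ENNReal.mul_ne_top enorm_ne_top ?_
      exact ((wn_le_mn r X₀ l j).trans_lt hX).ne
    have hlamr : lam⁻¹ ≤ (r : ℝ) := by
      rw [inv_le_iff_one_le_mul₀ hlam, mul_comm]
      exact hr.le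
    have hf0 : ∑' m : ℕ, f m * (lam⁻¹) ^ m = 0 := by
      rw [← hker j, hf]
      simp only
      have h2 : ∀ m : ℕ, (∑ l, y l * ∑ g : G, ((coeff m (X₀ l j)).coeff g : ℝ)) * (lam⁻¹) ^ m =
          ∑ l, y l * ((∑ g : G, ((coeff m (X₀ l j)).coeff g : ℝ)) * (lam⁻¹) ^ m) := by
        intro m
        rw [Finset.sum_mul]
        refine Finset.sum_congr rfl fun l _ => ?_
        ring
      rw [tsum_congr h2, Summable.tsum_finsetSum]
      · refine Finset.sum_congr rfl fun l _ => ?_
        rw [tsum_mul_left]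
      · intro l _
        refine Summable.mul_left _ ?_
        exact summable_of_wn _ r ((wn_le_mn r X₀ l j).trans_lt hX) _ (by positivity) hlamr
    have hdiv := division lam r hlam hr f hfsum hf0
    rw [wn_eq]
    have h3 : ∀ d : ℕ, gn (coeff d ((P * cM G ι X₀) i j)) * (r : ENNReal) ^ d =
        (‖x i‖ₑ * Fintype.card G) * (‖∑ p ∈ Finset.HasAntidiagonal.antidiagonal d,
          lam ^ p.1 * f p.2‖ₑ * (r : ENNReal) ^ d) := by
      intro d
      rw [hcoef, gn_smul, gn_sumG, enorm_mul]
      ring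
    rw [tsum_congr h3, ENNReal.tsum_mul_left]
    exact ENNReal.mul_lt_top (ENNReal.mul_lt_top enorm_lt_top (ENNReal.natCast_lt_top _))
      hdiv.lt_top
  · refine (mn_mul_le r _ _).trans_lt (ENNReal.mul_lt_top ?_ ?_)
    · rw [mn_lt_top_iff]
      intro i j
      have h1 : wn r (Rm i j) ≤ ∑' k : ℕ, (Fintype.card G * ENNReal.ofReal K) *
          (ENNReal.ofReal ((r : ℝ) * μ)) ^ k := by
        rw [wn_eq]
        refine ENNReal.tsum_le_tsum fun k => ?_
        have h2 : gn (coeff k (Rm i j)) ≤ Fintype.card G * ENNReal.ofReal (K * μ ^ k) := by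
          unfold gn
          calc ∑ g : G, ‖(coeff k (Rm i j)).coeff g‖ₑ ≤ ∑ g : G, ENNReal.ofReal (K * μ ^ k) := by
                refine Finset.sum_le_sum fun g _ => ?_
                have h3 : (coeff k (Rm i j)).coeff g =
                    (((A ^ k) i j).coeff g : ℝ) - lam ^ k * (x i * y j) := by
                  rw [hRm, Matrix.sub_apply, map_sub, MonoidAlgebra.coeff_sub, Finsupp.sub_apply]
                  rw [cM_apply, coeff_cS, coeff_invT, coeff_cR, hP]
                  simp only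
                  rw [coeff_mk, MonoidAlgebra.coeff_smul, Finsupp.smul_apply]
                  have h4 : (sumG G).coeff g = 1 := by
                    classical
                    unfold sumG
                    rw [MonoidAlgebra.coeff_sum, Finsupp.finsetSum_apply, Finset.sum_eq_single g]
                    · rw [MonoidAlgebra.coeff_single, Finsupp.single_eq_same]
                    · intro h _ hne
                      rw [MonoidAlgebra.coeff_single, Finsupp.single_eq_of_ne hne.symm]
                    · intro h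
                      exact absurd (Finset.mem_univ g) h
                  rw [h4, smul_eq_mul, mul_one]
                rw [h3, Real.enorm_eq_ofReal_abs]
                exact ENNReal.ofReal_le_ofReal (hasym k i j g)
            _ = _ := by rw [Finset.sum_const, Finset.card_univ, nsmul_eq_mul]
        have hK0 : 0 ≤ K := by
          have h5 := hasym 0 i j 1
          rw [pow_zero μ, mul_one] at h5
          exact (abs_nonneg _).trans h5
        calc gn (coeff k (Rm i j)) * (r : ENNReal) ^ k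
            ≤ (Fintype.card G * ENNReal.ofReal (K * μ ^ k)) * (r : ENNReal) ^ k := by gcongr
          _ = _ := by
              rw [ENNReal.ofReal_mul hK0, ENNReal.ofReal_mul r.coe_nonneg, ENNReal.ofReal_pow hμ.le,
                ENNReal.ofReal_coe_nnreal, mul_pow]
              ring
      refine h1.trans_lt ?_
      rw [ENNReal.tsum_mul_left, ENNReal.tsum_geometric]
      refine ENNReal.mul_lt_top (ENNReal.mul_lt_top (ENNReal.natCast_lt_top _) ENNReal.ofReal_lt_top) ?_
      have h6 : ENNReal.ofReal ((r : ℝ) * μ) < 1 := by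
        rw [show (1 : ENNReal) = ENNReal.ofReal 1 by simp]
        rw [ENNReal.ofReal_lt_ofReal_iff zero_lt_one]
        exact hrμ
      exact (ENNReal.inv_ne_top.mpr (tsub_pos_of_lt h6).ne').lt_top
    · rw [mn_cM]
      exact hX

end finite

end Pool.Agent.TS
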