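import Pool.Agent.Lib.MP_402c18_an.TA3
import Pool.Agent.Lib.MP_402c18_an.NT
import Pool.Agent.Lib.MP_402c18_an.Ker

/-!
# Theorem A: approximation of `1 - tA` by `E (1 - tB) F`
-/

set_option autoImplicit false
set_option linter.unusedSectionVars false

namespace Pool.Agent.TS

open PowerSeries

section tr

variable {G ι : Type*} [Group G] [Fintype G] [Fintype ι] [DecidableEq ι]

/-- the commutator set -/
def TrSet (G : Type*) [Group G] : Set (MonoidAlgebra ℤ G) :=
  {x : MonoidAlgebra ℤ G | ∃ g h : G,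
    x = MonoidAlgebra.of ℤ G g - MonoidAlgebra.of ℤ G (h * g * h⁻¹)}

theorem map_eq_of_mem {T : Type*} [AddCommGroup T] (φ : MonoidAlgebra ℤ G →+ T)
    (hφ : ∀ g h : G, φ (MonoidAlgebra.of ℤ G g) = φ (MonoidAlgebra.of ℤ G (h * g * h⁻¹)))
    {x y : MonoidAlgebra ℤ G} (hxy : x - y ∈ AddSubgroup.closure (TrSet G)) : φ x = φ y := by
  have h : ∀ w ∈ AddSubgroup.closure (TrSet G), φ w = 0 := by
    intro w hw
    induction hw using AddSubgroup.closure_induction with
    | mem z hz =>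
      obtain ⟨g, h, rfl⟩ := hz
      rw [map_sub, hφ g h, sub_self]
    | zero => exact map_zero φ
    | add a b _ _ ha hb => rw [map_add, ha, hb, add_zero]
    | neg a _ ha => rw [map_neg, ha, neg_zero]
  have h2 := h _ hxy
  rw [map_sub, sub_eq_zero] at h2
  exact h2

theorem ctr_eq_cs_trace (A : Matrix ι ι (MonoidAlgebra ℤ G)) (g : G) :
    ctr ℤ G ι A g = cs g A.trace := by
  rw [ctr_apply, Matrix.trace, map_sum]
  rfl

theorem ctr_eq_of_mem {A B : Matrix ι ι (MonoidAlgebra ℤ G)}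
    (h : A.trace - B.trace ∈ AddSubgroup.closure (TrSet G)) :
    ctr ℤ G ι A = ctr ℤ G ι B := by
  classical
  ext g
  rw [ctr_eq_cs_trace, ctr_eq_cs_trace]
  refine map_eq_of_mem (cs g) ?_ h
  intro a b
  rw [MonoidAlgebra.of_apply, MonoidAlgebra.of_apply, cs_single, cs_single]
  have h1 : IsConj a (b * a * b⁻¹) := isConj_iff.mpr ⟨b, rfl⟩
  have : IsConj g a ↔ IsConj g (b * a * b⁻¹) := ⟨fun h => h.trans h1, fun h => h.trans h1.symm⟩
  by_cases hc : IsConj g a
  · rw [if_pos hc, if_pos (this.mp hc)]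
  · rw [if_neg hc, if_neg (fun h => hc (this.mpr h))]

/-- the coefficient at `1` as an additive map -/
noncomputable def c1 (G : Type*) [Group G] : MonoidAlgebra ℤ G →+ ℤ where
  toFun x := x.coeff 1
  map_zero' := rfl
  map_add' x y := by rw [MonoidAlgebra.coeff_add, Finsupp.add_apply]

theorem coeff_one_eq_of_mem {x y : MonoidAlgebra ℤ G}
    (h : x - y ∈ AddSubgroup.closure (TrSet G)) : x.coeff 1 = y.coeff 1 := by
  classical
  refine map_eq_of_mem (c1 G) ?_ h
  intro a b
  show (MonoidAlgebra.of ℤ G a).coeff 1 = (MonoidAlgebra.of ℤ G (b * a * b⁻¹)).coeff 1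
  rw [MonoidAlgebra.of_apply, MonoidAlgebra.of_apply, MonoidAlgebra.coeff_single,
    MonoidAlgebra.coeff_single, Finsupp.single_apply, Finsupp.single_apply]
  have : a = 1 ↔ b * a * b⁻¹ = 1 := by
    constructor
    · rintro rfl; group
    · intro h
      rw [mul_inv_eq_one] at h
      exact mul_eq_left.mp h
  by_cases hc : a = 1
  · rw [if_pos hc, if_pos (this.mp hc)]
  · rw [if_neg hc, if_neg (fun h => hc (this.mpr h))]

/-- integral augmentation -/
noncomputable def augZ (G : Type*) [Group G] : MonoidAlgebra ℤ G →+* ℤ :=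
  (MonoidAlgebra.lift ℤ ℤ G 1).toRingHom

theorem augZ_single (g : G) (a : ℤ) : augZ G (MonoidAlgebra.single g a) = a := by
  have h : augZ G (MonoidAlgebra.single g a) = (MonoidAlgebra.lift ℤ ℤ G 1)
      (MonoidAlgebra.single g a) := rfl
  rw [h, MonoidAlgebra.lift_single]
  simp

theorem augZ_apply (x : MonoidAlgebra ℤ G) : augZ G x = ∑ g : G, x.coeff g := by
  conv_lhs => rw [eq_sum_single x]
  rw [map_sum]
  simp_rw [augZ_single]

theorem augZ_eq_of_mem {x y : MonoidAlgebra ℤ G}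
    (h : x - y ∈ AddSubgroup.closure (TrSet G)) : augZ G x = augZ G y := by
  refine map_eq_of_mem (augZ G).toAddMonoidHom ?_ h
  intro a b
  show augZ G (MonoidAlgebra.of ℤ G a) = augZ G (MonoidAlgebra.of ℤ G (b * a * b⁻¹))
  rw [MonoidAlgebra.of_apply, MonoidAlgebra.of_apply, augZ_single, augZ_single]

theorem trace_augZ_eq (A B : Matrix ι ι (MonoidAlgebra ℤ G))
    (h : ∀ k : ℕ, 0 < k → (A ^ k).trace - (B ^ k).trace ∈ AddSubgroup.closure (TrSet G)) :
    ∀ k : ℕ, 0 < k → ((A.map (augZ G)) ^ k).trace = ((B.map (augZ G)) ^ k).trace := by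
  intro k hk
  have e : ∀ C : Matrix ι ι (MonoidAlgebra ℤ G), ((C.map (augZ G)) ^ k).trace =
      augZ G (C ^ k).trace := by
    intro C
    have h1 : (C.map (augZ G)) ^ k = (C ^ k).map (augZ G) :=
      (map_pow (RingHom.mapMatrix (augZ G) : Matrix ι ι (MonoidAlgebra ℤ G) →+* _) C k).symm
    rw [h1, Matrix.trace, Matrix.trace, map_sum]
    rfl
  rw [e, e]
  exact augZ_eq_of_mem (h k hk)

end tr

section ord

variable {G ι : Type*} [Group G] [Fintype G] [Fintype ι] [DecidableEq ι]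

theorem ord_elGroup (κ : ℕ) (P : Set (PowerSeries (MonoidAlgebra ℤ G)))
    (hP : ∀ f ∈ P, ∀ d, d < κ → coeff d f = 0)
    (u : (Matrix ι ι (PowerSeries (MonoidAlgebra ℤ G)))ˣ) (hu : u ∈ elGroup ι P) :
    OrdGE κ ((PsiU G ι u).val - 1) := by
  unfold elGroup at hu
  induction hu using Subgroup.closure_induction with
  | mem u hu =>
    obtain ⟨a, b, f, hab, hf, hu⟩ := hu
    rw [PsiU_val, hu, Psi_el, add_sub_cancel_left]
    exact ord_Psi_single a b κ f (fun d hd => hP f hf d hd)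
  | one =>
    rw [map_one, Units.val_one, sub_self]
    intro d _
    rw [map_zero]
  | mul u v _ _ hu hv =>
    rw [map_mul, Units.val_mul]
    exact ord_mul hu hv
  | inv u _ hu =>
    rw [map_inv]
    exact ord_inv hu

theorem ord_V0 (A B : Matrix ι ι (MonoidAlgebra ℤ G)) :
    OrdGE 1 ((PsiU G ι ((XU A)⁻¹ * XU B)).val - 1) := by
  have h1 : ∀ C : Matrix ι ι (MonoidAlgebra ℤ G), OrdGE 1 ((PsiU G ι (XU C)).val - 1) := by
    intro C
    rw [PsiU_val, XU_val, Psi_one_sub_tmul]
    have : (1 - monomial 1 (C.map (cR G)) - 1 : PowerSeries (Matrix ι ι (MonoidAlgebra ℝ G))) =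
        -monomial 1 (C.map (cR G)) := by abel
    rw [this]
    exact (OrdGE.monomial 1 _).neg
  rw [map_mul, map_inv, Units.val_mul]
  exact ord_mul (ord_inv (h1 A)) (h1 B)

end ord

section det

variable {G ι : Type*} [Group G] [Fintype G] [DecidableEq G] [Fintype ι] [DecidableEq ι]

theorem det_reg_elGroup (P : Set (PowerSeries (MonoidAlgebra ℤ G)))
    (u : (Matrix ι ι (PowerSeries (MonoidAlgebra ℤ G)))ˣ) (hu : u ∈ elGroup ι P) :
    (reg u.val).det = 1 := by
  unfold elGroup at hu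
  induction hu using Subgroup.closure_induction with
  | mem u hu =>
    obtain ⟨a, b, f, hab, _, hu⟩ := hu
    rw [hu]
    exact det_reg_el a b hab f
  | one => rw [Units.val_one, reg_one, Matrix.det_one]
  | mul u v _ _ hu hv => rw [Units.val_mul, reg_mul, Matrix.det_mul, hu, hv, one_mul]
  | inv u _ hu =>
    have h : (reg u.val).det * (reg (u⁻¹).val).det = 1 := by
      rw [← Matrix.det_mul, ← reg_mul, Units.mul_inv, reg_one, Matrix.det_one]
    rwa [hu, one_mul] at h

end det

section kernel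

variable {G ι : Type*} [Group G] [Fintype G] [Fintype ι] [DecidableEq ι]

theorem msm_of_mn (r : NNReal) (ρ : ℝ) (h0 : 0 ≤ ρ) (hρ : ρ ≤ r)
    (M : Matrix ι ι (PowerSeries (MonoidAlgebra ℤ G))) (hM : mn r M < ⊤) :
    Ker.MSm ρ (M.map Ker.augS) := by
  intro i j
  have h := summable_of_wn (M i j) r ((wn_le_mn r M i j).trans_lt hM) ρ h0 hρ
  unfold Ker.Sm
  refine h.norm.congr fun d => ?_
  rw [Matrix.map_apply]
  unfold Ker.augS
  rw [PowerSeries.coeff_map, Ker.aug_apply]

theorem map_augS_mul (M N : Matrix ι ι (PowerSeries (MonoidAlgebra ℤ G))) :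
    (M * N).map Ker.augS = M.map Ker.augS * N.map Ker.augS := by
  exact Matrix.map_mul

/-- the kernel condition for `X₀ = E₁ (1 - tB) F` -/
theorem kernel_condition (lam : ℝ) (hlam : 1 < lam) (r : NNReal) (hr : lam⁻¹ ≤ (r : ℝ))
    (B : Matrix ι ι (MonoidAlgebra ℤ G)) (y z : ι → ℝ)
    (hzB : ∀ j, ∑ i, z i * (∑ g : G, ((B i j).coeff g : ℝ)) = lam * z j)
    (E F : Matrix ι ι (PowerSeries (MonoidAlgebra ℤ G))) (hE : mn r E < ⊤) (hF : mn r F < ⊤)
    (hyE : ∀ j, ∑ i, y i * (∑' d : ℕ, (∑ g : G, ((coeff d (E i j)).coeff g : ℝ)) *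
      (lam⁻¹) ^ d) = z j) (j : ι) :
    ∑ i, y i * (∑' d : ℕ, (∑ g : G, ((coeff d ((E * (1 - tmul B) * F) i j)).coeff g : ℝ)) *
      (lam⁻¹) ^ d) = 0 := by
  set ρ := lam⁻¹ with hρ
  have hρ0 : 0 ≤ ρ := by positivity
  have hXp : MPoly (1 - tmul B) := by
    intro i j
    refine ⟨2, fun d hd => ?_⟩
    rw [Matrix.sub_apply, map_sub, tmul, Matrix.map_apply, coeff_monomial, if_neg (by omega),
      Matrix.one_apply]
    split_ifs
    · rw [coeff_one, if_neg (by omega), sub_zero]
    · simp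
  have hX : mn r (1 - tmul B) < ⊤ := mn_lt_top_of_mpoly r hXp
  have m1 := msm_of_mn r ρ hρ0 hr E hE
  have m2 := msm_of_mn r ρ hρ0 hr _ hX
  have m3 := msm_of_mn r ρ hρ0 hr F hF
  have key : ((E * (1 - tmul B) * F).map Ker.augS).map (Ker.ev0 ρ) =
      (E.map Ker.augS).map (Ker.ev0 ρ) * ((1 - tmul B).map Ker.augS).map (Ker.ev0 ρ) *
        (F.map Ker.augS).map (Ker.ev0 ρ) := by
    rw [map_augS_mul, map_augS_mul, Ker.map_ev0_mul (m1.mul m2) m3, Ker.map_ev0_mul m1 m2]
  have h1 : Matrix.vecMul y ((E.map Ker.augS).map (Ker.ev0 ρ)) = z := by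
    ext j
    rw [← hyE j]
    simp only [Matrix.vecMul, dotProduct, Matrix.map_apply]
    exact Finset.sum_congr rfl (fun i _ => by rw [Ker.ev0_augS])
  have h2 : Matrix.vecMul z (((1 - tmul B).map Ker.augS).map (Ker.ev0 ρ)) = 0 := by
    have h3 : ((1 - tmul B).map Ker.augS).map (Ker.ev0 ρ) =
        1 - ρ • (B.map (fun x => ∑ g : G, ((x.coeff g : ℤ) : ℝ))) := by
      ext i j
      have hc : ∀ d, coeff d ((1 - tmul B) i j) =
          (if d = 0 then (1 : Matrix ι ι (MonoidAlgebra ℤ G)) i j else 0) -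
          (if d = 1 then B i j else 0) := by
        intro d
        rw [Matrix.sub_apply, map_sub, tmul, Matrix.map_apply, coeff_monomial]
        congr 1
        rw [Matrix.one_apply, Matrix.one_apply]
        by_cases hij : i = j
        · rw [if_pos hij, if_pos hij, coeff_one]
        · rw [if_neg hij, if_neg hij, map_zero]
          split_ifs <;> rfl
      have hl : ((1 - tmul B).map Ker.augS).map (Ker.ev0 ρ) i j =
          ∑' d : ℕ, (∑ g : G, ((coeff d ((1 - tmul B) i j)).coeff g : ℝ)) * ρ ^ d := by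
        rw [Matrix.map_apply, Matrix.map_apply, Ker.ev0_augS]
      have hr2 : (1 - ρ • (B.map (fun x => ∑ g : G, ((x.coeff g : ℤ) : ℝ)))) i j =
          (1 : Matrix ι ι ℝ) i j - ρ * ∑ g : G, (((B i j).coeff g : ℤ) : ℝ) := rfl
      rw [hl, hr2, tsum_eq_sum (s := Finset.range 2)]
      · rw [Finset.sum_range_succ, Finset.sum_range_succ, Finset.sum_range_zero, zero_add,
          hc, hc, if_pos rfl, if_neg (by norm_num), if_neg (by norm_num), if_pos rfl, sub_zero,
          zero_sub, pow_zero, mul_one, pow_one]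
        have e1 : ∑ g : G, ((((1 : Matrix ι ι (MonoidAlgebra ℤ G)) i j).coeff g : ℤ) : ℝ) =
            (1 : Matrix ι ι ℝ) i j := by
          rw [← Ker.aug_apply, Matrix.one_apply, Matrix.one_apply]
          split_ifs
          · exact map_one _
          · exact map_zero _
        have e2 : ∑ g : G, (((-(B i j)).coeff g : ℤ) : ℝ) =
            - ∑ g : G, (((B i j).coeff g : ℤ) : ℝ) := by
          rw [← Ker.aug_apply, ← Ker.aug_apply, map_neg]
        rw [e1, e2]
        ring
      · intro d hd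
        rw [Finset.mem_range, not_lt] at hd
        rw [hc, if_neg (by omega), if_neg (by omega), sub_zero]
        simp
    rw [h3, Matrix.vecMul_sub, Matrix.vecMul_one, Matrix.vecMul_smul]
    ext j
    rw [Pi.sub_apply, Pi.smul_apply, Pi.zero_apply, smul_eq_mul]
    have : Matrix.vecMul z (B.map (fun x => ∑ g : G, ((x.coeff g : ℤ) : ℝ))) j = lam * z j := by
      rw [← hzB j]
      simp only [Matrix.vecMul, dotProduct, Matrix.map_apply]
    rw [this, hρ]
    field_simp
    ring
  have h4 : Matrix.vecMul y (((E * (1 - tmul B) * F).map Ker.augS).map (Ker.ev0 ρ)) = 0 := by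
    rw [key, ← Matrix.vecMul_vecMul, ← Matrix.vecMul_vecMul, h1, h2, Matrix.zero_vecMul]
  have h5 := congrFun h4 j
  simp only [Matrix.vecMul, dotProduct, Matrix.map_apply, Pi.zero_apply] at h5
  rw [← h5]
  exact Finset.sum_congr rfl (fun i _ => by rw [Ker.ev0_augS])

end kernel

end Pool.Agent.TS
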