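import Pool.Agent.Lib.MP_402c18_an.TA4

/-!
# Theorem A
-/

set_option autoImplicit false
set_option linter.unusedSectionVars false

namespace Pool.Agent.TS

open PowerSeries

section

variable {G ι : Type*} [Group G] [Fintype G] [Fintype ι] [DecidableEq ι]

theorem mn_lt_top_elGroup (r : NNReal) (P : Set (PowerSeries (MonoidAlgebra ℤ G)))
    (hP : ∀ f ∈ P, wn r f < ⊤)
    (u : (Matrix ι ι (PowerSeries (MonoidAlgebra ℤ G)))ˣ) (hu : u ∈ elGroup ι P) :
    mn r u.val < ⊤ ∧ mn r (u⁻¹).val < ⊤ := by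
  have h1 : mn r (1 : Matrix ι ι (PowerSeries (MonoidAlgebra ℤ G))) < ⊤ := by
    apply mn_lt_top_of_mpoly
    intro i j
    rw [Matrix.one_apply]
    split_ifs
    · exact ⟨1, fun d hd => by rw [coeff_one, if_neg (by omega)]⟩
    · exact ⟨0, fun d _ => by rw [map_zero]⟩
  have hel : ∀ (a b : ι) (f : PowerSeries (MonoidAlgebra ℤ G)), wn r f < ⊤ →
      mn r (el a b f) < ⊤ := by
    intro a b f hf
    unfold el
    refine (mn_add_le r _ _).trans_lt (ENNReal.add_lt_top.mpr ⟨h1, ?_⟩)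
    rw [mn_single]
    exact hf
  unfold elGroup at hu
  induction hu using Subgroup.closure_induction with
  | mem u hu =>
    obtain ⟨a, b, f, hab, hf, hu⟩ := hu
    constructor
    · rw [hu]
      exact hel a b f (hP f hf)
    · rw [eq_elUnit hab hu, elUnit_inv_val]
      refine hel a b _ ?_
      rw [wn_neg]
      exact hP f hf
  | one =>
    rw [inv_one, Units.val_one]
    exact ⟨h1, h1⟩
  | mul u v _ _ hu hv =>
    rw [mul_inv_rev, Units.val_mul, Units.val_mul]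
    exact ⟨(mn_mul_le r _ _).trans_lt (ENNReal.mul_lt_top hu.1 hv.1),
      (mn_mul_le r _ _).trans_lt (ENNReal.mul_lt_top hv.2 hu.2)⟩
  | inv u _ hu =>
    rw [inv_inv]
    exact ⟨hu.2, hu.1⟩

theorem mpoly_one_sub_tmul {R : Type*} [Ring R] {ι : Type*} [Fintype ι] [DecidableEq ι]
    (B : Matrix ι ι R) : MPoly (1 - tmul B) := by
  intro i j
  refine ⟨2, fun d hd => ?_⟩
  rw [Matrix.sub_apply, map_sub, tmul, Matrix.map_apply, coeff_monomial, if_neg (by omega),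
    Matrix.one_apply]
  split_ifs
  · rw [coeff_one, if_neg (by omega), sub_zero]
  · simp

/-- **Theorem A** -/
theorem theoremA (o o' : ι) (hoo : o ≠ o') (A B : Matrix ι ι (MonoidAlgebra ℤ G))
    (lam μ K : ℝ) (x y : ι → ℝ) (hlam : 1 < lam) (hμ : 0 < μ)
    (hasym : ∀ (k : ℕ) (i j : ι) (g : G),
        |(((A ^ k) i j).coeff g : ℝ) - lam ^ k * (x i * y j)| ≤ K * μ ^ k)
    (hy : y ≠ 0) (hyA : ∀ j, ∑ i, y i * (∑ g : G, ((A i j).coeff g : ℝ)) = lam * y j)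
    (htr : ∀ k : ℕ, 0 < k → (A ^ k).trace - (B ^ k).trace ∈ AddSubgroup.closure (TrSet G))
    (r : NNReal) (hr1 : r < 1) (hr : 1 < lam * r) (hrμ : (r : ℝ) * μ < 1)
    (ε : ENNReal) (hε : ε ≠ 0) :
    ∃ E ∈ elGroup ι {f : PowerSeries (MonoidAlgebra ℤ G) | wn r f < ⊤},
    ∃ F ∈ elGroup ι {f : PowerSeries (MonoidAlgebra ℤ G) | wn r f < ⊤},
      mn r (E.val * (1 - tmul B) * F.val - (1 - tmul A)) ≤ ε := by
  classical
  let inst1 := matNormedRing G ι
  let inst2 := matNormedAlgebra G ι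
  have hlam0 : 0 < lam := by linarith
  have hr0 : 0 < r := by
    rcases eq_or_lt_of_le (zero_le (a := r)) with h | h
    · rw [← h] at hr
      simp at hr
      linarith
    · exact h
  have hlamr : lam⁻¹ ≤ (r : ℝ) := by
    rw [inv_le_iff_one_le_mul₀ hlam0, mul_comm]
    exact hr.le
  have hcard : 2 ≤ Fintype.card ι := by
    have := Fintype.one_lt_card_iff.mpr ⟨o, o', hoo⟩
    omega
  have Hgen := gen_inst (G := G) (ι := ι) r hr1 hr0 o o' hoo
  -- constants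
  set KK := KG G with hKK
  have hKt : KK ≠ ⊤ := Hgen.ne_top
  have hK1 : 1 ≤ KK := Hgen.one_le
  have hK0 : KK ≠ 0 := fun h0 => by rw [h0] at hK1; simp at hK1
  set η₀ : ENNReal := (16 * KK * KK * (2 * (1 + KK)))⁻¹ with hη₀
  have hη0 : η₀ ≠ 0 := by
    rw [hη₀]
    exact ENNReal.inv_ne_zero.mpr (by finiteness)
  have hη : 16 * KK * KK * (2 * (1 + KK) * η₀) ≤ 1 := by
    have : 16 * KK * KK * (2 * (1 + KK) * η₀) =
        (16 * KK * KK * (2 * (1 + KK))) * (16 * KK * KK * (2 * (1 + KK)))⁻¹ := by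
      rw [hη₀]; ring
    rw [this]
    exact ENNReal.mul_inv_le_one _
  -- κ
  have hκex : ∃ κ : ℕ, 16 * (K1G G ι * ((r : ENNReal) ^ (κ + 1) * (1 - (r : ENNReal))⁻¹)) ≤ η₀ := by
    have hr1' : (r : ENNReal) < 1 := by exact_mod_cast hr1
    have h1 : Filter.Tendsto (fun κ : ℕ => (r : ENNReal) ^ κ) Filter.atTop (nhds 0) :=
      ENNReal.tendsto_pow_atTop_nhds_zero_of_lt_one hr1'
    have hc : (16 * K1G G ι * (1 - (r : ENNReal))⁻¹) ≠ ⊤ := by
      have h3 : (1 - (r : ENNReal))⁻¹ ≠ ⊤ := ENNReal.inv_ne_top.mpr (tsub_pos_of_lt hr1').ne'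
      have h4 : K1G G ι ≠ ⊤ := Hgen.ne_top₁
      exact ENNReal.mul_ne_top (ENNReal.mul_ne_top (by norm_num) h4) h3
    have h2 : Filter.Tendsto (fun κ : ℕ => (16 * K1G G ι * (1 - (r : ENNReal))⁻¹) *
        (r : ENNReal) ^ κ) Filter.atTop (nhds 0) := by
      have := ENNReal.Tendsto.const_mul (a := (16 * K1G G ι * (1 - (r : ENNReal))⁻¹)) h1
        (Or.inr hc)
      rwa [mul_zero] at this
    obtain ⟨κ, hκ⟩ := ((h2.comp (Filter.tendsto_add_atTop_nat 1)).eventually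
      (gt_mem_nhds (pos_iff_ne_zero.mpr hη0))).exists
    refine ⟨κ, le_trans (le_of_eq ?_) hκ.le⟩
    simp only [Function.comp]
    ring
  obtain ⟨κ, hκ⟩ := hκex
  -- E₀
  have hgamV0 : ∀ d, gam (ctr ℝ G ι) (PsiU G ι ((XU A)⁻¹ * XU B)) d = 0 := by
    intro d
    rw [map_mul, map_inv, gam_mul _ ctr_mul_comm, gam_inv _ ctr_mul_comm,
      gam_XU_eq A B (fun k hk => ctr_eq_of_mem (htr k hk)) d, neg_add_cancel]
  obtain ⟨E₀, hE₀, hordV0⟩ := exists_mod o o' hoo ((XU A)⁻¹ * XU B) (ord_V0 A B) hgamV0 κ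
  -- the left eigenvector of B
  have haugA : ∀ j, ∑ i, y i * ((A.map (augZ G)) i j : ℝ) = lam * y j := by
    intro j
    rw [← hyA j]
    refine Finset.sum_congr rfl fun i _ => ?_
    rw [Matrix.map_apply, augZ_apply]
    push_cast
    rfl
  obtain ⟨z, hz0, hz⟩ := exists_left_eigenvector (A.map (augZ G)) (B.map (augZ G))
    (trace_augZ_eq A B htr) lam y hy haugA
  have hzB : ∀ j, ∑ i, z i * (∑ g : G, ((B i j).coeff g : ℝ)) = lam * z j := by
    intro j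
    rw [← hz j]
    refine Finset.sum_congr rfl fun i _ => ?_
    rw [Matrix.map_apply, augZ_apply]
    push_cast
    rfl
  -- E₁
  obtain ⟨E₁, hE₁, hyE₁⟩ := exists_kernel_adjust (G := G) hcard lam⁻¹ (by positivity)
    (inv_lt_one_of_one_lt₀ hlam) (κ + 1) y z hy hz0
  have hE₁fin := mn_lt_top_elGroup r _ (fun f hf => hf.2 r hr1) E₁ hE₁
  have hE₀fin := mn_lt_top_elGroup r _ (fun f hf => wn_lt_top_of_isPoly r hf) E₀ hE₀
  -- V
  set X₀ : (Matrix ι ι (PowerSeries (MonoidAlgebra ℤ G)))ˣ := E₁ * XU B * E₀⁻¹ with hX₀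
  set V : (Matrix ι ι (PowerSeries (MonoidAlgebra ℤ G)))ˣ := (XU A)⁻¹ * X₀ with hV
  have hXBfin : mn r (1 - tmul B) < ⊤ := mn_lt_top_of_mpoly r (mpoly_one_sub_tmul B)
  have hXAfin : mn r (1 - tmul A) < ⊤ := mn_lt_top_of_mpoly r (mpoly_one_sub_tmul A)
  have hX₀fin : mn r X₀.val < ⊤ := by
    rw [hX₀, Units.val_mul, Units.val_mul, XU_val]
    refine (mn_mul_le r _ _).trans_lt (ENNReal.mul_lt_top ?_ hE₀fin.2)
    exact (mn_mul_le r _ _).trans_lt (ENNReal.mul_lt_top hE₁fin.1 hXBfin)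
  have hVfin : mn r V.val < ⊤ := by
    rw [hV, Units.val_mul, XU_inv_val]
    refine mn_invT_mul_lt_top A lam μ K x y hlam0 hμ hasym r hr hrμ X₀.val hX₀fin ?_
    intro j
    rw [hX₀, Units.val_mul, Units.val_mul, XU_val]
    exact kernel_condition lam hlam r hlamr B y z hzB E₁.val (E₀⁻¹).val hE₁fin.1 hE₀fin.2 hyE₁ j
  have hdet : (reg V.val).det = 1 := by
    have h1 : (reg (invT A)).det * (reg (1 - tmul A)).det = 1 := by
      rw [← Matrix.det_mul, ← reg_mul, invT_mul_one_sub_tmul, reg_one, Matrix.det_one]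
    have h2 := det_reg_eq A B (fun k hk => coeff_one_eq_of_mem (htr k hk))
    have h3 := det_reg_elGroup _ E₁ hE₁
    have h4 := det_reg_elGroup _ (E₀⁻¹) (Subgroup.inv_mem _ hE₀)
    rw [hV, hX₀, Units.val_mul, Units.val_mul, Units.val_mul, XU_inv_val, XU_val, reg_mul, reg_mul,
      reg_mul, Matrix.det_mul, Matrix.det_mul, Matrix.det_mul, h3, h4, one_mul, mul_one, ← h2, h1]
  have hVinv : mn r (V⁻¹).val < ⊤ := mn_inv_lt_top r V.val (V⁻¹).val (Units.mul_inv V) hdet hVfin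
  -- order of V
  have hVord : OrdGE (κ + 1) ((PsiU G ι V).val - 1) := by
    have e : V = ((XU A)⁻¹ * E₁ * XU A) * ((XU A)⁻¹ * XU B * E₀⁻¹) := by
      rw [hV, hX₀]; group
    rw [e, map_mul, Units.val_mul]
    refine ord_mul ?_ hordV0
    rw [map_mul, map_mul, Units.val_mul, Units.val_mul]
    have h1 := ord_elGroup (κ + 1) _ (fun f hf => hf.1) E₁ hE₁
    have e2 : (PsiU G ι (XU A)⁻¹).val * (PsiU G ι E₁).val * (PsiU G ι (XU A)).val - 1 =
        (PsiU G ι (XU A)⁻¹).val * ((PsiU G ι E₁).val - 1) * (PsiU G ι (XU A)).val := by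
      have h3 : (PsiU G ι (XU A)⁻¹).val * (PsiU G ι (XU A)).val = 1 := by
        rw [← Units.val_mul, ← map_mul, inv_mul_cancel, map_one, Units.val_one]
      rw [mul_sub, sub_mul, mul_one, h3]
    rw [e2]
    exact OrdGE.mul_right _ (OrdGE.mul_left _ h1)
  have hVgam : ∀ d, gam (ctr ℝ G ι) (PsiU G ι V) d = 0 := by
    intro d
    have e : V = ((XU A)⁻¹ * E₁ * XU A) * ((XU A)⁻¹ * XU B * E₀⁻¹) := by
      rw [hV, hX₀]; group
    rw [e, map_mul, gam_mul _ ctr_mul_comm, map_mul, map_mul, gam_mul _ ctr_mul_comm,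
      gam_mul _ ctr_mul_comm, map_mul, gam_mul _ ctr_mul_comm, hgamV0 d, map_inv, map_inv,
      gam_inv _ ctr_mul_comm, gam_inv _ ctr_mul_comm, gam_elGroup _ E₁ hE₁ d,
      gam_elGroup _ E₀ hE₀ d]
    abel
  -- homotopy
  set δ : ENNReal := ε * (mn r (1 - tmul A) + 1)⁻¹ with hδ
  have hδ0 : δ ≠ 0 := by
    rw [hδ]
    refine mul_ne_zero hε (ENNReal.inv_ne_zero.mpr ?_)
    exact ENNReal.add_ne_top.mpr ⟨hXAfin.ne, by norm_num⟩
  obtain ⟨Φ, hΦ, hfin⟩ := homotopy Hgen ctr_smul hη hη0 (Nat.succ_le_succ (Nat.zero_le κ)) hκ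
    (PsiU G ι V) hVord hVgam (fun d => coeff_Psi_mem V.val d)
    (by rw [PsiU_val, N_Psi]; exact hVfin.ne)
    (by rw [PsiU_inv_val, N_Psi]; exact hVinv.ne) δ hδ0
  obtain ⟨φ, hφ, rfl⟩ := hΦ
  have hfin2 : mn r ((V * φ⁻¹).val - 1) ≤ δ := by
    rw [← N_Psi, map_sub, map_one]
    have e : PsiU G ι (V * φ⁻¹) = PsiU G ι V * (PsiU G ι φ)⁻¹ := by
      rw [map_mul (PsiU G ι) V φ⁻¹, map_inv]
    rw [← e] at hfin
    exact hfin
  refine ⟨E₁, ?_, E₀⁻¹ * φ⁻¹, ?_, ?_⟩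
  · exact Subgroup.closure_mono (fun u hu => by
      obtain ⟨a, b, f, hab, hf, hu⟩ := hu
      exact ⟨a, b, f, hab, hf.2 r hr1, hu⟩) hE₁
  · have hsub : elGroup ι {f : PowerSeries (MonoidAlgebra ℤ G) | IsPoly f} ≤
        elGroup ι {f : PowerSeries (MonoidAlgebra ℤ G) | wn r f < ⊤} :=
      Subgroup.closure_mono (fun u hu => by
        obtain ⟨a, b, f, hab, hf, hu⟩ := hu
        exact ⟨a, b, f, hab, wn_lt_top_of_isPoly r hf, hu⟩)
    exact Subgroup.mul_mem _ (Subgroup.inv_mem _ (hsub hE₀)) (Subgroup.inv_mem _ (hsub hφ))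
  · have e : E₁.val * (1 - tmul B) * (E₀⁻¹ * φ⁻¹).val - (1 - tmul A) =
        (1 - tmul A) * ((V * φ⁻¹).val - 1) := by
      have h1 : XU A * (V * φ⁻¹) = E₁ * XU B * (E₀⁻¹ * φ⁻¹) := by
        rw [hV, hX₀]; group
      have h2 := congrArg Units.val h1
      rw [Units.val_mul, Units.val_mul (E₁ * XU B), Units.val_mul E₁, XU_val, XU_val] at h2
      rw [← h2, mul_sub (1 - tmul A), mul_one]
    rw [e]
    refine (mn_mul_le r _ _).trans ?_
    calc mn r (1 - tmul A) * mn r ((V * φ⁻¹).val - 1) ≤ (mn r (1 - tmul A) + 1) * δ := by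
          gcongr
          exact le_self_add
      _ = ε * ((mn r (1 - tmul A) + 1) * (mn r (1 - tmul A) + 1)⁻¹) := by
          rw [hδ]; ring
      _ ≤ ε * 1 := by
          gcongr
          exact ENNReal.mul_inv_le_one _
      _ = ε := mul_one _

end

end Pool.Agent.TS
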